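import Pool.Agent.E8helper72.ZO.Main

/-!
# The classes of lattices
-/

set_option autoImplicit false

namespace Pool.Agent.E8helper2.ZB

open Pool.Agent.E8helper72.ZO Module Matrix
open scoped Manifold ContDiff

/-- `Γ` contains the diagonal matrices with entries `1`, `-1` and an even number of entries
`-1`. -/
def EvenSigns {F : Type} [Ring F] {n : ℕ} (Γ : Subgroup (Matrix (Fin n) (Fin n) F)ˣ) : Prop :=
  ∀ (g : (Matrix (Fin n) (Fin n) F)ˣ) (d : Fin n → ℕ), Even (∑ i, d i) →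
    (g : Matrix (Fin n) (Fin n) F) = diagonal (fun i => (-1) ^ d i) → g ∈ Γ

/-- `Γ` contains all diagonal matrices with entries `1`, `-1`. -/
def AllSigns {F : Type} [Ring F] {n : ℕ} (Γ : Subgroup (Matrix (Fin n) (Fin n) F)ˣ) : Prop :=
  ∀ (g : (Matrix (Fin n) (Fin n) F)ˣ) (d : Fin n → ℕ),
    (g : Matrix (Fin n) (Fin n) F) = diagonal (fun i => (-1) ^ d i) → g ∈ Γ

section

variable (E : Type) [NormedAddCommGroup E] [NormedSpace ℝ E] [FiniteDimensional ℝ E]
  (M : Type) [TopologicalSpace M] [ChartedSpace E M] (b : ℕ)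

/-- Finiteness of the actions on `M` of the groups `Δ` commensurable with groups `Γ` of matrices
over a ring with `2 ≠ 0` which contain the even sign changes: `b` is the contribution of the
topology of `M`, `m = dim M`, and `m + b + e + gcd(n, 2) < n`, where `2 ^ (e + 1)` does not divide
`[Γ : Γ ∩ Δ]`. -/
def SignBound : Prop :=
  ∀ (F : Type) [Ring F] (n : ℕ) (Γ Δ : Subgroup (Matrix (Fin n) (Fin n) F)ˣ) (e : ℕ),
    (2 : F) ≠ 0 → EvenSigns Γ → ¬ 2 ^ (e + 1) ∣ Δ.relIndex Γ →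
      finrank ℝ E + b + e + Nat.gcd n 2 < n → FiniteActions E M Γ Δ (PD (-1) n)

/-- The same for groups which contain all sign changes and `m + b + e + 1 < n`. -/
def AllSignBound : Prop :=
  ∀ (F : Type) [Ring F] (n : ℕ) (Γ Δ : Subgroup (Matrix (Fin n) (Fin n) F)ˣ) (e : ℕ),
    (2 : F) ≠ 0 → AllSigns Γ → ¬ 2 ^ (e + 1) ∣ Δ.relIndex Γ →
      finrank ℝ E + b + e + 1 < n → FiniteActions E M Γ Δ (PD (-1) n)

/-- The same for groups which contain `SU(h; R)`, `h` a diagonal hermitian form in `n` variables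
over a commutative ring with an involution, `z` a square root of `-1` in `R` with `z* = -z`,
`gcd(n, 4) = 2 ^ δ` and `m + 2 b + e + δ + 2 < 2 n`. -/
def FourBound : Prop :=
  ∀ (F : Type) [CommRing F] [StarRing F] (R : Subring F) (z : F) (n : ℕ) (h : Fin n → F)
    (Γ Δ : Subgroup (Matrix (Fin n) (Fin n) F)ˣ) (e δ : ℕ), (2 : F) ≠ 0 → z ∈ R →
    z * z = -1 → star z = -z → SUG R h ≤ Γ → Nat.gcd n 4 = 2 ^ δ →
    ¬ 2 ^ (e + 1) ∣ Δ.relIndex Γ → finrank ℝ E + 2 * b + e + δ + 2 < 2 * n →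
      FiniteActions E M Γ Δ (PD z n)

/-- The same for groups which contain `SU(h; R)`, `z ≠ 1` a `p`-th root of unity in `R` with
`z* = z⁻¹`, `gcd(n, p) = p ^ δ`, `p ^ (e + 1)` does not divide `[Γ : Γ ∩ Δ]` and
`⌊m / 2⌋ + b + e + δ + 1 < n`. -/
def OddBound (p : ℕ) : Prop :=
  ∀ (F : Type) [CommRing F] [StarRing F] (R : Subring F) (z : F) (n : ℕ) (h : Fin n → F)
    (Γ Δ : Subgroup (Matrix (Fin n) (Fin n) F)ˣ) (e δ : ℕ),
    z ∈ R → z ^ p = 1 → z ≠ 1 → star z * z = 1 → SUG R h ≤ Γ → Nat.gcd n p = p ^ δ →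
    ¬ p ^ (e + 1) ∣ Δ.relIndex Γ → finrank ℝ E / 2 + b + e + δ + 1 < n →
      FiniteActions E M Γ Δ (PD z n)

/-- The same for groups which contain `U(h; R)`, `h` a diagonal form in `n` variables over a ring
with involution `O` with `2 ≠ 0`, `z` a square root of `-1` in `R` with `z* = -z`, which
anticommutes with a unit of `O` and commutes with the entries of `h`, and
`m + 2 b + e + 1 < 2 n`. -/
def QuatBound : Prop :=
  ∀ (O : Type) [Ring O] [StarRing O] (R : Subring O) (z : O) (w : Oˣ) (n : ℕ) (h : Fin n → O)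
    (Γ Δ : Subgroup (Matrix (Fin n) (Fin n) O)ˣ) (e : ℕ), (2 : O) ≠ 0 → z ∈ R →
    z * z = -1 → star z = -z → (w : O) * z = -(z * w) → (∀ i, h i * z = z * h i) →
    UG R h ≤ Γ → ¬ 2 ^ (e + 1) ∣ Δ.relIndex Γ →
    finrank ℝ E + 2 * b + e + 1 < 2 * n → FiniteActions E M Γ Δ (PD z n)

end

end Pool.Agent.E8helper2.ZB
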