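import Pool.Agent.E8helper2.ZB.ExS

/-!
# Groups which contain sign changes and even permutations
-/

set_option autoImplicit false

namespace Pool.Agent.E8helper2.ZB

open Pool.Agent.H185.ZM Pool.Agent.E8helper72.ZO Pool.Agent.Helper381 Module Matrix
open scoped Manifold ContDiff

/-- Actions on `M` of groups `Γ` of matrices over a ring with `2 ≠ 0` which contain the even sign
changes and the even permutations of the first `r` coordinates, if
`dim M + N_2 + 2 ∑ ⌊b_q / (2 ⌊r / 3⌋)⌋ + c < r`, where `b_q = dim H^q(M; ℤ/2)`, the sum is over all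
`q > 0`, `N_2` is the number of `q > 0` with `b_q > 0`, `c = gcd(n, 2)` if `r = n` and `c = 1`
otherwise. -/
def SymBound (E : Type) [NormedAddCommGroup E] [NormedSpace ℝ E] [FiniteDimensional ℝ E]
    (M : Type) [TopologicalSpace M] [ChartedSpace E M] : Prop :=
  ∀ (F : Type) [Ring F] (r n : ℕ) (Γ : Subgroup (Matrix (Fin n) (Fin n) F)ˣ),
    (2 : F) ≠ 0 → r ≤ n → 3 ≤ r → HasSym r Γ →
      finrank ℝ E + npos 2 M + 2 * quoB 2 (2 * (r / 3)) M +
        (if r = n then Nat.gcd n 2 else 1) < r → FiniteActions E M Γ Γ (PD (-1) n)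

theorem symBound {E : Type} [NormedAddCommGroup E] [NormedSpace ℝ E] [FiniteDimensional ℝ E]
    {M : Type} [TopologicalSpace M] [ChartedSpace E M] [IsManifold 𝓘(ℝ, E) ∞ M]
    [CompactSpace M] [T2Space M] [ConnectedSpace M] : SymBound E M :=
  fun _ _ _ _ _ h2 hr hr3 hΓ hs => sym_case h2 hr hr3 hΓ hs

end Pool.Agent.E8helper2.ZB
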