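import Pool.Agent.E8helper2.ZB.Split

/-!
# Isotropy groups of elementary abelian groups acting on acyclic-by-finite complexes
-/

set_option autoImplicit false

namespace Pool.Agent.E8helper2.ZB

open Module

section ext

variable {p : ℕ} (R : Type) [CommRing R] [Algebra (ZMod p) R] {R' : Type} [CommRing R']
  [Algebra (ZMod p) R']

/-- extension of a matrix over `F_p` to functions with values in `R` -/
noncomputable def ex {Y X : Type} [Fintype X] (A : Matrix Y X (ZMod p)) : (X → R) →ₗ[R] (Y → R) :=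
  (A.map (algebraMap (ZMod p) R)).mulVecLin

variable {R}

theorem ex_apply {Y X : Type} [Fintype X] (A : Matrix Y X (ZMod p)) (f : X → R) (y : Y) :
    ex R A f y = ∑ x, algebraMap (ZMod p) R (A y x) * f x := rfl

theorem ex_mul {Z Y X : Type} [Fintype X] [Fintype Y] (A : Matrix Z Y (ZMod p))
    (B : Matrix Y X (ZMod p)) (f : X → R) : ex R (A * B) f = ex R A (ex R B f) := by
  unfold ex
  rw [Matrix.map_mul, Matrix.mulVecLin_mul]
  rfl

theorem ex_add {Y X : Type} [Fintype X] (A B : Matrix Y X (ZMod p)) (f : X → R) :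
    ex R (A + B) f = ex R A f + ex R B f := by
  funext y
  simp only [ex_apply, Matrix.add_apply, map_add, Pi.add_apply, add_mul, Finset.sum_add_distrib]

theorem ex_one {X : Type} [Fintype X] [DecidableEq X] (f : X → R) :
    ex R (1 : Matrix X X (ZMod p)) f = f := by
  unfold ex
  rw [Matrix.map_one _ (map_zero _) (map_one _), Matrix.mulVecLin_one]
  rfl

theorem ex_zero {Y X : Type} [Fintype X] (f : X → R) :
    ex R (0 : Matrix Y X (ZMod p)) f = 0 := by
  funext y
  simp [ex_apply]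

theorem ex_nat {Y X : Type} [Fintype X] (φ : R →ₐ[ZMod p] R') (A : Matrix Y X (ZMod p))
    (f : X → R) : (fun y => φ (ex R A f y)) = ex R' A (fun x => φ (f x)) := by
  funext y
  simp only [ex_apply, map_sum, map_mul, AlgHom.commutes]

end ext

section et

variable {p k : ℕ} {R : Type} [CommRing R] {R' : Type} [CommRing R']
  {X : Type} [MulAction (GG p k) X]

theorem eta_apply (ξ : Fin k → R) (f : X → R) (σ : X) :
    eta p X ξ f σ = ∑ i, ξ i * (f (gen p k i • σ) - f σ) := rfl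

/-- translations -/
def tr (p : ℕ) {k : ℕ} (R : Type) [CommRing R] (X : Type) [MulAction (GG p k) X] :
    GG p k →* End R (X → R) where
  toFun g :=
    { toFun := fun f σ => f (g • σ)
      map_add' := fun _ _ => rfl
      map_smul' := fun _ _ => rfl }
  map_one' := by
    apply LinearMap.ext
    intro f
    funext σ
    show f ((1 : GG p k) • σ) = f σ
    rw [one_smul]
  map_mul' g h := by
    apply LinearMap.ext
    intro f
    funext σ
    show f ((g * h) • σ) = f (h • g • σ)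
    rw [mul_comm, mul_smul]

theorem tr_apply (g : GG p k) (f : X → R) (σ : X) : tr p R X g f σ = f (g • σ) := rfl

theorem eta_eq (ξ : Fin k → R) : eta p X ξ = ∑ i, ξ i • (tr p R X (gen p k i) - 1) := by
  apply LinearMap.ext
  intro f
  funext σ
  rw [eta_apply, LinearMap.sum_apply, Finset.sum_apply]
  exact Finset.sum_congr rfl fun i _ => rfl

/-- the group ring acts -/
noncomputable def gr (p : ℕ) {k : ℕ} (R : Type) [CommRing R] (X : Type) [MulAction (GG p k) X] :
    MonoidAlgebra R (GG p k) →ₐ[R] End R (X → R) :=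
  MonoidAlgebra.lift R _ (GG p k) (tr p R X)

/-- the element of the group ring -/
noncomputable def ge (p : ℕ) {k : ℕ} (R : Type) [CommRing R] (ξ : Fin k → R) : MonoidAlgebra R (GG p k) :=
  ∑ i, ξ i • (MonoidAlgebra.of R (GG p k) (gen p k i) - 1)

theorem gr_ge (ξ : Fin k → R) : gr p R X (ge p R ξ) = eta p X ξ := by
  unfold gr ge
  rw [map_sum, eta_eq]
  refine Finset.sum_congr rfl fun i _ => ?_
  rw [map_smul, map_sub, map_one, MonoidAlgebra.lift_of]

theorem gen_pow (i : Fin k) : gen p k i ^ p = 1 := by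
  unfold gen
  rw [← ofAdd_nsmul]
  have : p • (Pi.single i 1 : Fin k → ZMod p) = 0 := by
    funext j
    simp
  rw [this, ofAdd_zero]

theorem ge_pow [Fact p.Prime] [Algebra (ZMod p) R] [Nontrivial R] (ξ : Fin k → R) :
    (ge p R ξ : MonoidAlgebra R (GG p k)) ^ p = 0 := by
  have : CharP R p := charP_of_injective_algebraMap (algebraMap (ZMod p) R).injective p
  have : CharP (MonoidAlgebra R (GG p k)) p :=
    charP_of_injective_algebraMap (R := R) (FaithfulSMul.algebraMap_injective _ _) p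
  unfold ge
  rw [sum_pow_char]
  refine Finset.sum_eq_zero fun i _ => ?_
  rw [Algebra.smul_def, mul_pow, sub_pow_char, ← map_pow (MonoidAlgebra.of R (GG p k)), gen_pow,
    map_one, one_pow, sub_self, mul_zero]

theorem eta_pow_p [Fact p.Prime] [Algebra (ZMod p) R] [Nontrivial R] (ξ : Fin k → R) :
    (eta p X ξ) ^ p = 0 := by
  rw [← gr_ge, ← map_pow, ge_pow, map_zero]

theorem eta_nat (φ : R →+* R') (ξ : Fin k → R) (f : X → R) :
    (fun σ => φ (eta p X ξ f σ)) = eta p X (fun i => φ (ξ i)) (fun σ => φ (f σ)) := by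
  funext σ
  simp only [eta_apply, map_sum, map_mul, map_sub]

theorem eta_pow_nat (φ : R →+* R') (ξ : Fin k → R) (n : ℕ) (f : X → R) :
    (fun σ => φ (((eta p X ξ) ^ n) f σ)) = ((eta p X (fun i => φ (ξ i))) ^ n) (fun σ => φ (f σ)) := by
  induction n generalizing f with
  | zero => rfl
  | succ n ih =>
    rw [pow_succ, pow_succ]
    show (fun σ => φ (((eta p X ξ) ^ n) (eta p X ξ f) σ)) = _
    rw [ih]
    show _ = ((eta p X (fun i => φ (ξ i))) ^ n) (eta p X (fun i => φ (ξ i)) (fun σ => φ (f σ)))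
    rw [← eta_nat]

/-- `eta` or its `(p-1)`-st power, alternating -/
noncomputable def th (p : ℕ) {k : ℕ} (X : Type) [MulAction (GG p k) X] (ξ : Fin k → R) (q : ℕ) :
    (X → R) →ₗ[R] (X → R) := if Even q then eta p X ξ else (eta p X ξ) ^ (p - 1)

theorem th_nat (φ : R →+* R') (ξ : Fin k → R) (q : ℕ) (f : X → R) :
    (fun σ => φ (th p X ξ q f σ)) = th p X (fun i => φ (ξ i)) q (fun σ => φ (f σ)) := by
  unfold th
  split_ifs
  · exact eta_nat φ ξ f
  · exact eta_pow_nat φ ξ (p - 1) f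

theorem th_add_two (ξ : Fin k → R) (q : ℕ) : th p X ξ (q + 2) = th p X ξ q := by
  unfold th
  simp only [Nat.even_add, even_two, iff_true]

theorem th_th [Fact p.Prime] [Algebra (ZMod p) R] [Nontrivial R] (ξ : Fin k → R) (q : ℕ)
    (f : X → R) : th p X ξ (q + 1) (th p X ξ q f) = 0 := by
  have hp : p - 1 + 1 = p := Nat.succ_pred_eq_of_pos (Fact.out : p.Prime).pos
  have h1 : (eta p X ξ) ^ (p - 1) * eta p X ξ = 0 := by
    rw [← pow_succ, hp, eta_pow_p]
  have h2 : eta p X ξ * (eta p X ξ) ^ (p - 1) = 0 := by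
    rw [← pow_succ', hp, eta_pow_p]
  unfold th
  by_cases hq : Even q
  · rw [if_pos hq, if_neg (by rw [Nat.even_add_one]; exact fun h => h hq)]
    exact LinearMap.congr_fun h1 f
  · rw [if_neg hq, if_pos (by rw [Nat.even_add_one]; exact hq)]
    exact LinearMap.congr_fun h2 f

theorem th_zero_of_eta [Fact p.Prime] (ξ : Fin k → R) (h : eta p X ξ = 0) (q : ℕ) :
    th p X ξ q = 0 := by
  unfold th
  split_ifs
  · exact h
  · rw [h, zero_pow (Nat.sub_ne_zero_of_lt (Fact.out : p.Prime).one_lt)]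

theorem eta_zero : eta p X (0 : Fin k → R) = 0 := by
  apply LinearMap.ext
  intro f
  funext σ
  simp [eta_apply]

theorem eta_triv (ξ : Fin k → R) (h : ∀ x y : X, x = y) : eta p X ξ = 0 := by
  apply LinearMap.ext
  intro f
  funext σ
  rw [eta_apply]
  refine Finset.sum_eq_zero fun i _ => ?_
  rw [h (gen p k i • σ) σ, sub_self, mul_zero]

variable [Algebra (ZMod p) R] {Y : Type} [MulAction (GG p k) Y] [Fintype X]

theorem eta_comm (ξ : Fin k → R) (A : Matrix Y X (ZMod p))
    (hA : ∀ (g : GG p k) y x, A (g • y) (g • x) = A y x) (f : X → R) :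
    ex R A (eta p X ξ f) = eta p Y ξ (ex R A f) := by
  funext y
  rw [ex_apply, eta_apply]
  simp only [eta_apply, ex_apply, Finset.mul_sum, ← Finset.sum_sub_distrib]
  rw [Finset.sum_comm]
  refine Finset.sum_congr rfl fun i _ => ?_
  have h1 : ∑ x, ξ i * (algebraMap (ZMod p) R (A (gen p k i • y) x) * f x) =
      ∑ x, ξ i * (algebraMap (ZMod p) R (A y x) * f (gen p k i • x)) := by
    rw [← Equiv.sum_comp (MulAction.toPerm (gen p k i))]
    refine Finset.sum_congr rfl fun x _ => ?_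
    rw [MulAction.toPerm_apply, hA]
  simp only [mul_sub, Finset.sum_sub_distrib]
  rw [h1]
  congr 1
  · exact Finset.sum_congr rfl fun x _ => by ring
  · exact Finset.sum_congr rfl fun x _ => by ring

theorem eta_pow_comm (ξ : Fin k → R) (A : Matrix Y X (ZMod p))
    (hA : ∀ (g : GG p k) y x, A (g • y) (g • x) = A y x) (n : ℕ) (f : X → R) :
    ex R A (((eta p X ξ) ^ n) f) = ((eta p Y ξ) ^ n) (ex R A f) := by
  induction n generalizing f with
  | zero => rfl
  | succ n ih =>
    rw [pow_succ, pow_succ]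
    show ex R A (((eta p X ξ) ^ n) (eta p X ξ f)) = ((eta p Y ξ) ^ n) (eta p Y ξ (ex R A f))
    rw [ih, eta_comm ξ A hA]

theorem th_comm (ξ : Fin k → R) (A : Matrix Y X (ZMod p))
    (hA : ∀ (g : GG p k) y x, A (g • y) (g • x) = A y x) (q : ℕ) (f : X → R) :
    ex R A (th p X ξ q f) = th p Y ξ q (ex R A f) := by
  unfold th
  split_ifs
  · exact eta_comm ξ A hA f
  · exact eta_pow_comm ξ A hA (p - 1) f

end et

section main

variable {p k : ℕ} {X : ℕ → Type} [∀ q, Fintype (X q)] [∀ q, DecidableEq (X q)]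
  [∀ q, MulAction (GG p k) (X q)]

/-- the recursion -/
noncomputable def Lam (R : Type) [CommRing R] [Algebra (ZMod p) R] (ξ : Fin k → R)
    (S : ∀ q, Matrix (X (q + 2)) (X (q + 1)) (ZMod p)) (v : X 1) : ∀ q, X (q + 1) → R
  | 0 => Pi.single v 1
  | q + 1 => ex R (S q) (th p (X (q + 1)) ξ q (Lam R ξ S v q))

theorem Lam_nat {R R' : Type} [CommRing R] [Algebra (ZMod p) R] [CommRing R']
    [Algebra (ZMod p) R'] (φ : R →ₐ[ZMod p] R') (ξ : Fin k → R)
    (S : ∀ q, Matrix (X (q + 2)) (X (q + 1)) (ZMod p)) (v : X 1) (q : ℕ) :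
    (fun σ => φ (Lam R ξ S v q σ)) = Lam R' (fun i => φ (ξ i)) S v q := by
  induction q with
  | zero =>
    funext σ
    show φ ((Pi.single v 1 : X 1 → R) σ) = (Pi.single v 1 : X 1 → R') σ
    by_cases h : σ = v
    · subst h; simp
    · simp [h]
  | succ q ih =>
    show (fun σ => φ (ex R (S q) (th p (X (q + 1)) ξ q (Lam R ξ S v q)) σ)) =
      ex R' (S q) (th p (X (q + 1)) (fun i => φ (ξ i)) q (Lam R' (fun i => φ (ξ i)) S v q))
    rw [ex_nat, ← ih]
    have := th_nat (p := p) (X := X (q + 1)) (φ : R →+* R') ξ q (Lam R ξ S v q)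
    exact congrArg _ this

variable [Fact p.Prime]

theorem contra (hEX : S_EX) (K : Type) [Field K] [Algebra (ZMod p) K] (ξ : Fin k → K)
    (bd : ∀ q, Matrix (X q) (X (q + 1)) (ZMod p)) (hbd : ∀ q, bd q * bd (q + 1) = 0)
    (hequi : ∀ q (g : GG p k) τ σ, bd q (g • τ) (g • σ) = bd q τ σ) (x0 : X 0)
    (h0 : ∀ x y : X 0, x = y) (v : X 1) (hv : bd 0 x0 v = 1) (N : ℕ)
    (hN : ∀ q, N ≤ q → IsEmpty (X (q + 1))) (b : ℕ → ℕ)
    (S : ∀ q, Matrix (X (q + 2)) (X (q + 1)) (ZMod p))
    (T : ∀ q, Matrix (X (q + 1)) (X q) (ZMod p)) (U : ∀ q, Matrix (X (q + 1)) (Fin (b q)) (ZMod p))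
    (Φ : ∀ q, Matrix (Fin (b q)) (X (q + 1)) (ZMod p))
    (hsp : ∀ q, bd (q + 1) * S q + T q * bd q + U q * Φ q = 1)
    (hΦ : ∀ q, ex K (Φ q) (th p (X (q + 1)) ξ q (Lam K ξ S v q)) = 0) :
    ∃ q, ∃ σ : X (q + 1), ∀ χ : Fin k → ZMod p,
      (∀ g : GG p k, g • σ = σ → ∑ i, χ i * g.toAdd i = 0) →
        ∑ i, algebraMap (ZMod p) K (χ i) * ξ i = 0 := by
  by_contra hcon
  push Not at hcon
  have hex : ∀ q, (∀ f : X (q + 1) → K, eta p (X (q + 1)) ξ f = 0 →
      ∃ g, ((eta p (X (q + 1)) ξ) ^ (p - 1)) g = f) ∧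
      (∀ f : X (q + 1) → K, ((eta p (X (q + 1)) ξ) ^ (p - 1)) f = 0 →
        ∃ g, eta p (X (q + 1)) ξ g = f) := fun q =>
    hEX p k K (X (q + 1)) ξ (fun σ => by
      obtain ⟨χ, h1, h2⟩ := hcon q σ
      exact ⟨χ, h1, h2⟩)
  have hker : ∀ q j (f : X (q + 1) → K), th p (X (q + 1)) ξ j f = 0 →
      ∃ g, th p (X (q + 1)) ξ (j + 1) g = f := by
    intro q j f hf
    unfold th at hf ⊢
    by_cases hj : Even j
    · rw [if_pos hj] at hf
      rw [if_neg (by rw [Nat.even_add_one]; exact fun h => h hj)]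
      exact (hex q).1 f hf
    · rw [if_neg hj] at hf
      rw [if_pos (by rw [Nat.even_add_one]; exact hj)]
      exact (hex q).2 f hf
  set L := Lam K ξ S v with hL
  -- the cycle identities
  have hbb : ∀ q (f : X (q + 2) → K), ex K (bd q) (ex K (bd (q + 1)) f) = 0 := by
    intro q f
    rw [← ex_mul, hbd, ex_zero]
  have hcyc : ∀ q, ex K (bd q) (th p (X (q + 1)) ξ q (L q)) = 0 ∧
      ex K (bd (q + 1)) (L (q + 1)) = th p (X (q + 1)) ξ q (L q) := by
    intro q
    have step : ∀ q, ex K (bd q) (th p (X (q + 1)) ξ q (L q)) = 0 →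
        ex K (bd (q + 1)) (L (q + 1)) = th p (X (q + 1)) ξ q (L q) := by
      intro q h1
      have h2 : ex K (bd (q + 1) * S q + T q * bd q + U q * Φ q) (th p (X (q + 1)) ξ q (L q)) =
          th p (X (q + 1)) ξ q (L q) := by rw [hsp, ex_one]
      rw [ex_add, ex_add, ex_mul, ex_mul, ex_mul, h1, hΦ, map_zero, map_zero, add_zero,
        add_zero] at h2
      exact h2
    induction q with
    | zero =>
      have h1 : ex K (bd 0) (th p (X 1) ξ 0 (L 0)) = 0 := by
        rw [th_comm ξ (bd 0) (hequi 0), th_zero_of_eta ξ (eta_triv ξ h0)]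
        rfl
      exact ⟨h1, step 0 h1⟩
    | succ q ih =>
      have h1 : ex K (bd (q + 1)) (th p (X (q + 1 + 1)) ξ (q + 1) (L (q + 1))) = 0 := by
        rw [th_comm ξ (bd (q + 1)) (hequi (q + 1)), ih.2, th_th]
      exact ⟨h1, step (q + 1) h1⟩
  -- descent
  have hdesc : ∀ j q, N ≤ q + j → ∃ (μ : X (q + 1) → K) (ν : X (q + 2) → K),
      L q = th p (X (q + 1)) ξ (q + 1) μ + ex K (bd (q + 1)) ν := by
    intro j
    induction j with
    | zero =>
      intro q hq
      have := hN q (by omega)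
      exact ⟨0, 0, funext fun x => isEmptyElim x⟩
    | succ j ih =>
      intro q hq
      obtain ⟨μ, ν, h⟩ := ih (q + 1) (by omega)
      have h1 := (hcyc q).2
      have e : th p (X (q + 1)) ξ (q + 1 + 1) = th p (X (q + 1)) ξ q := th_add_two ξ q
      rw [h, map_add, hbb (q + 1), add_zero, th_comm ξ (bd (q + 1)) (hequi (q + 1)), e] at h1
      have h2 : th p (X (q + 1)) ξ q (L q - ex K (bd (q + 1)) μ) = 0 := by
        rw [map_sub, h1, sub_self]
      obtain ⟨μ', h3⟩ := hker q q _ h2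
      exact ⟨μ', μ, by rw [h3]; abel⟩
  obtain ⟨μ, ν, h⟩ := hdesc N 0 (by omega)
  have h1 : ex K (bd 0) (L 0) = 0 := by
    rw [h, map_add, hbb 0, add_zero, th_comm ξ (bd 0) (hequi 0),
      th_zero_of_eta ξ (eta_triv ξ h0)]
    rfl
  have h2 : ex K (bd 0) (L 0) x0 = 1 := by
    rw [ex_apply, Finset.sum_eq_single v]
    · rw [hv, map_one, one_mul]
      show (Pi.single v 1 : X 1 → K) v = 1
      simp
    · intro x _ hx
      have : L 0 x = (Pi.single v 1 : X 1 → K) x := rfl
      rw [this, Pi.single_eq_of_ne hx, mul_zero]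
    · intro h
      exact absurd (Finset.mem_univ _) h
  rw [h1] at h2
  exact zero_ne_one h2

theorem core (hEX : S_EX) (hHT : S_HT)
    (bd : ∀ q, Matrix (X q) (X (q + 1)) (ZMod p)) (hbd : ∀ q, bd q * bd (q + 1) = 0)
    (hequi : ∀ q (g : GG p k) τ σ, bd q (g • τ) (g • σ) = bd q τ σ) (x0 : X 0)
    (h0 : ∀ x y : X 0, x = y) (v : X 1) (hv : bd 0 x0 v = 1) (N : ℕ)
    (hN : ∀ q, N ≤ q → IsEmpty (X (q + 1))) (b : ℕ → ℕ)
    (hb : ∀ q, b q + (bd (q + 1)).rank + (bd q).rank = Fintype.card (X (q + 1))) :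
    ∃ q, ∃ σ : X (q + 1), ∀ W : Submodule (ZMod p) (Fin k → ZMod p),
      (∀ χ ∈ W, ∀ g : GG p k, g • σ = σ → ∑ i, χ i * g.toAdd i = 0) →
        finrank (ZMod p) W ≤ ∑ q ∈ Finset.range N, b q := by
  classical
  choose S T U Φ hsp using fun q => msplit (bd (q + 1)) (bd q) (hbd q) (b q) (hb q)
  let A := MvPolynomial (Fin k) (ZMod p)
  let ξ : Fin k → A := MvPolynomial.X
  let a : ∀ q, Fin (b q) → A := fun q => ex A (Φ q) (th p (X (q + 1)) ξ q (Lam A ξ S v q))
  let ι := Σ q : Fin N, Fin (b q)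
  have hcard : Fintype.card ι = ∑ q ∈ Finset.range N, b q := by
    rw [Fintype.card_sigma]
    simp only [Fintype.card_fin]
    exact Fin.sum_univ_eq_sum_range (fun q => b q) N
  let e : Fin (∑ q ∈ Finset.range N, b q) ≃ ι := (Fintype.equivFinOfCardEq hcard).symm
  obtain ⟨P, hP, hf, hW⟩ := hHT p k _ (fun j => a (e j).1 (e j).2) (by
    intro j
    let φ : A →ₐ[ZMod p] ZMod p := MvPolynomial.aeval 0
    have hφ : ∀ f : A, MvPolynomial.constantCoeff f = φ f := by
      intro f
      exact (MvPolynomial.aeval_zero f).symm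
    rw [hφ]
    have h1 := congrFun (ex_nat φ (Φ (e j).1)
      (th p (X ((e j).1 + 1)) ξ (e j).1 (Lam A ξ S v (e j).1))) (e j).2
    refine h1.trans ?_
    have h2 := th_nat (p := p) (X := X ((e j).1 + 1)) (φ : A →+* ZMod p) ξ (e j).1 (Lam A ξ S v (e j).1)
    have h3 : (fun i => (φ : A →+* ZMod p) (ξ i)) = 0 := by
      funext i
      exact MvPolynomial.aeval_X _ i
    rw [h3, th_zero_of_eta _ eta_zero] at h2
    have h4 : (fun x => φ (th p (X ((e j).1 + 1)) ξ (e j).1 (Lam A ξ S v (e j).1) x)) = 0 := h2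
    rw [h4, map_zero]
    rfl)
  have key : ∀ x : ι, a x.1 x.2 ∈ P := by
    intro x
    obtain ⟨j, rfl⟩ := e.surjective x
    exact hf j
  let K := FractionRing (A ⧸ P)
  let φ : A →ₐ[ZMod p] K := (IsScalarTower.toAlgHom (ZMod p) (A ⧸ P) K).comp
    (Ideal.Quotient.mkₐ (ZMod p) P)
  have hφ : ∀ f : A, φ f = 0 ↔ f ∈ P := by
    intro f
    show algebraMap (A ⧸ P) K (Ideal.Quotient.mk P f) = 0 ↔ _
    rw [← Ideal.Quotient.eq_zero_iff_mem, map_eq_zero_iff _ (IsFractionRing.injective (A ⧸ P) K)]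
  obtain ⟨q, σ, hσ⟩ := contra hEX K (fun i => φ (ξ i)) bd hbd hequi x0 h0 v hv N hN b S T U Φ hsp
    (by
      intro q
      have h1 := ex_nat φ (Φ q) (th p (X (q + 1)) ξ q (Lam A ξ S v q))
      have h2 := th_nat (p := p) (X := X (q + 1)) (φ : A →+* K) ξ q (Lam A ξ S v q)
      have h3 := Lam_nat φ ξ S v q
      have h4 : (fun x => φ (th p (X (q + 1)) ξ q (Lam A ξ S v q) x)) =
          th p (X (q + 1)) (fun i => φ (ξ i)) q (Lam K (fun i => φ (ξ i)) S v q) := by
        rw [← h3]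
        exact h2
      rw [h4] at h1
      rw [← h1]
      funext j
      show φ (a q j) = 0
      by_cases hq : q < N
      · rw [hφ]
        exact key ⟨⟨q, hq⟩, j⟩
      · have hE := hN q (not_lt.1 hq)
        have : b q = 0 := by
          have := hb q
          rw [Fintype.card_eq_zero] at this
          omega
        exact absurd j.2 (by omega))
  refine ⟨q, σ, fun W h => hW W fun χ hχ => ?_⟩
  have h1 := hσ χ (h χ hχ)
  rw [← hφ, map_sum, ← h1]
  refine Finset.sum_congr rfl fun i _ => ?_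
  rw [map_mul]
  congr 1

end main

end Pool.Agent.E8helper2.ZB
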