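import Pool.Agent.Helper381.Main
import Pool.Agent.E8helper2.ZB.Core

/-!
# Homologically trivial actions: statements
-/

set_option autoImplicit false

namespace Pool.Agent.E8helper2.ZB

open Module Pool.Agent.Helper381

/-- **Killing.** `χ σ` is a character of `G` which vanishes on the stabilizer of `σ`; then the
multiplication by the product of the powers `(∑ χ σ i * ξ i) ^ (p (p - 1))` is homotopic to zero in
the complexes with the alternating differentials `eta ξ` and `(eta ξ) ^ (p - 1)`. -/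
def S_KILL : Prop := ∀ (p k : ℕ) [Fact p.Prime] (R : Type) [CommRing R] [Algebra (ZMod p) R]
  (X : Type) [Fintype X] [MulAction (GG p k) X] (ξ : Fin k → R) (χ : X → Fin k → ZMod p),
    (∀ (σ : X) (g : GG p k), g • σ = σ → ∑ i, χ σ i * g.toAdd i = 0) →
    ∀ j : ℕ, ∃ A B : (X → R) →ₗ[R] (X → R), ∀ v : X → R,
      (∏ σ : X, (∑ i, algebraMap (ZMod p) R (χ σ i) * ξ i) ^ (p * (p - 1))) • v =
        th p X ξ (j + 1) (A v) + B (th p X ξ j v)

/-- **Regular sequences.** Nonzero polynomials `F i` in the single variables. -/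
def S_REG : Prop := ∀ (c : ℕ) (K : Type) [Field K] (F : Fin c → Polynomial K), (∀ i, F i ≠ 0) →
  ∀ (j : Fin c) (a : MvPolynomial (Fin c) K),
    Polynomial.aeval (MvPolynomial.X j : MvPolynomial (Fin c) K) (F j) * a ∈ Ideal.span
      {x | ∃ i < j, x = Polynomial.aeval (MvPolynomial.X i : MvPolynomial (Fin c) K) (F i)} →
    a ∈ Ideal.span
      {x | ∃ i < j, x = Polynomial.aeval (MvPolynomial.X i : MvPolynomial (Fin c) K) (F i)}

/-- the map on chains of sets induced by an injective map -/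
def chm {X : Type} {𝒞 : Set (Set X)} (g : X → X) (hi : Function.Injective g)
    (hg : ∀ C ∈ 𝒞, g '' C ∈ 𝒞) (n : ℕ) (c : Ch 𝒞 n) : Ch 𝒞 n :=
  ⟨fun i => g '' c.1 i, fun _ _ hij => hi.image_strictMono (c.2.1 hij), fun i => hg _ (c.2.2 i)⟩

/-- the map `f` induces the identity on `H ^ n (X; k)` -/
def CohTriv (k : Type) [CommRing k] {X : Type} [TopologicalSpace X] (f : C(X, X)) (n : ℕ) : Prop :=
  ∀ a ∈ cocycles k X n, (fun σ : Sing X n => a (f.comp σ)) - a ∈ coboundaries k X n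

/-- **Equivariant nerve theorem.** If a homeomorphism preserves the good cover `𝒞` and induces the
identity on the singular cohomology then it induces the identity on the cohomology of the order
complex of `𝒞`. -/
def S_NERVE : Prop := ∀ (k : Type) [CommRing k] (X : Type) [TopologicalSpace X] [Nonempty X]
  (𝒞 : Set (Set X)), (∀ C ∈ 𝒞, IsOpen C) → (∀ x : X, ∃ C ∈ 𝒞, x ∈ C) →
    (∀ σ : Σ n, Sing X n, (∃ C ∈ 𝒞, Set.range σ.2 ⊆ C) →
      ∃ J ∈ 𝒞, Set.range σ.2 ⊆ J ∧ ∀ C ∈ 𝒞, Set.range σ.2 ⊆ C → J ⊆ C) →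
    (∀ C ∈ 𝒞, ConeData C) → ∀ (g : X ≃ₜ X) (hg : ∀ C ∈ 𝒞, g '' C ∈ 𝒞) (n : ℕ),
      CohTriv k (⟨g, g.continuous⟩ : C(X, X)) n →
      ∀ b ∈ LinearMap.ker (altd k (cface (Q := 𝒞)) n),
        (fun c => b (chm g g.injective hg n c)) - b ∈
          cobound k (fun n => Ch 𝒞 n → k) (fun n => altd k (cface (Q := 𝒞)) n) n

end Pool.Agent.E8helper2.ZB
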