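import Pool.Agent.Helper438.Sc.Topk
import Pool.Agent.E8helper2.ZB.Stm4

/-!
# Maps homotopic to the identity act trivially on the cohomology
-/

set_option autoImplicit false

namespace Pool.Agent.E8helper2.ZB

open Pool.Agent.Helper381

theorem cohTriv_of_homotopic (k : Type) [CommRing k] {X : Type} [TopologicalSpace X] (f : C(X, X))
    (h : (ContinuousMap.id X).Homotopic f) (n : ℕ) : CohTriv k f n := by
  obtain ⟨H⟩ := h
  let K : C(X × unitInterval, X) := H.toContinuousMap.comp ⟨Prod.swap, continuous_swap⟩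
  have h0 : Pool.Agent.Helper438.Sc.slice K 0 = ContinuousMap.id X := by
    ext x
    exact H.apply_zero x
  have h1 : Pool.Agent.Helper438.Sc.slice K 1 = f := by
    ext x
    exact H.apply_one x
  intro a ha
  cases n with
  | zero =>
    have e := Pool.Agent.Helper438.Sc.pbk_zero K a (LinearMap.mem_ker.1 ha)
    rw [h0, h1] at e
    have e2 : (fun σ : Sing X 0 => a (f.comp σ)) - a = 0 := sub_eq_zero.2 e
    rw [e2]
    exact Submodule.zero_mem _
  | succ n =>
    obtain ⟨b, hb⟩ := Pool.Agent.Helper438.Sc.exists_altd_pbk K a (LinearMap.mem_ker.1 ha)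
    rw [h0, h1] at hb
    exact ⟨b, hb.symm⟩

end Pool.Agent.E8helper2.ZB
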