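import Pool.Agent.E8helper2.ZB.LatT
import Pool.Agent.E8helper2.ZB.Cases
import Pool.Agent.E8helper2.ZB.Htp

/-!
# The classes of lattices, homologically trivial actions
-/

set_option autoImplicit false

namespace Pool.Agent.E8helper2.ZB

open Pool.Agent.E8helper72.ZO Module Matrix
open scoped Manifold ContDiff

section

variable (E : Type) [NormedAddCommGroup E] [NormedSpace ℝ E] [FiniteDimensional ℝ E]
  (M : Type) [TopologicalSpace M] [ChartedSpace E M]

/-- Finiteness of the homologically trivial actions on `M` of the groups `Δ` commensurable with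
groups `Γ` of matrices over a ring with `2 ≠ 0` which contain the even sign changes:
`m + N + e + gcd(n, 2) < n`, where `m = dim M`, `N` is the number of the positive degrees in which
the mod `2` cohomology of `M` is not zero, and `2 ^ (e + 1)` does not divide `[Γ : Γ ∩ Δ]`. -/
def SignBoundT : Prop :=
  ∀ (F : Type) [Ring F] (n : ℕ) (Γ Δ : Subgroup (Matrix (Fin n) (Fin n) F)ˣ) (e : ℕ),
    (2 : F) ≠ 0 → EvenSigns Γ → ¬ 2 ^ (e + 1) ∣ Δ.relIndex Γ →
      finrank ℝ E + npos 2 M + e + Nat.gcd n 2 < n → FiniteActionsT 2 E M Γ Δ (PD (-1) n)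

/-- The same for groups which contain all sign changes and `m + N + e + 1 < n`. -/
def AllSignBoundT : Prop :=
  ∀ (F : Type) [Ring F] (n : ℕ) (Γ Δ : Subgroup (Matrix (Fin n) (Fin n) F)ˣ) (e : ℕ),
    (2 : F) ≠ 0 → AllSigns Γ → ¬ 2 ^ (e + 1) ∣ Δ.relIndex Γ →
      finrank ℝ E + npos 2 M + e + 1 < n → FiniteActionsT 2 E M Γ Δ (PD (-1) n)

/-- The same for an odd prime number `p` and groups which contain `SU(h; R)`, `h` a diagonal
hermitian form in `n` variables over a commutative ring with involution, `z ≠ 1` a `p`-th root of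
unity in `R` with `z* = z⁻¹`, `gcd(n, p) = p ^ δ`, `p ^ (e + 1)` does not divide `[Γ : Γ ∩ Δ]` and
`⌊m / 2⌋ + N + e + δ + 1 < n`. -/
def OddBoundT (p : ℕ) : Prop :=
  ∀ (F : Type) [CommRing F] [StarRing F] (R : Subring F) (z : F) (n : ℕ) (h : Fin n → F)
    (Γ Δ : Subgroup (Matrix (Fin n) (Fin n) F)ˣ) (e δ : ℕ),
    z ∈ R → z ^ p = 1 → z ≠ 1 → star z * z = 1 → SUG R h ≤ Γ → Nat.gcd n p = p ^ δ →
    ¬ p ^ (e + 1) ∣ Δ.relIndex Γ → finrank ℝ E / 2 + npos p M + e + δ + 1 < n →
      FiniteActionsT p E M Γ Δ (PD z n)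

end

end Pool.Agent.E8helper2.ZB
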