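import Pool.Agent.E8helper2.ZB.ExS

/-!
# The classes of lattices, weights
-/

set_option autoImplicit false

namespace Pool.Agent.E8helper2.ZB

open Pool.Agent.H185.ZM Pool.Agent.E8helper72.ZO Pool.Agent.Helper381 Module Matrix
open scoped Manifold ContDiff

section

variable (E : Type) [NormedAddCommGroup E] [NormedSpace ℝ E] [FiniteDimensional ℝ E]
  (M : Type) [TopologicalSpace M] [ChartedSpace E M]

/-- Actions on `M` of the groups `Δ` commensurable with groups `Γ` of matrices over a ring with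
`2 ≠ 0` which contain the even sign changes and the cyclic permutation of the first `ℓ`
coordinates, `ℓ` an odd prime number, `dim M < ord_ℓ(2)`, `[Γ : Γ ∩ Δ]` is less than
`2 ^ ord_ℓ(2)` and not divisible by `ℓ`, and in each degree `q = 1, ..., dim M` the dimension of
`H^q(M; ℤ/2)` is less than `ord_ℓ(2)` or the conjugates in `Δ` of the cyclic permutation act
trivially on `H^q(M; ℤ/2)`. -/
def SmallBetti : Prop :=
  ∀ (F : Type) [Ring F] (ℓ n : ℕ) (Γ Δ : Subgroup (Matrix (Fin n) (Fin n) F)ˣ),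
    (2 : F) ≠ 0 → ℓ.Prime → ℓ ≠ 2 → ℓ ≤ n → HasCyc (-1) 2 ℓ Γ → ¬ ℓ ∣ Δ.relIndex Γ →
    Δ.relIndex Γ < 2 ^ orderOf (2 : ZMod ℓ) → finrank ℝ E < orderOf (2 : ZMod ℓ) →
      FiniteActionsIf E M Γ Δ (PD (-1) n) fun α => ∀ q, 1 ≤ q → q ≤ finrank ℝ E →
        finrank (ZMod 2) (SingularCohomology (ZMod 2) M q) < orderOf (2 : ZMod ℓ) ∨
          RotTriv 2 ℓ Γ Δ α q

/-- Actions on `M` of groups `Δ` of matrices over a ring with an element `z ≠ 1`, `z ^ p = 1`, such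
that `Γ` contains the diagonal matrices with entries `z ^ d_i`, `p ∣ ∑ d_i`, concentrated on the
first `ℓ` coordinates, and the cyclic permutation of the first `ℓ` coordinates; `p` does not divide
`ℓ`; either `Γ ⊆ Δ` or `ℓ` is a prime number which does not divide `[Γ : Γ ∩ Δ] < p ^ ord_ℓ(p)`;
`dim M < ord_ℓ(p)` if `p = 2` and `⌊dim M / 2⌋ < ord_ℓ(p)` if `p` is odd; the condition `GoodDeg`
in each degree `q = 1, ..., dim M`. -/
def WreathBound (p : ℕ) : Prop :=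
  ∀ (F : Type) [Ring F] (z : F) (ℓ n : ℕ) (Γ Δ : Subgroup (Matrix (Fin n) (Fin n) F)ˣ),
    z ^ p = 1 → z ≠ 1 → 2 ≤ ℓ → ¬ p ∣ ℓ → ℓ ≤ n → HasCyc z p ℓ Γ →
    (Γ ≤ Δ ∨ (ℓ.Prime ∧ ¬ ℓ ∣ Δ.relIndex Γ ∧ Δ.relIndex Γ < p ^ orderOf (p : ZMod ℓ))) →
    (if p = 2 then finrank ℝ E else finrank ℝ E / 2) < orderOf (p : ZMod ℓ) →
      FiniteActionsIf E M Γ Δ (PD z n) fun α => ∀ q, 1 ≤ q → q ≤ finrank ℝ E →
        GoodDeg p ℓ Γ Δ α q

end

/-- Examples: groups of isometries of diagonal forms whose first `ℓ` coefficients are equal. -/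
def ExamplesW : Prop :=
  (∀ (F : Type) [CommRing F] (R : Subring F) (n ℓ : ℕ) (f : Fin n → F), ℓ ≤ n →
    (∀ i j : Fin n, i.val < ℓ → j.val < ℓ → f i = f j) →
      Odd ℓ → HasCyc (-1 : F) 2 ℓ (SOG R f)) ∧
  (∀ (F : Type) [CommRing F] [StarRing F] (R : Subring F) (z : F) (p n ℓ : ℕ) (h : Fin n → F),
    z ∈ R → z ^ p = 1 → star z * z = 1 → 0 < p → Odd ℓ → ℓ ≤ n →
    (∀ i j : Fin n, i.val < ℓ → j.val < ℓ → h i = h j) → HasCyc z p ℓ (SUG R h)) ∧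
  (∀ (F : Type) [Ring F] [StarRing F] (R : Subring F) (z : F) (p n ℓ : ℕ) (h : Fin n → F),
    z ∈ R → z ^ p = 1 → 0 < p → (∀ i, star z * h i * z = h i) → 0 < ℓ → ℓ ≤ n →
    (∀ i j : Fin n, i.val < ℓ → j.val < ℓ → h i = h j) → HasCyc z p ℓ (UG R h))

theorem examplesW : ExamplesW :=
  ⟨fun F _ R n ℓ f hn hf ho => Pool.Agent.E8helper35.ZB.exm.1 F R n ℓ f ho hn hf,
    fun F _ _ R z p n ℓ h hzR hz hzs hp ho hn hf =>
      Pool.Agent.E8helper35.ZB.exm.2.1 F R z p n ℓ h hzR hz hzs hp ho hn hf,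
    fun _ _ _ R _ _ _ _ h hzR hz hp hzh hℓ _ hf => hasCyc_UG R h hzR hz hp hzh hℓ hf⟩

section

variable {E : Type} [NormedAddCommGroup E] [NormedSpace ℝ E] [FiniteDimensional ℝ E]
  {M : Type} [TopologicalSpace M] [ChartedSpace E M] [IsManifold 𝓘(ℝ, E) ∞ M]
  [CompactSpace M] [T2Space M] [ConnectedSpace M]

theorem smallBetti : SmallBetti E M := by
  intro F _ ℓ n Γ Δ h2 hℓ hℓ2 hn hΓ hd hlt hm
  have : Fact ℓ.Prime := ⟨hℓ⟩
  exact cyc_two h2 hℓ2 hn hΓ hd hlt hm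

theorem wreathBound (p : ℕ) (hp : p.Prime) : WreathBound E M p := by
  intro F _ z ℓ n Γ Δ hz hz1 hl hpl hn hΓ hΔ hm
  have : Fact p.Prime := ⟨hp⟩
  rcases hΔ with hΔ | ⟨hℓ, hd, hlt⟩
  · exact cyc_case hz hz1 hpl hl hn hΓ hΔ hm
  · have : Fact ℓ.Prime := ⟨hℓ⟩
    exact cyc_prime hz hz1 (fun h => hpl (h ▸ dvd_rfl)) hn hΓ hd hlt hm

end

end Pool.Agent.E8helper2.ZB
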