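import Pool.Agent.E8helper2.ZB.Split

/-!
# A decomposition of the identity for `U → V → W`, with more properties
-/

set_option autoImplicit false

namespace Pool.Agent.E8helper2.ZB

open Module

section

variable {F : Type*} [Field F] {U V W : Type*} [AddCommGroup U] [Module F U] [AddCommGroup V]
  [Module F V] [AddCommGroup W] [Module F W] [FiniteDimensional F U] [FiniteDimensional F V]
  [FiniteDimensional F W]

theorem split2 (f : U →ₗ[F] V) (g : V →ₗ[F] W) (hgf : ∀ x, g (f x) = 0) (b : ℕ)
    (hb : b + finrank F (LinearMap.range f) + finrank F (LinearMap.range g) = finrank F V) :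
    ∃ (s : V →ₗ[F] U) (t : W →ₗ[F] V) (u : (Fin b → F) →ₗ[F] V) (φ : V →ₗ[F] (Fin b → F)),
      (∀ v, v = f (s v) + t (g v) + u (φ v)) ∧ (∀ x, g (t (g x)) = g x) ∧ ∀ x, φ (f x) = 0 := by
  obtain ⟨s0, hs0⟩ := exists_ginv f
  obtain ⟨t, ht⟩ := exists_ginv g
  -- the projection onto the kernel of g and then the complement of the range of f
  let κ : V →ₗ[F] V := LinearMap.id - t ∘ₗ g
  let π : V →ₗ[F] V := LinearMap.id - f ∘ₗ s0
  let ψ : V →ₗ[F] V := π ∘ₗ κ
  have hκ : ∀ v, g (κ v) = 0 := fun v => by simp [κ, ht]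
  have hκ' : ∀ v, g v = 0 → κ v = v := fun v hv => by simp [κ, hv]
  have hπ : ∀ v, π v = 0 ↔ v ∈ LinearMap.range f := by
    intro v
    constructor
    · intro h
      refine ⟨s0 v, ?_⟩
      have : v - f (s0 v) = 0 := h
      exact (sub_eq_zero.1 this).symm
    · rintro ⟨x, rfl⟩
      simp [π, hs0]
  have hr : finrank F (LinearMap.range ψ) = b := by
    have h1 : LinearMap.range ψ = (LinearMap.ker g).map π := by
      ext y
      constructor
      · rintro ⟨v, rfl⟩
        exact ⟨κ v, hκ v, rfl⟩
      · rintro ⟨v, hv, rfl⟩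
        exact ⟨v, by simp only [ψ, LinearMap.comp_apply, hκ' v hv]⟩
    have h2 : finrank F (LinearMap.range (π.domRestrict (LinearMap.ker g))) +
        finrank F (LinearMap.ker (π.domRestrict (LinearMap.ker g))) =
        finrank F (LinearMap.ker g) := LinearMap.finrank_range_add_finrank_ker _
    have h3 : LinearMap.range (π.domRestrict (LinearMap.ker g)) = (LinearMap.ker g).map π :=
      LinearMap.range_domRestrict _ _
    have h4 : finrank F (LinearMap.ker (π.domRestrict (LinearMap.ker g))) =
        finrank F (LinearMap.range f) := by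
      have e : LinearMap.ker (π.domRestrict (LinearMap.ker g)) =
          (LinearMap.range f).submoduleOf (LinearMap.ker g) := by
        ext y
        rw [LinearMap.mem_ker, LinearMap.domRestrict_apply, hπ]
        rfl
      rw [e]
      exact (Submodule.submoduleOfEquivOfLe (by
        rintro _ ⟨x, rfl⟩
        exact hgf x)).finrank_eq
    have h5 : finrank F (LinearMap.range g) + finrank F (LinearMap.ker g) = finrank F V :=
      LinearMap.finrank_range_add_finrank_ker _
    rw [h1, ← h3]
    omega
  let e : LinearMap.range ψ ≃ₗ[F] (Fin b → F) := LinearEquiv.ofFinrankEq _ _ (by simp [hr])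
  refine ⟨s0 ∘ₗ κ, t, (LinearMap.range ψ).subtype ∘ₗ e.symm.toLinearMap,
    e.toLinearMap ∘ₗ ψ.rangeRestrict, fun v => ?_, ht, fun x => ?_⟩
  · simp only [LinearMap.comp_apply, LinearEquiv.coe_coe, LinearEquiv.symm_apply_apply,
      Submodule.subtype_apply, LinearMap.codRestrict_apply, LinearMap.rangeRestrict]
    simp only [ψ, κ, π, LinearMap.comp_apply, LinearMap.sub_apply, LinearMap.id_apply, map_sub]
    abel
  · have h6 : ψ (f x) = 0 := by
      show π (κ (f x)) = 0
      rw [hκ' _ (hgf x), hπ]
      exact ⟨x, rfl⟩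
    have h7 : ψ.rangeRestrict (f x) = 0 := Subtype.ext h6
    rw [LinearMap.comp_apply, h7, map_zero]

end

/-- matrix form -/
theorem msplit2 {F : Type*} [Field F] {X Y Z : Type*} [Fintype X] [Fintype Y] [Fintype Z]
    [DecidableEq X] [DecidableEq Y] [DecidableEq Z] (A : Matrix Y X F) (B : Matrix Z Y F)
    (hBA : B * A = 0) (b : ℕ) (hb : b + A.rank + B.rank = Fintype.card Y) :
    ∃ (S : Matrix X Y F) (T : Matrix Y Z F) (U : Matrix Y (Fin b) F) (Φ : Matrix (Fin b) Y F),
      A * S + T * B + U * Φ = 1 ∧ B * (T * B) = B ∧ Φ * A = 0 := by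
  obtain ⟨s, t, u, φ, h, h2, h3⟩ := split2 (Matrix.toLin' A) (Matrix.toLin' B) (fun x => by
    rw [← LinearMap.comp_apply, ← Matrix.toLin'_mul, hBA, map_zero, LinearMap.zero_apply]) b (by
      rw [Module.finrank_fintype_fun_eq_card]; exact hb)
  refine ⟨LinearMap.toMatrix' s, LinearMap.toMatrix' t, LinearMap.toMatrix' u,
    LinearMap.toMatrix' φ, ?_, ?_, ?_⟩
  · apply Matrix.toLin'.injective
    rw [map_add, map_add, Matrix.toLin'_mul, Matrix.toLin'_mul, Matrix.toLin'_mul,
      Matrix.toLin'_toMatrix', Matrix.toLin'_toMatrix', Matrix.toLin'_toMatrix',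
      Matrix.toLin'_toMatrix', Matrix.toLin'_one]
    apply LinearMap.ext
    intro v
    exact (h v).symm
  · apply Matrix.toLin'.injective
    rw [Matrix.toLin'_mul, Matrix.toLin'_mul, Matrix.toLin'_toMatrix']
    apply LinearMap.ext
    intro v
    exact h2 v
  · apply Matrix.toLin'.injective
    rw [Matrix.toLin'_mul, Matrix.toLin'_toMatrix', map_zero]
    apply LinearMap.ext
    intro v
    exact h3 v

end Pool.Agent.E8helper2.ZB
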