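import Pool.Agent.E8helper2.ZB.Lev2
import Pool.Agent.E8helper2.ZB.Split2
import Pool.Agent.E8helper2.ZB.Stm4

/-!
# Homologically trivial actions on chain complexes
-/

set_option autoImplicit false

namespace Pool.Agent.E8helper2.ZB

open Module Lev

section

variable {p k : ℕ} [Fact p.Prime] {R : Type} [CommRing R] [Nontrivial R] [Algebra (ZMod p) R]

theorem sum_eta {X : Type} [Fintype X] [MulAction (GG p k) X] (ξ : Fin k → R) (y : X → R) :
    ∑ σ, eta p X ξ y σ = 0 := by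
  simp only [eta_apply]
  rw [Finset.sum_comm]
  refine Finset.sum_eq_zero fun i _ => ?_
  rw [← Finset.mul_sum, Finset.sum_sub_distrib]
  have : ∑ σ : X, y (gen p k i • σ) = ∑ σ, y σ :=
    Equiv.sum_comp (MulAction.toPerm (gen p k i)) y
  rw [this, sub_self, mul_zero]

theorem sum_th {X : Type} [Fintype X] [MulAction (GG p k) X] (ξ : Fin k → R) (j : ℕ) (y : X → R) :
    ∑ σ, th p X ξ j y σ = 0 := by
  unfold th
  split_ifs
  · exact sum_eta ξ y
  · obtain ⟨m, hm⟩ : ∃ m, p - 1 = m + 1 := ⟨p - 2, by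
      have := (Fact.out : p.Prime).two_le
      omega⟩
    rw [hm, pow_succ']
    exact sum_eta ξ _

/-- `th` kills, if `eta` kills -/
theorem th_kill {X Y : Type} [Fintype X] [MulAction (GG p k) X] [MulAction (GG p k) Y]
    (ξ : Fin k → R) (A : Matrix Y X (ZMod p)) (hA : ∀ (g : GG p k) y x, A (g • y) (g • x) = A y x)
    {Z : Type} (Φ : Matrix Z X (ZMod p))
    (h : ∀ y : X → R, ex R A y = 0 → ex R Φ (eta p X ξ y) = 0) (j : ℕ) (y : X → R)
    (hy : ex R A y = 0) : ex R Φ (th p X ξ j y) = 0 := by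
  unfold th
  split_ifs
  · exact h y hy
  · obtain ⟨m, hm⟩ : ∃ m, p - 1 = m + 1 := ⟨p - 2, by
      have := (Fact.out : p.Prime).two_le
      omega⟩
    rw [hm, pow_succ']
    refine h _ ?_
    rw [eta_pow_comm ξ A hA, hy, map_zero]

theorem eta_kill {X Y : Type} [Fintype X] [Fintype Y] [MulAction (GG p k) X] (ξ : Fin k → R)
    (A : Matrix Y X (ZMod p)) {Z : Type} (Φ : Matrix Z X (ZMod p))
    (htriv : ∀ (g : GG p k) (r : Z), ∃ β : Y → ZMod p, ∀ σ,
      Φ r (g • σ) - Φ r σ = ∑ τ, β τ * A τ σ) (y : X → R) (hy : ex R A y = 0) :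
    ex R Φ (eta p X ξ y) = 0 := by
  funext r
  rw [ex_apply]
  simp only [eta_apply, Finset.mul_sum]
  rw [Finset.sum_comm]
  refine Finset.sum_eq_zero fun i _ => ?_
  obtain ⟨β, hβ⟩ := htriv (gen p k i)⁻¹ r
  have h1 : ∑ σ, algebraMap (ZMod p) R (Φ r σ) * y (gen p k i • σ) =
      ∑ σ, algebraMap (ZMod p) R (Φ r ((gen p k i)⁻¹ • σ)) * y σ := by
    rw [← Equiv.sum_comp (MulAction.toPerm (gen p k i)) (fun σ =>
      algebraMap (ZMod p) R (Φ r ((gen p k i)⁻¹ • σ)) * y σ)]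
    refine Finset.sum_congr rfl fun σ _ => ?_
    rw [MulAction.toPerm_apply, inv_smul_smul]
  have h2 : ∑ σ, algebraMap (ZMod p) R (Φ r σ) * (ξ i * (y (gen p k i • σ) - y σ)) =
      ξ i * (∑ σ, algebraMap (ZMod p) R (Φ r σ) * y (gen p k i • σ) -
        ∑ σ, algebraMap (ZMod p) R (Φ r σ) * y σ) := by
    rw [← Finset.sum_sub_distrib, Finset.mul_sum]
    exact Finset.sum_congr rfl fun σ _ => by ring
  rw [h2, h1, ← Finset.sum_sub_distrib]
  have h3 : ∑ σ, (algebraMap (ZMod p) R (Φ r ((gen p k i)⁻¹ • σ)) * y σ -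
      algebraMap (ZMod p) R (Φ r σ) * y σ) = ∑ τ, algebraMap (ZMod p) R (β τ) * ex R A y τ := by
    simp only [ex_apply, Finset.mul_sum]
    rw [Finset.sum_comm]
    refine Finset.sum_congr rfl fun σ _ => ?_
    rw [← sub_mul, ← map_sub, hβ, map_sum, Finset.sum_mul]
    exact Finset.sum_congr rfl fun τ _ => by rw [map_mul]; ring
  rw [h3, hy]
  simp

end

section main

variable {p k : ℕ} [Fact p.Prime] {X : ℕ → Type} [∀ q, Fintype (X q)] [∀ q, DecidableEq (X q)]
  [∀ q, MulAction (GG p k) (X q)]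

theorem core2 (hKILL : S_KILL) (R : Type) [CommRing R] [Nontrivial R] [Algebra (ZMod p) R]
    (ξ : Fin k → R) (bd : ∀ q, Matrix (X q) (X (q + 1)) (ZMod p))
    (hbd : ∀ q, bd q * bd (q + 1) = 0)
    (hequi : ∀ q (g : GG p k) τ σ, bd q (g • τ) (g • σ) = bd q τ σ) (h0 : IsEmpty (X 0)) (N : ℕ)
    (hN : ∀ q, N ≤ q → IsEmpty (X (q + 1))) (b : ℕ → ℕ)
    (hb : ∀ q, b q + (bd (q + 1)).rank + (bd q).rank = Fintype.card (X (q + 1)))
    (haug : ∀ σ : X 2, ∑ τ, bd 1 τ σ = 0)
    (htriv : ∀ q (g : GG p k) (r : X (q + 1) → ZMod p),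
      (∀ τ, ∑ σ, r σ * bd (q + 1) σ τ = 0) → ∃ β : X q → ZMod p, ∀ σ,
        r (g • σ) - r σ = ∑ τ, β τ * bd q τ σ)
    (c : ℕ) (χ : ℕ → ∀ q, X q → Fin k → ZMod p)
    (hχ : ∀ i < c, ∀ q (σ : X q) (g : GG p k), g • σ = σ → ∑ l, χ i q σ l * g.toAdd l = 0)
    (f : ℕ → R) (hf : ∀ i < c, f i = ∏ q ∈ Finset.range (N + 1),
      ∏ σ : X q, (∑ l, algebraMap (ZMod p) R (χ i q σ l) * ξ l) ^ (p * (p - 1)))
    (hfr : ∀ i < c, ∀ a : R, f i * a ∈ II f i → a ∈ II f i)
    (x : ℕ → R) (hxr : ∀ i < c, ∀ a : R, x i * a ∈ II x i → a ∈ II x i) (hne : II x c ≠ ⊤)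
    (v : X 1) (hv : ∀ l, ξ l ∈ II x c ∨ gen p k l • v = v) :
    c < ((Finset.range N).filter (fun q => b q ≠ 0)).card := by
  choose S T' U Φ hsp hT hΦ using fun q => msplit2 (bd (q + 1)) (bd q) (hbd q) (b q) (hb q)
  have hcx : Cx (fun q => ex R (bd q)) (fun q j => th p (X q) ξ j) :=
    { dd := fun q y => by
        rw [← ex_mul, hbd, ex_zero]
      comm := fun q j y => th_comm ξ (bd q) (hequi q) j y
      tt := fun q j y => th_th ξ j y
      per := fun q j => th_add_two ξ j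
      m0 := fun y => funext fun τ => (h0.false τ).elim }
  refine bound (M := fun q => X q → R) hcx N (fun j hj y => ?_) c f ?_
    (fun i q => ∏ σ : X q, (∑ l, algebraMap (ZMod p) R (χ i q σ l) * ξ l) ^ (p * (p - 1))) hf ?_
    (fun q => Fin (b q) → R) ?_ (fun q => ex R (S q)) (fun q => ex R (T' q))
    (fun q => ex R (U q)) (fun q => ex R (Φ q)) ?_ ?_ ?_ ?_ (fun q => b q ≠ 0) ?_ x ?_
    (Pi.single v 1) ?_ (∑ σ, LinearMap.proj σ) ?_ ?_ ?_ hne
  · funext σ
    obtain ⟨j, rfl⟩ : ∃ j', j = j' + 1 := ⟨j - 1, by omega⟩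
    exact ((hN j (by omega)).false σ).elim
  · intro i hi j y hy
    rw [mem_fun] at hy ⊢
    exact fun σ => hfr i hi _ (hy σ)
  · intro i hi q j
    exact hKILL p k R (X q) ξ (χ i q) (hχ i hi q) j
  · intro i hi j y hy
    rw [mem_fun] at hy ⊢
    exact fun σ => hfr i hi _ (hy σ)
  · intro q y
    have h1 : ex R (bd (q + 1) * S q + T' q * bd q + U q * Φ q) y = y := by rw [hsp, ex_one]
    rw [ex_add, ex_add, ex_mul, ex_mul, ex_mul] at h1
    exact h1.symm
  · intro q y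
    show ex R (Φ q) (ex R (bd (q + 1)) y) = 0
    rw [← ex_mul, hΦ, ex_zero]
  · intro q y
    show ex R (bd q) (ex R (T' q) (ex R (bd q) y)) = ex R (bd q) y
    rw [← ex_mul, ← ex_mul, Matrix.mul_assoc, hT]
  · intro q y j
    refine th_kill ξ (bd q) (hequi q) (Φ q) (fun y hy => eta_kill ξ (bd q) (Φ q) (fun g r => ?_) y
      hy) j _ ?_
    · refine htriv q g (Φ q r) fun τ => ?_
      have := congrFun (congrFun (hΦ q) r) τ
      exact this
    · rw [map_sub]
      show ex R (bd q) y - ex R (bd q) (ex R (T' q) (ex R (bd q) y)) = 0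
      rw [← ex_mul, ← ex_mul, Matrix.mul_assoc, hT, sub_self]
  · intro q hq y
    funext r
    have : b q = 0 := not_not.1 hq
    exact absurd r.2 (by omega)
  · intro i hi j y hy
    rw [mem_fun] at hy ⊢
    exact fun σ => hxr i hi _ (hy σ)
  · have key : eta p (X 1) ξ (Pi.single v 1) ∈ II x c • (⊤ : Submodule R (X 1 → R)) := by
      rw [mem_fun]
      intro σ
      rw [eta_apply]
      refine Ideal.sum_mem _ fun l _ => ?_
      rcases hv l with h | h
      · exact Ideal.mul_mem_right _ _ h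
      · have : (Pi.single v 1 : X 1 → R) (gen p k l • σ) = (Pi.single v 1 : X 1 → R) σ := by
          by_cases hs : σ = v
          · rw [hs, h]
          · rw [Pi.single_eq_of_ne hs, Pi.single_eq_of_ne]
            intro h'
            apply hs
            have := congrArg (fun y => (gen p k l)⁻¹ • y) h'
            simp only [inv_smul_smul] at this
            rw [this, inv_smul_eq_iff, h]
        rw [this, sub_self, mul_zero]
        exact Ideal.zero_mem _
    intro j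
    show th p (X 1) ξ j (Pi.single v 1) ∈ _
    unfold th
    split_ifs
    · exact key
    · obtain ⟨m, hm⟩ : ∃ m, p - 1 = m + 1 := ⟨p - 2, by
        have := (Fact.out : p.Prime).two_le
        omega⟩
      rw [hm, pow_succ]
      exact map_mI (eta p (X 1) ξ ^ m) key
  · intro y
    rw [LinearMap.sum_apply]
    show ∑ τ, ex R (bd 1) y τ = 0
    simp only [ex_apply]
    rw [Finset.sum_comm]
    refine Finset.sum_eq_zero fun σ _ => ?_
    rw [← Finset.sum_mul, ← map_sum, haug, map_zero, zero_mul]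
  · intro j y
    rw [LinearMap.sum_apply]
    exact sum_th ξ j y
  · rw [LinearMap.sum_apply]
    show ∑ τ, (Pi.single v 1 : X 1 → R) τ = 1
    simp

end main

end Pool.Agent.E8helper2.ZB
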