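import Pool.Agent.E8helper2.ZB.Stm4

/-!
# Lattices containing sign changes and even permutations: statements
-/

set_option autoImplicit false

namespace Pool.Agent.E8helper2.ZB

open Module Pool.Agent.Helper381 Matrix

/-- abelian groups of exponent `p` acting faithfully over a field without `p`-th roots of unity -/
def S_PP : Prop := ∀ (K : Type) [Field K] (p : ℕ), p.Prime → (p : K) ≠ 0 →
  (∀ c : K, c ^ p = 1 → c = 1) → ∀ (V : Type) [AddCommGroup V] [Module K V]
    [FiniteDimensional K V] (A : Type) [CommGroup A] [Finite A] (ρ : A →* (V →ₗ[K] V)),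
      (∀ a : A, a ^ p = 1) → Function.Injective ρ → Nat.card A ∣ p ^ (finrank K V / 2)

/-- `Γ` contains the even sign changes and the even permutations of the first `r` coordinates -/
def HasSym {F : Type} [Ring F] {n : ℕ} (r : ℕ) (Γ : Subgroup (Matrix (Fin n) (Fin n) F)ˣ) : Prop :=
  (∀ (g : (Matrix (Fin n) (Fin n) F)ˣ) (d : Fin n → ℕ), Even (∑ i, d i) →
      (∀ i : Fin n, r ≤ i.val → d i = 0) →
      (g : Matrix (Fin n) (Fin n) F) = diagonal (fun i => (-1) ^ d i) → g ∈ Γ) ∧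
    (∀ (g : (Matrix (Fin n) (Fin n) F)ˣ) (σ : Equiv.Perm (Fin n)), Equiv.Perm.sign σ = 1 →
      (∀ i : Fin n, r ≤ i.val → σ i = i) →
      (g : Matrix (Fin n) (Fin n) F) = σ.permMatrix F → g ∈ Γ)

/-- in a representation over `ℤ/2` of dimension less than `2 ⌊r / 3⌋` the even sign changes act
trivially -/
def S_GRP : Prop := ∀ (F : Type) [Ring F] (n r : ℕ) (Γ : Subgroup (Matrix (Fin n) (Fin n) F)ˣ),
  r ≤ n → HasSym r Γ → ∀ (V : Type) [AddCommGroup V] [Module (ZMod 2) V]
    [FiniteDimensional (ZMod 2) V] (ρ : Γ →* (V →ₗ[ZMod 2] V)), finrank (ZMod 2) V < 2 * (r / 3) →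
      ∀ (g : Γ) (d : Fin n → ℕ), Even (∑ i, d i) → (∀ i : Fin n, r ≤ i.val → d i = 0) →
        ((g : (Matrix (Fin n) (Fin n) F)ˣ) : Matrix (Fin n) (Fin n) F) =
          diagonal (fun i => (-1) ^ d i) → ρ g = 1

end Pool.Agent.E8helper2.ZB
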