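import Pool.Agent.E8helper2.ZB.Stm4
import Pool.Agent.E8helper2.ZB.Stm5

/-!
# Actions of bounded Loewy length on the cohomology: statements
-/

set_option autoImplicit false

namespace Pool.Agent.E8helper2.ZB

open Module Pool.Agent.Helper381 Matrix

/-- iterated differences: `(f_1 - 1) ⋯ (f_l - 1) a` (the head of the list acts first) -/
def itf {S k : Type} [Sub k] : List (S → S) → (S → k) → (S → k)
  | [], a => a
  | f :: l, a => itf l (fun s => a (f s) - a s)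

/-- **Equivariant nerve theorem, several homeomorphisms.** -/
def S_NERVE2 : Prop := ∀ (k : Type) [CommRing k] (X : Type) [TopologicalSpace X] [Nonempty X]
  (𝒞 : Set (Set X)), (∀ C ∈ 𝒞, IsOpen C) → (∀ x : X, ∃ C ∈ 𝒞, x ∈ C) →
    (∀ σ : Σ n, Sing X n, (∃ C ∈ 𝒞, Set.range σ.2 ⊆ C) →
      ∃ J ∈ 𝒞, Set.range σ.2 ⊆ J ∧ ∀ C ∈ 𝒞, Set.range σ.2 ⊆ C → J ⊆ C) →
    (∀ C ∈ 𝒞, ConeData C) → ∀ (L : ℕ) (g : Fin L → X ≃ₜ X) (hg : ∀ i, ∀ C ∈ 𝒞, g i '' C ∈ 𝒞)
      (n : ℕ),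
      (∀ a ∈ cocycles k X n, itf (List.ofFn fun i => fun σ : Sing X n =>
        (⟨g i, (g i).continuous⟩ : C(X, X)).comp σ) a ∈ coboundaries k X n) →
      ∀ b ∈ LinearMap.ker (altd k (cface (Q := 𝒞)) n),
        itf (List.ofFn fun i => chm (g i) (g i).injective (hg i) n) b ∈
          cobound k (fun n => Ch 𝒞 n → k) (fun n => altd k (cface (Q := 𝒞)) n) n

/-- an even sign change of the first `r` coordinates -/
def IsEvenSign {F : Type} [Ring F] {n : ℕ} (r : ℕ) (g : (Matrix (Fin n) (Fin n) F)ˣ) : Prop :=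
  ∃ d : Fin n → ℕ, Even (∑ i, d i) ∧ (∀ i : Fin n, r ≤ i.val → d i = 0) ∧
    (g : Matrix (Fin n) (Fin n) F) = diagonal (fun i => (-1) ^ d i)

/-- in a representation over `ℤ/2` of dimension less than `(K + 1) 2 ⌊r / 3⌋` the product of
`2 K + 1` operators `ρ g - 1`, `g` an even sign change, is zero -/
def S_GRPL : Prop := ∀ (F : Type) [Ring F] (n r : ℕ) (Γ : Subgroup (Matrix (Fin n) (Fin n) F)ˣ),
  r ≤ n → HasSym r Γ → ∀ (V : Type) [AddCommGroup V] [Module (ZMod 2) V]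
    [FiniteDimensional (ZMod 2) V] (ρ : Γ →* (V →ₗ[ZMod 2] V)) (K : ℕ),
      finrank (ZMod 2) V < (K + 1) * (2 * (r / 3)) → ∀ g : Fin (2 * K + 1) → Γ,
        (∀ i, IsEvenSign r (g i : (Matrix (Fin n) (Fin n) F)ˣ)) →
          (List.ofFn fun i => ρ (g i) - 1).prod = 0

end Pool.Agent.E8helper2.ZB
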