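import Mathlib

/-!
# Linear algebra for filtered cohomology: statements
-/

set_option autoImplicit false

namespace Pool.Agent.E8helper2.ZB

/-- dual bases of a space of functionals modulo the row space of `B` -/
def S_LIN : Prop := ∀ (F : Type) [Field F] (X Y : Type) [Fintype X] [Fintype Y] [DecidableEq X]
  [DecidableEq Y] (B : Matrix Y X F) (W : Submodule F (X → F)),
    (∀ β : Y → F, Matrix.vecMul β B ∈ W) →
    ∃ (b : ℕ) (Φ : Matrix (Fin b) X F) (U : Matrix X (Fin b) F), Φ * U = 1 ∧ B * U = 0 ∧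
      (∀ r, Φ r ∈ W) ∧ ∀ φ ∈ W, ∃ (a : Fin b → F) (β : Y → F),
        φ = Matrix.vecMul a Φ + Matrix.vecMul β B

/-- a decomposition of the identity -/
def S_LIN2 : Prop := ∀ (F : Type) [Field F] (X Y Z : Type) [Fintype X] [Fintype Y] [Fintype Z]
  [DecidableEq X] [DecidableEq Y] [DecidableEq Z] (A : Matrix X Z F) (B : Matrix Y X F) (b : ℕ)
  (Φ : Matrix (Fin b) X F) (U : Matrix X (Fin b) F), B * A = 0 → Φ * U = 1 → B * U = 0 →
    (∀ φ : X → F, Matrix.vecMul φ A = 0 → ∃ (a : Fin b → F) (β : Y → F),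
      φ = Matrix.vecMul a Φ + Matrix.vecMul β B) →
    ∃ (S : Matrix Z X F) (T : Matrix X Y F), A * S + T * B + U * Φ = 1

end Pool.Agent.E8helper2.ZB
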