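import Pool.Agent.E8helper2.ZB.Lev3
import Pool.Agent.E8helper2.ZB.Core2
import Pool.Agent.E8helper2.ZB.Stm6
import Pool.Agent.E8helper2.ZB.Stm7

/-!
# Actions of bounded Loewy length on the cohomology of chain complexes
-/

set_option autoImplicit false

namespace Pool.Agent.E8helper2.ZB

open Module Lev

section fil

variable (p k : ℕ) {X Y Z : Type} [Fintype X] [Fintype Y] [MulAction (GG p k) X]

/-- the filtration of the cocycles -/
def FF (A : Matrix X Z (ZMod p)) (B : Matrix Y X (ZMod p)) :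
    ℕ → Submodule (ZMod p) (X → ZMod p)
  | 0 => LinearMap.range B.vecMulLinear
  | l + 1 => LinearMap.ker A.vecMulLinear ⊓
      ⨅ g : GG p k, (FF A B l).comap (tr p (ZMod p) X g - 1)

variable {p k} {A : Matrix X Z (ZMod p)} {B : Matrix Y X (ZMod p)}

theorem mem_FF_zero {r : X → ZMod p} : r ∈ FF p k A B 0 ↔ ∃ β, Matrix.vecMul β B = r := Iff.rfl

theorem mem_FF_succ {l : ℕ} {r : X → ZMod p} : r ∈ FF p k A B (l + 1) ↔
    Matrix.vecMul r A = 0 ∧ ∀ g : GG p k, (fun σ => r (g • σ) - r σ) ∈ FF p k A B l := by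
  show r ∈ LinearMap.ker A.vecMulLinear ⊓
      ⨅ g : GG p k, (FF p k A B l).comap (tr p (ZMod p) X g - 1) ↔ _
  rw [Submodule.mem_inf, Submodule.mem_iInf]
  exact Iff.rfl

theorem FF_coc (hAB : B * A = 0) (l : ℕ) {r : X → ZMod p} (hr : r ∈ FF p k A B l) :
    Matrix.vecMul r A = 0 := by
  cases l with
  | zero =>
    obtain ⟨β, rfl⟩ := mem_FF_zero.1 hr
    rw [Matrix.vecMul_vecMul, hAB, Matrix.vecMul_zero]
  | succ l => exact (mem_FF_succ.1 hr).1

theorem vecMul_shift [MulAction (GG p k) Y] (hB : ∀ (g : GG p k) y x, B (g • y) (g • x) = B y x)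
    (β : Y → ZMod p) (g : GG p k) (σ : X) :
    Matrix.vecMul β B (g • σ) = Matrix.vecMul (fun y => β (g • y)) B σ := by
  show ∑ y, β y * B y (g • σ) = ∑ y, β (g • y) * B y σ
  rw [← Equiv.sum_comp (MulAction.toPerm g)]
  refine Finset.sum_congr rfl fun y _ => ?_
  rw [MulAction.toPerm_apply, hB]

theorem FF_mono [MulAction (GG p k) Y] (hAB : B * A = 0)
    (hB : ∀ (g : GG p k) y x, B (g • y) (g • x) = B y x) (l : ℕ) :
    FF p k A B l ≤ FF p k A B (l + 1) := by
  induction l with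
  | zero =>
    intro r hr
    rw [mem_FF_succ]
    refine ⟨FF_coc hAB 0 hr, fun g => ?_⟩
    obtain ⟨β, rfl⟩ := mem_FF_zero.1 hr
    refine mem_FF_zero.2 ⟨(fun y => β (g • y)) - β, ?_⟩
    rw [Matrix.sub_vecMul]
    funext σ
    rw [Pi.sub_apply, vecMul_shift hB]
  | succ l ih =>
    intro r hr
    rw [mem_FF_succ] at hr ⊢
    exact ⟨hr.1, fun g => ih (hr.2 g)⟩

theorem coc_shift [Fintype Z] [MulAction (GG p k) Z]
    (hA : ∀ (g : GG p k) y x, A (g • y) (g • x) = A y x)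
    {r : X → ZMod p} (hr : Matrix.vecMul r A = 0) (g : GG p k) :
    Matrix.vecMul (fun σ => r (g • σ) - r σ) A = 0 := by
  have h1 : Matrix.vecMul (fun σ => r (g • σ)) A = 0 := by
    funext τ
    rw [← vecMul_shift hA, hr]
    rfl
  have h2 : (fun σ => r (g • σ) - r σ) = (fun σ => r (g • σ)) - r := rfl
  rw [h2, Matrix.sub_vecMul, h1, hr, sub_zero]

theorem FF_of_itf [Fintype Z] [MulAction (GG p k) Z]
    (hA : ∀ (g : GG p k) y x, A (g • y) (g • x) = A y x) (l : ℕ) :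
    ∀ r : X → ZMod p, Matrix.vecMul r A = 0 →
      (∀ g : Fin l → GG p k, itf (List.ofFn fun i => fun σ : X => g i • σ) r ∈ FF p k A B 0) →
      r ∈ FF p k A B l := by
  induction l with
  | zero =>
    intro r _ h
    have := h Fin.elim0
    rwa [List.ofFn_zero] at this
  | succ l ih =>
    intro r hr h
    rw [mem_FF_succ]
    refine ⟨hr, fun g => ih _ (coc_shift hA hr g) fun g' => ?_⟩
    have := h (Fin.cons g g')
    rw [List.ofFn_succ] at this
    simpa only [Fin.cons_zero, Fin.cons_succ, itf] using this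

end fil

section fac

variable {p k : ℕ} {R : Type} [CommRing R] [Algebra (ZMod p) R]

theorem fac_eta {X Y V Z : Type} [Fintype X] [Fintype Y] [Fintype V] [MulAction (GG p k) X]
    (ξ : Fin k → R) (A : Matrix Y X (ZMod p)) (Φ : Matrix V X (ZMod p)) (Ψ : Matrix Z X (ZMod p))
    (h : ∀ (g : GG p k) (r : Z), ∃ (a : V → ZMod p) (β : Y → ZMod p),
      (fun σ => Ψ r (g • σ) - Ψ r σ) = Matrix.vecMul a Φ + Matrix.vecMul β A) :
    ∃ (α : (V → R) →ₗ[R] (Z → R)) (β : (Y → R) →ₗ[R] (Z → R)), ∀ y,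
      ex R Ψ (eta p X ξ y) = α (ex R Φ y) + β (ex R A y) := by
  choose a β hab using h
  refine ⟨∑ i, ξ i • ex R (Matrix.of fun r => a (gen p k i)⁻¹ r),
    ∑ i, ξ i • ex R (Matrix.of fun r => β (gen p k i)⁻¹ r), fun y => ?_⟩
  rw [LinearMap.sum_apply, LinearMap.sum_apply, ← Finset.sum_add_distrib]
  funext r
  rw [Finset.sum_apply, ex_apply]
  simp only [eta_apply, Finset.mul_sum]
  rw [Finset.sum_comm]
  refine Finset.sum_congr rfl fun i _ => ?_
  have h1 : ∑ σ, algebraMap (ZMod p) R (Ψ r σ) * y (gen p k i • σ) =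
      ∑ σ, algebraMap (ZMod p) R (Ψ r ((gen p k i)⁻¹ • σ)) * y σ := by
    rw [← Equiv.sum_comp (MulAction.toPerm (gen p k i)) (fun σ =>
      algebraMap (ZMod p) R (Ψ r ((gen p k i)⁻¹ • σ)) * y σ)]
    refine Finset.sum_congr rfl fun σ _ => ?_
    rw [MulAction.toPerm_apply, inv_smul_smul]
  have h2 : ∑ σ, algebraMap (ZMod p) R (Ψ r σ) * (ξ i * (y (gen p k i • σ) - y σ)) =
      ξ i * (∑ σ, algebraMap (ZMod p) R (Ψ r σ) * y (gen p k i • σ) -
        ∑ σ, algebraMap (ZMod p) R (Ψ r σ) * y σ) := by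
    rw [← Finset.sum_sub_distrib, Finset.mul_sum]
    exact Finset.sum_congr rfl fun σ _ => by ring
  rw [h2, h1, ← Finset.sum_sub_distrib, LinearMap.smul_apply, LinearMap.smul_apply, ← smul_add,
    Pi.smul_apply, smul_eq_mul]
  congr 1
  have h4 : ∀ σ, Ψ r ((gen p k i)⁻¹ • σ) - Ψ r σ = ∑ s, a (gen p k i)⁻¹ r s * Φ s σ +
      ∑ τ, β (gen p k i)⁻¹ r τ * A τ σ := fun σ => congrFun (hab (gen p k i)⁻¹ r) σ
  have h3 : ∑ σ, (algebraMap (ZMod p) R (Ψ r ((gen p k i)⁻¹ • σ)) * y σ -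
      algebraMap (ZMod p) R (Ψ r σ) * y σ) =
      ∑ σ, (∑ s, algebraMap (ZMod p) R (a (gen p k i)⁻¹ r s) *
        (algebraMap (ZMod p) R (Φ s σ) * y σ)) +
      ∑ σ, (∑ τ, algebraMap (ZMod p) R (β (gen p k i)⁻¹ r τ) *
        (algebraMap (ZMod p) R (A τ σ) * y σ)) := by
    rw [← Finset.sum_add_distrib]
    refine Finset.sum_congr rfl fun σ _ => ?_
    rw [← sub_mul, ← map_sub, h4, map_add, map_sum, map_sum, add_mul, Finset.sum_mul,
      Finset.sum_mul]
    congr 1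
    · exact Finset.sum_congr rfl fun s _ => by rw [map_mul]; ring
    · exact Finset.sum_congr rfl fun s _ => by rw [map_mul]; ring
  rw [h3, Pi.add_apply, ex_apply, ex_apply]
  congr 1
  · rw [Finset.sum_comm]
    simp only [ex_apply, Finset.mul_sum, Matrix.of_apply]
  · rw [Finset.sum_comm]
    simp only [ex_apply, Finset.mul_sum, Matrix.of_apply]

theorem fac_th [Fact p.Prime] {X Y V Z : Type} [Fintype X] [Fintype Y] [Fintype V]
    [MulAction (GG p k) X] [MulAction (GG p k) Y]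
    (ξ : Fin k → R) (A : Matrix Y X (ZMod p)) (hA : ∀ (g : GG p k) y x, A (g • y) (g • x) = A y x)
    (Φ : Matrix V X (ZMod p)) (Ψ : Matrix Z X (ZMod p))
    (h : ∀ (g : GG p k) (r : Z), ∃ (a : V → ZMod p) (β : Y → ZMod p),
      (fun σ => Ψ r (g • σ) - Ψ r σ) = Matrix.vecMul a Φ + Matrix.vecMul β A)
    (h' : ∀ (g : GG p k) (r : V), ∃ (a : V → ZMod p) (β : Y → ZMod p),
      (fun σ => Φ r (g • σ) - Φ r σ) = Matrix.vecMul a Φ + Matrix.vecMul β A) (j : ℕ) :
    ∃ (α : (V → R) →ₗ[R] (Z → R)) (β : (Y → R) →ₗ[R] (Z → R)), ∀ y,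
      ex R Ψ (th p X ξ j y) = α (ex R Φ y) + β (ex R A y) := by
  obtain ⟨α2, β2, h2⟩ := fac_eta ξ A Φ Φ h'
  have key : ∀ m : ℕ, ∃ (α : (V → R) →ₗ[R] (Z → R)) (β : (Y → R) →ₗ[R] (Z → R)), ∀ y,
      ex R Ψ (((eta p X ξ) ^ (m + 1)) y) = α (ex R Φ y) + β (ex R A y) := by
    intro m
    induction m with
    | zero =>
      obtain ⟨α, β, h1⟩ := fac_eta ξ A Φ Ψ h
      refine ⟨α, β, fun y => ?_⟩
      rw [zero_add, pow_one, h1]
    | succ m ih =>
      obtain ⟨α, β, h1⟩ := ih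
      refine ⟨α.comp α2, α.comp β2 + β.comp (eta p Y ξ), fun y => ?_⟩
      rw [pow_succ]
      show ex R Ψ (((eta p X ξ) ^ (m + 1)) (eta p X ξ y)) = _
      rw [h1, h2, eta_comm ξ A hA, map_add, LinearMap.add_apply, LinearMap.comp_apply,
        LinearMap.comp_apply, LinearMap.comp_apply, add_assoc]
  unfold th
  split_ifs
  · have := key 0
    rwa [zero_add, pow_one] at this
  · obtain ⟨m, hm⟩ : ∃ m, p - 1 = m + 1 := ⟨p - 2, by
      have := (Fact.out : p.Prime).two_le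
      omega⟩
    rw [hm]
    exact key m

end fac

section main

variable {p k : ℕ} [Fact p.Prime] {X : ℕ → Type} [∀ q, Fintype (X q)] [∀ q, DecidableEq (X q)]
  [∀ q, MulAction (GG p k) (X q)]

theorem coreL (hLIN : S_LIN) (hLIN2 : S_LIN2) (hKILL : S_KILL) (R : Type) [CommRing R]
    [Nontrivial R] [Algebra (ZMod p) R]
    (ξ : Fin k → R) (bd : ∀ q, Matrix (X q) (X (q + 1)) (ZMod p))
    (hbd : ∀ q, bd q * bd (q + 1) = 0)
    (hequi : ∀ q (g : GG p k) τ σ, bd q (g • τ) (g • σ) = bd q τ σ) (h0 : IsEmpty (X 0)) (N : ℕ)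
    (hN : ∀ q, N ≤ q → IsEmpty (X (q + 1)))
    (haug : ∀ σ : X 2, ∑ τ, bd 1 τ σ = 0) (L : ℕ → ℕ)
    (htriv : ∀ q (r : X (q + 1) → ZMod p), Matrix.vecMul r (bd (q + 1)) = 0 →
      ∀ g : Fin (L q) → GG p k, ∃ β : X q → ZMod p, Matrix.vecMul β (bd q) =
        itf (List.ofFn fun i => fun σ : X (q + 1) => g i • σ) r)
    (c : ℕ) (χ : ℕ → ∀ q, X q → Fin k → ZMod p)
    (hχ : ∀ i < c, ∀ q (σ : X q) (g : GG p k), g • σ = σ → ∑ l, χ i q σ l * g.toAdd l = 0)
    (f : ℕ → R) (hf : ∀ i < c, f i = ∏ q ∈ Finset.range (N + 1),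
      ∏ σ : X q, (∑ l, algebraMap (ZMod p) R (χ i q σ l) * ξ l) ^ (p * (p - 1)))
    (hfr : ∀ i < c, ∀ a : R, f i * a ∈ II f i → a ∈ II f i)
    (x : ℕ → R) (hxr : ∀ i < c, ∀ a : R, x i * a ∈ II x i → a ∈ II x i) (hne : II x c ≠ ⊤)
    (v : X 1) (hv : ∀ l, ξ l ∈ II x c ∨ gen p k l • v = v) :
    c < ∑ q ∈ Finset.range N, L q := by
  have hmono := fun q => FF_mono (A := bd (q + 1)) (B := bd q) (hbd q) (hequi q)
  have hrow : ∀ q l (β : X q → ZMod p), Matrix.vecMul β (bd q) ∈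
      FF p k (bd (q + 1)) (bd q) l := by
    intro q l
    induction l with
    | zero => exact fun β => mem_FF_zero.2 ⟨β, rfl⟩
    | succ l ih => exact fun β => hmono q l (ih β)
  have htop : ∀ q (r : X (q + 1) → ZMod p), Matrix.vecMul r (bd (q + 1)) = 0 →
      r ∈ FF p k (bd (q + 1)) (bd q) (L q) := by
    intro q r hr
    refine FF_of_itf (hequi (q + 1)) (L q) r hr fun g => ?_
    exact mem_FF_zero.2 (htriv q r hr g)
  choose b Φ U hΦU hdU hΦW hΦ using fun q l => hLIN (ZMod p) (X (q + 1)) (X q) (bd q)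
    (FF p k (bd (q + 1)) (bd q) l) (hrow q l)
  choose S t hsp using fun q => hLIN2 (ZMod p) (X (q + 1)) (X q) (X (q + 2)) (bd (q + 1)) (bd q)
    (b q (L q)) (Φ q (L q)) (U q (L q)) (hbd q) (hΦU q (L q)) (hdU q (L q))
    (fun φ hφ => hΦ q (L q) φ (htop q φ hφ))
  have hb0 : ∀ q, b q 0 = 0 := by
    intro q
    by_contra hne
    have h1 : (Φ q 0 * U q 0) ⟨0, by omega⟩ ⟨0, by omega⟩ = 1 := by
      rw [hΦU, Matrix.one_apply_eq]
    obtain ⟨β, hβ⟩ := mem_FF_zero.1 (hΦW q 0 ⟨0, by omega⟩)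
    have h2 : (Φ q 0 * U q 0) ⟨0, by omega⟩ ⟨0, by omega⟩ =
        Matrix.vecMul (Φ q 0 ⟨0, by omega⟩) (U q 0) ⟨0, by omega⟩ := rfl
    rw [h2, ← hβ, Matrix.vecMul_vecMul, hdU, Matrix.vecMul_zero] at h1
    exact zero_ne_one h1
  have hcx : Cx (fun q => ex R (bd q)) (fun q j => th p (X q) ξ j) :=
    { dd := fun q y => by
        rw [← ex_mul, hbd, ex_zero]
      comm := fun q j y => th_comm ξ (bd q) (hequi q) j y
      tt := fun q j y => th_th ξ j y
      per := fun q j => th_add_two ξ j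
      m0 := fun y => funext fun τ => (h0.false τ).elim }
  refine boundL (M := fun q => X q → R) hcx N (fun j hj y => ?_) c f ?_
    (fun i q => ∏ σ : X q, (∑ l, algebraMap (ZMod p) R (χ i q σ l) * ξ l) ^ (p * (p - 1))) hf ?_
    L (fun q l => Fin (b q l) → R) ?_ (fun q => ex R (S q)) (fun q => ex R (t q))
    (fun q l => ex R (U q l)) (fun q l => ex R (Φ q l)) ?_ ?_ ?_ ?_ ?_ ?_ x ?_
    (Pi.single v 1) ?_ (∑ σ, LinearMap.proj σ) ?_ ?_ ?_ hne
  · funext σ
    obtain ⟨j, rfl⟩ : ∃ j', j = j' + 1 := ⟨j - 1, by omega⟩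
    exact ((hN j (by omega)).false σ).elim
  · intro i hi j y hy
    rw [mem_fun] at hy ⊢
    exact fun σ => hfr i hi _ (hy σ)
  · intro i hi q j
    exact hKILL p k R (X q) ξ (χ i q) (hχ i hi q) j
  · intro i hi q l y hy
    rw [mem_fun] at hy ⊢
    exact fun σ => hfr i hi _ (hy σ)
  · intro q y
    funext r
    exact absurd r.2 (by have := hb0 q; omega)
  · intro q y
    have h1 : ex R (bd (q + 1) * S q + t q * bd q + U q (L q) * Φ q (L q)) y = y := by
      rw [hsp, ex_one]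
    rw [ex_add, ex_add, ex_mul, ex_mul, ex_mul] at h1
    exact h1.symm
  · intro q l y
    show ex R (Φ q l) (ex R (bd (q + 1)) y) = 0
    have h1 : Φ q l * bd (q + 1) = 0 := by
      funext r
      exact FF_coc (hbd q) l (hΦW q l r)
    rw [← ex_mul, h1, ex_zero]
  · intro q l y
    show ex R (Φ q l) (ex R (U q l) y) = y
    rw [← ex_mul, hΦU, ex_one]
  · intro q l y
    show ex R (bd q) (ex R (U q l) y) = 0
    rw [← ex_mul, hdU, ex_zero]
  · intro q l hl j
    refine fac_th ξ (bd q) (hequi q) (Φ q l) (Φ q (l + 1)) (fun g r => ?_) (fun g r => ?_) j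
    · exact hΦ q l _ ((mem_FF_succ.1 (hΦW q (l + 1) r)).2 g)
    · exact hΦ q l _ ((mem_FF_succ.1 (hmono q l (hΦW q l r))).2 g)
  · intro i hi j y hy
    rw [mem_fun] at hy ⊢
    exact fun σ => hxr i hi _ (hy σ)
  · have key : eta p (X 1) ξ (Pi.single v 1) ∈ II x c • (⊤ : Submodule R (X 1 → R)) := by
      rw [mem_fun]
      intro σ
      rw [eta_apply]
      refine Ideal.sum_mem _ fun l _ => ?_
      rcases hv l with h | h
      · exact Ideal.mul_mem_right _ _ h
      · have : (Pi.single v 1 : X 1 → R) (gen p k l • σ) = (Pi.single v 1 : X 1 → R) σ := by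
          by_cases hs : σ = v
          · rw [hs, h]
          · rw [Pi.single_eq_of_ne hs, Pi.single_eq_of_ne]
            intro h'
            apply hs
            have := congrArg (fun y => (gen p k l)⁻¹ • y) h'
            simp only [inv_smul_smul] at this
            rw [this, inv_smul_eq_iff, h]
        rw [this, sub_self, mul_zero]
        exact Ideal.zero_mem _
    intro j
    show th p (X 1) ξ j (Pi.single v 1) ∈ _
    unfold th
    split_ifs
    · exact key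
    · obtain ⟨m, hm⟩ : ∃ m, p - 1 = m + 1 := ⟨p - 2, by
        have := (Fact.out : p.Prime).two_le
        omega⟩
      rw [hm, pow_succ]
      exact map_mI (eta p (X 1) ξ ^ m) key
  · intro y
    rw [LinearMap.sum_apply]
    show ∑ τ, ex R (bd 1) y τ = 0
    simp only [ex_apply]
    rw [Finset.sum_comm]
    refine Finset.sum_eq_zero fun σ _ => ?_
    rw [← Finset.sum_mul, ← map_sum, haug, map_zero, zero_mul]
  · intro j y
    rw [LinearMap.sum_apply]
    exact sum_th ξ j y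
  · rw [LinearMap.sum_apply]
    show ∑ τ, (Pi.single v 1 : X 1 → R) τ = 1
    simp

end main

end Pool.Agent.E8helper2.ZB
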