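import Pool.Agent.E8helper2.ZB.Stm
import Pool.Agent.E8helper72.ZO.Main

/-!
# Wreath products in groups of matrices: statements
-/

set_option autoImplicit false

namespace Pool.Agent.E8helper2.ZB

open Module Matrix Pool.Agent.E8helper72.ZO

/-- `g` is the permutation matrix of the cyclic permutation of the first `ℓ` coordinates -/
def IsCyc {F : Type} [Ring F] {n : ℕ} (ℓ : ℕ) (g : (Matrix (Fin n) (Fin n) F)ˣ) : Prop :=
  ∃ σ : Equiv.Perm (Fin n), (∀ i : Fin n, ℓ ≤ i.val → σ i = i) ∧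
    (∀ i : Fin n, i.val < ℓ → (σ i).val = (i.val + 1) % ℓ) ∧
    (g : Matrix (Fin n) (Fin n) F) = σ.permMatrix F

/-- `Γ` contains the diagonal matrices with powers of `z` as entries, the product of the entries
being `z ^ d` with `p ∣ d`, which are concentrated on the first `ℓ` coordinates, and the cyclic
permutation of the first `ℓ` coordinates -/
def HasCyc {F : Type} [Ring F] {n : ℕ} (z : F) (p ℓ : ℕ)
    (Γ : Subgroup (Matrix (Fin n) (Fin n) F)ˣ) : Prop :=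
  (∀ (g : (Matrix (Fin n) (Fin n) F)ˣ) (d : Fin n → ℕ), p ∣ ∑ i, d i →
      (∀ i : Fin n, ℓ ≤ i.val → d i = 0) →
      (g : Matrix (Fin n) (Fin n) F) = diagonal (fun i => z ^ d i) → g ∈ Γ) ∧
    ∀ g : (Matrix (Fin n) (Fin n) F)ˣ, IsCyc ℓ g → g ∈ Γ

/-- a subgroup of small index prime to `ℓ` contains a conjugate of the wreath product -/
def S_FIX : Prop := ∀ (p ℓ : ℕ) [Fact p.Prime] [Fact ℓ.Prime], p ≠ ℓ → ∀ (G : Type) [Group G]
  (Γ Δ : Subgroup G) (φ : GG p ℓ →* G) (s : G), (∀ g, φ g ∈ Γ) → s ∈ Γ → s ^ ℓ = 1 →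
    (∀ i, φ (gen p ℓ i) * s = s * φ (gen p ℓ (finRotate ℓ i))) →
    φ (Multiplicative.ofAdd fun _ => 1) = 1 → ¬ ℓ ∣ Δ.relIndex Γ →
    Δ.relIndex Γ < p ^ orderOf (p : ZMod ℓ) →
      ∃ γ ∈ Γ, (∀ g, γ⁻¹ * φ g * γ ∈ Δ) ∧ γ⁻¹ * s * γ ∈ Δ

/-- examples: orthogonal and unitary groups of forms whose first `ℓ` coefficients are equal -/
def S_EXM : Prop :=
  (∀ (F : Type) [CommRing F] (R : Subring F) (n ℓ : ℕ) (f : Fin n → F), Odd ℓ → ℓ ≤ n →
    (∀ i j : Fin n, i.val < ℓ → j.val < ℓ → f i = f j) → HasCyc (-1 : F) 2 ℓ (SOG R f)) ∧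
  (∀ (F : Type) [CommRing F] [StarRing F] (R : Subring F) (z : F) (p n ℓ : ℕ) (h : Fin n → F),
    z ∈ R → z ^ p = 1 → star z * z = 1 → 0 < p → Odd ℓ → ℓ ≤ n →
    (∀ i j : Fin n, i.val < ℓ → j.val < ℓ → h i = h j) → HasCyc z p ℓ (SUG R h)) ∧
  (∀ (F : Type) [Ring F] [StarRing F] (R : Subring F) (n ℓ : ℕ) (h : Fin n → F), 0 < ℓ → ℓ ≤ n →
    (∀ i j : Fin n, i.val < ℓ → j.val < ℓ → h i = h j) → HasCyc (-1 : F) 2 ℓ (UG R h))

end Pool.Agent.E8helper2.ZB
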