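import Pool.Agent.E8helper2.ZB.LatL
import Pool.Agent.E8helper2.ZB.Stm9

/-!
# The wreath product in a group of matrices
-/

set_option autoImplicit false

namespace Pool.Agent.E8helper2.ZB

open Pool.Agent.H185.ZM Pool.Agent.Helper381 Pool.Agent.E8helper72.ZO
open Module Matrix
open scoped Manifold ContDiff

/-- the vectors `ℓ g_i - ∑ g_j` -/
def E0 (p ℓ : ℕ) : GG p ℓ →* (Fin ℓ → Multiplicative (ZMod p)) where
  toFun g i := Multiplicative.ofAdd ((ℓ : ZMod p) * g.toAdd i - ∑ j, g.toAdd j)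
  map_one' := by
    funext i
    show Multiplicative.ofAdd ((ℓ : ZMod p) * 0 - ∑ j : Fin ℓ, (0 : ZMod p)) = 1
    rw [mul_zero, Finset.sum_const_zero, sub_zero]
    rfl
  map_mul' a b := by
    funext i
    show Multiplicative.ofAdd ((ℓ : ZMod p) * (a.toAdd i + b.toAdd i) -
      ∑ j, (a.toAdd j + b.toAdd j)) = Multiplicative.ofAdd (((ℓ : ZMod p) * a.toAdd i -
        ∑ j, a.toAdd j) + ((ℓ : ZMod p) * b.toAdd i - ∑ j, b.toAdd j))
    rw [Finset.sum_add_distrib]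
    congr 1
    ring

theorem E0_apply (p ℓ : ℕ) (g : GG p ℓ) (i : Fin ℓ) :
    E0 p ℓ g i = Multiplicative.ofAdd ((ℓ : ZMod p) * g.toAdd i - ∑ j, g.toAdd j) := rfl

theorem E0_prod (p ℓ : ℕ) (g : GG p ℓ) : ∏ i, E0 p ℓ g i = 1 := by
  simp only [E0_apply]
  rw [← ofAdd_sum, Finset.sum_sub_distrib, ← Finset.mul_sum, Finset.sum_const, Finset.card_univ,
    Fintype.card_fin, nsmul_eq_mul, sub_self]
  rfl

theorem E0_gen (p ℓ : ℕ) (i j : Fin ℓ) :
    E0 p ℓ (gen p ℓ i) j = Multiplicative.ofAdd ((if j = i then (ℓ : ZMod p) else 0) - 1) := by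
  rw [E0_apply]
  have h1 : (gen p ℓ i).toAdd = Pi.single i (1 : ZMod p) := rfl
  rw [h1, Finset.sum_pi_single', if_pos (Finset.mem_univ _)]
  congr 2
  by_cases h : j = i
  · subst h
    simp
  · rw [if_neg h, Pi.single_eq_of_ne h, mul_zero]

theorem E0_ones (p ℓ : ℕ) : E0 p ℓ (Multiplicative.ofAdd fun _ => 1) = 1 := by
  funext i
  rw [E0_apply]
  show Multiplicative.ofAdd ((ℓ : ZMod p) * 1 - ∑ j : Fin ℓ, (1 : ZMod p)) = 1
  rw [Finset.sum_const, Finset.card_univ, Fintype.card_fin, nsmul_eq_mul, sub_self]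
  rfl

theorem eq_of_E0 {p ℓ : ℕ} [Fact p.Prime] (hp : ¬ p ∣ ℓ) (g : GG p ℓ) (i j : Fin ℓ)
    (h : E0 p ℓ g i = E0 p ℓ g j) : g.toAdd i = g.toAdd j := by
  rw [E0_apply, E0_apply] at h
  have h1 : (ℓ : ZMod p) * g.toAdd i - ∑ j, g.toAdd j = (ℓ : ZMod p) * g.toAdd j -
    ∑ j, g.toAdd j := Multiplicative.ofAdd.injective h
  have h2 : (ℓ : ZMod p) ≠ 0 := by
    rw [Ne, ZMod.natCast_eq_zero_iff]
    exact hp
  exact mul_left_cancel₀ h2 (sub_left_injective h1)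

theorem finRotate_val {ℓ : ℕ} (i : Fin ℓ) : (finRotate ℓ i).val = (i.val + 1) % ℓ := by
  cases ℓ with
  | zero => exact i.elim0
  | succ m =>
    rw [finRotate_apply, Fin.val_add]
    rcases Nat.eq_zero_or_pos m with rfl | hm
    · simp
    · congr 2
      rw [Fin.val_one', Nat.mod_eq_of_lt (by omega)]

theorem exists_perm {n ℓ : ℕ} (h1 : 1 ≤ ℓ) (hn : ℓ ≤ n) : ∃ σ : Equiv.Perm (Fin n),
    (∀ i : Fin n, ℓ ≤ i.val → σ i = i) ∧
      ∀ i : Fin n, i.val < ℓ → (σ i).val = (i.val + 1) % ℓ := by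
  have : NeZero n := ⟨by omega⟩
  refine ⟨Fin.cycleRange ⟨ℓ - 1, by omega⟩, fun i hi => ?_, fun i hi => ?_⟩
  · exact Fin.cycleRange_of_gt (by rw [Fin.lt_def]; show ℓ - 1 < i.val; omega)
  · by_cases h : i.val = ℓ - 1
    · have h2 : i = ⟨ℓ - 1, by omega⟩ := Fin.ext h
      rw [h2, Fin.cycleRange_self]
      show 0 = (ℓ - 1 + 1) % ℓ
      rw [Nat.sub_add_cancel h1, Nat.mod_self]
    · rw [Fin.coe_cycleRange_of_lt (by rw [Fin.lt_def]; show i.val < ℓ - 1; omega),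
        Nat.mod_eq_of_lt (by omega)]

variable {F : Type} [Ring F] {n : ℕ}

/-- the permutation matrices as units -/
def pu (F : Type) [Ring F] {n : ℕ} (σ : Equiv.Perm (Fin n)) : (Matrix (Fin n) (Fin n) F)ˣ where
  val := σ.permMatrix F
  inv := (σ⁻¹).permMatrix F
  val_inv := by rw [← permMatrix_mul, inv_mul_cancel, permMatrix_one]
  inv_val := by rw [← permMatrix_mul, mul_inv_cancel, permMatrix_one]

theorem pu_pow (σ : Equiv.Perm (Fin n)) (k : ℕ) : pu F σ ^ k = pu F (σ ^ k) := by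
  induction k with
  | zero =>
    apply Units.ext
    rw [pow_zero, pow_zero, Units.val_one]
    exact permMatrix_one.symm
  | succ k ih =>
    rw [pow_succ, ih, pow_succ']
    apply Units.ext
    rw [Units.val_mul]
    show (σ ^ k).permMatrix F * σ.permMatrix F = (σ * σ ^ k).permMatrix F
    rw [permMatrix_mul]

theorem perm_pow {ℓ : ℕ} {σ : Equiv.Perm (Fin n)} (h1 : ∀ i : Fin n, ℓ ≤ i.val → σ i = i)
    (h2 : ∀ i : Fin n, i.val < ℓ → (σ i).val = (i.val + 1) % ℓ) : σ ^ ℓ = 1 := by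
  ext i
  rw [Equiv.Perm.one_apply]
  by_cases hi : i.val < ℓ
  · have h3 : ∀ k, ((σ ^ k) i).val = (i.val + k) % ℓ := by
      intro k
      induction k with
      | zero => simpa using (Nat.mod_eq_of_lt hi).symm
      | succ k ih =>
        rw [pow_succ', Equiv.Perm.mul_apply, h2 _ (by rw [ih]; exact Nat.mod_lt _ (by omega)), ih,
          Nat.mod_add_mod, add_assoc]
    rw [h3, Nat.add_mod_right, Nat.mod_eq_of_lt hi]
  · have h3 : ∀ k, (σ ^ k) i = i := by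
      intro k
      induction k with
      | zero => rfl
      | succ k ih => rw [pow_succ', Equiv.Perm.mul_apply, ih, h1 i (not_lt.1 hi)]
    rw [h3]

theorem pu_pow_eq {ℓ : ℕ} {σ : Equiv.Perm (Fin n)} (h1 : ∀ i : Fin n, ℓ ≤ i.val → σ i = i)
    (h2 : ∀ i : Fin n, i.val < ℓ → (σ i).val = (i.val + 1) % ℓ) : pu F σ ^ ℓ = 1 := by
  rw [pu_pow, perm_pow h1 h2]
  apply Units.ext
  rw [Units.val_one]
  exact permMatrix_one

/-- the map to the group of matrices -/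
def F0 (z : F) (p ℓ n : ℕ) [NeZero p] (hz : z ^ p = 1) : GG p ℓ →* (Matrix (Fin n) (Fin n) F)ˣ :=
  ((dg (pw z p hz) n).comp (exd _ ℓ n)).comp (E0 p ℓ)

theorem F0_apply {z : F} {p ℓ n : ℕ} [NeZero p] (hz : z ^ p = 1) (g : GG p ℓ) :
    F0 z p ℓ n hz g = dg (pw z p hz) n (exd _ ℓ n (E0 p ℓ g)) := rfl

theorem F0_ones {z : F} {p ℓ n : ℕ} [NeZero p] (hz : z ^ p = 1) :
    F0 z p ℓ n hz (Multiplicative.ofAdd fun _ => 1) = 1 := by
  show ((dg (pw z p hz) n).comp (exd _ ℓ n)) (E0 p ℓ (Multiplicative.ofAdd fun _ => 1)) = 1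
  rw [E0_ones, map_one]

/-- the commutation relation -/
theorem F0_comm {z : F} {p ℓ n : ℕ} [NeZero p] (hz : z ^ p = 1)
    {σ : Equiv.Perm (Fin n)} (h1 : ∀ i : Fin n, ℓ ≤ i.val → σ i = i)
    (h2 : ∀ i : Fin n, i.val < ℓ → (σ i).val = (i.val + 1) % ℓ) (i : Fin ℓ) :
    F0 z p ℓ n hz (gen p ℓ i) * pu F σ = pu F σ * F0 z p ℓ n hz (gen p ℓ (finRotate ℓ i)) := by
  apply Units.ext
  rw [Units.val_mul, Units.val_mul, F0_apply, F0_apply, dg_coe, dg_coe]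
  show _ * σ.permMatrix F = σ.permMatrix F * _
  ext a b
  have hs : σ.permMatrix F a b = if b ∈ σ.toPEquiv a then 1 else 0 := PEquiv.toMatrix_apply _ _ _
  rw [Matrix.diagonal_mul, Matrix.mul_diagonal, hs]
  by_cases hab : σ a = b
  · have h3 : b ∈ σ.toPEquiv a := by
      rw [Equiv.toPEquiv_apply, hab]
      rfl
    rw [if_pos h3, mul_one, one_mul]
    congr 1
    by_cases ha : a.val < ℓ
    · have hb : b.val < ℓ := by
        rw [← hab, h2 a ha]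
        exact Nat.mod_lt _ (by omega)
      rw [exd_lt _ _ ha, exd_lt _ _ hb, E0_gen, E0_gen]
      congr 2
      have h4 : ((⟨b.val, hb⟩ : Fin ℓ) = finRotate ℓ i) ↔ (⟨a.val, ha⟩ : Fin ℓ) = i := by
        have h5 : (⟨b.val, hb⟩ : Fin ℓ) = finRotate ℓ ⟨a.val, ha⟩ := by
          apply Fin.ext
          rw [finRotate_val]
          show b.val = (a.val + 1) % ℓ
          rw [← hab, h2 a ha]
        rw [h5]
        exact (finRotate ℓ).injective.eq_iff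
      by_cases h5 : (⟨a.val, ha⟩ : Fin ℓ) = i
      · rw [if_pos h5, if_pos (h4.2 h5)]
      · rw [if_neg h5, if_neg (fun h => h5 (h4.1 h))]
    · have hb : b = a := by rw [← hab, h1 a (not_lt.1 ha)]
      rw [hb, exd_ge _ _ (not_lt.1 ha), exd_ge _ _ (not_lt.1 ha)]
  · have h3 : ¬ b ∈ σ.toPEquiv a := by
      rw [Equiv.toPEquiv_apply]
      intro h
      exact hab (Option.mem_some_iff.1 h)
    rw [if_neg h3, mul_zero, zero_mul]

theorem F0_mem {z : F} {p ℓ n : ℕ} [NeZero p] (hz : z ^ p = 1) (hn : ℓ ≤ n)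
    {Γ : Subgroup (Matrix (Fin n) (Fin n) F)ˣ} (hΓ : HasCyc z p ℓ Γ) (g : GG p ℓ) :
    F0 z p ℓ n hz g ∈ Γ := by
  refine hΓ.1 _ (fun i => ((exd _ ℓ n (E0 p ℓ g) i).toAdd).val) ?_ (fun i hi => ?_) rfl
  · have h4 : ∏ i, exd _ ℓ n (E0 p ℓ g) i = 1 := (prod_exd hn _).trans (E0_prod p ℓ g)
    have h5 : ∑ i, (exd _ ℓ n (E0 p ℓ g) i).toAdd = 0 := by
      have := congrArg Multiplicative.toAdd h4
      rwa [toAdd_prod, toAdd_one] at this
    rw [← ZMod.natCast_eq_zero_iff, Nat.cast_sum]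
    rw [← h5]
    exact Finset.sum_congr rfl fun i _ => ZMod.natCast_zmod_val _
  · show ((exd _ ℓ n (E0 p ℓ g) i).toAdd).val = 0
    rw [exd_ge _ _ hi]
    exact ZMod.val_zero

theorem F0_PD {z : F} {p ℓ n : ℕ} [NeZero p] (hz : z ^ p = 1) (g : GG p ℓ) :
    F0 z p ℓ n hz g ∈ PD z n := pw_PD hz _

theorem F0_center {z : F} {p ℓ n : ℕ} [Fact p.Prime] (hz : z ^ p = 1) (ho : orderOf z = p)
    (hp : ¬ p ∣ ℓ) (hn : ℓ ≤ n) {g : GG p ℓ}
    (h : F0 z p ℓ n hz g ∈ Subgroup.center (Matrix (Fin n) (Fin n) F)ˣ) (i j : Fin ℓ) :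
    g.toAdd i = g.toAdd j := by
  rw [F0_apply] at h
  have h1 := pw_inj z p hz ho (const_of_center h ⟨i.val, by omega⟩ ⟨j.val, by omega⟩)
  rw [exd_lt (n := n) _ ⟨i.val, _⟩ i.2, exd_lt (n := n) _ ⟨j.val, _⟩ j.2] at h1
  exact eq_of_E0 hp g i j h1

/-- a root of unity in an algebraically closed field -/
theorem exists_zeta (p ℓ : ℕ) [Fact p.Prime] (hp : ¬ p ∣ ℓ) :
    ∃ ζ : AlgebraicClosure (ZMod p), orderOf ζ = ℓ ∧ (ℓ : AlgebraicClosure (ZMod p)) ≠ 0 := by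
  have h0 : (ℓ : ZMod p) ≠ 0 := by
    rw [Ne, ZMod.natCast_eq_zero_iff]
    exact hp
  have : NeZero (ℓ : ZMod p) := ⟨h0⟩
  obtain ⟨ζ, hζ⟩ := HasEnoughRootsOfUnity.exists_primitiveRoot (AlgebraicClosure (ZMod p)) ℓ
  refine ⟨ζ, hζ.eq_orderOf.symm, ?_⟩
  have h1 : (algebraMap (ZMod p) (AlgebraicClosure (ZMod p))) (ℓ : ZMod p) ≠ 0 := by
    rw [Ne, map_eq_zero]
    exact h0
  rwa [map_natCast] at h1

theorem xi_rel {K : Type} [Field K] {ζ : K} {ℓ : ℕ} (hζ : orderOf ζ = ℓ) (hℓ : 0 < ℓ)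
    (i : Fin ℓ) : (ζ⁻¹) ^ i.val = ζ * (ζ⁻¹) ^ (finRotate ℓ i).val := by
  have hz : ζ ^ ℓ = 1 := by rw [← hζ]; exact pow_orderOf_eq_one ζ
  have h0 : ζ ≠ 0 := by
    rintro rfl
    rw [zero_pow (by omega)] at hz
    exact zero_ne_one hz
  have hi : (ζ⁻¹) ^ ℓ = 1 := by rw [inv_pow, hz, inv_one]
  have h1 : (ζ⁻¹) ^ (finRotate ℓ i).val = (ζ⁻¹) ^ (i.val + 1) := by
    rw [finRotate_val]
    conv_rhs => rw [← Nat.mod_add_div (i.val + 1) ℓ, pow_add, pow_mul, hi, one_pow, mul_one]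
  rw [h1, pow_succ', ← mul_assoc, mul_inv_cancel₀ h0, one_mul]

end Pool.Agent.E8helper2.ZB
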