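import Pool.Agent.E8helper2.ZB.Core2

/-!
# Subspaces of fields which are stable under multiplication by a root of unity
-/

set_option autoImplicit false

namespace Pool.Agent.E8helper2.ZB

open Module

theorem free_dvd {K : Type} [Field K] (I : AddSubgroup K) [Finite I] {μ : K}
    (hμ : IsOfFinOrder μ) (h : ∀ x ∈ I, μ * x ∈ I) : orderOf μ ∣ Nat.card I - 1 := by
  classical
  have hμ0 : μ ≠ 0 := by
    rintro rfl
    obtain ⟨n, hn, h0⟩ := isOfFinOrder_iff_pow_eq_one.1 hμ
    rw [zero_pow hn.ne'] at h0
    exact zero_ne_one h0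
  let u : Kˣ := Units.mk0 μ hμ0
  have hu : orderOf u = orderOf μ := by
    rw [← orderOf_units]
    rfl
  have hfu : IsOfFinOrder u := by
    rw [← orderOf_pos_iff, hu]
    exact hμ.orderOf_pos
  have : Finite (Subgroup.zpowers u) := finite_zpowers.2 hfu
  have hpow : ∀ (n : ℕ), ∀ x ∈ I, ((u ^ n : Kˣ) : K) * x ∈ I := by
    intro n
    induction n with
    | zero => intro x hx; simpa using hx
    | succ n ih =>
      intro x hx
      rw [pow_succ', Units.val_mul, mul_assoc]
      exact h _ (ih x hx)
  have hH : ∀ g ∈ Subgroup.zpowers u, ∀ x ∈ I, ((g : Kˣ) : K) * x ∈ I := by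
    intro g hg x hx
    obtain ⟨n, rfl⟩ := hfu.mem_powers_iff_mem_zpowers.2 hg
    exact hpow n x hx
  let β := {x : K // x ∈ I ∧ x ≠ 0}
  have hβ : Finite β := by
    let f : β → I := fun x => ⟨x.1, x.2.1⟩
    refine Finite.of_injective f fun a b hab => Subtype.ext ?_
    exact congrArg (fun z : I => (z : K)) hab
  let act : MulAction (Subgroup.zpowers u) β :=
    { smul := fun g x => ⟨((g : Kˣ) : K) * x.1, hH g g.2 x.1 x.2.1,
        mul_ne_zero (Units.ne_zero _) x.2.2⟩
      one_smul := fun x => Subtype.ext (one_mul _)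
      mul_smul := fun g g' x => Subtype.ext (by
        show (((g * g' : Subgroup.zpowers u) : Kˣ) : K) * x.1 = _
        rw [Subgroup.coe_mul, Units.val_mul, mul_assoc]
        rfl) }
  have hst : ∀ x : β, Nat.card (MulAction.stabilizer (Subgroup.zpowers u) x) = 1 := by
    intro x
    rw [Nat.card_eq_one_iff_unique]
    refine ⟨⟨fun a b => ?_⟩, ⟨1⟩⟩
    have key : ∀ a : MulAction.stabilizer (Subgroup.zpowers u) x, a = 1 := by
      intro a
      apply Subtype.ext
      apply Subtype.ext
      apply Units.ext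
      have h1 : (((a : Subgroup.zpowers u) : Kˣ) : K) * x.1 = x.1 :=
        congrArg Subtype.val a.2
      exact mul_right_cancel₀ x.2.2 (h1.trans (one_mul _).symm)
    rw [key a, key b]
  have hcard : Nat.card (Subgroup.zpowers u) ∣ Nat.card β := by
    let : Fintype β := Fintype.ofFinite _
    let : Fintype (Subgroup.zpowers u) := Fintype.ofFinite _
    let : Fintype (Quotient (MulAction.orbitRel (Subgroup.zpowers u) β)) := Fintype.ofFinite _
    let : ∀ x : β, Fintype (MulAction.stabilizer (Subgroup.zpowers u) x) :=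
      fun x => Fintype.ofFinite _
    rw [Nat.card_eq_fintype_card, Nat.card_eq_fintype_card,
      MulAction.card_eq_sum_card_group_div_card_stabilizer (Subgroup.zpowers u) β]
    refine Finset.dvd_sum fun ω _ => ?_
    have h2 := hst (Quotient.out ω)
    rw [Nat.card_eq_fintype_card] at h2
    rw [h2, Nat.div_one]
  rw [Nat.card_zpowers, hu] at hcard
  have h3 : Nat.card I = Nat.card β + 1 := by
    let e : I ≃ Option β :=
      { toFun := fun x => if h : x.1 = 0 then none else some ⟨x.1, x.2, h⟩
        invFun := fun y => match y with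
          | none => ⟨0, I.zero_mem⟩
          | some z => ⟨z.1, z.2.1⟩
        left_inv := fun x => by
          by_cases h : x.1 = 0
          · simp only [dif_pos h]
            exact Subtype.ext h.symm
          · simp only [dif_neg h]
        right_inv := fun y => by
          rcases y with _ | z
          · simp
          · simp only [dif_neg z.2.2]
            rfl }
    rw [Nat.card_congr e]
    let : Fintype β := Fintype.ofFinite _
    rw [Nat.card_eq_fintype_card, Nat.card_eq_fintype_card, Fintype.card_option]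
  rw [h3, Nat.add_sub_cancel]
  exact hcard

variable {p : ℕ} [Fact p.Prime] {K : Type} [Field K] [Algebra (ZMod p) K]

theorem ord_dvd_finrank (I : Submodule (ZMod p) K) [FiniteDimensional (ZMod p) I] {μ : K}
    (hμ : IsOfFinOrder μ) (h : ∀ x ∈ I, μ * x ∈ I) :
    orderOf (p : ZMod (orderOf μ)) ∣ finrank (ZMod p) I := by
  have : Finite I := Module.finite_of_finite (ZMod p)
  have h1 : orderOf μ ∣ Nat.card I - 1 := by
    have : Finite I.toAddSubgroup := ‹Finite I›
    exact free_dvd I.toAddSubgroup hμ h
  rw [Module.natCard_eq_pow_finrank (K := ZMod p), Nat.card_zmod] at h1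
  rw [orderOf_dvd_iff_pow_eq_one]
  have hp : 1 ≤ p ^ finrank (ZMod p) I := Nat.one_le_pow _ _ (Fact.out : p.Prime).pos
  have h2 := (ZMod.natCast_eq_zero_iff _ _).2 h1
  rw [Nat.cast_sub hp, Nat.cast_pow, Nat.cast_one, sub_eq_zero] at h2
  exact h2

theorem eq_bot_of_lt (I : Submodule (ZMod p) K) [FiniteDimensional (ZMod p) I] {μ : K}
    (hμ : IsOfFinOrder μ) (h : ∀ x ∈ I, μ * x ∈ I)
    (hlt : finrank (ZMod p) I < orderOf (p : ZMod (orderOf μ))) : I = ⊥ := by
  have h1 := ord_dvd_finrank I hμ h
  have h2 := Nat.eq_zero_of_dvd_of_lt h1 hlt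
  exact Submodule.finrank_eq_zero.1 h2

/-- a cycle in an eigenspace is a boundary if the Betti number is small -/
theorem bdry_of_eig {X Y Z : Type} [Fintype X] [Fintype Y] [Fintype Z] [DecidableEq X]
    [DecidableEq Y] [DecidableEq Z] (A : Matrix X Z (ZMod p)) (B : Matrix Y X (ZMod p))
    (hBA : B * A = 0) (b : ℕ) (hb : b + A.rank + B.rank = Fintype.card X) (s : X ≃ X)
    (t : Z ≃ Z) (hst : ∀ x z, A (s x) (t z) = A x z) {μ : K} (hμ : IsOfFinOrder μ)
    (hlt : b < orderOf (p : ZMod (orderOf μ))) (y : X → K) (hy : ex K B y = 0)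
    (hsy : (fun x => y (s x)) = μ • y) : ∃ z, ex K A z = y := by
  obtain ⟨S, T, U, Φ, h1, _, h3⟩ := msplit2 A B hBA b hb
  -- the pairing with y
  let lam : (X → ZMod p) →ₗ[ZMod p] K := ∑ x, (LinearMap.proj x : (X → ZMod p) →ₗ[ZMod p]
    ZMod p).smulRight (y x)
  have hlam : ∀ r, lam r = ∑ x, algebraMap (ZMod p) K (r x) * y x := by
    intro r
    simp only [lam, LinearMap.sum_apply, LinearMap.smulRight_apply, LinearMap.proj_apply,
      Algebra.smul_def]
  let Zc : Submodule (ZMod p) (X → ZMod p) := LinearMap.ker A.vecMulLinear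
  have hZc : ∀ r, r ∈ Zc ↔ Matrix.vecMul r A = 0 := fun r => Iff.rfl
  let I : Submodule (ZMod p) K := Zc.map lam
  have hI : ∀ x ∈ I, μ * x ∈ I := by
    rintro _ ⟨r, hr, rfl⟩
    refine ⟨fun x => r (s.symm x), ?_, ?_⟩
    · rw [SetLike.mem_coe, hZc]
      funext z
      have h4 := congrFun ((hZc r).1 hr) (t.symm z)
      show ∑ x, r (s.symm x) * A x z = 0
      rw [← Equiv.sum_comp s]
      refine Eq.trans ?_ h4
      refine Finset.sum_congr rfl fun x _ => ?_
      have h20 : A (s x) z = A x (t.symm z) := by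
        have := hst x (t.symm z)
        rwa [Equiv.apply_symm_apply] at this
      rw [Equiv.symm_apply_apply, h20]
    · rw [hlam, hlam, ← Equiv.sum_comp s, Finset.mul_sum]
      refine Finset.sum_congr rfl fun x _ => ?_
      have h5 : y (s x) = μ * y x := congrFun hsy x
      rw [Equiv.symm_apply_apply, h5]
      ring
  have hIle : I ≤ Submodule.span (ZMod p) (Set.range fun j => ex K Φ y j) := by
    rintro _ ⟨r, hr, rfl⟩
    have h6 : r = Matrix.vecMul (Matrix.vecMul r T) B + Matrix.vecMul (Matrix.vecMul r U) Φ := by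
      have h7 : Matrix.vecMul r (A * S + T * B + U * Φ) = r := by rw [h1, Matrix.vecMul_one]
      rw [Matrix.vecMul_add, Matrix.vecMul_add, ← Matrix.vecMul_vecMul, ← Matrix.vecMul_vecMul,
        ← Matrix.vecMul_vecMul, (hZc r).1 hr, Matrix.zero_vecMul, zero_add] at h7
      exact h7.symm
    have h8 : lam (Matrix.vecMul (Matrix.vecMul r T) B) = 0 := by
      rw [hlam]
      have h9 : ∀ x, algebraMap (ZMod p) K (Matrix.vecMul (Matrix.vecMul r T) B x) * y x =
          ∑ i, algebraMap (ZMod p) K (Matrix.vecMul r T i) *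
            (algebraMap (ZMod p) K (B i x) * y x) := by
        intro x
        show algebraMap (ZMod p) K (∑ i, Matrix.vecMul r T i * B i x) * y x = _
        rw [map_sum, Finset.sum_mul]
        exact Finset.sum_congr rfl fun i _ => by rw [map_mul]; ring
      simp only [h9]
      rw [Finset.sum_comm]
      refine Finset.sum_eq_zero fun i _ => ?_
      rw [← Finset.mul_sum, ← ex_apply, hy, Pi.zero_apply, mul_zero]
    have h10 : lam (Matrix.vecMul (Matrix.vecMul r U) Φ) =
        ∑ j, Matrix.vecMul r U j • ex K Φ y j := by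
      rw [hlam]
      have h9 : ∀ x, algebraMap (ZMod p) K (Matrix.vecMul (Matrix.vecMul r U) Φ x) * y x =
          ∑ i, algebraMap (ZMod p) K (Matrix.vecMul r U i) *
            (algebraMap (ZMod p) K (Φ i x) * y x) := by
        intro x
        show algebraMap (ZMod p) K (∑ i, Matrix.vecMul r U i * Φ i x) * y x = _
        rw [map_sum, Finset.sum_mul]
        exact Finset.sum_congr rfl fun i _ => by rw [map_mul]; ring
      simp only [h9]
      rw [Finset.sum_comm]
      refine Finset.sum_congr rfl fun i _ => ?_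
      rw [← Finset.mul_sum, ← ex_apply, Algebra.smul_def]
    rw [h6, map_add, h8, h10, zero_add]
    exact Submodule.sum_mem _ fun j _ => Submodule.smul_mem _ _ (Submodule.subset_span ⟨j, rfl⟩)
  have hfd : FiniteDimensional (ZMod p)
      (Submodule.span (ZMod p) (Set.range fun j => ex K Φ y j)) :=
    FiniteDimensional.span_of_finite _ (Set.finite_range _)
  have hfi : FiniteDimensional (ZMod p) I := Submodule.finiteDimensional_of_le hIle
  have hrk : finrank (ZMod p) I ≤ b := by
    refine (Submodule.finrank_mono hIle).trans ?_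
    have h11 := finrank_range_le_card (R := ZMod p) (fun j : Fin b => ex K Φ y j)
    rwa [Fintype.card_fin] at h11
  have hbot := eq_bot_of_lt I hμ hI (lt_of_le_of_lt hrk hlt)
  have hΦ : ex K Φ y = 0 := by
    funext j
    have h12 : ex K Φ y j ∈ I := ⟨Φ j, by
      rw [SetLike.mem_coe, hZc]
      funext z
      exact congrFun (congrFun h3 j) z, by rw [hlam, ex_apply]⟩
    rw [hbot, Submodule.mem_bot] at h12
    exact h12
  refine ⟨ex K S y, ?_⟩
  have h13 : ex K (A * S + T * B + U * Φ) y = y := by rw [h1, ex_one]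
  rw [ex_add, ex_add, ex_mul, ex_mul, ex_mul, hy, hΦ, map_zero, map_zero, add_zero,
    add_zero] at h13
  exact h13

/-- a cycle in an eigenspace is a boundary if the automorphism acts trivially on the cohomology
and the eigenvalue is not one -/
theorem bdry_of_triv {X Y Z : Type} [Fintype X] [Fintype Y] [Fintype Z] [DecidableEq X]
    [DecidableEq Y] [DecidableEq Z] (A : Matrix X Z (ZMod p)) (B : Matrix Y X (ZMod p))
    (hBA : B * A = 0) (b : ℕ) (hb : b + A.rank + B.rank = Fintype.card X) (s : X ≃ X)
    (t : Z ≃ Z) (hst : ∀ x z, A (s x) (t z) = A x z) {μ : K} (hμ : μ ≠ 1)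
    (htriv : ∀ r : X → ZMod p, Matrix.vecMul r A = 0 → ∃ β : Y → ZMod p,
      (fun x => r (s x)) - r = Matrix.vecMul β B) (y : X → K) (hy : ex K B y = 0)
    (hsy : (fun x => y (s x)) = μ • y) : ∃ z, ex K A z = y := by
  obtain ⟨S, T, U, Φ, h1, _, h3⟩ := msplit2 A B hBA b hb
  have hB : ∀ β : Y → ZMod p, ∑ x, algebraMap (ZMod p) K (Matrix.vecMul β B x) * y x = 0 := by
    intro β
    have h9 : ∀ x, algebraMap (ZMod p) K (Matrix.vecMul β B x) * y x =
        ∑ i, algebraMap (ZMod p) K (β i) * (algebraMap (ZMod p) K (B i x) * y x) := by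
      intro x
      show algebraMap (ZMod p) K (∑ i, β i * B i x) * y x = _
      rw [map_sum, Finset.sum_mul]
      exact Finset.sum_congr rfl fun i _ => by rw [map_mul]; ring
    simp only [h9]
    rw [Finset.sum_comm]
    refine Finset.sum_eq_zero fun i _ => ?_
    rw [← Finset.mul_sum, ← ex_apply, hy, Pi.zero_apply, mul_zero]
  have key : ∀ r : X → ZMod p, Matrix.vecMul r A = 0 →
      ∑ x, algebraMap (ZMod p) K (r x) * y x = 0 := by
    intro r hr
    let r' : X → ZMod p := fun x => r (s.symm x)
    have hr' : Matrix.vecMul r' A = 0 := by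
      funext z
      have h4 := congrFun hr (t.symm z)
      show ∑ x, r (s.symm x) * A x z = 0
      rw [← Equiv.sum_comp s]
      refine Eq.trans ?_ h4
      refine Finset.sum_congr rfl fun x _ => ?_
      have h20 : A (s x) z = A x (t.symm z) := by
        have := hst x (t.symm z)
        rwa [Equiv.apply_symm_apply] at this
      rw [Equiv.symm_apply_apply, h20]
    have h5 : ∑ x, algebraMap (ZMod p) K (r' x) * y x =
        μ * ∑ x, algebraMap (ZMod p) K (r x) * y x := by
      rw [← Equiv.sum_comp s, Finset.mul_sum]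
      refine Finset.sum_congr rfl fun x _ => ?_
      have h5 : y (s x) = μ * y x := congrFun hsy x
      show algebraMap (ZMod p) K (r (s.symm (s x))) * y (s x) = _
      rw [Equiv.symm_apply_apply, h5]
      ring
    obtain ⟨β, hβ⟩ := htriv r' hr'
    have h6 := hB β
    rw [← hβ] at h6
    have h7 : ∀ x, algebraMap (ZMod p) K (((fun x => r' (s x)) - r') x) * y x =
        algebraMap (ZMod p) K (r x) * y x - algebraMap (ZMod p) K (r' x) * y x := by
      intro x
      show algebraMap (ZMod p) K (r (s.symm (s x)) - r' x) * y x = _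
      rw [Equiv.symm_apply_apply, map_sub]
      ring
    simp only [h7] at h6
    rw [Finset.sum_sub_distrib, h5] at h6
    have h8 : (1 - μ) * ∑ x, algebraMap (ZMod p) K (r x) * y x = 0 := by
      rw [sub_mul, one_mul]
      exact h6
    rcases mul_eq_zero.1 h8 with h | h
    · exact absurd (sub_eq_zero.1 h).symm hμ
    · exact h
  have hΦ : ex K Φ y = 0 := by
    funext j
    rw [ex_apply]
    exact key (Φ j) (funext fun z => congrFun (congrFun h3 j) z)
  refine ⟨ex K S y, ?_⟩
  have h13 : ex K (A * S + T * B + U * Φ) y = y := by rw [h1, ex_one]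
  rw [ex_add, ex_add, ex_mul, ex_mul, ex_mul, hy, hΦ, map_zero, map_zero, add_zero,
    add_zero] at h13
  exact h13

end Pool.Agent.E8helper2.ZB
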