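import Pool.Agent.E8helper2.ZB.Stm2

/-!
# Abelian groups of exponent four acting on closed manifolds: statement
-/

set_option autoImplicit false

namespace Pool.Agent.E8helper2.ZB

open Module Pool.Agent.Helper381 Pool.Agent.H185.ZM
open scoped Manifold ContDiff

/-- **Manifolds, exponent four.** A finite abelian group `P` with `x ^ 4 = 1` for all `x` acts
smoothly on the closed connected manifold `M` of dimension `m` and total mod `2` Betti number `B`;
then `|P|` divides `|kernel| 2 ^ m 4 ^ (B - 1)`. -/
def S_MAN4 : Prop := ∀ (E : Type) [NormedAddCommGroup E] [NormedSpace ℝ E]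
  [FiniteDimensional ℝ E] (M : Type) [TopologicalSpace M] [ChartedSpace E M]
  [IsManifold 𝓘(ℝ, E) ∞ M] [CompactSpace M] [T2Space M] [ConnectedSpace M] (P : Type)
  [CommGroup P] [Finite P], (∀ x : P, x ^ 4 = 1) → ∀ (a : P → M → M) (ha : SmoothAction E a),
    Nat.card P ∣ Nat.card (actKer ha) *
      (2 ^ (finrank ℝ E) * 4 ^ ((totalBetti (ZMod 2) M).toNat - 1))

end Pool.Agent.E8helper2.ZB
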