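import Pool.Agent.E8helper2.ZB.LatW
import Pool.Agent.E8helper35.ZB.Exm

/-!
# Examples
-/

set_option autoImplicit false

namespace Pool.Agent.E8helper2.ZB

open Module Matrix Pool.Agent.E8helper72.ZO Pool.Agent.E8helper38.ZB Pool.Agent.E8helper35.ZB

theorem hasSym_SOG {F : Type} [CommRing F] (R : Subring F) {n r : ℕ} (f : Fin n → F)
    (hf : ∀ i j : Fin n, i.val < r → j.val < r → f i = f j) : HasSym r (SOG R f) := by
  refine ⟨fun g d hd _ hg => sog_sign R f g d hd hg, fun g σ hs h1 h3 => ?_⟩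
  have hlt : ∀ i : Fin n, i.val < r → (σ i).val < r := by
    intro i hi
    by_contra hge
    have h4 := h1 (σ i) (not_lt.1 hge)
    have h5 := σ.injective h4
    rw [h5] at hge
    exact hge hi
  have hinv : ∀ i, f (σ i) = f i := by
    intro i
    rcases lt_or_ge i.val r with hi | hi
    · exact hf _ _ (hlt i hi) hi
    · rw [h1 i hi]
  refine ⟨⟨fun i j => ?_, fun i j => ?_⟩, ?_, ?_⟩
  · rw [h3]
    exact pm_mem R σ i j
  · rw [pm_inv h3]
    exact pm_mem R σ j i
  · rw [h3]
    exact pm_form σ f hinv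
  · rw [h3, det_permutation, hs]
    simp

theorem hasCyc_UG {F : Type} [Ring F] [StarRing F] (R : Subring F) {z : F} {p n ℓ : ℕ}
    (h : Fin n → F) (hzR : z ∈ R) (hz : z ^ p = 1) (hp : 0 < p)
    (hzh : ∀ i, star z * h i * z = h i) (hℓ : 0 < ℓ)
    (hf : ∀ i j : Fin n, i.val < ℓ → j.val < ℓ → h i = h j) : HasCyc z p ℓ (UG R h) := by
  refine ⟨fun g d _ _ hg => ?_, fun g hg => ug_cyc R h hℓ hf g hg⟩
  have hpow : ∀ m : ℕ, (z ^ m) ∈ R := fun m => R.pow_mem hzR m
  have h1 : (g : Matrix (Fin n) (Fin n) F) * diagonal (fun i => z ^ ((p - 1) * d i)) = 1 := by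
    rw [hg, diagonal_mul_diagonal, ← diagonal_one]
    congr 1
    funext i
    have h2 : z ^ d i * z ^ ((p - 1) * d i) = (z ^ p) ^ d i := by
      rw [← pow_add, ← pow_mul]
      congr 1
      obtain ⟨q, rfl⟩ : ∃ q, p = q + 1 := ⟨p - 1, by omega⟩
      rw [Nat.add_sub_cancel]
      ring
    rw [h2, hz, one_pow]
  have h2 : ((g⁻¹ : (Matrix (Fin n) (Fin n) F)ˣ) : Matrix (Fin n) (Fin n) F) =
      diagonal (fun i => z ^ ((p - 1) * d i)) := by
    calc ((g⁻¹ : (Matrix (Fin n) (Fin n) F)ˣ) : Matrix (Fin n) (Fin n) F)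
        = ((g⁻¹ : (Matrix (Fin n) (Fin n) F)ˣ) : Matrix (Fin n) (Fin n) F) *
          ((g : Matrix (Fin n) (Fin n) F) * diagonal (fun i => z ^ ((p - 1) * d i))) := by
            rw [h1, Matrix.mul_one]
      _ = diagonal (fun i => z ^ ((p - 1) * d i)) := by
            rw [← Matrix.mul_assoc, Units.inv_mul, Matrix.one_mul]
  have key : ∀ (i : Fin n) (m : ℕ), star (z ^ m) * h i * z ^ m = h i := by
    intro i m
    induction m with
    | zero => simp
    | succ m ih =>
      calc star (z ^ (m + 1)) * h i * z ^ (m + 1)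
          = star (z ^ m) * (star z * h i * z) * z ^ m := by
            rw [pow_succ' z m, star_mul]
            simp only [mul_assoc]
        _ = h i := by rw [hzh, ih]
  refine ⟨⟨fun i j => ?_, fun i j => ?_⟩, ?_⟩
  · rw [hg]
    exact diag_mem R (fun i => hpow _) i j
  · rw [h2]
    exact diag_mem R (fun i => hpow _) i j
  · rw [hg, diagonal_conjTranspose, diagonal_mul_diagonal, diagonal_mul_diagonal]
    congr 1
    funext i
    rw [Pi.star_apply]
    exact key i _

end Pool.Agent.E8helper2.ZB
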