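import Pool.Agent.E8helper2.ZB.Pos

/-!
# Isotropy groups of elementary abelian groups acting on finite posets
-/

set_option autoImplicit false

namespace Pool.Agent.E8helper2.ZB

open Module Pool.Agent.Helper381

section ann

variable {p k : ℕ} [Fact p.Prime]

/-- a subgroup `H` of `(ℤ/p)^k` and the space `W` of the characters which vanish on it:
`p ^ k = |H| p ^ (dim W)` -/
theorem exists_ann (H : Subgroup (GG p k)) :
    ∃ W : Submodule (ZMod p) (Fin k → ZMod p),
      (∀ χ ∈ W, ∀ g ∈ H, ∑ i, χ i * (Multiplicative.toAdd g) i = 0) ∧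
        Nat.card (GG p k) = Nat.card H * p ^ finrank (ZMod p) W := by
  let H' : Submodule (ZMod p) (Fin k → ZMod p) :=
    AddSubgroup.toZModSubmodule p (Subgroup.toAddSubgroup' H)
  let e : (Fin k → ZMod p) ≃ₗ[ZMod p] Dual (ZMod p) (Fin k → ZMod p) :=
    (Pi.basisFun (ZMod p) (Fin k)).constr (ZMod p)
  have he : ∀ χ v, e χ v = ∑ i, χ i * v i := by
    intro χ v
    rw [Basis.constr_apply_fintype]
    refine Finset.sum_congr rfl fun i _ => ?_
    simp [mul_comm]
  let W : Submodule (ZMod p) (Fin k → ZMod p) := H'.dualAnnihilator.map e.symm.toLinearMap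
  have hmem : ∀ g : GG p k, g ∈ H ↔ Multiplicative.toAdd g ∈ H' := fun g => Iff.rfl
  refine ⟨W, ?_, ?_⟩
  · intro χ hχ g hg
    rw [← he]
    have h1 : e χ ∈ H'.dualAnnihilator := by
      obtain ⟨φ, hφ, rfl⟩ := hχ
      simpa using hφ
    rw [Submodule.mem_dualAnnihilator] at h1
    exact h1 _ ((hmem g).1 hg)
  · have h1 : finrank (ZMod p) W = finrank (ZMod p) H'.dualAnnihilator :=
      LinearEquiv.finrank_map_eq e.symm _
    have h2 := Subspace.finrank_add_finrank_dualAnnihilator_eq H'
    have h3 : Nat.card (GG p k) = p ^ k := by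
      rw [Nat.card_congr Multiplicative.toAdd, Nat.card_fun, Nat.card_zmod, Nat.card_fin]
    have h4 : Nat.card H = p ^ finrank (ZMod p) H' := by
      have : Nat.card H = Nat.card H' := Nat.card_congr
        ((Multiplicative.toAdd (α := Fin k → ZMod p)).subtypeEquiv fun g => hmem g)
      rw [this, Module.natCard_eq_pow_finrank (K := ZMod p), Nat.card_zmod]
    rw [h3, h4, h1, ← pow_add]
    congr 1
    rw [h2, Module.finrank_fintype_fun_eq_card, Fintype.card_fin]

end ann

theorem exists_equiv {p : ℕ} [Fact p.Prime] (G : Type) [CommGroup G] [Finite G]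
    (hG : ∀ g : G, g ^ p = 1) : ∃ k : ℕ, Nonempty (GG p k ≃* G) := by
  let : Module (ZMod p) (Additive G) := AddCommGroup.zmodModule (n := p) (fun x => hG x)
  let b := Module.finBasis (ZMod p) (Additive G)
  exact ⟨_, ⟨(AddEquiv.toMultiplicativeLeft b.equivFun.toAddEquiv.symm)⟩⟩

theorem pos : S_POS := by
  classical
  intro p _ G _ _ hG P _ _ Q hQ hne hmono hmem
  obtain ⟨k, ⟨e⟩⟩ := exists_equiv (p := p) G hG
  have hfin : ∀ n, Finite (Ch Q n) := finite_Ch hQ
  let : ∀ n, Fintype (Ch Q n) := fun n => Fintype.ofFinite _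
  let act : ∀ n, MulAction (GG p k) (Ch Q n) := fun n =>
    { smul := fun g c => ⟨fun i => e g • c.1 i, (hmono (e g)).comp c.2.1,
        fun i => hmem _ _ (c.2.2 i)⟩
      one_smul := fun c => Subtype.ext (funext fun i => by
        show e 1 • c.1 i = c.1 i
        rw [map_one, one_smul])
      mul_smul := fun g h c => Subtype.ext (funext fun i => by
        show e (g * h) • c.1 i = e g • e h • c.1 i
        rw [map_mul, mul_smul]) }
  obtain ⟨x, hx⟩ := hne
  have hsm : StrictMono (fun _ : Fin 1 => x) := Subsingleton.strictMono _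
  let v : Ch Q 0 := ⟨fun _ => x, hsm, fun _ => hx⟩
  obtain ⟨q, σ, h⟩ := semi (p := p) (k := k) (C := Ch Q) (cface (Q := Q))
    (fun n i j c hij => cface_cface n i j c hij) (fun n i g c => rfl) v Q.ncard
    (fun q hq => isEmpty_Ch hQ q hq)
  obtain ⟨W, hW, hcard⟩ := exists_ann (MulAction.stabilizer (GG p k) σ)
  have h1 : finrank (ZMod p) W + 1 ≤ ∑ n ∈ Finset.range Q.ncard,
      finrank (ZMod p) (OrdCoh (ZMod p) Q n) := h W (fun χ hχ g hg => hW χ hχ g hg)
  refine ⟨σ.1 0, σ.2.2 0, ?_⟩
  have h2 : Nat.card (MulAction.stabilizer (GG p k) σ) ∣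
      Nat.card (MulAction.stabilizer G (σ.1 0)) := by
    let θ : MulAction.stabilizer (GG p k) σ →* MulAction.stabilizer G (σ.1 0) :=
      { toFun := fun g => ⟨e g, congrArg (fun c : Ch Q q => c.1 0) g.2⟩
        map_one' := Subtype.ext (map_one e)
        map_mul' := fun a b => Subtype.ext (map_mul e _ _) }
    refine Subgroup.card_dvd_of_injective θ (fun a b hab => ?_)
    exact Subtype.ext (e.injective (congrArg Subtype.val hab))
  rw [← Nat.card_congr e.toEquiv, hcard]
  exact mul_dvd_mul h2 (pow_dvd_pow p (by omega))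

end Pool.Agent.E8helper2.ZB
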