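import Pool.Agent.E8helper2.ZB.Core2
import Pool.Agent.E8helper2.ZB.Pos2

/-!
# Homologically trivial actions on semisimplicial sets
-/

set_option autoImplicit false

namespace Pool.Agent.E8helper2.ZB

open Module Lev Pool.Agent.Helper381

section coord

variable (p : ℕ) [Fact p.Prime]

/-- the field of coefficients -/
abbrev KK : Type := FractionRing (Polynomial (ZMod p))

/-- independent elements -/
noncomputable def yy (j : ℕ) : KK p := algebraMap (Polynomial (ZMod p)) (KK p) (Polynomial.X ^ j)

theorem yy_indep {t : ℕ} (a : Fin t → ZMod p)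
    (h : ∑ j, algebraMap (ZMod p) (KK p) (a j) * yy p j = 0) : a = 0 := by
  have h1 : ∑ j, algebraMap (ZMod p) (KK p) (a j) * yy p j =
      algebraMap (Polynomial (ZMod p)) (KK p) (∑ j : Fin t, Polynomial.C (a j) *
        Polynomial.X ^ (j : ℕ)) := by
    rw [map_sum]
    refine Finset.sum_congr rfl fun j _ => ?_
    rw [map_mul, IsScalarTower.algebraMap_apply (ZMod p) (Polynomial (ZMod p)) (KK p)]
    rfl
  rw [h1, map_eq_zero_iff _ (IsFractionRing.injective (Polynomial (ZMod p)) (KK p))] at h
  funext j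
  have h2 := congrArg (fun q => Polynomial.coeff q (j : ℕ)) h
  simp only [Polynomial.finsetSum_coeff, Polynomial.coeff_C_mul_X_pow, Polynomial.coeff_zero] at h2
  rw [Finset.sum_eq_single j] at h2
  · simpa using h2
  · intro i _ hij
    rw [if_neg]
    intro h3
    exact hij (Fin.ext h3.symm)
  · intro h3
    exact absurd (Finset.mem_univ _) h3

/-- the coordinates -/
noncomputable def xi (c t : ℕ) : Fin (c + t) → MvPolynomial (Fin c) (KK p) :=
  Fin.append (fun i => MvPolynomial.X i) (fun j => MvPolynomial.C (yy p j))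

theorem sum_xi (c t : ℕ) (χ : Fin (c + t) → ZMod p) :
    ∑ l, algebraMap (ZMod p) (MvPolynomial (Fin c) (KK p)) (χ l) * xi p c t l =
      ∑ i : Fin c, algebraMap (ZMod p) (MvPolynomial (Fin c) (KK p)) (χ (Fin.castAdd t i)) *
        MvPolynomial.X i + MvPolynomial.C (∑ j : Fin t,
          algebraMap (ZMod p) (KK p) (χ (Fin.natAdd c j)) * yy p j) := by
  rw [Fin.sum_univ_add, map_sum]
  congr 1
  · refine Finset.sum_congr rfl fun i _ => ?_
    rw [xi, Fin.append_left]
  · refine Finset.sum_congr rfl fun j _ => ?_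
    rw [xi, Fin.append_right, map_mul]
    rfl

theorem exists_char (c t : ℕ) (W : Submodule (ZMod p) (Fin (c + t) → ZMod p))
    (hW : c ≤ finrank (ZMod p) W) (i : Fin c) :
    ∃ χ ∈ W, ∃ L : Polynomial (KK p), L ≠ 0 ∧
      ∑ l, algebraMap (ZMod p) (MvPolynomial (Fin c) (KK p)) (χ l) * xi p c t l =
        Polynomial.aeval (MvPolynomial.X i : MvPolynomial (Fin c) (KK p)) L := by
  classical
  let π : W →ₗ[ZMod p] (Fin c → ZMod p) :=
    (LinearMap.funLeft (ZMod p) (ZMod p) (Fin.castAdd t)).comp W.subtype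
  have hπ : ∀ (χ : W) i, π χ i = χ.1 (Fin.castAdd t i) := fun _ _ => rfl
  by_cases hinj : Function.Injective π
  · have h1 : finrank (ZMod p) W = finrank (ZMod p) (Fin c → ZMod p) := by
      apply le_antisymm (LinearMap.finrank_le_finrank_of_injective hinj)
      rw [Module.finrank_fintype_fun_eq_card, Fintype.card_fin]
      exact hW
    obtain ⟨χ, hχ⟩ := (LinearMap.injective_iff_surjective_of_finrank_eq_finrank h1).1 hinj
      (Pi.single i 1)
    refine ⟨χ.1, χ.2, Polynomial.X + Polynomial.C (∑ j : Fin t,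
      algebraMap (ZMod p) (KK p) (χ.1 (Fin.natAdd c j)) * yy p j),
      Polynomial.X_add_C_ne_zero _, ?_⟩
    rw [sum_xi, map_add, Polynomial.aeval_X, Polynomial.aeval_C]
    congr 1
    rw [Finset.sum_eq_single i]
    · rw [← hπ, hχ, Pi.single_eq_same, map_one, one_mul]
    · intro j _ hj
      rw [← hπ, hχ, Pi.single_eq_of_ne hj, map_zero, zero_mul]
    · intro h3
      exact absurd (Finset.mem_univ _) h3
  · have h1 : ∃ χ : W, χ ≠ 0 ∧ π χ = 0 := by
      by_contra hcon
      push Not at hcon
      apply hinj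
      rw [← LinearMap.ker_eq_bot, LinearMap.ker_eq_bot']
      intro χ h
      by_contra hne
      exact hcon χ hne h
    obtain ⟨χ, hne, hχ⟩ := h1
    refine ⟨χ.1, χ.2, Polynomial.C (∑ j : Fin t,
      algebraMap (ZMod p) (KK p) (χ.1 (Fin.natAdd c j)) * yy p j), ?_, ?_⟩
    · rw [Ne, Polynomial.C_eq_zero]
      intro h
      apply hne
      apply Subtype.ext
      funext l
      have h2 := yy_indep p _ h
      refine Fin.addCases (fun i => ?_) (fun j => ?_) l
      · rw [← hπ, hχ]; rfl
      · exact congrFun h2 j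
    · rw [sum_xi, Polynomial.aeval_C]
      have : ∑ i : Fin c, algebraMap (ZMod p) (MvPolynomial (Fin c) (KK p))
          (χ.1 (Fin.castAdd t i)) * MvPolynomial.X i = 0 := by
        refine Finset.sum_eq_zero fun i _ => ?_
        rw [← hπ, hχ, Pi.zero_apply, map_zero, zero_mul]
      rw [this, zero_add]
      rfl

end coord

section reg

variable {K : Type} [Field K] {c : ℕ}

/-- the sequence -/
noncomputable def sq (F : Fin c → Polynomial K) (i : ℕ) : MvPolynomial (Fin c) K :=
  if h : i < c then Polynomial.aeval (MvPolynomial.X ⟨i, h⟩ : MvPolynomial (Fin c) K) (F ⟨i, h⟩)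
  else 0

theorem sq_apply (F : Fin c → Polynomial K) (i : ℕ) (h : i < c) :
    sq F i = Polynomial.aeval (MvPolynomial.X ⟨i, h⟩ : MvPolynomial (Fin c) K) (F ⟨i, h⟩) :=
  dif_pos h

theorem sq_reg (hREG : S_REG) (F : Fin c → Polynomial K) (hF : ∀ i, F i ≠ 0) (i : ℕ) (h : i < c)
    (a : MvPolynomial (Fin c) K) (ha : sq F i * a ∈ II (sq F) i) : a ∈ II (sq F) i := by
  have e : {x | ∃ l < i, x = sq F l} = {x | ∃ l < (⟨i, h⟩ : Fin c), x =
      Polynomial.aeval (MvPolynomial.X l : MvPolynomial (Fin c) K) (F l)} := by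
    ext x
    constructor
    · rintro ⟨l, hl, rfl⟩
      exact ⟨⟨l, by omega⟩, hl, sq_apply F l (by omega)⟩
    · rintro ⟨l, hl, rfl⟩
      exact ⟨l.1, hl, (sq_apply F l.1 l.2).symm⟩
  unfold II at ha ⊢
  rw [e] at ha ⊢
  refine hREG c K F hF ⟨i, h⟩ a ?_
  rw [sq_apply F i h] at ha
  exact ha

theorem sq_X (i : ℕ) (h : i < c) :
    sq (fun _ : Fin c => (Polynomial.X : Polynomial K)) i = MvPolynomial.X ⟨i, h⟩ := by
  rw [sq_apply _ i h, Polynomial.aeval_X]

theorem sq_ne : II (sq (fun _ : Fin c => (Polynomial.X : Polynomial K))) c ≠ ⊤ := by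
  intro h
  have h1 : II (sq (fun _ : Fin c => (Polynomial.X : Polynomial K))) c ≤
      RingHom.ker (MvPolynomial.constantCoeff (σ := Fin c) (R := K)) := by
    unfold II
    rw [Ideal.span_le]
    rintro _ ⟨l, hl, rfl⟩
    rw [sq_X l hl]
    exact MvPolynomial.constantCoeff_X ..
  rw [h] at h1
  have h2 := h1 (Submodule.mem_top (x := (1 : MvPolynomial (Fin c) K)))
  rw [RingHom.mem_ker, map_one] at h2
  exact one_ne_zero h2

end reg

section emp

/-- the family with the empty set added -/
def XE (C : ℕ → Type) : ℕ → Type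
  | 0 => PEmpty
  | q + 1 => C q

instance instXEF (C : ℕ → Type) [∀ q, Fintype (C q)] : ∀ q, Fintype (XE C q)
  | 0 => inferInstanceAs (Fintype PEmpty)
  | q + 1 => inferInstanceAs (Fintype (C q))

instance instXED (C : ℕ → Type) [∀ q, DecidableEq (C q)] : ∀ q, DecidableEq (XE C q)
  | 0 => inferInstanceAs (DecidableEq PEmpty)
  | q + 1 => inferInstanceAs (DecidableEq (C q))

instance instXEM {G : Type} [Monoid G] (C : ℕ → Type) [∀ q, MulAction G (C q)] :
    ∀ q, MulAction G (XE C q)
  | 0 => { smul := fun _ x => x, one_smul := fun _ => rfl, mul_smul := fun _ _ _ => rfl }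
  | q + 1 => inferInstanceAs (MulAction G (C q))

variable {p : ℕ} {C : ℕ → Type} [∀ q, Fintype (C q)] [∀ q, DecidableEq (C q)]
  (face : ∀ n, Fin (n + 2) → C (n + 1) → C n)

/-- the boundary matrices -/
def bde (p : ℕ) (face : ∀ n, Fin (n + 2) → C (n + 1) → C n) :
    ∀ q, Matrix (XE C q) (XE C (q + 1)) (ZMod p)
  | 0 => fun τ _ => PEmpty.elim τ
  | q + 1 => fun (τ : C q) (σ : C (q + 1)) => ∑ i : Fin (q + 2),
      if face q i σ = τ then (-1 : ZMod p) ^ (i : ℕ) else 0

theorem bde_altd (q : ℕ) (f : C q → ZMod p) (σ : C (q + 1)) :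
    ∑ τ : C q, f τ * bde p face (q + 1) τ σ = altd (ZMod p) face q f σ := by
  have h := congrFun (LinearMap.congr_fun (bdm_altd (p := p) face q) f) σ
  refine Eq.trans ?_ h
  show _ = ∑ τ : C q, bdm p face (q + 1) τ σ * f τ
  exact Finset.sum_congr rfl fun τ _ => mul_comm _ _

variable (hface : ∀ n (i j : Fin (n + 2)) (σ : C (n + 2)), i ≤ j →
      face n i (face (n + 1) j.succ σ) = face n j (face (n + 1) i.castSucc σ))

include hface

/-- **Isotropy groups for semisimplicial sets, homologically trivial actions.** -/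
theorem semiT (hKILL : S_KILL) (hREG : S_REG) [Fact p.Prime] (c t : ℕ)
    [∀ q, MulAction (GG p (c + t)) (C q)]
    (hact : ∀ n i (g : GG p (c + t)) σ, face n i (g • σ) = g • face n i σ) (v : C 0)
    (hv : ∀ j : Fin t, gen p (c + t) (Fin.natAdd c j) • v = v) (N : ℕ)
    (hN : ∀ q, N ≤ q → IsEmpty (C q))
    (hW : ∀ q (σ : C q), ∃ W : Submodule (ZMod p) (Fin (c + t) → ZMod p),
      (∀ χ ∈ W, ∀ g : GG p (c + t), g • σ = σ → ∑ i, χ i * g.toAdd i = 0) ∧
        c ≤ finrank (ZMod p) W)
    (htriv : ∀ q (g : GG p (c + t)), ∀ b ∈ LinearMap.ker (altd (ZMod p) face q),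
      (fun σ => b (g • σ)) - b ∈
        cobound (ZMod p) (fun n => C n → ZMod p) (fun n => altd (ZMod p) face n) q) :
    c < ((Finset.range N).filter (fun q => finrank (ZMod p)
      (Coh (ZMod p) (fun n => C n → ZMod p) (fun n => altd (ZMod p) face n) q) ≠ 0)).card := by
  classical
  let β : ℕ → ℕ := fun n => finrank (ZMod p)
          (Coh (ZMod p) (fun n => C n → ZMod p) (fun n => altd (ZMod p) face n) n)
  have hd : ∀ n x, altd (ZMod p) face (n + 1) (altd (ZMod p) face n x) = 0 :=
    fun n x => altd_altd face hface n x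
  have hrk : ∀ q, (bde p face (q + 1)).rank = finrank (ZMod p) (LinearMap.range
      (altd (ZMod p) face q)) := by
    intro q
    have : (bde p face (q + 1)).rank = (bdm p face (q + 1)).rank := rfl
    rw [this, ← Matrix.rank_transpose, Matrix.rank, bdm_altd]
    rfl
  have hrk0 : (bde p face 0).rank = 0 := by
    have h1 := (bde p face 0).rank_le_card_height
    have h2 : Fintype.card (XE C 0) = 0 := Fintype.card_eq_zero_iff.2 ⟨fun x => PEmpty.elim x⟩
    omega
  have hcard : ∀ q, Fintype.card (XE C (q + 1)) = finrank (ZMod p) (C q → ZMod p) := by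
    intro q
    rw [Module.finrank_fintype_fun_eq_card]
    rfl
  have hcoh : ∀ q, β q + finrank (ZMod p) (LinearMap.range (altd (ZMod p) face q)) +
      rkb (C := fun n => C n → ZMod p) (fun n => altd (ZMod p) face n) q =
      finrank (ZMod p) (C q → ZMod p) := fun q =>
    finrank_coh (C := fun n => C n → ZMod p) (fun n => altd (ZMod p) face n) hd q
  -- the characters
  choose W hW1 hW2 using hW
  choose ch hch L hL0 hL using fun (i : Fin c) q (σ : C q) => exists_char p c t (W q σ) (hW2 q σ) i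
  let χ : ℕ → ∀ q, XE C q → Fin (c + t) → ZMod p := fun i q => match q with
    | 0 => fun _ => 0
    | q + 1 => fun σ => if h : i < c then ch ⟨i, h⟩ q σ else 0
  let LL : Fin c → ∀ q, XE C q → Polynomial (KK p) := fun i q => match q with
    | 0 => fun _ => 1
    | q + 1 => fun σ => L i q σ
  have hχs : ∀ i (h : i < c) q (σ : C q), χ i (q + 1) σ = ch ⟨i, h⟩ q σ := fun i h q σ => dif_pos h
  let F : Fin c → Polynomial (KK p) := fun i => ∏ q ∈ Finset.range (N + 1),
    ∏ σ : XE C q, LL i q σ ^ (p * (p - 1))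
  have hF : ∀ i, F i ≠ 0 := by
    intro i
    refine Finset.prod_ne_zero_iff.2 fun q _ => Finset.prod_ne_zero_iff.2 fun σ _ => ?_
    refine pow_ne_zero _ ?_
    cases q with
    | zero => exact one_ne_zero
    | succ q => exact hL0 i q σ
  refine core2 (p := p) (k := c + t) (X := XE C) hKILL (MvPolynomial (Fin c) (KK p)) (xi p c t)
    (bde p face) ?_ ?_ ⟨fun x => PEmpty.elim x⟩ N hN β ?_ ?_ ?_ c χ ?_ (sq F) ?_
    (fun i hi a => sq_reg hREG F hF i hi a) (sq fun _ => Polynomial.X)
    (fun i hi a => sq_reg hREG _ (fun _ => Polynomial.X_ne_zero) i hi a) sq_ne v ?_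
  · intro q
    cases q with
    | zero =>
      funext τ
      exact PEmpty.elim τ
    | succ q => exact bdm_bdm (p := p) face hface (q + 1)
  · intro q g τ σ
    cases q with
    | zero => exact PEmpty.elim τ
    | succ q =>
      change C q at τ
      change C (q + 1) at σ
      show (∑ i : Fin (q + 2), if face q i (g • σ) = g • τ then (-1 : ZMod p) ^ (i : ℕ) else 0) =
        ∑ i : Fin (q + 2), if face q i σ = τ then (-1 : ZMod p) ^ (i : ℕ) else 0
      refine Finset.sum_congr rfl fun i _ => ?_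
      rw [hact]
      simp only [smul_left_cancel_iff]
  · intro q
    cases q with
    | zero =>
      have h1 := hcoh 0
      rw [rkb_zero] at h1
      rw [hrk, hrk0, hcard]
      exact h1
    | succ q =>
      have h1 := hcoh (q + 1)
      rw [rkb_succ] at h1
      rw [hrk, hrk, hcard]
      exact h1
  · intro σ
    have h1 := congrFun (congrFun (bdm_bdm (p := p) face hface 0) PUnit.unit) σ
    have h2 : (bdm p face 0 * bdm p face 1) PUnit.unit σ = ∑ τ : C 0, bde p face 1 τ σ := by
      show ∑ τ : C 0, (1 : ZMod p) * bdm p face 1 τ σ = _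
      simp only [one_mul]
      rfl
    exact h2.symm.trans h1
  · intro q g r hr
    have h1 := htriv q g r (LinearMap.mem_ker.2 (funext fun σ =>
      (bde_altd face q r σ).symm.trans (hr σ)))
    cases q with
    | zero =>
      refine ⟨0, fun σ => ?_⟩
      have h2 : (fun σ => r (g • σ)) - r = 0 := h1
      have h3 := congrFun h2 σ
      refine h3.trans ?_
      simp
    | succ q =>
      obtain ⟨b, hb⟩ := h1
      refine ⟨b, fun σ => ?_⟩
      have h3 := congrFun hb σ
      exact h3.symm.trans (bde_altd face q b σ).symm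
  · intro i hi q σ g hg
    cases q with
    | zero => exact PEmpty.elim σ
    | succ q =>
      have e : χ i (q + 1) σ = ch ⟨i, hi⟩ q σ := hχs i hi q σ
      rw [e]
      exact hW1 q σ _ (hch ⟨i, hi⟩ q σ) g hg
  · intro i hi
    rw [sq_apply F i hi, map_prod]
    refine Finset.prod_congr rfl fun q _ => ?_
    rw [map_prod]
    refine Finset.prod_congr rfl fun σ _ => ?_
    rw [map_pow]
    congr 1
    cases q with
    | zero => exact PEmpty.elim σ
    | succ q =>
      have e : χ i (q + 1) σ = ch ⟨i, hi⟩ q σ := hχs i hi q σ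
      rw [e]
      exact (hL ⟨i, hi⟩ q σ).symm
  · intro l
    refine Fin.addCases (fun i => ?_) (fun j => ?_) l
    · left
      have h1 : xi p c t (Fin.castAdd t i) = MvPolynomial.X i := Fin.append_left _ _ _
      rw [h1]
      exact Ideal.subset_span ⟨i.1, i.2, (sq_X i.1 i.2).symm⟩
    · right
      exact hv j

end emp

end Pool.Agent.E8helper2.ZB
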