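import Pool.Agent.E8helper2.ZB.Hom

/-!
# Homologically trivial actions on finite posets
-/

set_option autoImplicit false

namespace Pool.Agent.E8helper2.ZB

open Module Lev Pool.Agent.Helper381

/-- adapted coordinates -/
theorem exists_adapted {p : ℕ} [Fact p.Prime] (G : Type) [CommGroup G] [Finite G]
    (hG : ∀ g : G, g ^ p = 1) (H : Subgroup G) :
    ∃ (c t : ℕ) (e : GG p (c + t) ≃* G), (∀ j : Fin t, e (gen p (c + t) (Fin.natAdd c j)) ∈ H) ∧
      Nat.card G = Nat.card H * p ^ c := by
  classical
  let : Module (ZMod p) (Additive G) := AddCommGroup.zmodModule (n := p) (fun x => hG x)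
  let H' : Submodule (ZMod p) (Additive G) := AddSubgroup.toZModSubmodule p (Subgroup.toAddSubgroup H)
  have hmem : ∀ g : G, g ∈ H ↔ Additive.ofMul g ∈ H' := fun g => Iff.rfl
  obtain ⟨C, hC⟩ := Submodule.exists_isCompl H'
  let b1 := Module.finBasis (ZMod p) C
  let b2 := Module.finBasis (ZMod p) H'
  let L : (Fin (finrank (ZMod p) C + finrank (ZMod p) H') → ZMod p) ≃ₗ[ZMod p] Additive G :=
    (LinearEquiv.funCongrLeft (ZMod p) (ZMod p) finSumFinEquiv).trans
      ((LinearEquiv.sumArrowLequivProdArrow _ _ (ZMod p) (ZMod p)).trans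
        ((LinearEquiv.prodCongr b1.equivFun.symm b2.equivFun.symm).trans
          (Submodule.prodEquivOfIsCompl C H' hC.symm)))
  refine ⟨finrank (ZMod p) C, finrank (ZMod p) H', AddEquiv.toMultiplicativeLeft L.toAddEquiv,
    fun j => ?_, ?_⟩
  · rw [hmem]
    have h1 : L (Pi.single (Fin.natAdd _ j) 1) ∈ H' := by
      have h2 : L (Pi.single (Fin.natAdd _ j) 1) =
          (b1.equivFun.symm (fun i => (Pi.single (Fin.natAdd _ j) 1 :
            Fin (finrank (ZMod p) C + finrank (ZMod p) H') → ZMod p) (Fin.castAdd _ i)) : Additive G) +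
          (b2.equivFun.symm (fun i => (Pi.single (Fin.natAdd _ j) 1 :
            Fin (finrank (ZMod p) C + finrank (ZMod p) H') → ZMod p) (Fin.natAdd _ i)) :
              Additive G) := rfl
      have h3 : (fun i => (Pi.single (Fin.natAdd _ j) 1 :
            Fin (finrank (ZMod p) C + finrank (ZMod p) H') → ZMod p) (Fin.castAdd _ i)) = 0 := by
        funext i
        rw [Pi.single_eq_of_ne, Pi.zero_apply]
        intro h
        have := congrArg Fin.val h
        simp only [Fin.val_castAdd, Fin.val_natAdd] at this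
        omega
      rw [h2, h3, map_zero, Submodule.coe_zero, zero_add]
      exact Submodule.coe_mem _
    exact h1
  · have h3 : Nat.card G = p ^ finrank (ZMod p) (Additive G) := by
      have : Nat.card G = Nat.card (Additive G) := rfl
      rw [this, Module.natCard_eq_pow_finrank (K := ZMod p), Nat.card_zmod]
    have h4 : Nat.card H = p ^ finrank (ZMod p) H' := by
      have : Nat.card H = Nat.card H' := rfl
      rw [this, Module.natCard_eq_pow_finrank (K := ZMod p), Nat.card_zmod]
    rw [h3, h4, ← pow_add, Submodule.finrank_add_eq_of_isCompl hC]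

/-- the induced map on chains -/
def chact {G P : Type} [Group G] [PartialOrder P] [MulAction G P] {Q : Set P}
    (hmono : ∀ g : G, StrictMono (fun x : P => g • x)) (hmem : ∀ (g : G), ∀ x ∈ Q, g • x ∈ Q)
    (g : G) (n : ℕ) (c : Ch Q n) : Ch Q n :=
  ⟨fun i => g • c.1 i, (hmono g).comp c.2.1, fun i => hmem g _ (c.2.2 i)⟩

/-- **Posets, homologically trivial actions.** -/
theorem posT (hKILL : S_KILL) (hREG : S_REG) {p : ℕ} [Fact p.Prime] (G : Type) [CommGroup G]
    [Finite G] (hG : ∀ g : G, g ^ p = 1) (P : Type) [PartialOrder P] [MulAction G P] (Q : Set P)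
    (hQ : Q.Finite) (hne : Q.Nonempty) (hmono : ∀ g : G, StrictMono (fun x : P => g • x))
    (hmem : ∀ (g : G), ∀ x ∈ Q, g • x ∈ Q)
    (htriv : ∀ q (g : G), ∀ b ∈ LinearMap.ker (altd (ZMod p) (cface (Q := Q)) q),
      (fun c => b (chact hmono hmem g q c)) - b ∈ cobound (ZMod p) (fun n => Ch Q n → ZMod p)
        (fun n => altd (ZMod p) (cface (Q := Q)) n) q) :
    ∃ x ∈ Q, Nat.card G ∣ Nat.card (MulAction.stabilizer G x) *
      p ^ (((Finset.range Q.ncard).filter
        (fun q => finrank (ZMod p) (OrdCoh (ZMod p) Q q) ≠ 0)).card - 1) := by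
  classical
  obtain ⟨x, hxQ, hx⟩ := Set.exists_max_image Q
    (fun x => Nat.card (MulAction.stabilizer G x)) hQ hne
  obtain ⟨c, t, e, he, hcard⟩ := exists_adapted (p := p) G hG (MulAction.stabilizer G x)
  have hfin : ∀ n, Finite (Ch Q n) := finite_Ch hQ
  let : ∀ n, Fintype (Ch Q n) := fun n => Fintype.ofFinite _
  let act : ∀ n, MulAction (GG p (c + t)) (Ch Q n) := fun n =>
    { smul := fun g c => chact hmono hmem (e g) n c
      one_smul := fun c => Subtype.ext (funext fun i => by
        show e 1 • c.1 i = c.1 i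
        rw [map_one, one_smul])
      mul_smul := fun g h c => Subtype.ext (funext fun i => by
        show e (g * h) • c.1 i = e g • e h • c.1 i
        rw [map_mul, mul_smul]) }
  have hsm : StrictMono (fun _ : Fin 1 => x) := Subsingleton.strictMono _
  let v : Ch Q 0 := ⟨fun _ => x, hsm, fun _ => hxQ⟩
  have key := semiT (p := p) (C := Ch Q) (cface (Q := Q))
    (fun n i j c hij => cface_cface n i j c hij) hKILL hREG c t (fun n i g c => rfl) v
    (fun j => Subtype.ext (funext fun _ => he j)) Q.ncard
    (fun q hq => isEmpty_Ch hQ q hq) (fun q σ => by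
      obtain ⟨W, hW, hcW⟩ := exists_ann (MulAction.stabilizer (GG p (c + t)) σ)
      refine ⟨W, fun χ hχ g hg => hW χ hχ g hg, ?_⟩
      have h1 : Nat.card (MulAction.stabilizer (GG p (c + t)) σ) ≤
          Nat.card (MulAction.stabilizer G (σ.1 0)) := by
        let θ : MulAction.stabilizer (GG p (c + t)) σ → MulAction.stabilizer G (σ.1 0) :=
          fun g => ⟨e g, congrArg (fun c : Ch Q q => c.1 0) g.2⟩
        refine Nat.card_le_card_of_injective θ (fun a b hab => ?_)
        exact Subtype.ext (e.injective (congrArg Subtype.val hab))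
      have h2 := hx _ (σ.2.2 0)
      rw [Nat.card_congr e.toEquiv, hcard] at hcW
      have hp : 1 < p := (Fact.out : p.Prime).one_lt
      have hpos : 0 < Nat.card (MulAction.stabilizer G x) := Nat.card_pos
      have h3 : Nat.card (MulAction.stabilizer G x) * p ^ c ≤
          Nat.card (MulAction.stabilizer G x) * p ^ finrank (ZMod p) W := by
        rw [hcW]
        exact Nat.mul_le_mul_right _ (h1.trans h2)
      exact (Nat.pow_le_pow_iff_right hp).1 (Nat.le_of_mul_le_mul_left h3 hpos))
    (fun q g b hb => htriv q (e g) b hb)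
  refine ⟨x, hxQ, ?_⟩
  rw [hcard]
  refine mul_dvd_mul_left _ (pow_dvd_pow p ?_)
  have key' : c < ((Finset.range Q.ncard).filter
        (fun q => finrank (ZMod p) (OrdCoh (ZMod p) Q q) ≠ 0)).card := key
  omega

end Pool.Agent.E8helper2.ZB
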