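import Pool.Agent.E8helper2.ZB.CoreL
import Pool.Agent.E8helper2.ZB.HomPos

/-!
# Actions of bounded Loewy length on the cohomology of semisimplicial sets and posets
-/

set_option autoImplicit false

namespace Pool.Agent.E8helper2.ZB

open Module Lev Pool.Agent.Helper381

section emp

variable {p : ℕ} {C : ℕ → Type} [∀ q, Fintype (C q)] [∀ q, DecidableEq (C q)]
  (face : ∀ n, Fin (n + 2) → C (n + 1) → C n)

variable (hface : ∀ n (i j : Fin (n + 2)) (σ : C (n + 2)), i ≤ j →
      face n i (face (n + 1) j.succ σ) = face n j (face (n + 1) i.castSucc σ))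

include hface

/-- **Isotropy groups for semisimplicial sets, actions of bounded Loewy length.** -/
theorem semiL (hLIN : S_LIN) (hLIN2 : S_LIN2) (hKILL : S_KILL) (hREG : S_REG) [Fact p.Prime] (c t : ℕ)
    [∀ q, MulAction (GG p (c + t)) (C q)]
    (hact : ∀ n i (g : GG p (c + t)) σ, face n i (g • σ) = g • face n i σ) (v : C 0)
    (hv : ∀ j : Fin t, gen p (c + t) (Fin.natAdd c j) • v = v) (N : ℕ)
    (hN : ∀ q, N ≤ q → IsEmpty (C q))
    (hW : ∀ q (σ : C q), ∃ W : Submodule (ZMod p) (Fin (c + t) → ZMod p),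
      (∀ χ ∈ W, ∀ g : GG p (c + t), g • σ = σ → ∑ i, χ i * g.toAdd i = 0) ∧
        c ≤ finrank (ZMod p) W)
    (Ll : ℕ → ℕ)
    (htriv : ∀ q, ∀ b ∈ LinearMap.ker (altd (ZMod p) face q), ∀ g : Fin (Ll q) → GG p (c + t),
      itf (List.ofFn fun i => fun σ : C q => g i • σ) b ∈
        cobound (ZMod p) (fun n => C n → ZMod p) (fun n => altd (ZMod p) face n) q) :
    c < ∑ q ∈ Finset.range N, Ll q := by
  classical
  -- the characters
  choose W hW1 hW2 using hW
  choose ch hch L hL0 hL using fun (i : Fin c) q (σ : C q) => exists_char p c t (W q σ) (hW2 q σ) i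
  let χ : ℕ → ∀ q, XE C q → Fin (c + t) → ZMod p := fun i q => match q with
    | 0 => fun _ => 0
    | q + 1 => fun σ => if h : i < c then ch ⟨i, h⟩ q σ else 0
  let LL : Fin c → ∀ q, XE C q → Polynomial (KK p) := fun i q => match q with
    | 0 => fun _ => 1
    | q + 1 => fun σ => L i q σ
  have hχs : ∀ i (h : i < c) q (σ : C q), χ i (q + 1) σ = ch ⟨i, h⟩ q σ := fun i h q σ => dif_pos h
  let F : Fin c → Polynomial (KK p) := fun i => ∏ q ∈ Finset.range (N + 1),
    ∏ σ : XE C q, LL i q σ ^ (p * (p - 1))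
  have hF : ∀ i, F i ≠ 0 := by
    intro i
    refine Finset.prod_ne_zero_iff.2 fun q _ => Finset.prod_ne_zero_iff.2 fun σ _ => ?_
    refine pow_ne_zero _ ?_
    cases q with
    | zero => exact one_ne_zero
    | succ q => exact hL0 i q σ
  refine coreL (p := p) (k := c + t) (X := XE C) hLIN hLIN2 hKILL (MvPolynomial (Fin c) (KK p)) (xi p c t)
    (bde p face) ?_ ?_ ⟨fun x => PEmpty.elim x⟩ N hN ?_ Ll ?_ c χ ?_ (sq F) ?_
    (fun i hi a => sq_reg hREG F hF i hi a) (sq fun _ => Polynomial.X)
    (fun i hi a => sq_reg hREG _ (fun _ => Polynomial.X_ne_zero) i hi a) sq_ne v ?_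
  · intro q
    cases q with
    | zero =>
      funext τ
      exact PEmpty.elim τ
    | succ q => exact bdm_bdm (p := p) face hface (q + 1)
  · intro q g τ σ
    cases q with
    | zero => exact PEmpty.elim τ
    | succ q =>
      change C q at τ
      change C (q + 1) at σ
      show (∑ i : Fin (q + 2), if face q i (g • σ) = g • τ then (-1 : ZMod p) ^ (i : ℕ) else 0) =
        ∑ i : Fin (q + 2), if face q i σ = τ then (-1 : ZMod p) ^ (i : ℕ) else 0
      refine Finset.sum_congr rfl fun i _ => ?_
      rw [hact]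
      simp only [smul_left_cancel_iff]
  · intro σ
    have h1 := congrFun (congrFun (bdm_bdm (p := p) face hface 0) PUnit.unit) σ
    have h2 : (bdm p face 0 * bdm p face 1) PUnit.unit σ = ∑ τ : C 0, bde p face 1 τ σ := by
      show ∑ τ : C 0, (1 : ZMod p) * bdm p face 1 τ σ = _
      simp only [one_mul]
      rfl
    exact h2.symm.trans h1
  · intro q r hr g
    have h1 := htriv q r (LinearMap.mem_ker.2 (funext fun σ =>
      (bde_altd face q r σ).symm.trans (congrFun hr σ))) g
    cases q with
    | zero =>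
      refine ⟨0, ?_⟩
      have h2 : itf (List.ofFn fun i => fun σ : C 0 => g i • σ) r = 0 := h1
      exact (Matrix.zero_vecMul _).trans h2.symm
    | succ q =>
      obtain ⟨b, hb⟩ := h1
      refine ⟨b, ?_⟩
      funext σ
      exact (bde_altd face q b σ).trans (congrFun hb σ)
  · intro i hi q σ g hg
    cases q with
    | zero => exact PEmpty.elim σ
    | succ q =>
      have e : χ i (q + 1) σ = ch ⟨i, hi⟩ q σ := hχs i hi q σ
      rw [e]
      exact hW1 q σ _ (hch ⟨i, hi⟩ q σ) g hg
  · intro i hi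
    rw [sq_apply F i hi, map_prod]
    refine Finset.prod_congr rfl fun q _ => ?_
    rw [map_prod]
    refine Finset.prod_congr rfl fun σ _ => ?_
    rw [map_pow]
    congr 1
    cases q with
    | zero => exact PEmpty.elim σ
    | succ q =>
      have e : χ i (q + 1) σ = ch ⟨i, hi⟩ q σ := hχs i hi q σ
      rw [e]
      exact (hL ⟨i, hi⟩ q σ).symm
  · intro l
    refine Fin.addCases (fun i => ?_) (fun j => ?_) l
    · left
      have h1 : xi p c t (Fin.castAdd t i) = MvPolynomial.X i := Fin.append_left _ _ _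
      rw [h1]
      exact Ideal.subset_span ⟨i.1, i.2, (sq_X i.1 i.2).symm⟩
    · right
      exact hv j

end emp

/-- **Posets, actions of bounded Loewy length.** -/
theorem posL (hLIN : S_LIN) (hLIN2 : S_LIN2) (hKILL : S_KILL) (hREG : S_REG) {p : ℕ} [Fact p.Prime] (G : Type) [CommGroup G]
    [Finite G] (hG : ∀ g : G, g ^ p = 1) (P : Type) [PartialOrder P] [MulAction G P] (Q : Set P)
    (hQ : Q.Finite) (hne : Q.Nonempty) (hmono : ∀ g : G, StrictMono (fun x : P => g • x))
    (hmem : ∀ (g : G), ∀ x ∈ Q, g • x ∈ Q)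
    (Ll : ℕ → ℕ)
    (htriv : ∀ q, ∀ b ∈ LinearMap.ker (altd (ZMod p) (cface (Q := Q)) q), ∀ g : Fin (Ll q) → G,
      itf (List.ofFn fun i => chact hmono hmem (g i) q) b ∈ cobound (ZMod p)
        (fun n => Ch Q n → ZMod p) (fun n => altd (ZMod p) (cface (Q := Q)) n) q) :
    ∃ x ∈ Q, Nat.card G ∣ Nat.card (MulAction.stabilizer G x) *
      p ^ ((∑ q ∈ Finset.range Q.ncard, Ll q) - 1) := by
  classical
  obtain ⟨x, hxQ, hx⟩ := Set.exists_max_image Q
    (fun x => Nat.card (MulAction.stabilizer G x)) hQ hne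
  obtain ⟨c, t, e, he, hcard⟩ := exists_adapted (p := p) G hG (MulAction.stabilizer G x)
  have hfin : ∀ n, Finite (Ch Q n) := finite_Ch hQ
  let : ∀ n, Fintype (Ch Q n) := fun n => Fintype.ofFinite _
  let act : ∀ n, MulAction (GG p (c + t)) (Ch Q n) := fun n =>
    { smul := fun g c => chact hmono hmem (e g) n c
      one_smul := fun c => Subtype.ext (funext fun i => by
        show e 1 • c.1 i = c.1 i
        rw [map_one, one_smul])
      mul_smul := fun g h c => Subtype.ext (funext fun i => by
        show e (g * h) • c.1 i = e g • e h • c.1 i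
        rw [map_mul, mul_smul]) }
  have hsm : StrictMono (fun _ : Fin 1 => x) := Subsingleton.strictMono _
  let v : Ch Q 0 := ⟨fun _ => x, hsm, fun _ => hxQ⟩
  have key := semiL (p := p) (C := Ch Q) (cface (Q := Q))
    (fun n i j c hij => cface_cface n i j c hij) hLIN hLIN2 hKILL hREG c t (fun n i g c => rfl) v
    (fun j => Subtype.ext (funext fun _ => he j)) Q.ncard
    (fun q hq => isEmpty_Ch hQ q hq) (fun q σ => by
      obtain ⟨W, hW, hcW⟩ := exists_ann (MulAction.stabilizer (GG p (c + t)) σ)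
      refine ⟨W, fun χ hχ g hg => hW χ hχ g hg, ?_⟩
      have h1 : Nat.card (MulAction.stabilizer (GG p (c + t)) σ) ≤
          Nat.card (MulAction.stabilizer G (σ.1 0)) := by
        let θ : MulAction.stabilizer (GG p (c + t)) σ → MulAction.stabilizer G (σ.1 0) :=
          fun g => ⟨e g, congrArg (fun c : Ch Q q => c.1 0) g.2⟩
        refine Nat.card_le_card_of_injective θ (fun a b hab => ?_)
        exact Subtype.ext (e.injective (congrArg Subtype.val hab))
      have h2 := hx _ (σ.2.2 0)
      rw [Nat.card_congr e.toEquiv, hcard] at hcW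
      have hp : 1 < p := (Fact.out : p.Prime).one_lt
      have hpos : 0 < Nat.card (MulAction.stabilizer G x) := Nat.card_pos
      have h3 : Nat.card (MulAction.stabilizer G x) * p ^ c ≤
          Nat.card (MulAction.stabilizer G x) * p ^ finrank (ZMod p) W := by
        rw [hcW]
        exact Nat.mul_le_mul_right _ (h1.trans h2)
      exact (Nat.pow_le_pow_iff_right hp).1 (Nat.le_of_mul_le_mul_left h3 hpos))
    Ll (fun q b hb g => htriv q b hb fun i => e (g i))
  refine ⟨x, hxQ, ?_⟩
  rw [hcard]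
  refine mul_dvd_mul_left _ (pow_dvd_pow p ?_)
  omega

end Pool.Agent.E8helper2.ZB
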