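import Pool.Agent.E8helper2.ZB.ManT
import Pool.Agent.E8helper38.ZB.Lat

/-!
# Homologically trivial actions of lattices
-/

set_option autoImplicit false

namespace Pool.Agent.E8helper2.ZB

open Pool.Agent.H185.ZM Pool.Agent.Helper381 Pool.Agent.E8helper72.ZO Pool.Agent.E8helper38.ZB
open Module Matrix
open scoped Manifold ContDiff

variable {E : Type} [NormedAddCommGroup E] [NormedSpace ℝ E] [FiniteDimensional ℝ E]
  {M : Type} [TopologicalSpace M] [ChartedSpace E M] [IsManifold 𝓘(ℝ, E) ∞ M]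

/-- The elements of `Δ` which are conjugate under `Γ` to elements of `S` act trivially on the
cohomology of `M` with coefficients in `ℤ/p`. -/
def TrivOn (p : ℕ) {G : Type} [Group G] (Γ Δ : Subgroup G) (S : Set G)
    (α : Δ → (M ≃ₘ^∞⟮𝓘(ℝ, E), 𝓘(ℝ, E)⟯ M)) : Prop :=
  ∀ g : Δ, (∃ s ∈ S, ∃ γ ∈ Γ, (g : G) = γ⁻¹ * s * γ) → ∀ n : ℕ,
    CohTriv (ZMod p) (⟨α g, (α g).continuous⟩ : C(M, M)) n

/-- **Finiteness of homologically trivial actions.** For every homomorphism `α` from `Δ` to the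
group of smooth diffeomorphisms of `M` such that the elements of `Δ` which are conjugate under `Γ`
to elements of `S` act trivially on `H^*(M; ℤ/p)`: (i) the kernel of `α` contains an element which
is not central in `G` and which is conjugate under `Γ` to an element of `S`; (ii) `α` has finite
image if every normal subgroup of `Δ` consists of central elements of `G` or has finite index in
`Δ`. -/
def FiniteActionsT (p : ℕ) (E : Type) [NormedAddCommGroup E] [NormedSpace ℝ E] (M : Type)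
    [TopologicalSpace M] [ChartedSpace E M] {G : Type} [Group G] (Γ Δ : Subgroup G)
    (S : Set G) : Prop :=
  ∀ α : Δ → (M ≃ₘ^∞⟮𝓘(ℝ, E), 𝓘(ℝ, E)⟯ M), IsHom α → TrivOn p Γ Δ S α →
    (∃ s ∈ S, ∃ γ ∈ Γ, ∃ h : γ⁻¹ * s * γ ∈ Δ, (∀ x, α ⟨_, h⟩ x = x) ∧
      γ⁻¹ * s * γ ∉ Subgroup.center G) ∧
    ((∀ N : Subgroup Δ, N.Normal → (∀ g ∈ N, (g : G) ∈ Subgroup.center G) ∨ Finite (Δ ⧸ N)) →
      (Set.range α).Finite)

theorem coreT {p : ℕ} {G : Type} [Group G]
    (Γ Δ : Subgroup G) (hfi : Finite (Γ ⧸ Δ.subgroupOf Γ)) {P : Type} [CommGroup P] [Finite P]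
    (φ : P →* G) (hφ : ∀ p, φ p ∈ Γ) {S : Set G} (hS : ∀ p, φ p ∈ S) {c z : ℕ}
    (hc : ∀ (Q : Type) [CommGroup Q] [Finite Q] (ψ : Q →* P), Function.Injective ψ →
      ∀ (a : Q → M → M) (ha : SmoothAction E a),
        (∀ (x : Q) (n : ℕ), CohTriv (ZMod p) (amap ha x) n) →
          Nat.card Q ∣ Nat.card (actKer ha) * c)
    (hz : Nat.card ((Subgroup.center G).comap φ) ∣ z)
    (hdvd : ¬ (Nat.card P ∣ z * c * Δ.relIndex Γ)) :
    FiniteActionsT p E M Γ Δ S := by
  intro α hα hT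
  have hex : ∃ s ∈ S, ∃ γ ∈ Γ, ∃ h : γ⁻¹ * s * γ ∈ Δ, (∀ x, α ⟨_, h⟩ x = x) ∧
      γ⁻¹ * s * γ ∉ Subgroup.center G := by
    by_contra hcon
    push Not at hcon
    apply hdvd
    let φ' : P →* Γ := φ.codRestrict Γ hφ
    exact fi_dvd (Δ.subgroupOf Γ) φ' (z * c) (fun γ Q hQ => by
      let ψ : Q →* Δ :=
        { toFun := fun q => ⟨(γ : G)⁻¹ * φ q * γ, hQ q q.2⟩
          map_one' := Subtype.ext (by simp)
          map_mul' := fun x y => Subtype.ext (by simp [mul_assoc]) }
      have h2 := hc Q Q.subtype Q.subtype_injective _ (hα.action.comp ψ) (fun x n =>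
        hT (ψ x) ⟨φ x, hS x, γ, γ.2, rfl⟩ n)
      have h3 : Nat.card (actKer (hα.action.comp ψ)) ∣ Nat.card ((Subgroup.center G).comap φ) := by
        have hin : ∀ q : actKer (hα.action.comp ψ),
            ((q : Q) : P) ∈ (Subgroup.center G).comap φ := by
          intro q
          have h5 := hcon (φ ((q : Q) : P)) (hS _) γ γ.2 (hQ (q : Q) (q : Q).2) q.2
          rw [Subgroup.mem_comap]
          have h6 : φ ((q : Q) : P) = (γ : G) * ((γ : G)⁻¹ * φ ((q : Q) : P) * γ) * (γ : G)⁻¹ := by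
            group
          rw [h6]
          exact Subgroup.Normal.conj_mem inferInstance _ h5 _
        let θ : actKer (hα.action.comp ψ) →* (Subgroup.center G).comap φ :=
          { toFun := fun q => ⟨((q : Q) : P), hin q⟩
            map_one' := rfl
            map_mul' := fun _ _ => rfl }
        refine Subgroup.card_dvd_of_injective θ (fun a b hab => ?_)
        have := congrArg Subtype.val hab
        exact Subtype.ext (Subtype.ext this)
      exact h2.trans (mul_dvd_mul_right (h3.trans hz) _))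
  refine ⟨hex, fun hNS => hα.finite_range ?_⟩
  obtain ⟨s, _, γ, hγ, h, h1, h2⟩ := hex
  rcases hNS (actKer hα.action) inferInstance with h3 | h3
  · exact absurd (h3 ⟨_, h⟩ h1) h2
  · exact h3

section bounds

variable [CompactSpace M] [T2Space M] [ConnectedSpace M]

lemma boundT {p t : ℕ} [Fact p.Prime] (ht : cst p (finrank ℝ E) = p ^ t) {P : Type}
    [CommGroup P] (hP : ∀ x : P, x ^ p = 1)
    (Q : Type) [CommGroup Q] [Finite Q] (ψ : Q →* P) (hψ : Function.Injective ψ)
    (a : Q → M → M) (ha : SmoothAction E a)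
    (htriv : ∀ (x : Q) (n : ℕ), CohTriv (ZMod p) (amap ha x) n) :
    Nat.card Q ∣ Nat.card (actKer ha) * p ^ (t + npos p M) := by
  have h1 := manT (p := p) (P := Q) (fun x => hψ (by rw [map_pow, map_one]; exact hP _)) ha htriv
  rwa [ht, ← pow_add] at h1

/-- diagonal matrices with entries in a cyclic group and product of the exponents one -/
theorem comm_caseT {F : Type} [Ring F] {p : ℕ} [Fact p.Prime]
    {z : F} {k n : ℕ} [NeZero k] (hz : z ^ k = 1) (ho : orderOf z = k) (hn : 1 ≤ n)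
    {Γ Δ : Subgroup (Matrix (Fin n) (Fin n) F)ˣ}
    (hΓ : ∀ a : D1 (Multiplicative (ZMod k)) n,
      dg (pw z k hz) n (a : Fin n → Multiplicative (ZMod k)) ∈ Γ) {q e δ t s : ℕ}
    (hc : ∀ (Q : Type) [CommGroup Q] [Finite Q] (ψ : Q →* D1 (Multiplicative (ZMod k)) n),
      Function.Injective ψ → ∀ (a : Q → M → M) (ha : SmoothAction E a),
        (∀ (x : Q) (n : ℕ), CohTriv (ZMod p) (amap ha x) n) →
          Nat.card Q ∣ Nat.card (actKer ha) * q ^ t) (hq : q ≠ 0)
    (hgcd : Nat.gcd n k = q ^ δ) (hk : k ^ (n - 1) = q ^ s)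
    (hdvd : ¬ q ^ (e + 1) ∣ Δ.relIndex Γ)
    (hs : t + e + δ < s) : FiniteActionsT p E M Γ Δ (PD z n) := by
  have hfi := finN hdvd
  refine coreT (φ := (dg (pw z k hz) n).comp (D1 (Multiplicative (ZMod k)) n).subtype)
    Γ Δ hfi hΓ (fun p => pw_PD hz _) hc (z := q ^ δ) ?_ ?_
  · rw [← hgcd]
    have h1 := card_const (A := Multiplicative (ZMod k)) hn ((Subgroup.center _).comap
      ((dg (pw z k hz) n).comp (D1 (Multiplicative (ZMod k)) n).subtype)) (fun a ha i j => by
        have h2 : dg (pw z k hz) n (a : Fin n → Multiplicative (ZMod k)) ∈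
          Subgroup.center (Matrix (Fin n) (Fin n) F)ˣ := ha
        exact pw_inj z k hz ho (const_of_center h2 i j))
    rwa [card_mz] at h1
  · rw [card_D1 hn, card_mz, hk]
    exact arN hq hdvd hs

/-- groups containing the diagonal matrices with entries `1`, `-1` and an even number of
entries `-1` -/
theorem sign_caseT {F : Type} [Ring F]
    (h2 : (2 : F) ≠ 0) {n : ℕ} {Γ Δ : Subgroup (Matrix (Fin n) (Fin n) F)ˣ}
    (hΓ : ∀ (g : (Matrix (Fin n) (Fin n) F)ˣ) (d : Fin n → ℕ), Even (∑ i, d i) →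
      (g : Matrix (Fin n) (Fin n) F) = diagonal (fun i => (-1) ^ d i) → g ∈ Γ) {e : ℕ}
    (hdvd : ¬ 2 ^ (e + 1) ∣ Δ.relIndex Γ)
    (hs : finrank ℝ E + npos 2 M + e + Nat.gcd n 2 < n) :
    FiniteActionsT 2 E M Γ Δ (PD (-1) n) := by
  have hz : (-1 : F) ^ 2 = 1 := by rw [pow_two, neg_mul_neg, one_mul]
  have hne : (-1 : F) ≠ 1 := neg_one_ne h2
  have ho : orderOf (-1 : F) = 2 := orderOf_eq_prime hz hne
  have h1 : Nat.gcd n 2 ∣ 2 := Nat.gcd_dvd_right _ _
  have h3 : Nat.gcd n 2 = 1 ∨ Nat.gcd n 2 = 2 := (Nat.dvd_prime Nat.prime_two).1 h1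
  have hn : 1 ≤ n := by omega
  refine comm_caseT hz ho hn (fun a => hΓ _ (fun i => (((a : Fin n → Multiplicative (ZMod 2))
    i).toAdd).val) ?_ rfl) (q := 2) (e := e) (δ := Nat.gcd n 2 - 1)
    (t := finrank ℝ E + npos 2 M)
    (s := n - 1) (boundT (p := 2) (if_pos rfl) fun x => ?_) two_ne_zero ?_ rfl hdvd (by omega)
  · have h4 : ∏ i, (a : Fin n → Multiplicative (ZMod 2)) i = 1 := a.2
    have h5 : ∑ i, ((a : Fin n → Multiplicative (ZMod 2)) i).toAdd = 0 := by
      have := congrArg Multiplicative.toAdd h4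
      rwa [toAdd_prod, toAdd_one] at this
    rw [even_iff_two_dvd, ← ZMod.natCast_eq_zero_iff, Nat.cast_sum]
    rw [← h5]
    exact Finset.sum_congr rfl fun i _ => ZMod.natCast_zmod_val _
  · apply Subtype.ext
    funext i
    have h4 : ∀ x : Multiplicative (ZMod 2), x ^ 2 = 1 := by decide
    exact h4 _
  · rcases h3 with h | h <;> rw [h] <;> rfl

/-- groups containing all diagonal matrices with entries `1`, `-1` -/
theorem sign_case_fullT {F : Type} [Ring F]
    (h2 : (2 : F) ≠ 0) {n : ℕ} {Γ Δ : Subgroup (Matrix (Fin n) (Fin n) F)ˣ}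
    (hΓ : ∀ (g : (Matrix (Fin n) (Fin n) F)ˣ) (d : Fin n → ℕ),
      (g : Matrix (Fin n) (Fin n) F) = diagonal (fun i => (-1) ^ d i) → g ∈ Γ) {e : ℕ}
    (hdvd : ¬ 2 ^ (e + 1) ∣ Δ.relIndex Γ)
    (hs : finrank ℝ E + npos 2 M + e + 1 < n) :
    FiniteActionsT 2 E M Γ Δ (PD (-1) n) := by
  have hz : (-1 : F) ^ 2 = 1 := by rw [pow_two, neg_mul_neg, one_mul]
  have hne : (-1 : F) ≠ 1 := neg_one_ne h2
  have ho : orderOf (-1 : F) = 2 := orderOf_eq_prime hz hne
  have hn : 1 ≤ n := by omega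
  have hfi := finN hdvd
  have h4 : ∀ x : Multiplicative (ZMod 2), x ^ 2 = 1 := by decide
  refine coreT (φ := dg (pw (-1 : F) 2 hz) n)
    Γ Δ hfi (fun a => hΓ _ (fun i => ((a i).toAdd).val) rfl) (fun p => pw_PD hz _)
      (c := 2 ^ (finrank ℝ E + npos 2 M))
      (boundT (p := 2) (if_pos rfl) fun x => funext fun i => h4 _) (z := 2 ^ 1) ?_ ?_
  · let i0 : Fin n := ⟨0, by omega⟩
    let ev : ((Subgroup.center _).comap (dg (pw (-1 : F) 2 hz) n)) →* Multiplicative (ZMod 2) :=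
      (Pi.evalMonoidHom (fun _ : Fin n => Multiplicative (ZMod 2)) i0).comp
        ((Subgroup.center _).comap (dg (pw (-1 : F) 2 hz) n)).subtype
    have hcon : ∀ a : ((Subgroup.center _).comap (dg (pw (-1 : F) 2 hz) n)), ∀ i,
        (a : Fin n → Multiplicative (ZMod 2)) i = ev a := by
      intro a i
      exact pw_inj (-1) 2 hz ho (const_of_center a.2 i i0)
    have hinj : Function.Injective ev := by
      intro p q hpq
      apply Subtype.ext
      funext j
      rw [hcon p j, hcon q j, hpq]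
    have h5 := Subgroup.card_dvd_of_injective ev hinj
    rwa [card_mz] at h5
  · have hcard : Nat.card (Fin n → Multiplicative (ZMod 2)) = 2 ^ n := by
      rw [Nat.card_fun, card_mz]
      simp
    rw [hcard]
    exact arN two_ne_zero hdvd (by omega)

/-- groups containing special unitary groups, roots of unity of odd prime order -/
theorem odd_caseT {F : Type} [CommRing F]
    [StarRing F] (R : Subring F) {p : ℕ} [Fact p.Prime] (hp2 : p ≠ 2) {z : F} (hzR : z ∈ R)
    (hz : z ^ p = 1) (hz1 : z ≠ 1) (hzs : star z * z = 1) {n : ℕ} (h : Fin n → F)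
    {Γ Δ : Subgroup (Matrix (Fin n) (Fin n) F)ˣ} (hΓ : SUG R h ≤ Γ) {e δ : ℕ}
    (hδ : Nat.gcd n p = p ^ δ)
    (hdvd : ¬ p ^ (e + 1) ∣ Δ.relIndex Γ)
    (hs : finrank ℝ E / 2 + npos p M + e + δ + 1 < n) :
    FiniteActionsT p E M Γ Δ (PD z n) := by
  have hp : p.Prime := Fact.out
  have : NeZero p := ⟨hp.ne_zero⟩
  have ho : orderOf z = p := orderOf_eq_prime hz hz1
  have hn : 1 ≤ n := by omega
  refine comm_caseT hz ho hn (fun a => hΓ (dg_mem_SUG R hzR hz hzs a))
    (q := p) (e := e) (δ := δ)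
    (t := finrank ℝ E / 2 + npos p M)
    (s := n - 1) (boundT (if_neg hp2) fun x => ?_) hp.ne_zero hδ rfl hdvd (by omega)
  apply Subtype.ext
  funext i
  have h4 : ∀ x : Multiplicative (ZMod p), x ^ p = 1 := by
    intro x
    have h5 : x ^ Nat.card (Multiplicative (ZMod p)) = 1 := pow_card_eq_one'
    rwa [card_mz] at h5
  exact h4 _

end bounds

end Pool.Agent.E8helper2.ZB
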