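import Pool.Agent.E8helper2.ZB.Rep
import Pool.Agent.E8helper2.ZB.LatT
import Pool.Agent.E8helper2.ZB.Cases
import Pool.Agent.E8helper51.ZB3.Grp
import Pool.Agent.E8helper38.ZB.Grpl
import Pool.Agent.E8helper55.ZB.Lin
import Pool.Agent.E8helper41.ZB.Nerve2

/-!
# Actions of groups which contain sign changes and even permutations
-/

set_option autoImplicit false

namespace Pool.Agent.E8helper2.ZB

open Pool.Agent.H185.ZM Pool.Agent.Helper381 Pool.Agent.E8helper72.ZO Pool.Agent.E8helper38.ZB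
open Module Matrix
open scoped Manifold ContDiff

theorem grplU : S_GRPL :=
  Pool.Agent.E8helper38.ZB.grpl (Pool.Agent.E8helper51.ZB3.grp Pool.Agent.E8helper51.ZB3.pp)

/-- the sum of the integral parts of the quotients of the mod `p` Betti numbers in positive degrees
by `c` -/
noncomputable def quoB (p c : ℕ) (M : Type) [TopologicalSpace M] : ℕ :=
  ∑ᶠ n : ℕ, finrank (ZMod p) (SingularCohomology (ZMod p) M (n + 1)) / c

/-- the bounds for the Loewy lengths -/
noncomputable def Lq (p c : ℕ) (M : Type) [TopologicalSpace M] : ℕ → ℕ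
  | 0 => 1
  | n + 1 => if finrank (ZMod p) (SingularCohomology (ZMod p) M (n + 1)) = 0 then 0
      else 2 * (finrank (ZMod p) (SingularCohomology (ZMod p) M (n + 1)) / c) + 1

section man

theorem betti_fin (E : Type) [NormedAddCommGroup E] [NormedSpace ℝ E] [FiniteDimensional ℝ E]
    (M : Type) [TopologicalSpace M] [ChartedSpace E M] [IsManifold 𝓘(ℝ, E) ∞ M]
    [CompactSpace M] [T2Space M] [ConnectedSpace M] (p : ℕ) [Fact p.Prime] :
    (∀ n, Module.Finite (ZMod p) (SingularCohomology (ZMod p) M n)) ∧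
      ∃ N, ∀ n, N ≤ n → finrank (ZMod p) (SingularCohomology (ZMod p) M n) = 0 := by
  have ha : SmoothAction E (fun (_ : PUnit.{1}) (x : M) => x) :=
    { one := fun _ => rfl
      mul := fun _ _ _ => rfl
      smooth := fun _ => contMDiff_id }
  obtain ⟨W, _, _, _, F, T, hF⟩ := exists_equi ha
  let g := hF.metric
  obtain ⟨R, G⟩ := Q145.TN.exists_geo g
  let _ := Q145.TN.mS g
  have : Nonempty M := inferInstance
  exact G.betti_finite' (ZMod p)

theorem sum_Lq (E : Type) [NormedAddCommGroup E] [NormedSpace ℝ E] [FiniteDimensional ℝ E]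
    (M : Type) [TopologicalSpace M] [ChartedSpace E M] [IsManifold 𝓘(ℝ, E) ∞ M]
    [CompactSpace M] [T2Space M] [ConnectedSpace M] (p c : ℕ) [Fact p.Prime] (N : ℕ) :
    ∑ n ∈ Finset.range N, Lq p c M n ≤ 1 + (npos p M + 2 * quoB p c M) := by
  classical
  obtain ⟨hf, N0, hN0⟩ := betti_fin E M p
  set b : ℕ → ℕ := fun n => finrank (ZMod p) (SingularCohomology (ZMod p) M n) with hb
  have hnt : ∀ n, Nontrivial (SingularCohomology (ZMod p) M n) ↔ b n ≠ 0 := by
    intro n
    have := hf n
    rw [← Nat.pos_iff_ne_zero]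
    exact Module.finrank_pos_iff.symm
  have hS : {n : ℕ | 0 < n ∧ Nontrivial (SingularCohomology (ZMod p) M n)}.Finite := by
    refine (Finset.finite_toSet (Finset.range N0)).subset ?_
    rintro n ⟨_, hn⟩
    rw [Finset.coe_range, Set.mem_Iio]
    by_contra hlt
    exact (hnt n).1 hn (hN0 n (not_lt.1 hlt))
  have hq : ∑ n ∈ Finset.range N, b (n + 1) / c ≤ quoB p c M := by
    have hfs : (Function.support fun n : ℕ => b (n + 1) / c).Finite := by
      refine (Finset.finite_toSet (Finset.range N0)).subset ?_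
      intro n hn
      rw [Finset.coe_range, Set.mem_Iio]
      by_contra hlt
      apply hn
      show b (n + 1) / c = 0
      have : b (n + 1) = 0 := hN0 (n + 1) (by omega)
      rw [this, Nat.zero_div]
    have h1 : quoB p c M = ∑ n ∈ hfs.toFinset, b (n + 1) / c :=
      finsum_eq_sum_of_support_subset _ (by rw [Set.Finite.coe_toFinset])
    rw [h1]
    have h2 : ∑ n ∈ Finset.range N, b (n + 1) / c =
        ∑ n ∈ (Finset.range N).filter (fun n => b (n + 1) / c ≠ 0), b (n + 1) / c := by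
      rw [Finset.sum_filter_ne_zero]
    rw [h2]
    refine Finset.sum_le_sum_of_subset fun n hn => ?_
    rw [Set.Finite.mem_toFinset]
    exact (Finset.mem_filter.1 hn).2
  have hp : ∑ n ∈ Finset.range N, (if b (n + 1) = 0 then 0 else 1) ≤ npos p M := by
    have h1 : ∑ n ∈ Finset.range N, (if b (n + 1) = 0 then 0 else 1) =
        ((Finset.range N).filter (fun n => b (n + 1) ≠ 0)).card := by
      rw [Finset.card_filter]
      refine Finset.sum_congr rfl fun n _ => ?_
      by_cases h : b (n + 1) = 0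
      · rw [if_pos h, if_neg (by simpa using h)]
      · rw [if_neg h, if_pos h]
    rw [h1]
    have h2 : npos p M = hS.toFinset.card := Set.ncard_eq_toFinset_card _ hS
    rw [h2]
    refine Finset.card_le_card_of_injOn (fun n => n + 1) (fun n hn => ?_)
      (fun x _ y _ h => Nat.succ_injective h)
    rw [Finset.mem_coe, Set.Finite.mem_toFinset]
    exact ⟨Nat.succ_pos n, (hnt (n + 1)).2 (Finset.mem_filter.1 (Finset.mem_coe.1 hn)).2⟩
  have hL : ∀ n, Lq p c M (n + 1) = (if b (n + 1) = 0 then 0 else 1) +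
      (if b (n + 1) = 0 then 0 else 2 * (b (n + 1) / c)) := by
    intro n
    show (if b (n + 1) = 0 then 0 else 2 * (b (n + 1) / c) + 1) = _
    split_ifs <;> omega
  have hsum : ∑ n ∈ Finset.range N, Lq p c M (n + 1) ≤ npos p M + 2 * quoB p c M := by
    have h3 : ∑ n ∈ Finset.range N, (if b (n + 1) = 0 then 0 else 2 * (b (n + 1) / c)) ≤
        2 * ∑ n ∈ Finset.range N, b (n + 1) / c := by
      rw [Finset.mul_sum]
      refine Finset.sum_le_sum fun n _ => ?_
      split_ifs
      · exact Nat.zero_le _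
      · exact le_rfl
    simp only [hL]
    rw [Finset.sum_add_distrib]
    omega
  cases N with
  | zero => simp
  | succ N =>
    rw [Finset.sum_range_succ']
    have h4 : ∑ n ∈ Finset.range N, Lq p c M (n + 1) ≤
        ∑ n ∈ Finset.range (N + 1), Lq p c M (n + 1) :=
      Finset.sum_le_sum_of_subset (Finset.range_mono (Nat.le_succ N))
    have h5 : Lq p c M 0 = 1 := rfl
    omega

end man

section lat

variable {E : Type} [NormedAddCommGroup E] [NormedSpace ℝ E] [FiniteDimensional ℝ E]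
  {M : Type} [TopologicalSpace M] [ChartedSpace E M] [IsManifold 𝓘(ℝ, E) ∞ M]

/-- the Loewy lengths for groups of matrices -/
theorem loewy_sym [CompactSpace M] [T2Space M] [ConnectedSpace M] {F : Type} [Ring F] {n r : ℕ}
    {Γ : Subgroup (Matrix (Fin n) (Fin n) F)ˣ} (hr : r ≤ n) (hr3 : 3 ≤ r) (hΓ : HasSym r Γ)
    {α : Γ → (M ≃ₘ^∞⟮𝓘(ℝ, E), 𝓘(ℝ, E)⟯ M)} (hα : IsHom α) {P : Type} [CommGroup P]
    (φ : P →* Γ) (hφ : ∀ x, IsEvenSign r ((φ x : Γ) : (Matrix (Fin n) (Fin n) F)ˣ)) :
    Loewy 2 (hα.action.comp φ) (Lq 2 (2 * (r / 3)) M) := by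
  have : Fact (Nat.Prime 2) := ⟨Nat.prime_two⟩
  obtain ⟨hf, _⟩ := betti_fin E M 2
  have hc : 0 < 2 * (r / 3) := by
    have := Nat.div_pos hr3 (by norm_num)
    omega
  let f : Γ → C(M, M) := fun g => ⟨α g, (α g).continuous⟩
  have f1 : f 1 = ContinuousMap.id M := by
    apply ContinuousMap.ext
    intro x
    exact hα.action.one x
  have fm : ∀ g h, f (g * h) = (f g).comp (f h) := by
    intro g h
    apply ContinuousMap.ext
    intro x
    exact hα g h x
  intro j
  cases j with
  | zero =>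
    intro x b hb
    have : PathConnectedSpace M := by
      have : LocallyPathConnectedSpace M := ChartedSpace.locallyPathConnectedSpace E M
      exact pathConnectedSpace_iff_connectedSpace.2 inferInstance
    have h1 : (List.ofFn fun i : Fin (Lq 2 (2 * (r / 3)) M 0) => fun σ : Sing M 0 =>
        (amap (hα.action.comp φ) (x i)).comp σ) =
        [fun σ : Sing M 0 => (amap (hα.action.comp φ) (x (0 : Fin 1))).comp σ] := by
      show List.ofFn (fun i : Fin 1 => fun σ : Sing M 0 =>
        (amap (hα.action.comp φ) (x i)).comp σ) = _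
      rw [List.ofFn_succ, List.ofFn_zero]
    rw [h1]
    have h2 : (fun σ : Sing M 0 => b ((amap (hα.action.comp φ) (x (0 : Fin 1))).comp σ) - b σ)
        = 0 := by
      funext σ
      exact sub_eq_zero.2 (deg_zero b hb _ _)
    show (fun σ : Sing M 0 => b ((amap (hα.action.comp φ) (x (0 : Fin 1))).comp σ) - b σ) ∈ _
    rw [h2]
    exact Submodule.zero_mem _
  | succ j =>
    by_cases hb0 : finrank (ZMod 2) (SingularCohomology (ZMod 2) M (j + 1)) = 0
    · have hL : Lq 2 (2 * (r / 3)) M (j + 1) = 0 := if_pos hb0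
      rw [hL]
      intro x b hb
      rw [List.ofFn_zero]
      show b ∈ _
      have hfj : Module.Finite (ZMod 2) (HH (ZMod 2) M (j + 1)) := hf (j + 1)
      have h0 : finrank (ZMod 2) (HH (ZMod 2) M (j + 1)) = 0 := hb0
      rw [Module.finrank_zero_iff] at h0
      rw [← cl_eq_zero b hb]
      exact Subsingleton.elim _ _
    · have hL : Lq 2 (2 * (r / 3)) M (j + 1) = 2 *
          (finrank (ZMod 2) (SingularCohomology (ZMod 2) M (j + 1)) / (2 * (r / 3))) + 1 :=
        if_neg hb0
      rw [hL]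
      intro x b hb
      have hfj : Module.Finite (ZMod 2) (HH (ZMod 2) M (j + 1)) := hf (j + 1)
      refine itf_coboundaries f f1 fm (j + 1) _ (fun i => φ (x i)) ?_ b hb
      refine grplU F n r Γ hr hΓ (HH (ZMod 2) M (j + 1)) (repH (ZMod 2) f f1 fm (j + 1)) _ ?_
        (fun i => (φ (x i.rev))⁻¹) (fun i => ?_)
      · show finrank (ZMod 2) (SingularCohomology (ZMod 2) M (j + 1)) < _
        rw [mul_comm]
        exact Nat.lt_mul_div_succ _ hc
      · rw [← map_inv]
        exact hφ _

/-- extension by ones -/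
def exd (A : Type) [CommGroup A] (r n : ℕ) : (Fin r → A) →* (Fin n → A) where
  toFun a i := if h : i.val < r then a ⟨i.val, h⟩ else 1
  map_one' := by
    funext i
    split_ifs <;> rfl
  map_mul' a b := by
    funext i
    show _ = (if h : i.val < r then a ⟨i.val, h⟩ else 1) *
      (if h : i.val < r then b ⟨i.val, h⟩ else 1)
    split_ifs
    · rfl
    · rw [mul_one]

theorem exd_lt {A : Type} [CommGroup A] {r n : ℕ} (a : Fin r → A) (i : Fin n) (h : i.val < r) :
    exd A r n a i = a ⟨i.val, h⟩ := dif_pos h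

theorem exd_ge {A : Type} [CommGroup A] {r n : ℕ} (a : Fin r → A) (i : Fin n) (h : r ≤ i.val) :
    exd A r n a i = 1 := dif_neg (not_lt.2 h)

theorem prod_exd {A : Type} [CommGroup A] {r n : ℕ} (hr : r ≤ n) (a : Fin r → A) :
    ∏ i, exd A r n a i = ∏ i, a i := by
  obtain ⟨m, rfl⟩ : ∃ m, n = r + m := ⟨n - r, by omega⟩
  rw [Fin.prod_univ_add]
  have h1 : ∏ i : Fin m, exd A r (r + m) a (Fin.natAdd r i) = 1 :=
    Finset.prod_eq_one fun i _ => exd_ge a _ (by simp)
  rw [h1, mul_one]
  exact Finset.prod_congr rfl fun i _ => exd_lt a _ (by simp)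

theorem mz_sq (x : Multiplicative (ZMod 2)) : x ^ 2 = 1 := by
  revert x
  decide

/-- **Actions of groups which contain sign changes and even permutations.** -/
theorem sym_case [CompactSpace M] [T2Space M] [ConnectedSpace M] {F : Type} [Ring F]
    (h2 : (2 : F) ≠ 0) {n r : ℕ}
    {Γ : Subgroup (Matrix (Fin n) (Fin n) F)ˣ} (hr : r ≤ n) (hr3 : 3 ≤ r) (hΓ : HasSym r Γ)
    (hs : finrank ℝ E + npos 2 M + 2 * quoB 2 (2 * (r / 3)) M +
      (if r = n then Nat.gcd n 2 else 1) < r) :
    FiniteActions E M Γ Γ (PD (-1) n) := by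
  have : Fact (Nat.Prime 2) := ⟨Nat.prime_two⟩
  have hz : (-1 : F) ^ 2 = 1 := by rw [pow_two, neg_mul_neg, one_mul]
  have hne : (-1 : F) ≠ 1 := neg_one_ne h2
  have ho : orderOf (-1 : F) = 2 := orderOf_eq_prime hz hne
  have h1r : 1 ≤ r := by omega
  intro α hα
  -- the group
  let A := Multiplicative (ZMod 2)
  let φ0 : D1 A r →* (Matrix (Fin n) (Fin n) F)ˣ :=
    ((dg (pw (-1 : F) 2 hz) n).comp (exd A r n)).comp (D1 A r).subtype
  have hφ0 : ∀ a : D1 A r, φ0 a = dg (pw (-1 : F) 2 hz) n (exd A r n (a : Fin r → A)) :=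
    fun _ => rfl
  have hev : ∀ a : D1 A r, IsEvenSign r (φ0 a) := by
    intro a
    refine ⟨fun i => ((exd A r n (a : Fin r → A) i).toAdd).val, ?_, fun i hi => ?_, rfl⟩
    · have h4 : ∏ i, exd A r n (a : Fin r → A) i = 1 := (prod_exd hr _).trans a.2
      have h5 : ∑ i, (exd A r n (a : Fin r → A) i).toAdd = 0 := by
        have := congrArg Multiplicative.toAdd h4
        rwa [toAdd_prod, toAdd_one] at this
      rw [even_iff_two_dvd, ← ZMod.natCast_eq_zero_iff, Nat.cast_sum]
      rw [← h5]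
      exact Finset.sum_congr rfl fun i _ => ZMod.natCast_zmod_val _
    · show ((exd A r n (a : Fin r → A) i).toAdd).val = 0
      rw [exd_ge _ _ hi]
      rfl
  have hmem : ∀ a : D1 A r, φ0 a ∈ Γ := by
    intro a
    obtain ⟨d, h3, h4, h5⟩ := hev a
    exact hΓ.1 _ d h3 h4 h5
  let φ : D1 A r →* Γ := φ0.codRestrict Γ hmem
  have hP : ∀ x : D1 A r, x ^ 2 = 1 := by
    intro x
    apply Subtype.ext
    funext i
    exact mz_sq _
  have hLoewy := loewy_sym hr hr3 hΓ hα φ hev
  have hdvd := manL Pool.Agent.E8helper55.ZB.lin Pool.Agent.E8helper55.ZB.lin2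
    Pool.Agent.E8helper41.ZB.nerve2 (p := 2) hP (hα.action.comp φ) _ hLoewy
    (1 + (npos 2 M + 2 * quoB 2 (2 * (r / 3)) M)) (sum_Lq E M 2 (2 * (r / 3)))
  rw [show cst 2 (finrank ℝ E) = 2 ^ finrank ℝ E from if_pos rfl, ← pow_add, card_D1 h1r,
    card_mz, Nat.add_sub_cancel_left] at hdvd
  have hex : ∃ s ∈ PD (-1 : F) n, ∃ γ ∈ Γ, ∃ h : γ⁻¹ * s * γ ∈ Γ, (∀ x, α ⟨_, h⟩ x = x) ∧
      γ⁻¹ * s * γ ∉ Subgroup.center (Matrix (Fin n) (Fin n) F)ˣ := by
    by_contra hcon
    push Not at hcon
    have hin : ∀ q : actKer (hα.action.comp φ), φ0 (q : D1 A r) ∈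
        Subgroup.center (Matrix (Fin n) (Fin n) F)ˣ := by
      intro q
      have e : (1 : (Matrix (Fin n) (Fin n) F)ˣ)⁻¹ * φ0 (q : D1 A r) * 1 = φ0 (q : D1 A r) := by
        rw [inv_one, one_mul, mul_one]
      have h5 := hcon (φ0 (q : D1 A r)) (pw_PD hz _) 1 Γ.one_mem (by rw [e]; exact hmem _)
        (fun x => by
          have h6 := q.2 x
          have h7 : (⟨_, (by rw [e]; exact hmem _ :
            (1 : (Matrix (Fin n) (Fin n) F)ˣ)⁻¹ * φ0 (q : D1 A r) * 1 ∈ Γ)⟩ : Γ) =
              φ (q : D1 A r) := Subtype.ext e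
          rw [h7]
          exact h6)
      rwa [e] at h5
    have hcst : ∀ (q : actKer (hα.action.comp φ)) (i j : Fin n),
        exd A r n ((q : D1 A r) : Fin r → A) i = exd A r n ((q : D1 A r) : Fin r → A) j :=
      fun q i j => pw_inj (-1) 2 hz ho (const_of_center (hin q) i j)
    have hker : Nat.card (actKer (hα.action.comp φ)) ∣
        2 ^ ((if r = n then Nat.gcd n 2 else 1) - 1) := by
      have hg1 : Nat.gcd n 2 ∣ 2 := Nat.gcd_dvd_right _ _
      have hg2 : Nat.gcd n 2 = 1 ∨ Nat.gcd n 2 = 2 := (Nat.dvd_prime Nat.prime_two).1 hg1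
      by_cases hrn : r = n
      · rw [if_pos hrn]
        have h3 := card_const (A := A) h1r (actKer (hα.action.comp φ)) (fun a ha i j => by
          have h4 := hcst ⟨a, ha⟩ ⟨i.val, by omega⟩ ⟨j.val, by omega⟩
          rwa [exd_lt (n := n) _ ⟨i.val, _⟩ i.2, exd_lt (n := n) _ ⟨j.val, _⟩ j.2] at h4)
        rw [card_mz] at h3
        have h33 : Nat.card (actKer (hα.action.comp φ)) ∣ Nat.gcd n 2 := by
          have e : Nat.gcd r 2 = Nat.gcd n 2 := by rw [hrn]
          rwa [e] at h3
        refine h33.trans ?_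
        rcases hg2 with h | h <;> rw [h] <;> exact dvd_rfl
      · rw [if_neg hrn]
        have hlt : r < n := by omega
        have h3 : ∀ q : actKer (hα.action.comp φ), q = 1 := by
          intro q
          apply Subtype.ext
          apply Subtype.ext
          funext i
          have h4 := hcst q ⟨i.val, by omega⟩ ⟨r, hlt⟩
          rw [exd_lt (n := n) _ ⟨i.val, _⟩ i.2, exd_ge (n := n) _ ⟨r, hlt⟩ le_rfl] at h4
          exact h4
        have h5 : Subsingleton (actKer (hα.action.comp φ)) := ⟨fun a b => by rw [h3 a, h3 b]⟩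
        rw [Nat.card_unique]
        exact one_dvd _
    have h8 := hdvd.trans (mul_dvd_mul_right hker _)
    rw [← pow_add] at h8
    have h9 := (Nat.pow_dvd_pow_iff_le_right (by norm_num : 1 < 2)).1 h8
    have hg1 : 1 ≤ (if r = n then Nat.gcd n 2 else 1) := by
      split_ifs
      · exact Nat.gcd_pos_of_pos_right _ (by norm_num)
      · exact le_rfl
    omega
  refine ⟨hex, fun hNS => hα.finite_range ?_⟩
  obtain ⟨s, _, γ, hγ, h, h1, h2⟩ := hex
  rcases hNS (actKer hα.action) inferInstance with h3 | h3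
  · exact absurd (h3 ⟨_, h⟩ h1) h2
  · exact h3

end lat

end Pool.Agent.E8helper2.ZB
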