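import Pool.Agent.E8helper2.ZB.ManG
import Pool.Agent.E8helper2.ZB.CycW
import Pool.Agent.E8helper2.ZB.Htp
import Pool.Agent.E8helper30.ZB.Fix

/-!
# Actions of groups of matrices which contain wreath products
-/

set_option autoImplicit false

namespace Pool.Agent.E8helper2.ZB

open Pool.Agent.H185.ZM Pool.Agent.Helper381 Pool.Agent.E8helper72.ZO
open Module Matrix
open scoped Manifold ContDiff

/-- The elements of `Δ` which are conjugate under `Γ` to the cyclic permutation of the first `ℓ`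
coordinates act trivially on `H^q(M; F_p)`. -/
def RotTriv (p ℓ : ℕ) {E : Type} [NormedAddCommGroup E] [NormedSpace ℝ E] {M : Type}
    [TopologicalSpace M] [ChartedSpace E M] {F : Type} [Ring F] {n : ℕ}
    (Γ Δ : Subgroup (Matrix (Fin n) (Fin n) F)ˣ) (α : Δ → (M ≃ₘ^∞⟮𝓘(ℝ, E), 𝓘(ℝ, E)⟯ M))
    (q : ℕ) : Prop :=
  ∀ g : Δ, (∃ s : (Matrix (Fin n) (Fin n) F)ˣ, IsCyc ℓ s ∧ ∃ γ ∈ Γ,
    (g : (Matrix (Fin n) (Fin n) F)ˣ) = γ⁻¹ * s * γ) →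
      CohTriv (ZMod p) (⟨α g, (α g).continuous⟩ : C(M, M)) q

/-- The condition in degree `q`: with `w = wt p (q + 1)`, either `dim H^q(M; F_p)` is less than the
order of `p` modulo `ℓ / gcd(ℓ, w)`, or `ℓ` does not divide `w` and the cyclic permutations act
trivially on `H^q(M; F_p)`. -/
def GoodDeg (p ℓ : ℕ) {E : Type} [NormedAddCommGroup E] [NormedSpace ℝ E] {M : Type}
    [TopologicalSpace M] [ChartedSpace E M] {F : Type} [Ring F] {n : ℕ}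
    (Γ Δ : Subgroup (Matrix (Fin n) (Fin n) F)ˣ) (α : Δ → (M ≃ₘ^∞⟮𝓘(ℝ, E), 𝓘(ℝ, E)⟯ M))
    (q : ℕ) : Prop :=
  finrank (ZMod p) (SingularCohomology (ZMod p) M q) <
      orderOf (p : ZMod (ℓ / Nat.gcd ℓ (wt p (q + 1)))) ∨
    (¬ ℓ ∣ wt p (q + 1) ∧ RotTriv p ℓ Γ Δ α q)

/-- The conclusion of `FiniteActions` for the homomorphisms `α : Δ → Diff(M)` with the property
`Q`: the kernel of `α` contains an element which is not central in `GL_n(F)` and which is conjugate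
under `Γ` to an element of `S`; `α` has finite image if every normal subgroup of `Δ` consists of
central elements or has finite index in `Δ`. -/
def FiniteActionsIf (E : Type) [NormedAddCommGroup E] [NormedSpace ℝ E] (M : Type)
    [TopologicalSpace M] [ChartedSpace E M] {F : Type} [Ring F] {n : ℕ}
    (Γ Δ : Subgroup (Matrix (Fin n) (Fin n) F)ˣ) (S : Set (Matrix (Fin n) (Fin n) F)ˣ)
    (Q : (Δ → (M ≃ₘ^∞⟮𝓘(ℝ, E), 𝓘(ℝ, E)⟯ M)) → Prop) : Prop :=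
  ∀ α : Δ → (M ≃ₘ^∞⟮𝓘(ℝ, E), 𝓘(ℝ, E)⟯ M), IsHom α → Q α →
    (∃ s ∈ S, ∃ γ ∈ Γ, ∃ h : γ⁻¹ * s * γ ∈ Δ, (∀ x, α ⟨_, h⟩ x = x) ∧
      γ⁻¹ * s * γ ∉ Subgroup.center (Matrix (Fin n) (Fin n) F)ˣ) ∧
    ((∀ N : Subgroup Δ, N.Normal →
        (∀ g ∈ N, (g : (Matrix (Fin n) (Fin n) F)ˣ) ∈ Subgroup.center _) ∨ Finite (Δ ⧸ N)) →
      (Set.range α).Finite)

variable {E : Type} [NormedAddCommGroup E] [NormedSpace ℝ E] [FiniteDimensional ℝ E]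
  {M : Type} [TopologicalSpace M] [ChartedSpace E M] [IsManifold 𝓘(ℝ, E) ∞ M]

/-- **Actions of groups which contain wreath products.** -/
theorem cyc_core [CompactSpace M] [T2Space M] [ConnectedSpace M] {F : Type} [Ring F]
    {z : F} {p ℓ n : ℕ} [Fact p.Prime] (hz : z ^ p = 1) (hz1 : z ≠ 1) (hp : ¬ p ∣ ℓ)
    (hl : 2 ≤ ℓ) (hn : ℓ ≤ n) {Γ Δ : Subgroup (Matrix (Fin n) (Fin n) F)ˣ}
    (hm : (if p = 2 then finrank ℝ E else finrank ℝ E / 2) <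
      orderOf (p : ZMod ℓ)) {σ : Equiv.Perm (Fin n)} (h1 : ∀ i : Fin n, ℓ ≤ i.val → σ i = i)
    (h2 : ∀ i : Fin n, i.val < ℓ → (σ i).val = (i.val + 1) % ℓ)
    (hfix : ∃ γ ∈ Γ, (∀ g, γ⁻¹ * F0 z p ℓ n hz g * γ ∈ Δ) ∧ γ⁻¹ * pu F σ * γ ∈ Δ) :
    FiniteActionsIf E M Γ Δ (PD z n) (fun α => ∀ q, 1 ≤ q → q ≤ finrank ℝ E →
      GoodDeg p ℓ Γ Δ α q) := by
  have ho : orderOf z = p := orderOf_eq_prime hz hz1
  intro α hα hgood
  obtain ⟨γ, hγ, hγ1, hγ2⟩ := hfix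
  let φ1 : GG p ℓ →* (Matrix (Fin n) (Fin n) F)ˣ :=
    (MulAut.conj γ⁻¹).toMonoidHom.comp (F0 z p ℓ n hz)
  have hφ1 : ∀ g, φ1 g = γ⁻¹ * F0 z p ℓ n hz g * γ := by
    intro g
    show γ⁻¹ * F0 z p ℓ n hz g * (γ⁻¹)⁻¹ = _
    rw [inv_inv]
  let φ : GG p ℓ →* Δ := φ1.codRestrict Δ (fun g => by rw [hφ1]; exact hγ1 g)
  have hφ : ∀ g, ((φ g : Δ) : (Matrix (Fin n) (Fin n) F)ˣ) = γ⁻¹ * F0 z p ℓ n hz g * γ := hφ1
  let s : Δ := ⟨γ⁻¹ * pu F σ * γ, hγ2⟩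
  have hs : s ^ ℓ = 1 := by
    apply Subtype.ext
    show (γ⁻¹ * pu F σ * γ) ^ ℓ = 1
    have e : γ⁻¹ * pu F σ * γ = γ⁻¹ * pu F σ * (γ⁻¹)⁻¹ := by rw [inv_inv]
    rw [e, conj_pow, pu_pow_eq h1 h2, mul_one, mul_inv_cancel]
  have hπ : ∀ i, φ (gen p ℓ i) * s = s * φ (gen p ℓ (finRotate ℓ i)) := by
    intro i
    apply Subtype.ext
    show φ1 (gen p ℓ i) * (γ⁻¹ * pu F σ * γ) =
      (γ⁻¹ * pu F σ * γ) * φ1 (gen p ℓ (finRotate ℓ i))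
    rw [hφ1, hφ1]
    have e := F0_comm (ℓ := ℓ) hz h1 h2 i
    calc γ⁻¹ * F0 z p ℓ n hz (gen p ℓ i) * γ * (γ⁻¹ * pu F σ * γ)
        = γ⁻¹ * (F0 z p ℓ n hz (gen p ℓ i) * pu F σ) * γ := by group
      _ = γ⁻¹ * (pu F σ * F0 z p ℓ n hz (gen p ℓ (finRotate ℓ i))) * γ := by rw [e]
      _ = _ := by group
  obtain ⟨ζ, hζ, hℓ⟩ := exists_zeta p ℓ hp
  have hex : ∃ s ∈ PD z n, ∃ γ ∈ Γ, ∃ h : γ⁻¹ * s * γ ∈ Δ, (∀ x, α ⟨_, h⟩ x = x) ∧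
      γ⁻¹ * s * γ ∉ Subgroup.center (Matrix (Fin n) (Fin n) F)ˣ := by
    by_contra hcon
    push Not at hcon
    let i0 : Fin ℓ := ⟨0, by omega⟩
    let i1 : Fin ℓ := ⟨1, by omega⟩
    have h3 := manG (p := p) hα.action φ s hs (finRotate ℓ) hπ (AlgebraicClosure (ZMod p))
      (fun i => (ζ⁻¹) ^ i.val) ζ hζ hℓ (xi_rel hζ (by omega)) (fun q hq1 hq2 => by
        rcases hgood q hq1 hq2 with h | ⟨h, h'⟩
        · exact Or.inl h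
        · exact Or.inr ⟨h, h' s ⟨pu F σ, ⟨σ, h1, h2, rfl⟩, γ, hγ, rfl⟩⟩) hm
      (fun i => (if i = i0 then 1 else 0) - (if i = i1 then 1 else 0)) (fun g hg => by
        have h4 := hcon (F0 z p ℓ n hz g) (F0_PD hz g) γ hγ (hγ1 g) (fun x => by
          have e : (⟨γ⁻¹ * F0 z p ℓ n hz g * γ, hγ1 g⟩ : Δ) = φ g := Subtype.ext (hφ g).symm
          rw [e]
          exact hg x)
        have h6 : F0 z p ℓ n hz g = γ * (γ⁻¹ * F0 z p ℓ n hz g * γ) * γ⁻¹ := by group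
        have h5 : F0 z p ℓ n hz g ∈ Subgroup.center (Matrix (Fin n) (Fin n) F)ˣ := by
          rw [h6]
          exact Subgroup.Normal.conj_mem inferInstance _ h4 _
        have h7 := F0_center hz ho hp hn h5 i0 i1
        simp only [sub_mul, ite_mul, one_mul, zero_mul, Finset.sum_sub_distrib,
          Finset.sum_ite_eq', Finset.mem_univ, if_true]
        rw [h7, sub_self])
    have hne : i0 ≠ i1 := by
      intro h
      have h9 : (0 : ℕ) = 1 := congrArg Fin.val h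
      exact Nat.zero_ne_one h9
    simp only [map_sub, sub_mul, Finset.sum_sub_distrib] at h3
    have e0 : ∀ j : Fin ℓ, ∑ i : Fin ℓ, (algebraMap (ZMod p) (AlgebraicClosure (ZMod p)))
        (if i = j then 1 else 0) * (ζ⁻¹) ^ i.val = (ζ⁻¹) ^ j.val := by
      intro j
      rw [Finset.sum_eq_single j]
      · rw [if_pos rfl, map_one, one_mul]
      · intro i _ hij
        rw [if_neg hij, map_zero, zero_mul]
      · intro h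
        exact absurd (Finset.mem_univ _) h
    rw [e0, e0] at h3
    have h4 : (ζ⁻¹) ^ i0.val = 1 := pow_zero _
    have h5 : (ζ⁻¹) ^ i1.val = ζ⁻¹ := pow_one _
    rw [h4, h5, sub_eq_zero] at h3
    have h6 : ζ = 1 := by rw [← inv_inv ζ, ← h3, inv_one]
    rw [h6, orderOf_one] at hζ
    omega
  refine ⟨hex, fun hNS => hα.finite_range ?_⟩
  obtain ⟨s, _, γ, hγ, h, h1, h2⟩ := hex
  rcases hNS (actKer hα.action) inferInstance with h3 | h3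
  · exact absurd (h3 ⟨_, h⟩ h1) h2
  · exact h3

/-- the case `Γ ≤ Δ` -/
theorem cyc_case [CompactSpace M] [T2Space M] [ConnectedSpace M] {F : Type} [Ring F]
    {z : F} {p ℓ n : ℕ} [Fact p.Prime] (hz : z ^ p = 1) (hz1 : z ≠ 1) (hp : ¬ p ∣ ℓ)
    (hl : 2 ≤ ℓ) (hn : ℓ ≤ n) {Γ Δ : Subgroup (Matrix (Fin n) (Fin n) F)ˣ} (hΓ : HasCyc z p ℓ Γ)
    (hΔ : Γ ≤ Δ)
    (hm : (if p = 2 then finrank ℝ E else finrank ℝ E / 2) < orderOf (p : ZMod ℓ)) :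
    FiniteActionsIf E M Γ Δ (PD z n) (fun α => ∀ q, 1 ≤ q → q ≤ finrank ℝ E →
      GoodDeg p ℓ Γ Δ α q) := by
  obtain ⟨σ, h1, h2⟩ := exists_perm (n := n) (ℓ := ℓ) (by omega) hn
  refine cyc_core hz hz1 hp hl hn hm h1 h2 ⟨1, Γ.one_mem, fun g => ?_, ?_⟩
  · rw [inv_one, one_mul, mul_one]
    exact hΔ (F0_mem hz hn hΓ g)
  · rw [inv_one, one_mul, mul_one]
    exact hΔ (hΓ.2 _ ⟨σ, h1, h2, rfl⟩)

/-- the case of a prime number `ℓ` -/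
theorem cyc_prime [CompactSpace M] [T2Space M] [ConnectedSpace M] {F : Type} [Ring F]
    {z : F} {p ℓ n : ℕ} [Fact p.Prime] [Fact ℓ.Prime] (hz : z ^ p = 1) (hz1 : z ≠ 1)
    (hpl : p ≠ ℓ) (hn : ℓ ≤ n) {Γ Δ : Subgroup (Matrix (Fin n) (Fin n) F)ˣ}
    (hΓ : HasCyc z p ℓ Γ) (hd : ¬ ℓ ∣ Δ.relIndex Γ)
    (hlt : Δ.relIndex Γ < p ^ orderOf (p : ZMod ℓ))
    (hm : (if p = 2 then finrank ℝ E else finrank ℝ E / 2) < orderOf (p : ZMod ℓ)) :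
    FiniteActionsIf E M Γ Δ (PD z n) (fun α => ∀ q, 1 ≤ q → q ≤ finrank ℝ E →
      GoodDeg p ℓ Γ Δ α q) := by
  have hℓ : ℓ.Prime := Fact.out
  have hp : p.Prime := Fact.out
  obtain ⟨σ, h1, h2⟩ := exists_perm (n := n) (ℓ := ℓ) (by have := hℓ.two_le; omega) hn
  refine cyc_core hz hz1 (fun h => hpl ((Nat.prime_dvd_prime_iff_eq hp hℓ).1 h)) hℓ.two_le hn hm
    h1 h2 ?_
  exact Pool.Agent.E8helper30.ZB.fix p ℓ hpl _ Γ Δ (F0 z p ℓ n hz) (pu F σ) (F0_mem hz hn hΓ)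
    (hΓ.2 _ ⟨σ, h1, h2, rfl⟩) (pu_pow_eq h1 h2) (F0_comm hz h1 h2) (F0_ones hz) hd hlt

theorem wt_two (q : ℕ) : wt 2 q = q := by
  unfold wt
  omega

/-- **Small Betti numbers modulo 2.** -/
theorem cyc_two [CompactSpace M] [T2Space M] [ConnectedSpace M] {F : Type} [Ring F]
    (h2 : (2 : F) ≠ 0) {ℓ n : ℕ} [Fact ℓ.Prime] (hℓ2 : ℓ ≠ 2) (hn : ℓ ≤ n)
    {Γ Δ : Subgroup (Matrix (Fin n) (Fin n) F)ˣ}
    (hΓ : HasCyc (-1 : F) 2 ℓ Γ) (hd : ¬ ℓ ∣ Δ.relIndex Γ)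
    (hlt : Δ.relIndex Γ < 2 ^ orderOf (2 : ZMod ℓ)) (hm : finrank ℝ E < orderOf (2 : ZMod ℓ)) :
    FiniteActionsIf E M Γ Δ (PD (-1) n) (fun α => ∀ q, 1 ≤ q → q ≤ finrank ℝ E →
      finrank (ZMod 2) (SingularCohomology (ZMod 2) M q) < orderOf (2 : ZMod ℓ) ∨
        RotTriv 2 ℓ Γ Δ α q) := by
  intro α hα hβ
  have : Fact (Nat.Prime 2) := ⟨Nat.prime_two⟩
  have hℓ : ℓ.Prime := Fact.out
  have hz : (-1 : F) ^ 2 = 1 := by rw [pow_two, neg_mul_neg, one_mul]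
  have hlt2 : orderOf (2 : ZMod ℓ) < ℓ := by
    have h20 : (2 : ZMod ℓ) ≠ 0 := by
      have : ((2 : ℕ) : ZMod ℓ) ≠ 0 := by
        rw [Ne, ZMod.natCast_eq_zero_iff]
        intro h
        exact hℓ2 ((Nat.prime_dvd_prime_iff_eq hℓ Nat.prime_two).1 h)
      simpa using this
    have h3 := Nat.le_of_dvd (by have := hℓ.two_le; omega) (ZMod.orderOf_dvd_card_sub_one h20)
    have := hℓ.two_le
    omega
  have h3 : orderOf ((2 : ℕ) : ZMod ℓ) = orderOf (2 : ZMod ℓ) := by rw [Nat.cast_ofNat]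
  refine cyc_prime hz (neg_one_ne h2) (Ne.symm hℓ2) hn hΓ hd (by rw [h3]; exact hlt)
    (by rw [if_pos rfl, h3]; exact hm) α hα (fun q hq1 hq2 => ?_)
  have hnd : ¬ ℓ ∣ q + 1 := fun h => by
    have := Nat.le_of_dvd (by omega) h
    omega
  rcases hβ q hq1 hq2 with h | h
  · left
    rw [wt_two, (Nat.Prime.coprime_iff_not_dvd hℓ).2 hnd, Nat.div_one, h3]
    exact h
  · right
    rw [wt_two]
    exact ⟨hnd, h⟩

omit [FiniteDimensional ℝ E] [IsManifold 𝓘(ℝ, E) ∞ M] in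
/-- homotopically trivial rotations -/
theorem rotTriv_of_homotopic {p ℓ : ℕ} {F : Type} [Ring F] {n : ℕ}
    {Γ Δ : Subgroup (Matrix (Fin n) (Fin n) F)ˣ} {α : Δ → (M ≃ₘ^∞⟮𝓘(ℝ, E), 𝓘(ℝ, E)⟯ M)}
    (h : ∀ g : Δ, (∃ s : (Matrix (Fin n) (Fin n) F)ˣ, IsCyc ℓ s ∧ ∃ γ ∈ Γ,
      (g : (Matrix (Fin n) (Fin n) F)ˣ) = γ⁻¹ * s * γ) →
        (ContinuousMap.id M).Homotopic ⟨α g, (α g).continuous⟩) (q : ℕ) :
    RotTriv p ℓ Γ Δ α q :=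
  fun g hg => cohTriv_of_homotopic (ZMod p) _ (h g hg) q

end Pool.Agent.E8helper2.ZB
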