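import Mathlib

/-!
# Levels of cycles in a twisted complex, modulo an ideal
-/

set_option autoImplicit false

namespace Pool.Agent.E8helper2.ZB.Lev

section mI

variable {R : Type} [CommRing R] {A B : Type} [AddCommGroup A] [Module R A] [AddCommGroup B]
  [Module R B] {I : Ideal R}

theorem map_mI (L : A →ₗ[R] B) {x : A} (hx : x ∈ I • (⊤ : Submodule R A)) :
    L x ∈ I • (⊤ : Submodule R B) := by
  have h := Submodule.mem_map_of_mem (f := L) hx
  rw [Submodule.map_smul''] at h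
  exact Submodule.smul_mono le_rfl le_top h

theorem mem_sup_smul {f : R} {x : A} (hx : x ∈ (I ⊔ Ideal.span {f}) • (⊤ : Submodule R A)) :
    ∃ s : A, x - f • s ∈ I • (⊤ : Submodule R A) := by
  rw [Submodule.sup_smul, Submodule.mem_sup] at hx
  obtain ⟨y, hy, z, hz, rfl⟩ := hx
  rw [Submodule.ideal_span_singleton_smul, Submodule.mem_smul_pointwise_iff_exists] at hz
  obtain ⟨s, _, rfl⟩ := hz
  exact ⟨s, by rwa [add_sub_cancel_right]⟩

theorem smul_mem_sup {f : R} {x s : A} (hx : x - f • s ∈ I • (⊤ : Submodule R A)) :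
    x ∈ (I ⊔ Ideal.span {f}) • (⊤ : Submodule R A) := by
  have h : x = (x - f • s) + f • s := by abel
  rw [h]
  refine Submodule.add_mem _ (Submodule.smul_mono_left le_sup_left hx) ?_
  exact Submodule.smul_mem_smul (Submodule.mem_sup_right (Ideal.mem_span_singleton_self f))
    Submodule.mem_top

/-- functions with values in an ideal -/
theorem mem_fun {X : Type} [Fintype X] (I : Ideal R) (y : X → R) :
    y ∈ I • (⊤ : Submodule R (X → R)) ↔ ∀ x, y x ∈ I := by
  classical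
  constructor
  · intro h x
    have := map_mI (LinearMap.proj (R := R) (φ := fun _ : X => R) x) h
    simpa using this
  · intro h
    have e : y = ∑ x, y x • (Pi.single x (1 : R) : X → R) := by
      funext z
      simp [Finset.sum_apply, Pi.single_apply]
    rw [e]
    exact Submodule.sum_mem _ fun x _ => Submodule.smul_mem_smul (h x) Submodule.mem_top

end mI

section cx

variable {R : Type} [CommRing R] {M : ℕ → Type} [∀ q, AddCommGroup (M q)] [∀ q, Module R (M q)]
  (d : ∀ q, M (q + 1) →ₗ[R] M q) (θ : ∀ q, ℕ → M q →ₗ[R] M q)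

/-- the hypotheses on `d` and `θ` -/
structure Cx : Prop where
  dd : ∀ q x, d q (d (q + 1) x) = 0
  comm : ∀ q j x, d q (θ (q + 1) j x) = θ q j (d q x)
  tt : ∀ q j x, θ q (j + 1) (θ q j x) = 0
  per : ∀ q j, θ q (j + 2) = θ q j
  m0 : ∀ x : M 0, x = 0

/-- the total differential -/
def T (n : ℕ) : (∀ q, M q) →ₗ[R] (∀ q, M q) :=
  LinearMap.pi fun q => (d q).comp (LinearMap.proj (q + 1)) -
    ((-1 : R) ^ n) • (θ q (q + n)).comp (LinearMap.proj q)

theorem T_apply (n : ℕ) (z : ∀ q, M q) (q : ℕ) :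
    T d θ n z q = d q (z (q + 1)) - ((-1 : R) ^ n) • θ q (q + n) (z q) := rfl

variable {d θ}

theorem Cx.T_T (h : Cx d θ) (n : ℕ) (z : ∀ q, M q) : T d θ n (T d θ (n + 1) z) = 0 := by
  funext q
  have e : q + 1 + (n + 1) = q + n + 2 := by omega
  have e' : q + (n + 1) = q + n + 1 := by omega
  rw [T_apply, T_apply, T_apply, map_sub, h.dd, map_smul, h.comm, map_sub, map_smul, e, h.per, e',
    ← h.per q (q + n), h.tt]
  simp only [smul_zero, sub_zero, zero_sub, pow_succ, mul_neg, mul_one, neg_smul, neg_neg,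
    sub_self, Pi.zero_apply]

theorem Cx.T_per (h : Cx d θ) (n : ℕ) : T d θ (n + 2) = T d θ n := by
  apply LinearMap.ext
  intro z
  funext q
  rw [T_apply, T_apply, ← add_assoc, h.per]
  congr 2
  rw [pow_add]
  simp

theorem Cx.T_T' (h : Cx d θ) (n : ℕ) (z : ∀ q, M q) : T d θ (n + 1) (T d θ n z) = 0 := by
  rw [← h.T_per n]
  exact h.T_T (n + 1) z

variable (d θ)

/-- `z` is a cycle modulo `I` -/
def Cyc (I : Ideal R) (n : ℕ) (z : ∀ q, M q) : Prop :=
  ∀ j, T d θ n z j ∈ I • (⊤ : Submodule R (M j))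

/-- `z` is homologous modulo `I` to an element which vanishes below `q` -/
def HL (I : Ideal R) (n q : ℕ) (z : ∀ q, M q) : Prop :=
  ∃ u : ∀ q, M q, ∀ j, j < q → (z - T d θ (n + 1) u) j ∈ I • (⊤ : Submodule R (M j))

variable {d θ}

theorem Cyc.sub (h : Cx d θ) {I : Ideal R} {n : ℕ} {z : ∀ q, M q} (hz : Cyc d θ I n z)
    (u : ∀ q, M q) : Cyc d θ I n (z - T d θ (n + 1) u) := by
  intro j
  rw [map_sub, h.T_T, sub_zero]
  exact hz j

theorem HL.of_sub {I : Ideal R} {n q : ℕ} {z : ∀ q, M q} (u : ∀ q, M q)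
    (hz : HL d θ I n q (z - T d θ (n + 1) u)) : HL d θ I n q z := by
  obtain ⟨v, hv⟩ := hz
  refine ⟨u + v, fun j hj => ?_⟩
  have := hv j hj
  rwa [map_add, ← sub_sub]

/-- one step, if the homology class in the lowest degree vanishes -/
theorem fin_step {I : Ideal R} {n q : ℕ} {z : ∀ q, M q} (hz : Cyc d θ I n z)
    (hlow : ∀ j, j < q + 1 → z j ∈ I • (⊤ : Submodule R (M j)))
    {P : Type} [AddCommGroup P] [Module R P]
    (S : M (q + 1) →ₗ[R] M (q + 2)) (t : M q →ₗ[R] M (q + 1)) (U : P →ₗ[R] M (q + 1))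
    (Φ : M (q + 1) →ₗ[R] P) (h1 : ∀ x, x = d (q + 1) (S x) + t (d q x) + U (Φ x))
    (hΦ : Φ (z (q + 1)) ∈ I • (⊤ : Submodule R P)) : HL d θ I n (q + 2) z := by
  have hd : d q (z (q + 1)) ∈ I • (⊤ : Submodule R (M q)) := by
    have h2 := hz q
    rw [T_apply] at h2
    have h3 := Submodule.smul_mem _ ((-1 : R) ^ n) (map_mI (θ q (q + n)) (hlow q (by omega)))
    have := Submodule.add_mem _ h2 h3
    rwa [sub_add_cancel] at this
  refine ⟨Pi.single (q + 2) (S (z (q + 1))), fun j hj => ?_⟩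
  rw [Pi.sub_apply, T_apply]
  rcases Nat.lt_succ_iff_lt_or_eq.1 hj with hj | rfl
  · rw [Pi.single_eq_of_ne (by omega), Pi.single_eq_of_ne (by omega), map_zero, map_zero,
      smul_zero, sub_zero, sub_zero]
    exact hlow j hj
  · rw [Pi.single_eq_same, Pi.single_eq_of_ne (by omega), map_zero, smul_zero, sub_zero]
    have h4 : z (q + 1) - d (q + 1) (S (z (q + 1))) = t (d q (z (q + 1))) + U (Φ (z (q + 1))) := by
      conv_lhs => rw [h1 (z (q + 1))]
      have := h1 (z (q + 1))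
      rw [← this]
      nth_rewrite 1 [this]
      abel
    rw [h4]
    exact Submodule.add_mem _ (map_mI t hd) (map_mI U hΦ)

/-- **Lemma A.** -/
theorem stepA (h : Cx d θ) {I : Ideal R} {n q : ℕ} {z : ∀ q, M q} (hz : Cyc d θ I n z) (f : R)
    (hreg : ∀ j (x : M j), f • x ∈ I • (⊤ : Submodule R (M j)) → x ∈ I • (⊤ : Submodule R (M j)))
    {P : Type} [AddCommGroup P] [Module R P]
    (hregP : ∀ x : P, f • x ∈ I • (⊤ : Submodule R P) → x ∈ I • (⊤ : Submodule R P))
    (S : M (q + 1) →ₗ[R] M (q + 2)) (t : M q →ₗ[R] M (q + 1)) (U : P →ₗ[R] M (q + 1))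
    (Φ : M (q + 1) →ₗ[R] P) (h1 : ∀ x, x = d (q + 1) (S x) + t (d q x) + U (Φ x))
    (h2 : ∀ y, Φ (d (q + 1) y) = 0) (h3 : ∀ x, d q (t (d q x)) = d q x)
    (h4 : ∀ x j, Φ (θ (q + 1) j (x - t (d q x))) = 0)
    (w : ∀ q, M q) (hw : ∀ j, (f • z - T d θ (n + 1) w) j ∈ I • (⊤ : Submodule R (M j)))
    (hlev : HL d θ (I ⊔ Ideal.span {f}) (n + 1) (q + 1) w) : HL d θ I n (q + 2) z := by
  classical
  obtain ⟨u, hu⟩ := hlev
  set w1 := w - T d θ (n + 1 + 1) u with hw1
  have a1 : ∀ j, (f • z - T d θ (n + 1) w1) j ∈ I • (⊤ : Submodule R (M j)) := by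
    intro j
    rw [hw1, map_sub, h.T_T, sub_zero]
    exact hw j
  have : ∀ j, ∃ s : M j, j < q + 1 → w1 j - f • s ∈ I • (⊤ : Submodule R (M j)) := by
    intro j
    by_cases hj : j < q + 1
    · obtain ⟨s, hs⟩ := mem_sup_smul (hu j hj)
      exact ⟨s, fun _ => hs⟩
    · exact ⟨0, fun h => absurd h hj⟩
  choose s hs using this
  set w2 := w1 - f • s with hw2
  set z1 := z - T d θ (n + 1) s with hz1
  have a2 : ∀ j, (f • z1 - T d θ (n + 1) w2) j ∈ I • (⊤ : Submodule R (M j)) := by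
    intro j
    have e : f • z1 - T d θ (n + 1) w2 = f • z - T d θ (n + 1) w1 := by
      rw [hz1, hw2, map_sub, map_smul, smul_sub]
      abel
    rw [e]
    exact a1 j
  have b2 : ∀ j, j < q + 1 → w2 j ∈ I • (⊤ : Submodule R (M j)) := fun j hj => hs j hj
  set s' : ∀ q, M q := Pi.single (q + 1) (t (z1 q)) with hs'
  set w3 := w2 - f • s' with hw3
  set z2 := z1 - T d θ (n + 1) s' with hz2
  have a3 : ∀ j, (f • z2 - T d θ (n + 1) w3) j ∈ I • (⊤ : Submodule R (M j)) := by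
    intro j
    have e : f • z2 - T d θ (n + 1) w3 = f • z1 - T d θ (n + 1) w2 := by
      rw [hz2, hw3, map_sub, map_smul, smul_sub]
      abel
    rw [e]
    exact a2 j
  have b3 : ∀ j, j < q + 1 → w3 j ∈ I • (⊤ : Submodule R (M j)) := by
    intro j hj
    have e : w3 j = w2 j := by
      rw [hw3, Pi.sub_apply, Pi.smul_apply, hs', Pi.single_eq_of_ne (by omega), smul_zero,
        sub_zero]
    rw [e]
    exact b2 j hj
  have c3 : w3 (q + 1) - (w2 (q + 1) - t (d q (w2 (q + 1)))) ∈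
      I • (⊤ : Submodule R (M (q + 1))) := by
    have e : w3 (q + 1) = w2 (q + 1) - f • t (z1 q) := by
      rw [hw3, Pi.sub_apply, Pi.smul_apply, hs', Pi.single_eq_same]
    have e2 : w3 (q + 1) - (w2 (q + 1) - t (d q (w2 (q + 1)))) =
        - t (f • z1 q - T d θ (n + 1) w2 q - ((-1 : R) ^ (n + 1)) • θ q (q + (n + 1)) (w2 q)) := by
      rw [e, T_apply, map_sub, map_sub, map_smul, map_sub]
      abel
    rw [e2]
    refine Submodule.neg_mem _ (map_mI t (Submodule.sub_mem _ (a2 q) ?_))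
    exact Submodule.smul_mem _ _ (map_mI _ (b2 q (by omega)))
  have d3 : ∀ j, j < q + 1 → z2 j ∈ I • (⊤ : Submodule R (M j)) := by
    intro j hj
    apply hreg
    have e : f • z2 j = (f • z2 - T d θ (n + 1) w3) j + d j (w3 (j + 1)) -
        ((-1 : R) ^ (n + 1)) • θ j (j + (n + 1)) (w3 j) := by
      rw [Pi.sub_apply, T_apply, Pi.smul_apply]
      abel
    rw [e]
    refine Submodule.sub_mem _ (Submodule.add_mem _ (a3 j) ?_)
      (Submodule.smul_mem _ _ (map_mI _ (b3 j hj)))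
    rcases Nat.lt_succ_iff_lt_or_eq.1 hj with hj' | rfl
    · exact map_mI _ (b3 (j + 1) (by omega))
    · have e3 : d j (w3 (j + 1)) = d j (w3 (j + 1) - (w2 (j + 1) - t (d j (w2 (j + 1))))) := by
        rw [map_sub, map_sub, h3, sub_self, sub_zero]
      rw [e3]
      exact map_mI _ c3
  have hcyc2 : Cyc d θ I n z2 := (hz.sub h s).sub h s'
  have e5 : Φ (z2 (q + 1)) ∈ I • (⊤ : Submodule R P) := by
    apply hregP
    have e : f • Φ (z2 (q + 1)) = Φ ((f • z2 - T d θ (n + 1) w3) (q + 1)) -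
        ((-1 : R) ^ (n + 1)) • Φ (θ (q + 1) (q + 1 + (n + 1))
          (w3 (q + 1) - (w2 (q + 1) - t (d q (w2 (q + 1)))))) := by
      rw [Pi.sub_apply, T_apply, Pi.smul_apply, map_sub, map_sub, map_smul, map_smul, h2,
        map_sub (θ (q + 1) _), map_sub Φ, h4]
      abel_nf
    rw [e]
    exact Submodule.sub_mem _ (map_mI Φ (a3 (q + 1)))
      (Submodule.smul_mem _ _ (map_mI Φ (map_mI _ c3)))
  exact HL.of_sub s (HL.of_sub s' (fin_step hcyc2 d3 S t U Φ h1 e5))

end cx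

end Pool.Agent.E8helper2.ZB.Lev
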