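import Pool.Agent.E8helper2.ZB.Lev

/-!
# Towers of ideals and levels of cycles
-/

set_option autoImplicit false

namespace Pool.Agent.E8helper2.ZB.Lev

variable {R : Type} [CommRing R] {M : ℕ → Type} [∀ q, AddCommGroup (M q)] [∀ q, Module R (M q)]
  {d : ∀ q, M (q + 1) →ₗ[R] M q} {θ : ∀ q, ℕ → M q →ₗ[R] M q}

theorem T_mem {I : Ideal R} {n : ℕ} {z : ∀ q, M q} (hz : ∀ j, z j ∈ I • (⊤ : Submodule R (M j)))
    (j : ℕ) : T d θ n z j ∈ I • (⊤ : Submodule R (M j)) := by
  rw [T_apply]
  exact Submodule.sub_mem _ (map_mI _ (hz _)) (Submodule.smul_mem _ _ (map_mI _ (hz _)))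

theorem kill_total (h : Cx d θ) (g : ℕ → R)
    (hg : ∀ q j, ∃ A B : M q →ₗ[R] M q, ∀ v, g q • v = θ q (j + 1) (A v) + B (θ q j v))
    (I : Ideal R) (n J : ℕ) : ∀ z : ∀ q, M q, Cyc d θ I n z →
      (∀ j, J ≤ j → z j ∈ I • (⊤ : Submodule R (M j))) →
      ∃ w, ∀ j, ((∏ q ∈ Finset.range J, g q) • z - T d θ (n + 1) w) j ∈
        I • (⊤ : Submodule R (M j)) := by
  classical
  induction J with
  | zero =>
    intro z _ hJ
    refine ⟨0, fun j => ?_⟩
    rw [map_zero, sub_zero, Finset.range_zero, Finset.prod_empty, one_smul]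
    exact hJ j (Nat.zero_le _)
  | succ J ih =>
    intro z hz hJ
    have e1 : θ J (J + n) (z J) ∈ I • (⊤ : Submodule R (M J)) := by
      have h1 := hz J
      rw [T_apply] at h1
      have h2 := Submodule.sub_mem _ (map_mI (d J) (hJ (J + 1) le_rfl)) h1
      rw [sub_sub_cancel] at h2
      have h3 := Submodule.smul_mem _ ((-1 : R) ^ n) h2
      rwa [smul_smul, ← mul_pow, neg_one_mul, neg_neg, one_pow, one_smul] at h3
    obtain ⟨A, B, hAB⟩ := hg J (J + n)
    let w' : ∀ q, M q := Pi.single J (((-1 : R) ^ n) • A (z J))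
    have hs : w' J = ((-1 : R) ^ n) • A (z J) := Pi.single_eq_same _ _
    have hn : ∀ j, j ≠ J → w' j = 0 := fun j hj => Pi.single_eq_of_ne hj _
    have hc : Cyc d θ I n (g J • z - T d θ (n + 1) w') := by
      intro j
      rw [map_sub, h.T_T, sub_zero, map_smul, Pi.smul_apply]
      exact Submodule.smul_mem _ _ (hz j)
    obtain ⟨w, hw⟩ := ih _ hc (by
      intro j hj
      rw [Pi.sub_apply, Pi.smul_apply, T_apply]
      rcases hj.lt_or_eq with hj | rfl
      · rw [hn j (by omega), hn (j + 1) (by omega), map_zero, map_zero,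
          smul_zero, sub_zero, sub_zero]
        exact Submodule.smul_mem _ _ (hJ j hj)
      · rw [hs, hn (J + 1) (by omega), map_zero, zero_sub, map_smul,
          smul_smul, hAB, ← pow_add, show n + 1 + n = 2 * n + 1 by ring, pow_succ, pow_mul,
          ← add_assoc]
        simp only [even_two, Even.neg_pow, one_pow, one_mul, neg_smul, one_smul, neg_neg,
          add_sub_cancel_left]
        exact map_mI B e1)
    refine ⟨w + (∏ q ∈ Finset.range J, g q) • w', fun j => ?_⟩
    have e : (∏ q ∈ Finset.range (J + 1), g q) • z -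
        T d θ (n + 1) (w + (∏ q ∈ Finset.range J, g q) • w') =
        (∏ q ∈ Finset.range J, g q) • (g J • z - T d θ (n + 1) w') - T d θ (n + 1) w := by
      rw [Finset.prod_range_succ, map_add, map_smul, smul_sub, smul_smul]
      abel
    rw [e]
    exact hw j

/-- the ideals of the tower -/
def II (f : ℕ → R) (i : ℕ) : Ideal R := Ideal.span {x | ∃ l < i, x = f l}

theorem II_zero (f : ℕ → R) : II f 0 = ⊥ := by
  unfold II
  simp

theorem II_succ (f : ℕ → R) (i : ℕ) : II f (i + 1) = II f i ⊔ Ideal.span {f i} := by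
  unfold II
  rw [← Ideal.span_union]
  congr 1
  ext x
  constructor
  · rintro ⟨l, hl, rfl⟩
    rcases Nat.lt_succ_iff_lt_or_eq.1 hl with h | rfl
    · exact Or.inl ⟨l, h, rfl⟩
    · exact Or.inr rfl
  · rintro (⟨l, hl, rfl⟩ | rfl)
    · exact ⟨l, by omega, rfl⟩
    · exact ⟨i, by omega, rfl⟩

theorem tower (h : Cx d θ) (c : ℕ) (f : ℕ → R)
    (hreg : ∀ i < c, ∀ j (x : M j), f i • x ∈ II f i • (⊤ : Submodule R (M j)) →
      x ∈ II f i • (⊤ : Submodule R (M j)))
    (hkill : ∀ i < c, ∀ n z, Cyc d θ (II f i) n z → ∃ w, ∀ j,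
      (f i • z - T d θ (n + 1) w) j ∈ II f i • (⊤ : Submodule R (M j)))
    (P : ℕ → Type) [∀ q, AddCommGroup (P q)] [∀ q, Module R (P q)]
    (hregP : ∀ i < c, ∀ j (x : P j), f i • x ∈ II f i • (⊤ : Submodule R (P j)) →
      x ∈ II f i • (⊤ : Submodule R (P j)))
    (S : ∀ q, M (q + 1) →ₗ[R] M (q + 2)) (t : ∀ q, M q →ₗ[R] M (q + 1))
    (U : ∀ q, P q →ₗ[R] M (q + 1)) (Φ : ∀ q, M (q + 1) →ₗ[R] P q)
    (h1 : ∀ q x, x = d (q + 1) (S q x) + t q (d q x) + U q (Φ q x))
    (h2 : ∀ q y, Φ q (d (q + 1) y) = 0) (h3 : ∀ q x, d q (t q (d q x)) = d q x)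
    (h4 : ∀ q x j, Φ q (θ (q + 1) j (x - t q (d q x))) = 0)
    (D : ℕ → Prop) [DecidablePred D] (hD : ∀ q, ¬ D q → ∀ x : P q, x = 0) :
    ∀ j i, i + j = c → ∀ q, ((Finset.range q).filter D).card ≤ j →
      ∀ n z, Cyc d θ (II f i) n z → HL d θ (II f i) n (q + 1) z := by
  have base : ∀ (I : Ideal R) n z, HL d θ I n (0 + 1) z := by
    intro I n z
    refine ⟨0, fun j hj => ?_⟩
    have : j = 0 := by omega
    subst this
    rw [h.m0 ((z - T d θ (n + 1) 0) 0)]
    exact Submodule.zero_mem _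
  have free : ∀ (I : Ideal R) q n z, ¬ D q → Cyc d θ I n z → HL d θ I n (q + 1) z →
      HL d θ I n (q + 1 + 1) z := by
    intro I q n z hq hz hl
    obtain ⟨u, hu⟩ := hl
    refine HL.of_sub u (fin_step (hz.sub h u) hu (S q) (t q) (U q) (Φ q) (h1 q) ?_)
    rw [hD q hq (Φ q _)]
    exact Submodule.zero_mem _
  intro j
  induction j with
  | zero =>
    intro i hi q
    induction q with
    | zero => intro _ n z _; exact base _ n z
    | succ q ih =>
      intro hq n z hz
      rw [Finset.range_add_one, Finset.filter_insert] at hq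
      by_cases hDq : D q
      · rw [if_pos hDq, Finset.card_insert_of_notMem (by simp)] at hq
        omega
      · rw [if_neg hDq] at hq
        exact free _ q n z hDq hz (ih hq n z hz)
  | succ j IH =>
    intro i hi q
    induction q with
    | zero => intro _ n z _; exact base _ n z
    | succ q ih =>
      intro hq n z hz
      rw [Finset.range_add_one, Finset.filter_insert] at hq
      by_cases hDq : D q
      · rw [if_pos hDq, Finset.card_insert_of_notMem (by simp)] at hq
        have hi' : i < c := by omega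
        obtain ⟨w, hw⟩ := hkill i hi' n z hz
        refine stepA h hz (f i) (hreg i hi') (hregP i hi' q) (S q) (t q) (U q) (Φ q) (h1 q) (h2 q)
          (h3 q) (h4 q) w hw ?_
        rw [← II_succ]
        refine IH (i + 1) (by omega) q (by omega) (n + 1) w fun j => ?_
        have e : T d θ (n + 1) w j = f i • z j - (f i • z - T d θ (n + 1) w) j := by
          rw [Pi.sub_apply, Pi.smul_apply]
          abel
        rw [e, II_succ]
        refine Submodule.sub_mem _ ?_ (Submodule.smul_mono_left le_sup_left (hw j))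
        exact Submodule.smul_mem_smul (Submodule.mem_sup_right (Ideal.mem_span_singleton_self _))
          Submodule.mem_top
      · rw [if_neg hDq] at hq
        exact free _ q n z hDq hz (ih hq n z hz)

/-- every cycle modulo `I` is a boundary modulo `I` -/
def Bd (d : ∀ q, M (q + 1) →ₗ[R] M q) (θ : ∀ q, ℕ → M q →ₗ[R] M q) (I : Ideal R) : Prop :=
  ∀ n z, Cyc d θ I n z → ∃ u, ∀ j, (z - T d θ (n + 1) u) j ∈ I • (⊤ : Submodule R (M j))

theorem Bd.descend (h : Cx d θ) {I : Ideal R} (hb : Bd d θ I) (f : R)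
    (hreg : ∀ j (x : M j), f • x ∈ I • (⊤ : Submodule R (M j)) →
      x ∈ I • (⊤ : Submodule R (M j))) : Bd d θ (I ⊔ Ideal.span {f}) := by
  intro n z hz
  have : ∀ j, ∃ s : M j, T d θ n z j - f • s ∈ I • (⊤ : Submodule R (M j)) := fun j =>
    mem_sup_smul (hz j)
  choose y hy using this
  have hy1 : Cyc d θ I (n + 1) y := by
    intro j
    apply hreg
    have e : f • T d θ (n + 1) y j = - T d θ (n + 1) (T d θ n z - f • y) j := by
      rw [map_sub, h.T_T', zero_sub, map_smul]
      simp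
    rw [e]
    exact Submodule.neg_mem _ (T_mem (fun j => hy j) j)
  obtain ⟨u, hu⟩ := hb (n + 1) y hy1
  rw [h.T_per] at hu
  have hz' : Cyc d θ I n (z - f • u) := by
    intro j
    have e : T d θ n (z - f • u) j = (T d θ n z j - f • y j) + f • (y - T d θ n u) j := by
      rw [map_sub, map_smul, Pi.sub_apply, Pi.smul_apply, Pi.sub_apply, smul_sub]
      abel
    rw [e]
    exact Submodule.add_mem _ (hy j) (Submodule.smul_mem _ _ (hu j))
  obtain ⟨v, hv⟩ := hb n _ hz'
  refine ⟨v, fun j => smul_mem_sup (s := u j) ?_⟩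
  have e : (z - T d θ (n + 1) v) j - f • u j = (z - f • u - T d θ (n + 1) v) j := by
    simp only [Pi.sub_apply, Pi.smul_apply]
    abel
  rw [e]
  exact hv j

/-- **The bound.** -/
theorem bound (h : Cx d θ) (N : ℕ) (hN : ∀ j, N < j → ∀ x : M j, x = 0) (c : ℕ) (f : ℕ → R)
    (hreg : ∀ i < c, ∀ j (x : M j), f i • x ∈ II f i • (⊤ : Submodule R (M j)) →
      x ∈ II f i • (⊤ : Submodule R (M j)))
    (g : ℕ → ℕ → R) (hfg : ∀ i < c, f i = ∏ q ∈ Finset.range (N + 1), g i q)
    (hg : ∀ i < c, ∀ q j, ∃ A B : M q →ₗ[R] M q, ∀ v,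
      g i q • v = θ q (j + 1) (A v) + B (θ q j v))
    (P : ℕ → Type) [∀ q, AddCommGroup (P q)] [∀ q, Module R (P q)]
    (hregP : ∀ i < c, ∀ j (x : P j), f i • x ∈ II f i • (⊤ : Submodule R (P j)) →
      x ∈ II f i • (⊤ : Submodule R (P j)))
    (S : ∀ q, M (q + 1) →ₗ[R] M (q + 2)) (t : ∀ q, M q →ₗ[R] M (q + 1))
    (U : ∀ q, P q →ₗ[R] M (q + 1)) (Φ : ∀ q, M (q + 1) →ₗ[R] P q)
    (h1 : ∀ q x, x = d (q + 1) (S q x) + t q (d q x) + U q (Φ q x))
    (h2 : ∀ q y, Φ q (d (q + 1) y) = 0) (h3 : ∀ q x, d q (t q (d q x)) = d q x)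
    (h4 : ∀ q x j, Φ q (θ (q + 1) j (x - t q (d q x))) = 0)
    (D : ℕ → Prop) [DecidablePred D] (hD : ∀ q, ¬ D q → ∀ x : P q, x = 0)
    (x : ℕ → R) (hx : ∀ i < c, ∀ j (y : M j), x i • y ∈ II x i • (⊤ : Submodule R (M j)) →
      y ∈ II x i • (⊤ : Submodule R (M j)))
    (e : M 1) (he : ∀ j, θ 1 j e ∈ II x c • (⊤ : Submodule R (M 1))) (ε : M 1 →ₗ[R] R)
    (hε1 : ∀ y, ε (d 1 y) = 0) (hε2 : ∀ j y, ε (θ 1 j y) = 0) (hε : ε e = 1)
    (hne : II x c ≠ ⊤) : c < ((Finset.range N).filter D).card := by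
  classical
  by_contra hcon
  rw [not_lt] at hcon
  have b0 : Bd d θ (II x 0) := by
    intro n z hz
    rw [II_zero] at hz
    have h5 := tower h c f hreg (fun i hi n z hz => by
      rw [hfg i hi]
      refine kill_total h (g i) (hg i hi) _ n (N + 1) z hz fun j hj => ?_
      rw [hN j (by omega) (z j)]
      exact Submodule.zero_mem _) P hregP S t U Φ h1 h2 h3 h4 D hD c 0 (by omega) N hcon n z (by
        rw [II_zero]; exact hz)
    obtain ⟨u, hu⟩ := h5
    rw [II_zero] at hu
    rw [II_zero]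
    refine ⟨u, fun j => ?_⟩
    by_cases hj : j < N + 1
    · exact hu j hj
    · rw [hN j (by omega) ((z - T d θ (n + 1) u) j)]
      exact Submodule.zero_mem _
  have bi : ∀ i, i ≤ c → Bd d θ (II x i) := by
    intro i
    induction i with
    | zero => intro _; exact b0
    | succ i ih =>
      intro hi
      rw [II_succ]
      exact (ih (by omega)).descend h (x i) (hx i (by omega))
  obtain ⟨u, hu⟩ := bi c le_rfl 0 (Pi.single 1 e) (by
    intro j
    rw [T_apply]
    rcases Nat.lt_trichotomy j 1 with hj | rfl | hj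
    · have : j = 0 := by omega
      subst this
      rw [h.m0 (_ - _)]
      exact Submodule.zero_mem _
    · rw [Pi.single_eq_of_ne (by omega), Pi.single_eq_same, map_zero, zero_sub]
      exact Submodule.neg_mem _ (Submodule.smul_mem _ _ (he _))
    · rw [Pi.single_eq_of_ne (by omega), Pi.single_eq_of_ne (by omega), map_zero, map_zero,
        smul_zero, sub_zero]
      exact Submodule.zero_mem _)
  have h6 := map_mI ε (hu 1)
  rw [Pi.sub_apply, T_apply, Pi.single_eq_same, map_sub, map_sub, map_smul, hε, hε1, hε2,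
    smul_zero, sub_zero, sub_zero] at h6
  apply hne
  rw [Ideal.eq_top_iff_one]
  simpa using h6

end Pool.Agent.E8helper2.ZB.Lev
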