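import Pool.Agent.E8helper2.ZB.Lev2

/-!
# Filtered homology and levels of cycles
-/

set_option autoImplicit false

namespace Pool.Agent.E8helper2.ZB.Lev

variable {R : Type} [CommRing R] {M : ℕ → Type} [∀ q, AddCommGroup (M q)] [∀ q, Module R (M q)]
  (d : ∀ q, M (q + 1) →ₗ[R] M q) (θ : ∀ q, ℕ → M q →ₗ[R] M q)

/-- `z` is homologous modulo `I` to an element which vanishes in the degrees up to `q` and is
killed by `Φ` in degree `q + 1` -/
def LV (I : Ideal R) (n q : ℕ) {P : Type} [AddCommGroup P] [Module R P] (Φ : M (q + 1) →ₗ[R] P)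
    (z : ∀ q, M q) : Prop :=
  ∃ u : ∀ q, M q, (∀ j, j < q + 1 → (z - T d θ (n + 1) u) j ∈ I • (⊤ : Submodule R (M j))) ∧
    Φ ((z - T d θ (n + 1) u) (q + 1)) ∈ I • (⊤ : Submodule R P)

variable {d θ}

theorem LV.hl {I : Ideal R} {n q : ℕ} {P : Type} [AddCommGroup P] [Module R P]
    {Φ : M (q + 1) →ₗ[R] P} {z : ∀ q, M q} (h : LV d θ I n q Φ z) : HL d θ I n (q + 1) z := by
  obtain ⟨u, hu, _⟩ := h
  exact ⟨u, hu⟩

theorem LV.of_sub {I : Ideal R} {n q : ℕ} {P : Type} [AddCommGroup P] [Module R P]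
    {Φ : M (q + 1) →ₗ[R] P} {z : ∀ q, M q} (u : ∀ q, M q)
    (hz : LV d θ I n q Φ (z - T d θ (n + 1) u)) : LV d θ I n q Φ z := by
  obtain ⟨v, hv, hv'⟩ := hz
  refine ⟨u + v, fun j hj => ?_, ?_⟩
  · have := hv j hj
    rwa [map_add, ← sub_sub]
  · rwa [map_add, ← sub_sub]

theorem stepL (h : Cx d θ) {I : Ideal R} {n q : ℕ} {z : ∀ q, M q} (f : R)
    (hreg : ∀ j (x : M j), f • x ∈ I • (⊤ : Submodule R (M j)) → x ∈ I • (⊤ : Submodule R (M j)))
    {P P' : Type} [AddCommGroup P] [Module R P] [AddCommGroup P'] [Module R P']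
    (hregP : ∀ x : P', f • x ∈ I • (⊤ : Submodule R P') → x ∈ I • (⊤ : Submodule R P'))
    (t : M q →ₗ[R] M (q + 1)) (U : P →ₗ[R] M (q + 1)) (Φ : M (q + 1) →ₗ[R] P)
    (Φ' : M (q + 1) →ₗ[R] P') (h1 : ∀ x, Φ (U x) = x) (h1' : ∀ x, d q (U x) = 0)
    (h2 : ∀ y, Φ' (d (q + 1) y) = 0) (h3 : ∀ x, d q (t (d q x)) = d q x)
    (h4 : ∀ j, ∃ (α : P →ₗ[R] P') (β : M q →ₗ[R] P'), ∀ y,
      Φ' (θ (q + 1) j y) = α (Φ y) + β (d q y))
    (w : ∀ q, M q) (hw : ∀ j, (f • z - T d θ (n + 1) w) j ∈ I • (⊤ : Submodule R (M j)))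
    (hlev : LV d θ (I ⊔ Ideal.span {f}) (n + 1) q Φ w) : LV d θ I n q Φ' z := by
  classical
  obtain ⟨u, hu, hu'⟩ := hlev
  set w1 := w - T d θ (n + 1 + 1) u with hw1
  have a1 : ∀ j, (f • z - T d θ (n + 1) w1) j ∈ I • (⊤ : Submodule R (M j)) := by
    intro j
    rw [hw1, map_sub, h.T_T, sub_zero]
    exact hw j
  have : ∀ j, ∃ s : M j, j < q + 1 → w1 j - f • s ∈ I • (⊤ : Submodule R (M j)) := by
    intro j
    by_cases hj : j < q + 1
    · obtain ⟨s, hs⟩ := mem_sup_smul (hu j hj)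
      exact ⟨s, fun _ => hs⟩
    · exact ⟨0, fun h => absurd h hj⟩
  choose s hs using this
  obtain ⟨σ, hσ⟩ := mem_sup_smul hu'
  set w2 := w1 - f • s with hw2
  set z1 := z - T d θ (n + 1) s with hz1
  have a2 : ∀ j, (f • z1 - T d θ (n + 1) w2) j ∈ I • (⊤ : Submodule R (M j)) := by
    intro j
    have e : f • z1 - T d θ (n + 1) w2 = f • z - T d θ (n + 1) w1 := by
      rw [hz1, hw2, map_sub, map_smul, smul_sub]
      abel
    rw [e]
    exact a1 j
  have b2 : ∀ j, j < q + 1 → w2 j ∈ I • (⊤ : Submodule R (M j)) := fun j hj => hs j hj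
  set v : M (q + 1) := t (z1 q) + U (σ - Φ (s (q + 1)) - Φ (t (z1 q))) with hv
  set s' : ∀ q, M q := Pi.single (q + 1) v with hs'
  set w3 := w2 - f • s' with hw3
  set z2 := z1 - T d θ (n + 1) s' with hz2
  have a3 : ∀ j, (f • z2 - T d θ (n + 1) w3) j ∈ I • (⊤ : Submodule R (M j)) := by
    intro j
    have e : f • z2 - T d θ (n + 1) w3 = f • z1 - T d θ (n + 1) w2 := by
      rw [hz2, hw3, map_sub, map_smul, smul_sub]
      abel
    rw [e]
    exact a2 j
  have b3 : ∀ j, j < q + 1 → w3 j ∈ I • (⊤ : Submodule R (M j)) := by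
    intro j hj
    have e : w3 j = w2 j := by
      rw [hw3, Pi.sub_apply, Pi.smul_apply, hs', Pi.single_eq_of_ne (by omega), smul_zero,
        sub_zero]
    rw [e]
    exact b2 j hj
  have ew3 : w3 (q + 1) = w2 (q + 1) - f • v := by
    rw [hw3, Pi.sub_apply, Pi.smul_apply, hs', Pi.single_eq_same]
  have c3 : d q (w3 (q + 1)) ∈ I • (⊤ : Submodule R (M q)) := by
    have e2 : d q (w3 (q + 1)) =
        - d q (t (f • z1 q - T d θ (n + 1) w2 q -
          ((-1 : R) ^ (n + 1)) • θ q (q + (n + 1)) (w2 q))) := by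
      rw [ew3, T_apply, map_sub, map_smul, hv, map_add, h1', add_zero]
      simp only [map_sub, map_smul]
      rw [h3]
      abel
    rw [e2]
    refine Submodule.neg_mem _ (map_mI (d q) (map_mI t (Submodule.sub_mem _ (a2 q) ?_)))
    exact Submodule.smul_mem _ _ (map_mI _ (b2 q (by omega)))
  have c4 : Φ (w3 (q + 1)) ∈ I • (⊤ : Submodule R P) := by
    have e2 : Φ (w3 (q + 1)) = Φ (w1 (q + 1)) - f • σ := by
      rw [ew3, hw2, Pi.sub_apply, Pi.smul_apply, map_sub, map_sub, map_smul, map_smul, hv,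
        map_add, h1]
      rw [show Φ (t (z1 q)) + (σ - Φ (s (q + 1)) - Φ (t (z1 q))) = σ - Φ (s (q + 1)) by abel,
        smul_sub]
      abel
    rw [e2]
    exact hσ
  have d3 : ∀ j, j < q + 1 → z2 j ∈ I • (⊤ : Submodule R (M j)) := by
    intro j hj
    apply hreg
    have e : f • z2 j = (f • z2 - T d θ (n + 1) w3) j + d j (w3 (j + 1)) -
        ((-1 : R) ^ (n + 1)) • θ j (j + (n + 1)) (w3 j) := by
      rw [Pi.sub_apply, T_apply, Pi.smul_apply]
      abel
    rw [e]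
    refine Submodule.sub_mem _ (Submodule.add_mem _ (a3 j) ?_)
      (Submodule.smul_mem _ _ (map_mI _ (b3 j hj)))
    rcases Nat.lt_succ_iff_lt_or_eq.1 hj with hj' | rfl
    · exact map_mI _ (b3 (j + 1) (by omega))
    · exact c3
  have e5 : Φ' (z2 (q + 1)) ∈ I • (⊤ : Submodule R P') := by
    apply hregP
    obtain ⟨α, β, hαβ⟩ := h4 (q + 1 + (n + 1))
    have e : f • Φ' (z2 (q + 1)) = Φ' ((f • z2 - T d θ (n + 1) w3) (q + 1)) -
        ((-1 : R) ^ (n + 1)) • (α (Φ (w3 (q + 1))) + β (d q (w3 (q + 1)))) := by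
      rw [Pi.sub_apply, T_apply, Pi.smul_apply, map_sub, map_sub, map_smul, map_smul, h2, hαβ]
      abel_nf
    rw [e]
    exact Submodule.sub_mem _ (map_mI Φ' (a3 (q + 1)))
      (Submodule.smul_mem _ _ (Submodule.add_mem _ (map_mI α c4) (map_mI β c3)))
  refine LV.of_sub s (LV.of_sub s' ⟨0, fun j hj => ?_, ?_⟩)
  · rw [map_zero, sub_zero]
    exact d3 j hj
  · rw [map_zero, sub_zero]
    exact e5

/-- one step upwards in the lowest degree -/
theorem LV.up (h : Cx d θ) {I : Ideal R} {n q : ℕ} {z : ∀ q, M q} (hz : Cyc d θ I n z)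
    {P : Type} [AddCommGroup P] [Module R P]
    (S : M (q + 1) →ₗ[R] M (q + 2)) (t : M q →ₗ[R] M (q + 1)) (U : P →ₗ[R] M (q + 1))
    (Φ : M (q + 1) →ₗ[R] P) (h1 : ∀ x, x = d (q + 1) (S x) + t (d q x) + U (Φ x))
    (hl : LV d θ I n q Φ z) : HL d θ I n (q + 2) z := by
  obtain ⟨u, hu, hu'⟩ := hl
  exact HL.of_sub u (fin_step (hz.sub h u) hu S t U Φ h1 hu')

theorem towerL (h : Cx d θ) (c : ℕ) (f : ℕ → R)
    (hreg : ∀ i < c, ∀ j (x : M j), f i • x ∈ II f i • (⊤ : Submodule R (M j)) →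
      x ∈ II f i • (⊤ : Submodule R (M j)))
    (hkill : ∀ i < c, ∀ n z, Cyc d θ (II f i) n z → ∃ w, ∀ j,
      (f i • z - T d θ (n + 1) w) j ∈ II f i • (⊤ : Submodule R (M j)))
    (L : ℕ → ℕ) (P : ℕ → ℕ → Type) [∀ q l, AddCommGroup (P q l)] [∀ q l, Module R (P q l)]
    (hregP : ∀ i < c, ∀ q l (x : P q l), f i • x ∈ II f i • (⊤ : Submodule R (P q l)) →
      x ∈ II f i • (⊤ : Submodule R (P q l)))
    (S : ∀ q, M (q + 1) →ₗ[R] M (q + 2)) (t : ∀ q, M q →ₗ[R] M (q + 1))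
    (U : ∀ q l, P q l →ₗ[R] M (q + 1)) (Φ : ∀ q l, M (q + 1) →ₗ[R] P q l)
    (h0 : ∀ q (x : P q 0), x = 0)
    (h1 : ∀ q x, x = d (q + 1) (S q x) + t q (d q x) + U q (L q) (Φ q (L q) x))
    (h2 : ∀ q l y, Φ q l (d (q + 1) y) = 0) (h3 : ∀ q l x, Φ q l (U q l x) = x)
    (h3' : ∀ q l x, d q (U q l x) = 0)
    (h4 : ∀ q l, l < L q → ∀ j, ∃ (α : P q l →ₗ[R] P q (l + 1)) (β : M q →ₗ[R] P q (l + 1)),
      ∀ y, Φ q (l + 1) (θ (q + 1) j y) = α (Φ q l y) + β (d q y)) :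
    ∀ j i, i + j = c → ∀ q l, l ≤ L q → (∑ q' ∈ Finset.range q, L q') + l ≤ j →
      ∀ n z, Cyc d θ (II f i) n z → LV d θ (II f i) n q (Φ q l) z := by
  have hdt : ∀ q x, d q (t q (d q x)) = d q x := by
    intro q x
    have := congrArg (d q) (h1 q x)
    rw [map_add, map_add, h.dd, zero_add, h3', add_zero] at this
    exact this.symm
  have core : ∀ j i, (∀ q l, l + 1 ≤ L q → (∑ q' ∈ Finset.range q, L q') + (l + 1) ≤ j →
      ∀ n z, Cyc d θ (II f i) n z → LV d θ (II f i) n q (Φ q (l + 1)) z) →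
      ∀ q l, l ≤ L q → (∑ q' ∈ Finset.range q, L q') + l ≤ j →
        ∀ n z, Cyc d θ (II f i) n z → LV d θ (II f i) n q (Φ q l) z := by
    intro j i hs q
    induction q with
    | zero =>
      intro l hl hlj n z hz
      rcases l with _ | l
      · refine ⟨0, fun j hj => ?_, ?_⟩
        · have : j = 0 := by omega
          subst this
          rw [h.m0 ((z - T d θ (n + 1) 0) 0)]
          exact Submodule.zero_mem _
        · rw [h0 _ (Φ 0 0 _)]
          exact Submodule.zero_mem _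
      · exact hs 0 l hl hlj n z hz
    | succ q ih =>
      intro l hl hlj n z hz
      rcases l with _ | l
      · have h5 := ih (L q) le_rfl (by rw [Finset.sum_range_succ] at hlj; omega) n z hz
        obtain ⟨u, hu⟩ := h5.up h hz (S q) (t q) (U q (L q)) (Φ q (L q)) (h1 q)
        refine ⟨u, hu, ?_⟩
        rw [h0 _ (Φ (q + 1) 0 _)]
        exact Submodule.zero_mem _
      · exact hs (q + 1) l hl hlj n z hz
  intro j
  induction j with
  | zero =>
    intro i _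
    refine core 0 i ?_
    intro q l _ hlj
    omega
  | succ j IH =>
    intro i hi
    refine core (j + 1) i ?_
    intro q l hl hlj n z hz
    have hi' : i < c := by omega
    obtain ⟨w, hw⟩ := hkill i hi' n z hz
    refine stepL h (f i) (hreg i hi') (hregP i hi' q (l + 1)) (t q) (U q l) (Φ q l)
      (Φ q (l + 1)) (h3 q l) (h3' q l) (h2 q (l + 1)) (hdt q) (h4 q l (by omega)) w hw ?_
    rw [← II_succ]
    refine IH (i + 1) (by omega) q l (by omega) (by omega) (n + 1) w fun j => ?_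
    have e : T d θ (n + 1) w j = f i • z j - (f i • z - T d θ (n + 1) w) j := by
      rw [Pi.sub_apply, Pi.smul_apply]
      abel
    rw [e, II_succ]
    refine Submodule.sub_mem _ ?_ (Submodule.smul_mono_left le_sup_left (hw j))
    exact Submodule.smul_mem_smul (Submodule.mem_sup_right (Ideal.mem_span_singleton_self _))
      Submodule.mem_top

/-- **The bound.** -/
theorem boundL (h : Cx d θ) (N : ℕ) (hN : ∀ j, N < j → ∀ x : M j, x = 0) (c : ℕ) (f : ℕ → R)
    (hreg : ∀ i < c, ∀ j (x : M j), f i • x ∈ II f i • (⊤ : Submodule R (M j)) →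
      x ∈ II f i • (⊤ : Submodule R (M j)))
    (g : ℕ → ℕ → R) (hfg : ∀ i < c, f i = ∏ q ∈ Finset.range (N + 1), g i q)
    (hg : ∀ i < c, ∀ q j, ∃ A B : M q →ₗ[R] M q, ∀ v,
      g i q • v = θ q (j + 1) (A v) + B (θ q j v))
    (L : ℕ → ℕ) (P : ℕ → ℕ → Type) [∀ q l, AddCommGroup (P q l)] [∀ q l, Module R (P q l)]
    (hregP : ∀ i < c, ∀ q l (x : P q l), f i • x ∈ II f i • (⊤ : Submodule R (P q l)) →
      x ∈ II f i • (⊤ : Submodule R (P q l)))
    (S : ∀ q, M (q + 1) →ₗ[R] M (q + 2)) (t : ∀ q, M q →ₗ[R] M (q + 1))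
    (U : ∀ q l, P q l →ₗ[R] M (q + 1)) (Φ : ∀ q l, M (q + 1) →ₗ[R] P q l)
    (h0 : ∀ q (x : P q 0), x = 0)
    (h1 : ∀ q x, x = d (q + 1) (S q x) + t q (d q x) + U q (L q) (Φ q (L q) x))
    (h2 : ∀ q l y, Φ q l (d (q + 1) y) = 0) (h3 : ∀ q l x, Φ q l (U q l x) = x)
    (h3' : ∀ q l x, d q (U q l x) = 0)
    (h4 : ∀ q l, l < L q → ∀ j, ∃ (α : P q l →ₗ[R] P q (l + 1)) (β : M q →ₗ[R] P q (l + 1)),
      ∀ y, Φ q (l + 1) (θ (q + 1) j y) = α (Φ q l y) + β (d q y))
    (x : ℕ → R) (hx : ∀ i < c, ∀ j (y : M j), x i • y ∈ II x i • (⊤ : Submodule R (M j)) →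
      y ∈ II x i • (⊤ : Submodule R (M j)))
    (e : M 1) (he : ∀ j, θ 1 j e ∈ II x c • (⊤ : Submodule R (M 1))) (ε : M 1 →ₗ[R] R)
    (hε1 : ∀ y, ε (d 1 y) = 0) (hε2 : ∀ j y, ε (θ 1 j y) = 0) (hε : ε e = 1)
    (hne : II x c ≠ ⊤) : c < ∑ q ∈ Finset.range N, L q := by
  classical
  by_contra hcon
  rw [not_lt] at hcon
  have b0 : Bd d θ (II x 0) := by
    intro n z hz
    rw [II_zero] at hz
    have h5 := towerL h c f hreg (fun i hi n z hz => by
      rw [hfg i hi]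
      refine kill_total h (g i) (hg i hi) _ n (N + 1) z hz fun j hj => ?_
      rw [hN j (by omega) (z j)]
      exact Submodule.zero_mem _) L P hregP S t U Φ h0 h1 h2 h3 h3' h4 c 0 (by omega) N 0
        (Nat.zero_le _) hcon n z (by rw [II_zero]; exact hz)
    obtain ⟨u, hu⟩ := h5.hl
    rw [II_zero] at hu
    rw [II_zero]
    refine ⟨u, fun j => ?_⟩
    by_cases hj : j < N + 1
    · exact hu j hj
    · rw [hN j (by omega) ((z - T d θ (n + 1) u) j)]
      exact Submodule.zero_mem _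
  have bi : ∀ i, i ≤ c → Bd d θ (II x i) := by
    intro i
    induction i with
    | zero => intro _; exact b0
    | succ i ih =>
      intro hi
      rw [II_succ]
      exact (ih (by omega)).descend h (x i) (hx i (by omega))
  obtain ⟨u, hu⟩ := bi c le_rfl 0 (Pi.single 1 e) (by
    intro j
    rw [T_apply]
    rcases Nat.lt_trichotomy j 1 with hj | rfl | hj
    · have : j = 0 := by omega
      subst this
      rw [h.m0 (_ - _)]
      exact Submodule.zero_mem _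
    · rw [Pi.single_eq_of_ne (by omega), Pi.single_eq_same, map_zero, zero_sub]
      exact Submodule.neg_mem _ (Submodule.smul_mem _ _ (he _))
    · rw [Pi.single_eq_of_ne (by omega), Pi.single_eq_of_ne (by omega), map_zero, map_zero,
        smul_zero, sub_zero]
      exact Submodule.zero_mem _)
  have h6 := map_mI ε (hu 1)
  rw [Pi.sub_apply, T_apply, Pi.single_eq_same, map_sub, map_sub, map_smul, hε, hε1, hε2,
    smul_zero, sub_zero, sub_zero] at h6
  apply hne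
  rw [Ideal.eq_top_iff_one]
  simpa using h6

end Pool.Agent.E8helper2.ZB.Lev
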