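import Pool.Agent.E8helper2.ZB.ManW

/-!
# Weights: actions of infinite groups
-/

set_option autoImplicit false

namespace Pool.Agent.E8helper2.ZB

open Module Metric Set Pool.Agent.Helper381 Pool.Agent.H185.ZM
open scoped Manifold ContDiff

theorem exists_fin {G : Type} [Group G] (T : Subgroup G) [Finite T] (s : G) (hs : IsOfFinOrder s)
    (h1 : ∀ t ∈ T, s * t * s⁻¹ ∈ T) (h2 : ∀ t ∈ T, s⁻¹ * t * s ∈ T) :
    ∃ P : Subgroup G, Finite P ∧ T ≤ P ∧ s ∈ P := by
  let N := Subgroup.normalizer (T : Set G)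
  have hsN : s ∈ N := by
    rw [Subgroup.mem_normalizer_iff]
    intro t
    refine ⟨h1 t, fun h => ?_⟩
    have h3 := h2 _ h
    have e : s⁻¹ * (s * t * s⁻¹) * s = t := by group
    rwa [e] at h3
  have hTN : T ≤ N := Subgroup.le_normalizer
  let T' : Subgroup N := T.subgroupOf N
  have : T'.Normal := Subgroup.normal_in_normalizer
  let s' : N := ⟨s, hsN⟩
  have hs' : IsOfFinOrder s' := by
    rw [isOfFinOrder_iff_pow_eq_one] at hs ⊢
    obtain ⟨n, hn, h⟩ := hs
    exact ⟨n, hn, Subtype.ext h⟩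
  have hZ : ((Subgroup.zpowers s' : Subgroup N) : Set N).Finite := by
    have : Finite (Subgroup.zpowers s') := finite_zpowers.2 hs'
    exact Set.toFinite _
  have hT' : ((T' : Subgroup N) : Set N).Finite := by
    have : Finite T' := by
      let f : T' → T := fun t => ⟨((t : N) : G), t.2⟩
      refine Finite.of_injective f fun a b hab => ?_
      have h3 := congrArg (fun z : T => (z : G)) hab
      exact Subtype.ext (Subtype.ext h3)
    exact Set.toFinite _
  have hfin : ((Subgroup.zpowers s' ⊔ T' : Subgroup N) : Set N).Finite := by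
    rw [Subgroup.mul_normal]
    exact hZ.mul hT'
  refine ⟨(Subgroup.zpowers s' ⊔ T').map N.subtype, ?_, ?_, ?_⟩
  · have h3 : (((Subgroup.zpowers s' ⊔ T').map N.subtype : Subgroup G) : Set G).Finite := by
      rw [Subgroup.coe_map]
      exact hfin.image _
    exact h3.to_subtype
  · intro t ht
    exact ⟨⟨t, hTN ht⟩, (le_sup_right : T' ≤ _) ht, rfl⟩
  · exact ⟨s', (le_sup_left : Subgroup.zpowers s' ≤ _) (Subgroup.mem_zpowers s'), rfl⟩

theorem conj_all {G : Type} [Group G] {p k : ℕ} [Fact p.Prime] (φ : GG p k →* G) (s : G)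
    (π : Equiv.Perm (Fin k)) (hπ : ∀ i, φ (gen p k i) * s = s * φ (gen p k (π i)))
    (v : Fin k → ZMod p) : φ (Multiplicative.ofAdd fun i => v (π.symm i)) =
      s⁻¹ * φ (Multiplicative.ofAdd v) * s := by
  let A : GG p k →* G := φ.comp (AddMonoidHom.toMultiplicative
    (LinearMap.funLeft (ZMod p) (ZMod p) π.symm).toAddMonoidHom)
  let B : GG p k →* G := (MulAut.conj s⁻¹).toMonoidHom.comp φ
  have hAB : ∀ i, A (gen p k i) = B (gen p k i) := by
    intro i
    have h12 : A (gen p k i) = φ (gen p k (π i)) := by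
      show φ (Multiplicative.ofAdd (fun j => (Pi.single i 1 : Fin k → ZMod p)
        (π.symm j))) = φ (Multiplicative.ofAdd (Pi.single (π i) 1))
      congr 2
      funext j
      by_cases hj : j = π i
      · subst hj
        simp
      · rw [Pi.single_eq_of_ne hj, Pi.single_eq_of_ne]
        intro h13
        apply hj
        rw [← h13, Equiv.apply_symm_apply]
    have h14 : B (gen p k i) = s⁻¹ * φ (gen p k i) * s := by
      show s⁻¹ * φ (gen p k i) * (s⁻¹)⁻¹ = _
      rw [inv_inv]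
    rw [h12, h14, mul_assoc, hπ, inv_mul_cancel_left]
  have h15 : (Multiplicative.ofAdd v : GG p k) = ∏ i, gen p k i ^ (v i).val := by
    have h16 : v = ∑ i, (v i).val • (Pi.single i 1 : Fin k → ZMod p) := by
      funext j
      rw [Finset.sum_apply, Finset.sum_eq_single j]
      · simp
      · intro i _ hij
        simp [Pi.single_eq_of_ne (Ne.symm hij)]
      · intro h17
        exact absurd (Finset.mem_univ _) h17
    conv_lhs => rw [h16]
    rw [ofAdd_sum]
    rfl
  have h24 : (∏ i, gen p k i ^ (v i).val) ∈ A.eqLocus B :=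
    Subgroup.prod_mem _ fun i _ => Subgroup.pow_mem _ (hAB i) _
  rw [← h15] at h24
  have h18 : A (Multiplicative.ofAdd v) = B (Multiplicative.ofAdd v) := h24
  have h19 : B (Multiplicative.ofAdd v) = s⁻¹ * φ (Multiplicative.ofAdd v) * s := by
    show s⁻¹ * φ (Multiplicative.ofAdd v) * (s⁻¹)⁻¹ = _
    rw [inv_inv]
  rw [← h19, ← h18]
  rfl

variable {E : Type} [NormedAddCommGroup E] [NormedSpace ℝ E] [FiniteDimensional ℝ E]
  {M : Type} [TopologicalSpace M] [ChartedSpace E M] [IsManifold 𝓘(ℝ, E) ∞ M]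

/-- **The kernel of the action of a wreath product**, infinite groups. -/
theorem manG [CompactSpace M] [T2Space M] [ConnectedSpace M] {p k : ℕ} [Fact p.Prime]
    {G : Type} [Group G] {a : G → M → M}
    (ha : SmoothAction E a) (φ : GG p k →* G) (s : G) {ℓ : ℕ} (hs : s ^ ℓ = 1)
    (π : Equiv.Perm (Fin k)) (hπ : ∀ i, φ (gen p k i) * s = s * φ (gen p k (π i)))
    (K : Type) [Field K] [Algebra (ZMod p) K] (ξ : Fin k → K)
    (ζ : K) (hζ : orderOf ζ = ℓ) (hℓ : (ℓ : K) ≠ 0) (hξ : ∀ i, ξ i = ζ * ξ (π i))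
    (hβ : ∀ q, 1 ≤ q → q ≤ finrank ℝ E → finrank (ZMod p) (SingularCohomology (ZMod p) M q) <
        orderOf (p : ZMod (ℓ / Nat.gcd ℓ (wt p (q + 1)))) ∨ (¬ ℓ ∣ wt p (q + 1) ∧
          CohTriv (ZMod p) (⟨a s, (ha.smooth s).continuous⟩ : C(M, M)) q))
    (hm : (if p = 2 then finrank ℝ E else finrank ℝ E / 2) < orderOf (p : ZMod ℓ))
    (χ : Fin k → ZMod p)
    (hχ : ∀ g : GG p k, (∀ y, a (φ g) y = y) → ∑ i, χ i * g.toAdd i = 0) :
    ∑ i, algebraMap (ZMod p) K (χ i) * ξ i = 0 := by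
  have hℓ0 : ℓ ≠ 0 := by rintro rfl; exact hℓ Nat.cast_zero
  have hconj := conj_all φ s π hπ
  have hfinT : Finite φ.range := by
    have : Finite (GG p k) := inferInstanceAs (Finite (Fin k → ZMod p))
    exact Finite.of_surjective _ φ.rangeRestrict_surjective
  obtain ⟨P, hP, hTP, hsP⟩ := exists_fin φ.range s
    (isOfFinOrder_iff_pow_eq_one.2 ⟨ℓ, Nat.pos_of_ne_zero hℓ0, hs⟩)
    (by
      rintro _ ⟨g, rfl⟩
      refine ⟨Multiplicative.ofAdd fun i => g.toAdd (π i), ?_⟩
      have h1 := hconj (fun i => g.toAdd (π i))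
      simp only [Equiv.apply_symm_apply] at h1
      have h2 : φ g = s⁻¹ * φ (Multiplicative.ofAdd fun i => g.toAdd (π i)) * s := h1
      rw [h2]
      group)
    (by
      rintro _ ⟨g, rfl⟩
      exact ⟨Multiplicative.ofAdd fun i => g.toAdd (π.symm i), hconj g.toAdd⟩)
  let φ' : GG p k →* P := φ.codRestrict P (fun g => hTP ⟨g, rfl⟩)
  exact manW (P := P) (ha.comp P.subtype) φ' ⟨s, hsP⟩ (Subtype.ext hs) π
    (fun i => Subtype.ext (hπ i)) K ξ ζ hζ hℓ hξ hβ hm χ hχ

end Pool.Agent.E8helper2.ZB
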