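import Mathlib

/-!
# Elementary abelian `p`-groups acting on finite complexes: statements

`G = (ℤ/p)^k` acts on finite sets `X`; `eta ξ = ∑ i, ξ i • (g_i - 1)` on the functions `X → R`,
where `g_1, …, g_k` are the standard generators and `R` is a commutative ring of characteristic
`p`.
-/

set_option autoImplicit false

namespace Pool.Agent.E8helper2.ZB

open Module

/-- the group `(ℤ/p)^k` -/
abbrev GG (p k : ℕ) : Type := Multiplicative (Fin k → ZMod p)

/-- the generators -/
def gen (p k : ℕ) (i : Fin k) : GG p k := Multiplicative.ofAdd (Pi.single i 1)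

/-- `(eta ξ f) σ = ∑ i, ξ i * (f (g_i σ) - f σ)`. -/
def eta {R : Type*} [CommRing R] (p : ℕ) {k : ℕ} (X : Type*) [MulAction (GG p k) X]
    (ξ : Fin k → R) : (X → R) →ₗ[R] (X → R) where
  toFun f σ := ∑ i, ξ i * (f (gen p k i • σ) - f σ)
  map_add' f g := by
    funext σ
    simp only [Pi.add_apply, ← Finset.sum_add_distrib]
    exact Finset.sum_congr rfl fun i _ => by ring
  map_smul' c f := by
    funext σ
    simp only [Pi.smul_apply, smul_eq_mul, RingHom.id_apply, Finset.mul_sum]
    exact Finset.sum_congr rfl fun i _ => by ring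

/-- **Heights.** Let `f_1, …, f_n` be polynomials without constant term in `k` variables. They are
contained in a prime ideal which contains at most `n` linearly independent linear forms. -/
def S_HT : Prop := ∀ (p k n : ℕ) [Fact p.Prime] (f : Fin n → MvPolynomial (Fin k) (ZMod p)),
  (∀ j, MvPolynomial.constantCoeff (f j) = 0) →
    ∃ P : Ideal (MvPolynomial (Fin k) (ZMod p)), P.IsPrime ∧ (∀ j, f j ∈ P) ∧
      ∀ W : Submodule (ZMod p) (Fin k → ZMod p),
        (∀ χ ∈ W, (∑ i, MvPolynomial.C (χ i) * MvPolynomial.X i) ∈ P) → finrank (ZMod p) W ≤ n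

/-- **Exactness.** If for every `σ ∈ X` there is a character `χ` of `G` which vanishes on the
stabilizer of `σ` and such that `∑ χ i * ξ i ≠ 0`, then the kernel of `eta ξ` is the image of
`(eta ξ)^(p-1)` and conversely. -/
def S_EX : Prop := ∀ (p k : ℕ) [Fact p.Prime] (K : Type) [Field K] [Algebra (ZMod p) K]
  (X : Type) [MulAction (GG p k) X] (ξ : Fin k → K),
    (∀ σ : X, ∃ χ : Fin k → ZMod p, (∀ g : GG p k, g • σ = σ → ∑ i, χ i * g.toAdd i = 0) ∧
      ∑ i, algebraMap (ZMod p) K (χ i) * ξ i ≠ 0) →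
    (∀ f : X → K, eta p X ξ f = 0 → ∃ g, ((eta p X ξ) ^ (p - 1)) g = f) ∧
    (∀ f : X → K, ((eta p X ξ) ^ (p - 1)) f = 0 → ∃ g, eta p X ξ g = f)

end Pool.Agent.E8helper2.ZB
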