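import Pool.Agent.Helper381.Main
import Pool.Agent.H185.ZM.Iso
import Pool.Agent.H185.ZM.AbP
import Pool.Agent.H185.ZM.FI
import Pool.Agent.E8helper2.ZB.Stm

/-!
# Elementary abelian `p`-groups acting on finite posets and on closed manifolds: statements
-/

set_option autoImplicit false

namespace Pool.Agent.E8helper2.ZB

open Module Pool.Agent.Helper381 Pool.Agent.H185.ZM
open scoped Manifold ContDiff

/-- **Posets.** A finite group `G` with `g ^ p = 1` for all `g` acts on a finite nonempty poset `Q`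
of total mod `p` Betti number `B`. Then the order of `G` divides `p ^ (B - 1) |G_x|` for some
`x ∈ Q`. -/
def S_POS : Prop := ∀ (p : ℕ) [Fact p.Prime] (G : Type) [CommGroup G] [Finite G],
  (∀ g : G, g ^ p = 1) → ∀ (P : Type) [PartialOrder P] [MulAction G P] (Q : Set P), Q.Finite →
    Q.Nonempty → (∀ g : G, StrictMono (fun x : P => g • x)) → (∀ (g : G), ∀ x ∈ Q, g • x ∈ Q) →
      ∃ x ∈ Q, Nat.card G ∣ Nat.card (MulAction.stabilizer G x) *
        p ^ (∑ n ∈ Finset.range Q.ncard, finrank (ZMod p) (OrdCoh (ZMod p) Q n) - 1)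

/-- `p ^ (maximal rank of an elementary abelian p-subgroup of GL_m(ℝ))` -/
def cst (p m : ℕ) : ℕ := if p = 2 then 2 ^ m else p ^ (m / 2)

/-- **Manifolds.** A finite group `P` with `x ^ p = 1` for all `x` acts smoothly on the closed
connected manifold `M` of total mod `p` Betti number `B`; then `|P|` divides
`|kernel| p ^ (m' + B - 1)`, where `m' = dim M` for `p = 2` and `m' = ⌊dim M / 2⌋` for odd `p`. -/
def S_MAN : Prop := ∀ (p : ℕ) [Fact p.Prime] (E : Type) [NormedAddCommGroup E] [NormedSpace ℝ E]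
  [FiniteDimensional ℝ E] (M : Type) [TopologicalSpace M] [ChartedSpace E M]
  [IsManifold 𝓘(ℝ, E) ∞ M] [CompactSpace M] [T2Space M] [ConnectedSpace M] (P : Type)
  [CommGroup P] [Finite P], (∀ x : P, x ^ p = 1) → ∀ (a : P → M → M) (ha : SmoothAction E a),
    totalBetti (ZMod p) M ≠ ⊤ ∧
    Nat.card P ∣ Nat.card (actKer ha) *
      (cst p (finrank ℝ E) * p ^ ((totalBetti (ZMod p) M).toNat - 1))

end Pool.Agent.E8helper2.ZB
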