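import Pool.Agent.E8helper2.ZB.HomPos
import Pool.Agent.E8helper2.ZB.Stm2
import Pool.Agent.E8helper89.ZB.Kill
import Pool.Agent.E8helper89.ZB.Reg
import Pool.Agent.E8helper71.ZB.Nerve

/-!
# Homologically trivial actions on closed manifolds
-/

set_option autoImplicit false

namespace Pool.Agent.E8helper2.ZB

open Module Metric Set Pool.Agent.Helper381 Pool.Agent.H185.ZM
open scoped Manifold ContDiff

/-- the number of positive degrees in which the cohomology with coefficients in `ℤ/p` is not
zero -/
noncomputable def npos (p : ℕ) (M : Type) [TopologicalSpace M] : ℕ :=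
  Set.ncard {n : ℕ | 0 < n ∧ Nontrivial (SingularCohomology (ZMod p) M n)}

section

variable {M E : Type} [MetricSpace M] [NormedAddCommGroup E] [NormedSpace ℝ E] {R : ℝ}

theorem card_filter_le {p : ℕ} [Fact p.Prime] (G : Geo M E R) [CompactSpace M] [Nonempty M]
    {F : Finset M} {ρ : ℝ} (hρR : 4 * ρ ≤ R) (hF : ∀ x : M, ∃ p ∈ F, dist p x < ρ) :
    ((Finset.range (Fam F ρ).ncard).filter
        (fun q => finrank (ZMod p) (OrdCoh (ZMod p) (Fam F ρ) q) ≠ 0)).card - 1 ≤ npos p M := by
  classical
  have hQ := Fam_finite F ρ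
  have key : ∀ n, Nontrivial (SingularCohomology (ZMod p) M n) ↔
      finrank (ZMod p) (OrdCoh (ZMod p) (Fam F ρ) n) ≠ 0 := by
    intro n
    obtain ⟨e1⟩ := singEquiv (ZMod p) M n
    obtain ⟨e2⟩ := G.nerve hρR hF (ZMod p) n
    have hfin := ordcoh_finite hQ (ZMod p) n
    rw [Ne, Module.finrank_eq_zero_iff_of_free, not_subsingleton_iff_nontrivial]
    exact (e1.trans e2).toEquiv.nontrivial_congr
  have hsub : {n : ℕ | 0 < n ∧ Nontrivial (SingularCohomology (ZMod p) M n)} ⊆
      (Finset.range (Fam F ρ).ncard : Set ℕ) := by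
    rintro n ⟨_, hn⟩
    rw [key] at hn
    rw [Finset.coe_range, Set.mem_Iio]
    by_contra hlt
    exact hn (ordcoh_top hQ (ZMod p) n (not_lt.1 hlt))
  have hfin2 : {n : ℕ | 0 < n ∧ Nontrivial (SingularCohomology (ZMod p) M n)}.Finite :=
    (Finset.finite_toSet _).subset hsub
  have h1 : ((Finset.range (Fam F ρ).ncard).filter
        (fun q => finrank (ZMod p) (OrdCoh (ZMod p) (Fam F ρ) q) ≠ 0)).card ≤
      (insert 0 hfin2.toFinset).card := by
    apply Finset.card_le_card
    intro n hn
    rw [Finset.mem_filter] at hn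
    rw [Finset.mem_insert, Set.Finite.mem_toFinset]
    rcases Nat.eq_zero_or_pos n with h | h
    · exact Or.inl h
    · exact Or.inr ⟨h, (key n).2 hn.2⟩
  have h2 := Finset.card_insert_le 0 hfin2.toFinset
  have h3 : hfin2.toFinset.card = npos p M := (Set.ncard_eq_toFinset_card _ hfin2).symm
  omega

theorem geo_dvd {p : ℕ} [Fact p.Prime] (G : Geo M E R) [CompactSpace M] [Nonempty M] {P : Type}
    [CommGroup P] [Finite P] (hP : ∀ x : P, x ^ p = 1) (a : P →* (M ≃ᵢ M))
    (htriv : ∀ (x : P) (n : ℕ), CohTriv (ZMod p) (⟨a x, (a x).continuous⟩ : C(M, M)) n) (s : ℕ)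
    (h : ∀ (x : M) (Q : Subgroup P), (∀ q ∈ Q, a q x = x) → Nat.card Q ∣ s) :
    Nat.card P ∣ s * p ^ npos p M := by
  classical
  have hR := G.Rpos
  obtain ⟨F, hF, hFa⟩ := exists_invariant_net a (R / 4) (by linarith)
  have hρR : 4 * (R / 4) ≤ R := by linarith
  have hcard := card_filter_le (p := p) G hρR hF
  set ρ := R / 4 with hρ
  have hQ := Fam_finite F ρ
  have hone : ∀ C : Set M, a 1 '' C = C := by
    intro C
    rw [map_one]
    exact Set.image_id C
  have hmul : ∀ (p q : P) (C : Set M), a (p * q) '' C = a p '' (a q '' C) := by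
    intro p q C
    rw [map_mul, Set.image_image]
    rfl
  have hsm : ∀ p : P, StrictMono (fun C : Set M => a p '' C) := fun p =>
    (a p).injective.image_strictMono
  have hmem : ∀ (p : P) (C : Set M), C ∈ Fam F ρ → a p '' C ∈ Fam F ρ := fun p C hC =>
    image_Fam F ρ (a p) (hFa p) hC
  let : MulAction P (Set M) :=
    { smul := fun x C => a x '' C
      one_smul := hone
      mul_smul := hmul }
  have hne : (Fam F ρ).Nonempty := by
    obtain ⟨x⟩ := (inferInstance : Nonempty M)
    obtain ⟨C, hC, _⟩ := Fam_cover F ρ hF x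
    exact ⟨C, hC⟩
  obtain ⟨C, hC, hd⟩ := posT Pool.Agent.E8helper89.ZB.kill Pool.Agent.E8helper89.ZB.reg
    (p := p) P hP (Set M) (Fam F ρ) hQ hne hsm hmem (fun q x b hb =>
      Pool.Agent.E8helper71.ZB.nerve (ZMod p) M (Fam F ρ) (Fam_open F ρ) (Fam_cover F ρ hF)
        (fun σ h => Fam_hcap F ρ σ h) (fun C hC => G.fam_cone hρR hC) (a x).toHomeomorph
        (fun C hC => hmem x C hC) q (htriv x q) b hb)
  obtain ⟨y, _, hy⟩ := G.fam_fixed hρR hC
  have h1 : Nat.card (MulAction.stabilizer P C) ∣ s := by
    apply h y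
    intro q hq
    exact hy (a q) (hFa q) hq
  exact hd.trans (mul_dvd_mul h1 (pow_dvd_pow p hcard))

end

section manifold

variable {E : Type} [NormedAddCommGroup E] [NormedSpace ℝ E] [FiniteDimensional ℝ E]
  {M : Type} [TopologicalSpace M] [ChartedSpace E M] [IsManifold 𝓘(ℝ, E) ∞ M]

/-- the map given by an element -/
def amap {P : Type} [Group P] {a : P → M → M} (ha : SmoothAction E a) (x : P) : C(M, M) :=
  ⟨a x, (ha.smooth x).continuous⟩

theorem smooth_dvd [CompactSpace M] [T2Space M] [ConnectedSpace M] {p : ℕ} [Fact p.Prime]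
    {P : Type} [CommGroup P] [Finite P] (hP : ∀ x : P, x ^ p = 1) {a : P → M → M}
    (ha : SmoothAction E a) (htriv : ∀ (x : P) (n : ℕ), CohTriv (ZMod p) (amap ha x) n) (s : ℕ)
    (h : ∀ (x : M) (Q : Subgroup P), (∀ q ∈ Q, a q x = x) → Nat.card Q ∣ s) :
    Nat.card P ∣ s * p ^ npos p M := by
  obtain ⟨W, _, _, _, F, T, hF⟩ := exists_equi ha
  let g := hF.metric
  obtain ⟨R, G⟩ := Q145.TN.exists_geo g
  let _ := Q145.TN.mS g
  let b : P →* (M ≃ᵢ M) :=
    { toFun := fun p =>
        { toFun := a p
          invFun := a p⁻¹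
          left_inv := fun x => by rw [← ha.mul, inv_mul_cancel, ha.one]
          right_inv := fun x => by rw [← ha.mul, mul_inv_cancel, ha.one]
          isometry_toFun := fun x y => by
            show (Q145.TN.mS g).toPseudoMetricSpace.toPseudoEMetricSpace.edist _ _ =
              (Q145.TN.mS g).toPseudoMetricSpace.toPseudoEMetricSpace.edist _ _
            rw [Q145.TN.edist_mS, Q145.TN.edist_mS]
            exact hF.dist_eq ha p x y }
      map_one' := by
        ext x
        exact ha.one x
      map_mul' := fun p q => by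
        ext x
        exact ha.mul p q x }
  have : Nonempty M := inferInstance
  exact geo_dvd G hP b htriv s (fun x Q hQ => h x Q fun q hq => hQ q hq)

/-- **Homologically trivial actions of elementary abelian groups.** -/
theorem manT [CompactSpace M] [T2Space M] [ConnectedSpace M] {p : ℕ} [Fact p.Prime]
    {P : Type} [CommGroup P] [Finite P] (hP : ∀ x : P, x ^ p = 1) {a : P → M → M}
    (ha : SmoothAction E a) (htriv : ∀ (x : P) (n : ℕ), CohTriv (ZMod p) (amap ha x) n) :
    Nat.card P ∣ Nat.card (actKer ha) * (cst p (finrank ℝ E) * p ^ npos p M) := by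
  let b : P ⧸ actKer ha → M → M := fun x y => Quotient.liftOn' x (fun q => a q y) (fun q r h => by
    rw [QuotientGroup.leftRel_apply] at h
    have h1 := h y
    show a q y = a r y
    conv_lhs => rw [← h1]
    rw [← ha.mul, mul_inv_cancel_left])
  have hb1 : SmoothAction E b :=
    { one := fun y => ha.one y
      mul := fun x q y => by
        refine QuotientGroup.induction_on x fun x => QuotientGroup.induction_on q fun q => ?_
        exact ha.mul x q y
      smooth := fun x => by
        refine QuotientGroup.induction_on x fun x => ?_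
        exact ha.smooth x }
  have hpow : ∀ x : P ⧸ actKer ha, x ^ p = 1 := fun x => by
    refine QuotientGroup.induction_on x fun x => ?_
    rw [← QuotientGroup.mk_pow, hP]; rfl
  have hf : ∀ x : P ⧸ actKer ha, (∀ y, b x y = y) → x = 1 := fun x hx => by
    induction x using QuotientGroup.induction_on with
    | _ x =>
      rw [QuotientGroup.eq_one_iff]
      exact hx
  have h1 := smooth_dvd (P := P ⧸ actKer ha) hpow hb1 (fun x n => by
      induction x using QuotientGroup.induction_on with
      | _ x => exact htriv x n) (cst p (finrank ℝ E)) (fun x Q hQ => by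
    obtain ⟨V, _, _, _, ρ, hV, hρ⟩ := exists_isotropy hb1 hf x Q hQ
    rw [← hV]
    unfold cst
    split_ifs with h2
    · subst h2
      exact card_dvd_two_pow ρ (fun q => Subtype.ext (by
        have := hpow q
        rw [show (4 : ℕ) = 2 * 2 from rfl, pow_mul]
        show ((q : P ⧸ actKer ha) ^ 2) ^ 2 = 1
        rw [this, one_pow])) hρ
    · exact card_dvd_p_pow (Fact.out : p.Prime) h2 ρ (fun q => Subtype.ext (hpow q)) hρ)
  rw [← Subgroup.card_mul_index (actKer ha)]
  exact mul_dvd_mul_left _ h1

end manifold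

end Pool.Agent.E8helper2.ZB
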