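import Pool.Agent.E8helper2.ZB.HomL
import Pool.Agent.E8helper2.ZB.ManT

/-!
# Actions of bounded Loewy length on the cohomology of closed manifolds
-/

set_option autoImplicit false

namespace Pool.Agent.E8helper2.ZB

open Module Metric Set Pool.Agent.Helper381 Pool.Agent.H185.ZM
open scoped Manifold ContDiff

section

variable {M E : Type} [MetricSpace M] [NormedAddCommGroup E] [NormedSpace ℝ E] {R : ℝ}

theorem geoL (hLIN : S_LIN) (hLIN2 : S_LIN2) (hN2 : S_NERVE2) {p : ℕ} [Fact p.Prime]
    (G : Geo M E R) [CompactSpace M] [Nonempty M] {P : Type}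
    [CommGroup P] [Finite P] (hP : ∀ x : P, x ^ p = 1) (a : P →* (M ≃ᵢ M)) (Ll : ℕ → ℕ)
    (htriv : ∀ n, ∀ x : Fin (Ll n) → P, ∀ b ∈ cocycles (ZMod p) M n,
      itf (List.ofFn fun i => fun σ : Sing M n =>
        (⟨a (x i), (a (x i)).continuous⟩ : C(M, M)).comp σ) b ∈ coboundaries (ZMod p) M n)
    (l : ℕ) (hl : ∀ N, ∑ n ∈ Finset.range N, Ll n ≤ l) (s : ℕ)
    (h : ∀ (x : M) (Q : Subgroup P), (∀ q ∈ Q, a q x = x) → Nat.card Q ∣ s) :
    Nat.card P ∣ s * p ^ (l - 1) := by
  classical
  have hR := G.Rpos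
  obtain ⟨F, hF, hFa⟩ := exists_invariant_net a (R / 4) (by linarith)
  have hρR : 4 * (R / 4) ≤ R := by linarith
  set ρ := R / 4 with hρ
  have hQ := Fam_finite F ρ
  have hone : ∀ C : Set M, a 1 '' C = C := by
    intro C
    rw [map_one]
    exact Set.image_id C
  have hmul : ∀ (p q : P) (C : Set M), a (p * q) '' C = a p '' (a q '' C) := by
    intro p q C
    rw [map_mul, Set.image_image]
    rfl
  have hsm : ∀ p : P, StrictMono (fun C : Set M => a p '' C) := fun p =>
    (a p).injective.image_strictMono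
  have hmem : ∀ (p : P) (C : Set M), C ∈ Fam F ρ → a p '' C ∈ Fam F ρ := fun p C hC =>
    image_Fam F ρ (a p) (hFa p) hC
  let : MulAction P (Set M) :=
    { smul := fun x C => a x '' C
      one_smul := hone
      mul_smul := hmul }
  have hne : (Fam F ρ).Nonempty := by
    obtain ⟨x⟩ := (inferInstance : Nonempty M)
    obtain ⟨C, hC, _⟩ := Fam_cover F ρ hF x
    exact ⟨C, hC⟩
  obtain ⟨C, hC, hd⟩ := posL hLIN hLIN2 Pool.Agent.E8helper89.ZB.kill Pool.Agent.E8helper89.ZB.reg
    (p := p) P hP (Set M) (Fam F ρ) hQ hne hsm hmem Ll (fun q b hb x =>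
      hN2 (ZMod p) M (Fam F ρ) (Fam_open F ρ) (Fam_cover F ρ hF)
        (fun σ h => Fam_hcap F ρ σ h) (fun C hC => G.fam_cone hρR hC) (Ll q)
        (fun i => (a (x i)).toHomeomorph) (fun i C hC => hmem (x i) C hC) q (htriv q x) b hb)
  obtain ⟨y, _, hy⟩ := G.fam_fixed hρR hC
  have h1 : Nat.card (MulAction.stabilizer P C) ∣ s := by
    apply h y
    intro q hq
    exact hy (a q) (hFa q) hq
  refine hd.trans (mul_dvd_mul h1 (pow_dvd_pow p ?_))
  have := hl (Fam F ρ).ncard
  omega

end

section manifold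

variable {E : Type} [NormedAddCommGroup E] [NormedSpace ℝ E] [FiniteDimensional ℝ E]
  {M : Type} [TopologicalSpace M] [ChartedSpace E M] [IsManifold 𝓘(ℝ, E) ∞ M]

/-- products of `Ll n` operators `x - 1` are zero on `H ^ n (M; ℤ/p)` -/
def Loewy (p : ℕ) {P : Type} [Group P] {a : P → M → M} (ha : SmoothAction E a) (Ll : ℕ → ℕ) :
    Prop :=
  ∀ n, ∀ x : Fin (Ll n) → P, ∀ b ∈ cocycles (ZMod p) M n,
      itf (List.ofFn fun i => fun σ : Sing M n => (amap ha (x i)).comp σ) b ∈
        coboundaries (ZMod p) M n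

theorem smoothL (hLIN : S_LIN) (hLIN2 : S_LIN2) (hN2 : S_NERVE2)
    [CompactSpace M] [T2Space M] [ConnectedSpace M] {p : ℕ} [Fact p.Prime]
    {P : Type} [CommGroup P] [Finite P] (hP : ∀ x : P, x ^ p = 1) {a : P → M → M}
    (ha : SmoothAction E a) (Ll : ℕ → ℕ) (htriv : Loewy p ha Ll)
    (l : ℕ) (hl : ∀ N, ∑ n ∈ Finset.range N, Ll n ≤ l) (s : ℕ)
    (h : ∀ (x : M) (Q : Subgroup P), (∀ q ∈ Q, a q x = x) → Nat.card Q ∣ s) :
    Nat.card P ∣ s * p ^ (l - 1) := by
  obtain ⟨W, _, _, _, F, T, hF⟩ := exists_equi ha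
  let g := hF.metric
  obtain ⟨R, G⟩ := Q145.TN.exists_geo g
  let _ := Q145.TN.mS g
  let b : P →* (M ≃ᵢ M) :=
    { toFun := fun p =>
        { toFun := a p
          invFun := a p⁻¹
          left_inv := fun x => by rw [← ha.mul, inv_mul_cancel, ha.one]
          right_inv := fun x => by rw [← ha.mul, mul_inv_cancel, ha.one]
          isometry_toFun := fun x y => by
            show (Q145.TN.mS g).toPseudoMetricSpace.toPseudoEMetricSpace.edist _ _ =
              (Q145.TN.mS g).toPseudoMetricSpace.toPseudoEMetricSpace.edist _ _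
            rw [Q145.TN.edist_mS, Q145.TN.edist_mS]
            exact hF.dist_eq ha p x y }
      map_one' := by
        ext x
        exact ha.one x
      map_mul' := fun p q => by
        ext x
        exact ha.mul p q x }
  have : Nonempty M := inferInstance
  exact geoL hLIN hLIN2 hN2 G hP b Ll htriv l hl s (fun x Q hQ => h x Q fun q hq => hQ q hq)

/-- **Actions of elementary abelian groups of bounded Loewy length.** -/
theorem manL (hLIN : S_LIN) (hLIN2 : S_LIN2) (hN2 : S_NERVE2)
    [CompactSpace M] [T2Space M] [ConnectedSpace M] {p : ℕ} [Fact p.Prime]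
    {P : Type} [CommGroup P] [Finite P] (hP : ∀ x : P, x ^ p = 1) {a : P → M → M}
    (ha : SmoothAction E a) (Ll : ℕ → ℕ) (htriv : Loewy p ha Ll)
    (l : ℕ) (hl : ∀ N, ∑ n ∈ Finset.range N, Ll n ≤ l) :
    Nat.card P ∣ Nat.card (actKer ha) * (cst p (finrank ℝ E) * p ^ (l - 1)) := by
  let b : P ⧸ actKer ha → M → M := fun x y => Quotient.liftOn' x (fun q => a q y) (fun q r h => by
    rw [QuotientGroup.leftRel_apply] at h
    have h1 := h y
    show a q y = a r y
    conv_lhs => rw [← h1]
    rw [← ha.mul, mul_inv_cancel_left])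
  have hb1 : SmoothAction E b :=
    { one := fun y => ha.one y
      mul := fun x q y => by
        refine QuotientGroup.induction_on x fun x => QuotientGroup.induction_on q fun q => ?_
        exact ha.mul x q y
      smooth := fun x => by
        refine QuotientGroup.induction_on x fun x => ?_
        exact ha.smooth x }
  have hpow : ∀ x : P ⧸ actKer ha, x ^ p = 1 := fun x => by
    refine QuotientGroup.induction_on x fun x => ?_
    rw [← QuotientGroup.mk_pow, hP]; rfl
  have hf : ∀ x : P ⧸ actKer ha, (∀ y, b x y = y) → x = 1 := fun x hx => by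
    induction x using QuotientGroup.induction_on with
    | _ x =>
      rw [QuotientGroup.eq_one_iff]
      exact hx
  have h1 := smoothL hLIN hLIN2 hN2 (P := P ⧸ actKer ha) hpow hb1 Ll (fun n x b' hb' => by
      choose y hy using fun i => QuotientGroup.mk_surjective (x i)
      obtain rfl : (fun i => (y i : P ⧸ actKer ha)) = x := funext hy
      exact htriv n y b' hb') l hl (cst p (finrank ℝ E)) (fun x Q hQ => by
    obtain ⟨V, _, _, _, ρ, hV, hρ⟩ := exists_isotropy hb1 hf x Q hQ
    rw [← hV]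
    unfold cst
    split_ifs with h2
    · subst h2
      exact card_dvd_two_pow ρ (fun q => Subtype.ext (by
        have := hpow q
        rw [show (4 : ℕ) = 2 * 2 from rfl, pow_mul]
        show ((q : P ⧸ actKer ha) ^ 2) ^ 2 = 1
        rw [this, one_pow])) hρ
    · exact card_dvd_p_pow (Fact.out : p.Prime) h2 ρ (fun q => Subtype.ext (hpow q)) hρ)
  rw [← Subgroup.card_mul_index (actKer ha)]
  exact mul_dvd_mul_left _ h1

end manifold

end Pool.Agent.E8helper2.ZB
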