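import Pool.Agent.E8helper2.ZB.ManL

/-!
# The representation on the cohomology
-/

set_option autoImplicit false

namespace Pool.Agent.E8helper2.ZB

open Module Metric Set Pool.Agent.Helper381 Pool.Agent.H185.ZM
open scoped Manifold ContDiff

section pull

variable {k : Type} [CommRing k] {X : Type} [TopologicalSpace X]

/-- pull-back of cochains -/
def pull (k : Type) [CommRing k] {X : Type} [TopologicalSpace X] (f : C(X, X)) (n : ℕ) :
    (Sing X n → k) →ₗ[k] (Sing X n → k) := LinearMap.funLeft k k (fun σ => f.comp σ)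

theorem pull_apply (f : C(X, X)) (n : ℕ) (b : Sing X n → k) (σ : Sing X n) :
    pull k f n b σ = b (f.comp σ) := rfl

theorem pull_altd (f : C(X, X)) (n : ℕ) (b : Sing X n → k) :
    altd k (sface (X := X)) n (pull k f n b) = pull k f (n + 1) (altd k (sface (X := X)) n b) := rfl

theorem pull_cocycles (f : C(X, X)) (n : ℕ) (b : Sing X n → k) (hb : b ∈ cocycles k X n) :
    pull k f n b ∈ cocycles k X n := by
  have h : altd k (sface (X := X)) n b = 0 := hb
  show altd k (sface (X := X)) n (pull k f n b) = 0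
  rw [pull_altd, h, map_zero]

theorem pull_coboundaries (f : C(X, X)) (n : ℕ) (b : Sing X n → k)
    (hb : b ∈ coboundaries k X n) : pull k f n b ∈ coboundaries k X n := by
  cases n with
  | zero =>
    have h : b = 0 := hb
    rw [h, map_zero]
    exact Submodule.zero_mem _
  | succ n =>
    obtain ⟨c, rfl⟩ := hb
    exact ⟨pull k f n c, pull_altd f n c⟩

/-- cohomology -/
abbrev HH (k : Type) [CommRing k] (X : Type) [TopologicalSpace X] (n : ℕ) : Type :=
  cocycles k X n ⧸ (coboundaries k X n).submoduleOf (cocycles k X n)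

/-- pull-back of cohomology classes -/
noncomputable def pullH (k : Type) [CommRing k] {X : Type} [TopologicalSpace X] (f : C(X, X)) (n : ℕ) :
    HH k X n →ₗ[k] HH k X n :=
  Submodule.mapQ _ _ ((pull k f n).restrict (pull_cocycles f n))
    (fun b hb => pull_coboundaries f n b.1 hb)

/-- the class of a cocycle -/
noncomputable def cl {n : ℕ} (b : Sing X n → k) (hb : b ∈ cocycles k X n) : HH k X n :=
  Submodule.Quotient.mk ⟨b, hb⟩

theorem cl_surj {n : ℕ} (y : HH k X n) : ∃ b hb, cl (k := k) (X := X) b hb = y := by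
  obtain ⟨⟨b, hb⟩, h⟩ := Submodule.Quotient.mk_surjective _ y
  exact ⟨b, hb, h⟩

theorem pullH_cl (f : C(X, X)) (n : ℕ) (b : Sing X n → k) (hb : b ∈ cocycles k X n) :
    pullH k f n (cl b hb) = cl (pull k f n b) (pull_cocycles f n b hb) := rfl

theorem cl_eq_zero {n : ℕ} (b : Sing X n → k) (hb : b ∈ cocycles k X n) :
    cl b hb = 0 ↔ b ∈ coboundaries k X n := by
  unfold cl
  rw [Submodule.Quotient.mk_eq_zero]
  exact Iff.rfl

theorem cl_sub {n : ℕ} (b b' : Sing X n → k) (hb : b ∈ cocycles k X n)
    (hb' : b' ∈ cocycles k X n) : cl b hb - cl b' hb' = cl (b - b') (Submodule.sub_mem _ hb hb') :=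
  rfl

/-- the representation -/
noncomputable def repH (k : Type) [CommRing k] {X : Type} [TopologicalSpace X] {G : Type} [Group G]
    (f : G → C(X, X)) (h1 : f 1 = ContinuousMap.id X)
    (hm : ∀ g h, f (g * h) = (f g).comp (f h)) (n : ℕ) : G →* (HH k X n →ₗ[k] HH k X n) where
  toFun g := pullH k (f g⁻¹) n
  map_one' := by
    apply LinearMap.ext
    intro y
    obtain ⟨b, hb, rfl⟩ := cl_surj y
    rw [pullH_cl]
    have e : pull k (f 1⁻¹) n b = b := by
      funext σ
      rw [pull_apply, inv_one, h1, ContinuousMap.id_comp]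
    have e2 : cl (pull k (f 1⁻¹) n b) (pull_cocycles _ n b hb) = cl b hb := by
      congr 1
    exact e2
  map_mul' g h := by
    apply LinearMap.ext
    intro y
    obtain ⟨b, hb, rfl⟩ := cl_surj y
    rw [pullH_cl, Module.End.mul_apply, pullH_cl, pullH_cl]
    have e : pull k (f (g * h)⁻¹) n b = pull k (f g⁻¹) n (pull k (f h⁻¹) n b) := by
      funext σ
      rw [pull_apply, pull_apply, pull_apply, mul_inv_rev, hm, ContinuousMap.comp_assoc]
    congr 1

theorem repH_apply {G : Type} [Group G]
    (f : G → C(X, X)) (h1 : f 1 = ContinuousMap.id X)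
    (hm : ∀ g h, f (g * h) = (f g).comp (f h)) (n : ℕ) (g : G) :
    repH k f h1 hm n g = pullH k (f g⁻¹) n := rfl

theorem itf_cl {G : Type} [Group G]
    (f : G → C(X, X)) (h1 : f 1 = ContinuousMap.id X)
    (hm : ∀ g h, f (g * h) = (f g).comp (f h)) (n : ℕ) (l : List G) :
    ∀ (b : Sing X n → k) (hb : b ∈ cocycles k X n),
      ∃ h : itf (l.map fun g => fun σ : Sing X n => (f g).comp σ) b ∈ cocycles k X n,
        cl _ h = (l.reverse.map fun g => repH k f h1 hm n g⁻¹ - 1).prod (cl b hb) := by
  induction l with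
  | nil => exact fun b hb => ⟨hb, rfl⟩
  | cons g l ih =>
    intro b hb
    obtain ⟨h, e⟩ := ih (pull k (f g) n b - b)
      (Submodule.sub_mem _ (pull_cocycles (f g) n b hb) hb)
    refine ⟨h, ?_⟩
    rw [List.reverse_cons, List.map_append, List.prod_append, Module.End.mul_apply]
    refine e.trans ?_
    congr 1
    rw [List.map_singleton, List.prod_singleton, LinearMap.sub_apply, repH_apply, inv_inv,
      pullH_cl, Module.End.one_apply, cl_sub]

theorem reverse_ofFn {α : Type} {n : ℕ} (f : Fin n → α) :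
    (List.ofFn f).reverse = List.ofFn fun i => f i.rev := by
  apply List.ext_getElem
  · simp
  · intro i h1 h2
    rw [List.getElem_reverse, List.getElem_ofFn, List.getElem_ofFn]
    congr 1
    apply Fin.ext
    rw [List.length_reverse, List.length_ofFn] at h1
    simp only [List.length_ofFn, Fin.val_rev]
    omega

theorem itf_coboundaries {G : Type} [Group G]
    (f : G → C(X, X)) (h1 : f 1 = ContinuousMap.id X)
    (hm : ∀ g h, f (g * h) = (f g).comp (f h)) (n L : ℕ) (x : Fin L → G)
    (h : (List.ofFn fun i : Fin L => repH k f h1 hm n (x i.rev)⁻¹ - 1).prod = 0)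
    (b : Sing X n → k) (hb : b ∈ cocycles k X n) :
    itf (List.ofFn fun i => fun σ : Sing X n => (f (x i)).comp σ) b ∈ coboundaries k X n := by
  obtain ⟨h2, e⟩ := itf_cl f h1 hm n (List.ofFn x) b hb
  have h3 : ((List.ofFn x).reverse.map fun g => repH k f h1 hm n g⁻¹ - 1).prod = 0 := by
    rw [reverse_ofFn, List.map_ofFn]
    exact h
  rw [h3, LinearMap.zero_apply, cl_eq_zero] at e
  have h4 : (List.ofFn x).map (fun g => fun σ : Sing X n => (f g).comp σ) =
      List.ofFn fun i => fun σ : Sing X n => (f (x i)).comp σ := List.map_ofFn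
  rwa [h4] at e

end pull

section zero

theorem sing0_face {X : Type} [TopologicalSpace X] (γ : C(unitInterval, X)) (i : Fin 2)
    (s : stdSimplex ℝ (Fin (0 + 1))) :
    sface 0 i (γ.comp (stdSimplexHomeomorphUnitInterval : C(stdSimplex ℝ (Fin 2), unitInterval))) s
      = if i = 0 then γ 1 else γ 0 := by
  have hs : s = stdSimplex.vertex (0 : Fin 1) :=
    (inferInstance : Subsingleton (stdSimplex ℝ (Fin 1))).allEq _ _
  subst hs
  show γ (stdSimplexHomeomorphUnitInterval (stdSimplex.map i.succAbove
    (stdSimplex.vertex (0 : Fin 1)))) = _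
  rw [stdSimplex.map_vertex]
  fin_cases i
  · rfl
  · rfl

theorem deg_zero {k : Type} [CommRing k] {X : Type} [TopologicalSpace X] [PathConnectedSpace X]
    (b : Sing X 0 → k) (hb : b ∈ cocycles k X 0) (σ τ : Sing X 0) : b σ = b τ := by
  have hsub : ∀ s t : stdSimplex ℝ (Fin (0 + 1)), s = t :=
    (inferInstance : Subsingleton (stdSimplex ℝ (Fin 1))).allEq
  let v : stdSimplex ℝ (Fin (0 + 1)) := stdSimplex.vertex (0 : Fin 1)
  obtain ⟨γ⟩ := PathConnectedSpace.joined (σ v) (τ v)
  have h := congrFun (show altd k (sface (X := X)) 0 b = 0 from hb)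
    (γ.toContinuousMap.comp
      (stdSimplexHomeomorphUnitInterval : C(stdSimplex ℝ (Fin 2), unitInterval)))
  have e0 : sface 0 0 (γ.toContinuousMap.comp
      (stdSimplexHomeomorphUnitInterval : C(stdSimplex ℝ (Fin 2), unitInterval))) = τ := by
    apply ContinuousMap.ext
    intro s
    rw [sing0_face, if_pos rfl, hsub s v]
    exact γ.target
  have e1 : sface 0 1 (γ.toContinuousMap.comp
      (stdSimplexHomeomorphUnitInterval : C(stdSimplex ℝ (Fin 2), unitInterval))) = σ := by
    apply ContinuousMap.ext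
    intro s
    rw [sing0_face, if_neg (by decide), hsub s v]
    exact γ.source
  have h2 : ∑ i : Fin 2, (-1 : k) ^ (i : ℕ) * b (sface 0 i (γ.toContinuousMap.comp
      (stdSimplexHomeomorphUnitInterval : C(stdSimplex ℝ (Fin 2), unitInterval)))) = 0 := h
  rw [Fin.sum_univ_two, e0, e1] at h2
  simp only [Fin.val_zero, pow_zero, one_mul, Fin.val_one, pow_one, neg_mul] at h2
  exact (sub_eq_zero.1 (by rw [sub_eq_add_neg]; exact h2)).symm

end zero

end Pool.Agent.E8helper2.ZB
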