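import Pool.Agent.E8helper2.ZB.SemiW
import Pool.Agent.E8helper2.ZB.Rep
import Pool.Agent.E8helper41.ZB.Box
import Pool.Agent.E8helper95.ZB.Van

/-!
# Weights: closed manifolds
-/

set_option autoImplicit false

namespace Pool.Agent.E8helper2.ZB

open Module Metric Set Pool.Agent.Helper381 Pool.Agent.H185.ZM
open scoped Manifold ContDiff

section

variable {M E : Type} [MetricSpace M] [NormedAddCommGroup E] [NormedSpace ℝ E] {R : ℝ}

theorem geoW {p k : ℕ} [Fact p.Prime]
    (G : Geo M E R) [CompactSpace M] [Nonempty M] {P : Type}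
    [Group P] [Finite P] (a : P →* (M ≃ᵢ M)) (φ : GG p k →* P) (s : P) {ℓ : ℕ} (hs : s ^ ℓ = 1)
    (π : Equiv.Perm (Fin k)) (hπ : ∀ i, φ (gen p k i) * s = s * φ (gen p k (π i)))
    (K : Type) [Field K] [Algebra (ZMod p) K] (ξ : Fin k → K)
    (ζ : K) (hζ : ζ ^ ℓ = 1) (hℓ : (ℓ : K) ≠ 0) (hξ : ∀ i, ξ i = ζ * ξ (π i))
    (hβ0 : finrank (ZMod p) (SingularCohomology (ZMod p) M 0) ≤ 1)
    (hβ : ∀ q, 1 ≤ q → finrank (ZMod p) (SingularCohomology (ZMod p) M q) <
        orderOf (p : ZMod (orderOf (ζ ^ wt p (q + 1)))) ∨ (ζ ^ wt p (q + 1) ≠ 1 ∧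
          CohTriv (ZMod p) (⟨a s, (a s).continuous⟩ : C(M, M)) q)) :
    ∃ x : M, ∀ χ : Fin k → ZMod p,
      (∀ g : GG p k, a (φ g) x = x → ∑ i, χ i * g.toAdd i = 0) →
        ∑ i, algebraMap (ZMod p) K (χ i) * ξ i = 0 := by
  classical
  have hR := G.Rpos
  obtain ⟨F, hF, hFa⟩ := exists_invariant_net a (R / 4) (by linarith)
  have hρR : 4 * (R / 4) ≤ R := by linarith
  set ρ := R / 4 with hρ
  have hQ := Fam_finite F ρ
  have hone : ∀ C : Set M, a 1 '' C = C := by
    intro C
    rw [map_one]
    exact Set.image_id C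
  have hmul : ∀ (p q : P) (C : Set M), a (p * q) '' C = a p '' (a q '' C) := by
    intro p q C
    rw [map_mul, Set.image_image]
    rfl
  have hsm : ∀ p : P, StrictMono (fun C : Set M => a p '' C) := fun p =>
    (a p).injective.image_strictMono
  have hmem : ∀ (p : P) (C : Set M), C ∈ Fam F ρ → a p '' C ∈ Fam F ρ := fun p C hC =>
    image_Fam F ρ (a p) (hFa p) hC
  let : MulAction P (Set M) :=
    { smul := fun x C => a x '' C
      one_smul := hone
      mul_smul := hmul }
  have hne : (Fam F ρ).Nonempty := by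
    obtain ⟨x⟩ := (inferInstance : Nonempty M)
    obtain ⟨C, hC, _⟩ := Fam_cover F ρ hF x
    exact ⟨C, hC⟩
  have hrk : ∀ n, finrank (ZMod p) (OrdCoh (ZMod p) (Fam F ρ) n) =
      finrank (ZMod p) (SingularCohomology (ZMod p) M n) := by
    intro n
    obtain ⟨e1⟩ := singEquiv (ZMod p) M n
    obtain ⟨e2⟩ := G.nerve hρR hF (ZMod p) n
    exact (e1.trans e2).finrank_eq.symm
  obtain ⟨C, hC, hd⟩ := posW P (Set M) (Fam F ρ) hQ hne hsm hmem φ s hs π hπ K ξ ζ hζ hℓ hξ
    (by rw [hrk]; exact hβ0) (fun q hq => by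
      rw [hrk]
      rcases hβ q hq with h | ⟨h, h'⟩
      · exact Or.inl h
      · exact Or.inr ⟨h, fun b hb =>
          Pool.Agent.E8helper71.ZB.nerve (ZMod p) M (Fam F ρ) (Fam_open F ρ) (Fam_cover F ρ hF)
            (fun σ h => Fam_hcap F ρ σ h) (fun C hC => G.fam_cone hρR hC) (a s).toHomeomorph
            (fun C hC => hmem s C hC) q h' b hb⟩)
  obtain ⟨y, _, hy⟩ := G.fam_fixed hρR hC
  refine ⟨y, fun χ hχ => hd χ fun g hg => hχ g ?_⟩
  exact hy (a (φ g)) (hFa (φ g)) hg

end

section manifold

variable {E : Type} [NormedAddCommGroup E] [NormedSpace ℝ E] [FiniteDimensional ℝ E]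
  {M : Type} [TopologicalSpace M] [ChartedSpace E M] [IsManifold 𝓘(ℝ, E) ∞ M]

theorem betti_zero_le (k : Type) [Field k] {X : Type} [TopologicalSpace X] [PathConnectedSpace X] :
    finrank k (SingularCohomology k X 0) ≤ 1 := by
  have : Nonempty X := inferInstance
  let c : Sing X 0 := ContinuousMap.const _ (Classical.arbitrary X)
  let e : cocycles k X 0 →ₗ[k] k := (LinearMap.proj c).comp (cocycles k X 0).subtype
  have he : Function.Injective e := by
    intro a b hab
    apply Subtype.ext
    funext σ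
    have h1 : (a : Sing X 0 → k) c = (b : Sing X 0 → k) c := hab
    rw [deg_zero (a : Sing X 0 → k) a.2 σ c, deg_zero (b : Sing X 0 → k) b.2 σ c, h1]
  have hf : Module.Finite k (cocycles k X 0) := Module.Finite.of_injective e he
  have h1 : finrank k (cocycles k X 0) ≤ 1 := by
    have := LinearMap.finrank_le_finrank_of_injective he
    rwa [Module.finrank_self] at this
  refine le_trans ?_ h1
  exact Submodule.finrank_quotient_le ((coboundaries k X 0).submoduleOf (cocycles k X 0))

theorem smoothW [CompactSpace M] [T2Space M] [ConnectedSpace M] {p k : ℕ} [Fact p.Prime]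
    {P : Type} [Group P] [Finite P] {a : P → M → M}
    (ha : SmoothAction E a) (φ : GG p k →* P) (s : P) {ℓ : ℕ} (hs : s ^ ℓ = 1)
    (π : Equiv.Perm (Fin k)) (hπ : ∀ i, φ (gen p k i) * s = s * φ (gen p k (π i)))
    (K : Type) [Field K] [Algebra (ZMod p) K] (ξ : Fin k → K)
    (ζ : K) (hζ : ζ ^ ℓ = 1) (hℓ : (ℓ : K) ≠ 0) (hξ : ∀ i, ξ i = ζ * ξ (π i))
    (hβ : ∀ q, 1 ≤ q → finrank (ZMod p) (SingularCohomology (ZMod p) M q) <
        orderOf (p : ZMod (orderOf (ζ ^ wt p (q + 1)))) ∨ (ζ ^ wt p (q + 1) ≠ 1 ∧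
          CohTriv (ZMod p) (⟨a s, (ha.smooth s).continuous⟩ : C(M, M)) q)) :
    ∃ x : M, ∀ χ : Fin k → ZMod p,
      (∀ g : GG p k, a (φ g) x = x → ∑ i, χ i * g.toAdd i = 0) →
        ∑ i, algebraMap (ZMod p) K (χ i) * ξ i = 0 := by
  have : LocallyPathConnectedSpace M := ChartedSpace.locallyPathConnectedSpace E M
  have : PathConnectedSpace M := pathConnectedSpace_iff_connectedSpace.2 inferInstance
  have hβ0 := betti_zero_le (ZMod p) (X := M)
  obtain ⟨W, _, _, _, F, T, hF⟩ := exists_equi ha
  let g := hF.metric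
  obtain ⟨R, G⟩ := Q145.TN.exists_geo g
  let _ := Q145.TN.mS g
  let b : P →* (M ≃ᵢ M) :=
    { toFun := fun p =>
        { toFun := a p
          invFun := a p⁻¹
          left_inv := fun x => by rw [← ha.mul, inv_mul_cancel, ha.one]
          right_inv := fun x => by rw [← ha.mul, mul_inv_cancel, ha.one]
          isometry_toFun := fun x y => by
            show (Q145.TN.mS g).toPseudoMetricSpace.toPseudoEMetricSpace.edist _ _ =
              (Q145.TN.mS g).toPseudoMetricSpace.toPseudoEMetricSpace.edist _ _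
            rw [Q145.TN.edist_mS, Q145.TN.edist_mS]
            exact hF.dist_eq ha p x y }
      map_one' := by
        ext x
        exact ha.one x
      map_mul' := fun p q => by
        ext x
        exact ha.mul p q x }
  have : Nonempty M := inferInstance
  exact geoW G b φ s hs π hπ K ξ ζ hζ hℓ hξ hβ0 hβ

/-- a subgroup `H` of `(ℤ/p)^k` and the space `W` of the characters which vanish on it -/
theorem exists_ann' {p k : ℕ} [Fact p.Prime] (H : Subgroup (GG p k)) :
    ∃ W : Submodule (ZMod p) (Fin k → ZMod p),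
      (∀ χ, χ ∈ W ↔ ∀ g ∈ H, ∑ i, χ i * (Multiplicative.toAdd g) i = 0) ∧
        Nat.card (GG p k) = Nat.card H * p ^ finrank (ZMod p) W := by
  let H' : Submodule (ZMod p) (Fin k → ZMod p) :=
    AddSubgroup.toZModSubmodule p (Subgroup.toAddSubgroup' H)
  let e : (Fin k → ZMod p) ≃ₗ[ZMod p] Dual (ZMod p) (Fin k → ZMod p) :=
    (Pi.basisFun (ZMod p) (Fin k)).constr (ZMod p)
  have he : ∀ χ v, e χ v = ∑ i, χ i * v i := by
    intro χ v
    rw [Basis.constr_apply_fintype]
    refine Finset.sum_congr rfl fun i _ => ?_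
    simp [mul_comm]
  let W : Submodule (ZMod p) (Fin k → ZMod p) := H'.dualAnnihilator.map e.symm.toLinearMap
  have hmem : ∀ g : GG p k, g ∈ H ↔ Multiplicative.toAdd g ∈ H' := fun g => Iff.rfl
  refine ⟨W, fun χ => ⟨fun hχ g hg => ?_, fun h => ?_⟩, ?_⟩
  · rw [← he]
    have h1 : e χ ∈ H'.dualAnnihilator := by
      obtain ⟨φ, hφ, rfl⟩ := hχ
      simpa using hφ
    rw [Submodule.mem_dualAnnihilator] at h1
    exact h1 _ ((hmem g).1 hg)
  · refine ⟨e χ, ?_, by simp⟩
    rw [SetLike.mem_coe, Submodule.mem_dualAnnihilator]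
    intro v hv
    rw [he]
    exact h (Multiplicative.ofAdd v) ((hmem _).2 hv)
  · have h1 : finrank (ZMod p) W = finrank (ZMod p) H'.dualAnnihilator :=
      LinearEquiv.finrank_map_eq e.symm _
    have h2 := Subspace.finrank_add_finrank_dualAnnihilator_eq H'
    have h3 : Nat.card (GG p k) = p ^ k := by
      rw [Nat.card_congr Multiplicative.toAdd, Nat.card_fun, Nat.card_zmod, Nat.card_fin]
    have h4 : Nat.card H = p ^ finrank (ZMod p) H' := by
      have : Nat.card H = Nat.card H' := Nat.card_congr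
        ((Multiplicative.toAdd (α := Fin k → ZMod p)).subtypeEquiv fun g => hmem g)
      rw [this, Module.natCard_eq_pow_finrank (K := ZMod p), Nat.card_zmod]
    rw [h3, h4, h1, ← pow_add]
    congr 1
    rw [h2, Module.finrank_fintype_fun_eq_card, Fintype.card_fin]

theorem cst_eq {p m : ℕ} : ∃ t, cst p m = p ^ t ∧ t = if p = 2 then m else m / 2 := by
  unfold cst
  by_cases h : p = 2
  · subst h
    exact ⟨m, by rw [if_pos rfl], by rw [if_pos rfl]⟩
  · exact ⟨m / 2, by rw [if_neg h], by rw [if_neg h]⟩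

/-- the isotropy groups modulo the kernel -/
theorem iso_dvd [CompactSpace M] [T2Space M] [ConnectedSpace M] {p k : ℕ} [Fact p.Prime]
    {a : GG p k → M → M} (ha : SmoothAction E a) (x : M) (S : Subgroup (GG p k))
    (hS : ∀ g ∈ S, a g x = x) (hNS : actKer ha ≤ S) :
    Nat.card S ∣ Nat.card (actKer ha) * cst p (finrank ℝ E) := by
  let b : GG p k ⧸ actKer ha → M → M := fun x y => Quotient.liftOn' x (fun q => a q y)
    (fun q r h => by
      rw [QuotientGroup.leftRel_apply] at h
      have h1 := h y
      show a q y = a r y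
      conv_lhs => rw [← h1]
      rw [← ha.mul, mul_inv_cancel_left])
  have hb1 : SmoothAction E b :=
    { one := fun y => ha.one y
      mul := fun x q y => by
        refine QuotientGroup.induction_on x fun x => QuotientGroup.induction_on q fun q => ?_
        exact ha.mul x q y
      smooth := fun x => by
        refine QuotientGroup.induction_on x fun x => ?_
        exact ha.smooth x }
  have hp1 : ∀ x : GG p k, x ^ p = 1 := by
    intro x
    have : p • x.toAdd = 0 := by
      funext j
      simp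
    exact congrArg Multiplicative.ofAdd this
  have hpow : ∀ x : GG p k ⧸ actKer ha, x ^ p = 1 := fun x => by
    refine QuotientGroup.induction_on x fun x => ?_
    rw [← QuotientGroup.mk_pow, hp1]; rfl
  have hf : ∀ x : GG p k ⧸ actKer ha, (∀ y, b x y = y) → x = 1 := fun x hx => by
    induction x using QuotientGroup.induction_on with
    | _ x =>
      rw [QuotientGroup.eq_one_iff]
      exact hx
  let Sb : Subgroup (GG p k ⧸ actKer ha) := S.map (QuotientGroup.mk' (actKer ha))
  obtain ⟨V, _, _, _, ρ, hV, hρ⟩ := exists_isotropy hb1 hf x Sb (by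
    rintro _ ⟨g, hg, rfl⟩
    exact hS g hg)
  have h1 : Nat.card Sb ∣ cst p (finrank ℝ E) := by
    rw [← hV]
    unfold cst
    split_ifs with h2
    · subst h2
      exact card_dvd_two_pow ρ (fun q => Subtype.ext (by
        have := hpow q
        rw [show (4 : ℕ) = 2 * 2 from rfl, pow_mul]
        show ((q : GG 2 k ⧸ actKer ha) ^ 2) ^ 2 = 1
        rw [this, one_pow])) hρ
    · exact card_dvd_p_pow (Fact.out : p.Prime) h2 ρ (fun q => Subtype.ext (hpow q)) hρ
  have h2 : Nat.card S = Nat.card (actKer ha) * Nat.card Sb := by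
    let f : S →* Sb := (QuotientGroup.mk' (actKer ha)).subgroupMap S
    have hf1 : Function.Surjective f := (QuotientGroup.mk' (actKer ha)).subgroupMap_surjective S
    have h3 : Nat.card S = Nat.card f.ker * Nat.card Sb := by
      have h4 := Subgroup.card_mul_index f.ker
      rw [Subgroup.index_ker, MonoidHom.range_eq_top.2 hf1] at h4
      rw [← h4]
      congr 1
      exact Nat.card_congr Subgroup.topEquiv.toEquiv
    rw [h3]
    congr 1
    let e : f.ker ≃ actKer ha :=
      { toFun := fun g => ⟨((g : S) : GG p k), by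
          have h5 : f (g : S) = 1 := g.2
          have h6 : (QuotientGroup.mk' (actKer ha)) ((g : S) : GG p k) = 1 :=
            congrArg Subtype.val h5
          exact (QuotientGroup.eq_one_iff _).1 h6⟩
        invFun := fun g => ⟨⟨(g : GG p k), hNS g.2⟩, by
          rw [MonoidHom.mem_ker]
          apply Subtype.ext
          exact (QuotientGroup.eq_one_iff _).2 g.2⟩
        left_inv := fun g => rfl
        right_inv := fun g => rfl }
    exact Nat.card_congr e
  rw [h2]
  exact mul_dvd_mul_left _ h1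

/-- **The kernel of the action of a wreath product.** -/
theorem manW [CompactSpace M] [T2Space M] [ConnectedSpace M] {p k : ℕ} [Fact p.Prime]
    {P : Type} [Group P] [Finite P] {a : P → M → M}
    (ha : SmoothAction E a) (φ : GG p k →* P) (s : P) {ℓ : ℕ} (hs : s ^ ℓ = 1)
    (π : Equiv.Perm (Fin k)) (hπ : ∀ i, φ (gen p k i) * s = s * φ (gen p k (π i)))
    (K : Type) [Field K] [Algebra (ZMod p) K] (ξ : Fin k → K)
    (ζ : K) (hζ : orderOf ζ = ℓ) (hℓ : (ℓ : K) ≠ 0) (hξ : ∀ i, ξ i = ζ * ξ (π i))
    (hβ : ∀ q, 1 ≤ q → q ≤ finrank ℝ E → finrank (ZMod p) (SingularCohomology (ZMod p) M q) <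
        orderOf (p : ZMod (ℓ / Nat.gcd ℓ (wt p (q + 1)))) ∨ (¬ ℓ ∣ wt p (q + 1) ∧
          CohTriv (ZMod p) (⟨a s, (ha.smooth s).continuous⟩ : C(M, M)) q))
    (hm : (if p = 2 then finrank ℝ E else finrank ℝ E / 2) < orderOf (p : ZMod ℓ))
    (χ : Fin k → ZMod p)
    (hχ : ∀ g : GG p k, (∀ y, a (φ g) y = y) → ∑ i, χ i * g.toAdd i = 0) :
    ∑ i, algebraMap (ZMod p) K (χ i) * ξ i = 0 := by
  classical
  have hℓ0 : ℓ ≠ 0 := by rintro rfl; exact hℓ Nat.cast_zero
  have hζ1 : ζ ^ ℓ = 1 := by rw [← hζ]; exact pow_orderOf_eq_one ζ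
  have hfo : IsOfFinOrder ζ := by
    rw [← orderOf_pos_iff, hζ]
    exact Nat.pos_of_ne_zero hℓ0
  have how : ∀ w, orderOf (ζ ^ w) = ℓ / Nat.gcd ℓ w := by
    intro w
    rw [hfo.orderOf_pow, hζ]
  have hcop : p.Coprime ℓ := by
    rw [(Fact.out : p.Prime).coprime_iff_not_dvd]
    intro hdvd
    apply hℓ
    have : CharP K p := charP_of_injective_algebraMap (algebraMap (ZMod p) K).injective p
    exact (CharP.cast_eq_zero_iff K p ℓ).2 hdvd
  obtain ⟨x, hx⟩ := smoothW ha φ s hs π hπ K ξ ζ hζ1 hℓ hξ (fun q hq => by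
    by_cases hqm : q ≤ finrank ℝ E
    · rw [how]
      rcases hβ q hq hqm with h | ⟨h, h'⟩
      · exact Or.inl h
      · refine Or.inr ⟨fun h1 => h ?_, h'⟩
        rw [← hζ]
        exact orderOf_dvd_of_pow_eq_one h1
    · left
      have h1 : Subsingleton (SingularCohomology (ZMod p) M q) :=
        Pool.Agent.E8helper95.ZB.van Pool.Agent.E8helper41.ZB.box (ZMod p) E M q (by omega)
      rw [Module.finrank_zero_of_subsingleton]
      refine ord_pos hcop hℓ0 ?_
      rw [how]
      exact Nat.div_dvd_of_dvd (Nat.gcd_dvd_left _ _))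
  have hb := ha.comp φ
  let S : Subgroup (GG p k) :=
    { carrier := {g | a (φ g) x = x}
      one_mem' := hb.one x
      mul_mem' := fun {g h} hg hh => by
        show a (φ (g * h)) x = x
        rw [map_mul, ha.mul]
        rw [show a (φ h) x = x from hh]
        exact hg
      inv_mem' := fun {g} hg => by
        show a (φ g⁻¹) x = x
        have h1 : a (φ g) x = x := hg
        conv_lhs => rw [← h1]
        rw [← ha.mul, ← map_mul, inv_mul_cancel, map_one, ha.one] }
  have hNS : actKer hb ≤ S := fun g hg => hg x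
  have h1 := iso_dvd hb x S (fun g hg => hg) hNS
  obtain ⟨t, ht, ht'⟩ := cst_eq (p := p) (m := finrank ℝ E)
  rw [ht] at h1
  obtain ⟨WS, hWS, hcS⟩ := exists_ann' S
  obtain ⟨WN, hWN, hcN⟩ := exists_ann' (actKer hb)
  have hle : WS ≤ WN := fun χ hχ => (hWN χ).2 fun g hg => (hWS χ).1 hχ g (hNS hg)
  have hp1 : 1 < p := (Fact.out : p.Prime).one_lt
  have hdim : finrank (ZMod p) WN ≤ finrank (ZMod p) WS + t := by
    have h2 : Nat.card (actKer hb) * p ^ finrank (ZMod p) WN ∣
        Nat.card (actKer hb) * (p ^ t * p ^ finrank (ZMod p) WS) := by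
      rw [← hcN, hcS, ← mul_assoc]
      exact mul_dvd_mul_right h1 _
    have h3 : 0 < Nat.card (actKer hb) := Nat.card_pos
    have h4 := Nat.dvd_of_mul_dvd_mul_left h3 h2
    rw [← pow_add] at h4
    have h5 := (Nat.pow_dvd_pow_iff_le_right hp1).1 h4
    omega
  -- the map to K
  let X : (Fin k → ZMod p) →ₗ[ZMod p] K := ∑ i, (LinearMap.proj i : (Fin k → ZMod p) →ₗ[ZMod p]
    ZMod p).smulRight (ξ i)
  have hX : ∀ χ, X χ = ∑ i, algebraMap (ZMod p) K (χ i) * ξ i := by
    intro χ
    simp only [X, LinearMap.sum_apply, LinearMap.smulRight_apply, LinearMap.proj_apply,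
      Algebra.smul_def]
  have hXS : ∀ χ ∈ WS, X χ = 0 := by
    intro χ hχ
    rw [hX]
    exact hx χ fun g hg => (hWS χ).1 hχ g hg
  let I : Submodule (ZMod p) K := WN.map X
  have hIdim : finrank (ZMod p) I ≤ t := by
    let X' : WN →ₗ[ZMod p] K := X.domRestrict WN
    have h6 := LinearMap.finrank_range_add_finrank_ker X'
    have h7 : LinearMap.range X' = I := LinearMap.range_domRestrict _ _
    have h8 : finrank (ZMod p) WS ≤ finrank (ZMod p) (LinearMap.ker X') := by
      let f : WS →ₗ[ZMod p] LinearMap.ker X' :=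
        (Submodule.inclusion hle).codRestrict (LinearMap.ker X') (fun c => hXS c c.2)
      exact LinearMap.finrank_le_finrank_of_injective (f := f) (fun a b hab => by
        have h9 := congrArg (fun z : LinearMap.ker X' => ((z : WN) : Fin k → ZMod p)) hab
        exact Subtype.ext h9)
    rw [h7] at h6
    omega
  have hstab : ∀ y ∈ I, ζ * y ∈ I := by
    rintro _ ⟨χ, hχ, rfl⟩
    refine ⟨fun i => χ (π i), ?_, ?_⟩
    · rw [SetLike.mem_coe, hWN] at hχ ⊢
      intro g hg
      have h10 : φ (Multiplicative.ofAdd fun i => g.toAdd (π.symm i)) = s⁻¹ * φ g * s := by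
        have h11 : ∀ v : Fin k → ZMod p, φ (Multiplicative.ofAdd fun i => v (π.symm i)) =
            s⁻¹ * φ (Multiplicative.ofAdd v) * s := by
          intro v
          let A : GG p k →* P := φ.comp (AddMonoidHom.toMultiplicative
            (LinearMap.funLeft (ZMod p) (ZMod p) π.symm).toAddMonoidHom)
          let B : GG p k →* P := (MulAut.conj s⁻¹).toMonoidHom.comp φ
          have hAB : ∀ i, A (gen p k i) = B (gen p k i) := by
            intro i
            have h12 : A (gen p k i) = φ (gen p k (π i)) := by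
              show φ (Multiplicative.ofAdd (fun j => (Pi.single i 1 : Fin k → ZMod p)
                (π.symm j))) = φ (Multiplicative.ofAdd (Pi.single (π i) 1))
              congr 2
              funext j
              by_cases hj : j = π i
              · subst hj
                simp
              · rw [Pi.single_eq_of_ne hj, Pi.single_eq_of_ne]
                intro h13
                apply hj
                rw [← h13, Equiv.apply_symm_apply]
            have h14 : B (gen p k i) = s⁻¹ * φ (gen p k i) * s := by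
              show s⁻¹ * φ (gen p k i) * (s⁻¹)⁻¹ = _
              rw [inv_inv]
            rw [h12, h14, mul_assoc, hπ, inv_mul_cancel_left]
          have hgen : ∀ v : Fin k → ZMod p, A (Multiplicative.ofAdd v) =
              B (Multiplicative.ofAdd v) := by
            intro v
            have h15 : (Multiplicative.ofAdd v : GG p k) = ∏ i, gen p k i ^ (v i).val := by
              have h16 : v = ∑ i, (v i).val • (Pi.single i 1 : Fin k → ZMod p) := by
                funext j
                rw [Finset.sum_apply, Finset.sum_eq_single j]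
                · simp
                · intro i _ hij
                  simp [Pi.single_eq_of_ne (Ne.symm hij)]
                · intro h17
                  exact absurd (Finset.mem_univ _) h17
              conv_lhs => rw [h16]
              rw [ofAdd_sum]
              rfl
            have h24 : (∏ i, gen p k i ^ (v i).val) ∈ A.eqLocus B :=
              Subgroup.prod_mem _ fun i _ => Subgroup.pow_mem _ (hAB i) _
            rw [h15]
            exact h24
          have h18 := hgen v
          have h19 : B (Multiplicative.ofAdd v) = s⁻¹ * φ (Multiplicative.ofAdd v) * s := by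
            show s⁻¹ * φ (Multiplicative.ofAdd v) * (s⁻¹)⁻¹ = _
            rw [inv_inv]
          rw [← h19, ← h18]
          rfl
        exact h11 g.toAdd
      have h20 : (Multiplicative.ofAdd fun i => g.toAdd (π.symm i)) ∈ actKer hb := by
        intro y
        show a (φ (Multiplicative.ofAdd fun i => g.toAdd (π.symm i))) y = y
        rw [h10, mul_assoc, ha.mul, ha.mul]
        have h21 : a (φ g) (a s y) = a s y := hg _
        rw [h21, ← ha.mul, inv_mul_cancel, ha.one]
      have h22 := hχ _ h20
      rw [← h22, ← Equiv.sum_comp π.symm]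
      refine Finset.sum_congr rfl fun i _ => ?_
      rw [Equiv.apply_symm_apply]
      rfl
    · rw [hX, hX, Finset.mul_sum, ← Equiv.sum_comp π (fun i =>
        ζ * (algebraMap (ZMod p) K (χ i) * ξ i))]
      refine Finset.sum_congr rfl fun i _ => ?_
      rw [hξ i]
      ring
  have hbot := eq_bot_of_lt I hfo hstab (by
    rw [hζ]
    refine lt_of_le_of_lt hIdim ?_
    rw [ht']
    exact hm)
  have h23 : X χ ∈ I := ⟨χ, (hWN χ).2 fun g hg => hχ g hg, rfl⟩
  rw [hbot, Submodule.mem_bot, hX] at h23
  exact h23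

end manifold

end Pool.Agent.E8helper2.ZB
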