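import Pool.Agent.E8helper2.ZB.Core
import Pool.Agent.E8helper2.ZB.Stm2
import Pool.Agent.E8helper41.ZB.Ht
import Pool.Agent.E8helper86.ZB.Ex

/-!
# Isotropy groups of elementary abelian groups acting on finite posets
-/

set_option autoImplicit false

namespace Pool.Agent.E8helper2.ZB

open Module Pool.Agent.Helper381

section aug

/-- the augmented family -/
def XX (C : ℕ → Type) : ℕ → Type
  | 0 => PUnit
  | q + 1 => C q

instance instXF (C : ℕ → Type) [∀ q, Fintype (C q)] : ∀ q, Fintype (XX C q)
  | 0 => inferInstanceAs (Fintype PUnit)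
  | q + 1 => inferInstanceAs (Fintype (C q))

instance instXD (C : ℕ → Type) [∀ q, DecidableEq (C q)] : ∀ q, DecidableEq (XX C q)
  | 0 => inferInstanceAs (DecidableEq PUnit)
  | q + 1 => inferInstanceAs (DecidableEq (C q))

instance instXM {G : Type} [Monoid G] (C : ℕ → Type) [∀ q, MulAction G (C q)] :
    ∀ q, MulAction G (XX C q)
  | 0 => { smul := fun _ x => x, one_smul := fun _ => rfl, mul_smul := fun _ _ _ => rfl }
  | q + 1 => inferInstanceAs (MulAction G (C q))

variable {p k : ℕ} {C : ℕ → Type} [∀ q, Fintype (C q)] [∀ q, DecidableEq (C q)]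
  (face : ∀ n, Fin (n + 2) → C (n + 1) → C n)

/-- the augmented boundary matrices -/
def bdm (p : ℕ) (face : ∀ n, Fin (n + 2) → C (n + 1) → C n) :
    ∀ q, Matrix (XX C q) (XX C (q + 1)) (ZMod p)
  | 0 => fun _ _ => 1
  | q + 1 => fun (τ : C q) (σ : C (q + 1)) => ∑ i : Fin (q + 2),
      if face q i σ = τ then (-1 : ZMod p) ^ (i : ℕ) else 0

theorem bdm_altd (q : ℕ) : (Matrix.transpose (bdm p face (q + 1))).mulVecLin =
    altd (ZMod p) face q := by
  apply LinearMap.ext
  intro f
  funext (σ : C (q + 1))
  refine Eq.trans ?_ (altd_apply face q f σ).symm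
  show ∑ τ : C q, (∑ i : Fin (q + 2), if face q i σ = τ then (-1 : ZMod p) ^ (i : ℕ) else 0) *
    f τ = _
  simp only [Finset.sum_mul]
  rw [Finset.sum_comm]
  refine Finset.sum_congr rfl fun i _ => ?_
  simp only [ite_mul, zero_mul]
  rw [Finset.sum_ite_eq]
  simp

variable (hface : ∀ n (i j : Fin (n + 2)) (σ : C (n + 2)), i ≤ j →
      face n i (face (n + 1) j.succ σ) = face n j (face (n + 1) i.castSucc σ))

include hface

theorem bdm_bdm (q : ℕ) : bdm p face q * bdm p face (q + 1) = 0 := by
  cases q with
  | zero =>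
    funext (τ : PUnit) (σ : C 1)
    show ∑ x : C 0, (1 : ZMod p) * (∑ i : Fin 2, if face 0 i σ = x then (-1 : ZMod p) ^ (i : ℕ) else 0)
      = 0
    simp only [one_mul]
    rw [Finset.sum_comm]
    simp
  | succ q =>
    apply Matrix.transpose_injective
    rw [Matrix.transpose_mul, Matrix.transpose_zero]
    apply Matrix.toLin'.injective
    rw [map_zero, Matrix.toLin'_apply', Matrix.mulVecLin_mul, bdm_altd, bdm_altd]
    apply LinearMap.ext
    intro f
    exact altd_altd face hface q f

/-- **Isotropy groups for semisimplicial sets.** -/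
theorem semi [Fact p.Prime] [∀ q, MulAction (GG p k) (C q)]
    (hact : ∀ n i (g : GG p k) σ, face n i (g • σ) = g • face n i σ) (v : C 0) (N : ℕ)
    (hN : ∀ q, N ≤ q → IsEmpty (C q)) :
    ∃ q, ∃ σ : C q, ∀ W : Submodule (ZMod p) (Fin k → ZMod p),
      (∀ χ ∈ W, ∀ g : GG p k, g • σ = σ → ∑ i, χ i * g.toAdd i = 0) →
        finrank (ZMod p) W + 1 ≤ ∑ n ∈ Finset.range N, finrank (ZMod p)
          (Coh (ZMod p) (fun n => C n → ZMod p) (fun n => altd (ZMod p) face n) n) := by
  classical
  let β : ℕ → ℕ := fun n => finrank (ZMod p)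
          (Coh (ZMod p) (fun n => C n → ZMod p) (fun n => altd (ZMod p) face n) n)
  have hd : ∀ n x, altd (ZMod p) face (n + 1) (altd (ZMod p) face n x) = 0 :=
    fun n x => altd_altd face hface n x
  have hrk : ∀ q, (bdm p face (q + 1)).rank = finrank (ZMod p) (LinearMap.range
      (altd (ZMod p) face q)) := by
    intro q
    rw [← Matrix.rank_transpose, Matrix.rank, bdm_altd]
    rfl
  have hrk0 : (bdm p face 0).rank = 1 := by
    rw [← Matrix.rank_transpose, Matrix.rank, LinearMap.finrank_range_of_inj]
    · rw [Module.finrank_fintype_fun_eq_card]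
      rfl
    · intro f g h
      have h1 := congrFun h (v : XX C 1)
      funext (x : PUnit)
      have h2 : ∀ f : XX C 0 → ZMod p,
          (Matrix.transpose (bdm p face 0)).mulVecLin f (v : XX C 1) = f x := by
        intro f
        show ∑ y : PUnit, (1 : ZMod p) * f y = f x
        simp only [one_mul, Finset.univ_unique]
        exact Finset.sum_singleton f PUnit.unit
      rw [h2, h2] at h1
      exact h1
  have hcard : ∀ q, Fintype.card (XX C (q + 1)) = finrank (ZMod p) (C q → ZMod p) := by
    intro q
    rw [Module.finrank_fintype_fun_eq_card]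
    rfl
  have hcoh : ∀ q, β q + finrank (ZMod p) (LinearMap.range (altd (ZMod p) face q)) +
      rkb (C := fun n => C n → ZMod p) (fun n => altd (ZMod p) face n) q =
      finrank (ZMod p) (C q → ZMod p) := fun q =>
    finrank_coh (C := fun n => C n → ZMod p) (fun n => altd (ZMod p) face n) hd q
  have hβ0 : 1 ≤ β 0 := by
    obtain h | h := Nat.eq_zero_or_pos (β 0)
    · exfalso
      have h1 := hcoh 0
      rw [rkb_zero, h, zero_add, add_zero] at h1
      have h2 := LinearMap.finrank_range_add_finrank_ker (altd (ZMod p) face 0)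
      have h3 : finrank (ZMod p) (LinearMap.ker (altd (ZMod p) face 0)) = 0 := by omega
      rw [Submodule.finrank_eq_zero] at h3
      have h4 : (fun _ => 1 : C 0 → ZMod p) ∈ LinearMap.ker (altd (ZMod p) face 0) := by
        rw [LinearMap.mem_ker]
        funext σ
        rw [altd_apply]
        simp
      rw [h3, Submodule.mem_bot] at h4
      exact one_ne_zero (congrFun h4 v)
    · exact h
  have hN1 : 1 ≤ N := by
    by_contra hlt
    exact (hN 0 (by omega)).false v
  obtain ⟨q, σ, h⟩ := core (X := XX C) (k := k) Pool.Agent.E8helper86.ZB.ex Pool.Agent.E8helper41.ZB.ht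
    (bdm p face) (bdm_bdm face hface)
    (by
      intro q g τ σ
      cases q with
      | zero => rfl
      | succ q =>
        change C q at τ
        change C (q + 1) at σ
        show (∑ i : Fin (q + 2), if face q i (g • σ) = g • τ then (-1 : ZMod p) ^ (i : ℕ) else 0) =
          ∑ i : Fin (q + 2), if face q i σ = τ then (-1 : ZMod p) ^ (i : ℕ) else 0
        refine Finset.sum_congr rfl fun i _ => ?_
        rw [hact]
        simp only [smul_left_cancel_iff])
    PUnit.unit (fun _ _ => rfl) v rfl N hN (fun q => if q = 0 then β 0 - 1 else β q)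
    (by
      intro q
      cases q with
      | zero =>
        have h1 := hcoh 0
        rw [rkb_zero] at h1
        rw [hrk, hrk0, hcard, if_pos rfl]
        omega
      | succ q =>
        have h1 := hcoh (q + 1)
        rw [rkb_succ] at h1
        rw [hrk, hrk, hcard, if_neg (Nat.succ_ne_zero q)]
        exact h1)
  refine ⟨q, σ, fun W hW => ?_⟩
  have h1 := h W hW
  obtain ⟨N', rfl⟩ : ∃ N', N = N' + 1 := ⟨N - 1, by omega⟩
  rw [Finset.sum_range_succ'] at h1 ⊢
  simp only [if_true, Nat.succ_ne_zero, if_false] at h1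
  have h2 : ∑ n ∈ Finset.range N', β (n + 1) + β 0 = ∑ n ∈ Finset.range N', finrank (ZMod p)
          (Coh (ZMod p) (fun n => C n → ZMod p) (fun n => altd (ZMod p) face n) (n + 1)) +
      finrank (ZMod p)
          (Coh (ZMod p) (fun n => C n → ZMod p) (fun n => altd (ZMod p) face n) 0) := rfl
  rw [← h2]
  omega

end aug

end Pool.Agent.E8helper2.ZB
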