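import Pool.Agent.E8helper2.ZB.Pos2

/-!
# Isotropy groups of abelian groups of exponent four acting on finite posets
-/

set_option autoImplicit false

namespace Pool.Agent.E8helper2.ZB

open Module Pool.Agent.Helper381

/-- semisimplicial sets, general elementary abelian groups -/
theorem semiG {p : ℕ} [Fact p.Prime] {C : ℕ → Type} [∀ q, Finite (C q)]
    (face : ∀ n, Fin (n + 2) → C (n + 1) → C n)
    (hface : ∀ n (i j : Fin (n + 2)) (σ : C (n + 2)), i ≤ j →
      face n i (face (n + 1) j.succ σ) = face n j (face (n + 1) i.castSucc σ))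
    {G : Type} [CommGroup G] [Finite G] (hG : ∀ g : G, g ^ p = 1) [∀ q, MulAction G (C q)]
    (hact : ∀ n i (g : G) σ, face n i (g • σ) = g • face n i σ) (v : C 0) (N : ℕ)
    (hN : ∀ q, N ≤ q → IsEmpty (C q)) :
    ∃ q, ∃ σ : C q, Nat.card G ∣ Nat.card (MulAction.stabilizer G σ) *
      p ^ (∑ n ∈ Finset.range N, finrank (ZMod p)
          (Coh (ZMod p) (fun n => C n → ZMod p) (fun n => altd (ZMod p) face n) n) - 1) := by
  classical
  obtain ⟨k, ⟨e⟩⟩ := exists_equiv (p := p) G hG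
  let : ∀ n, Fintype (C n) := fun n => Fintype.ofFinite _
  let act : ∀ n, MulAction (GG p k) (C n) := fun n => MulAction.compHom (C n) e.toMonoidHom
  obtain ⟨q, σ, h⟩ := semi (p := p) (k := k) face hface (fun n i g c => hact n i (e g) c) v N hN
  obtain ⟨W, hW, hcard⟩ := exists_ann (MulAction.stabilizer (GG p k) σ)
  have h1 := h W (fun χ hχ g hg => hW χ hχ g hg)
  refine ⟨q, σ, ?_⟩
  have h2 : Nat.card (MulAction.stabilizer (GG p k) σ) ∣
      Nat.card (MulAction.stabilizer G σ) := by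
    let θ : MulAction.stabilizer (GG p k) σ →* MulAction.stabilizer G σ :=
      { toFun := fun g => ⟨e g, g.2⟩
        map_one' := Subtype.ext (map_one e)
        map_mul' := fun a b => Subtype.ext (map_mul e _ _) }
    refine Subgroup.card_dvd_of_injective θ (fun a b hab => ?_)
    exact Subtype.ext (e.injective (congrArg Subtype.val hab))
  rw [← Nat.card_congr e.toEquiv, hcard]
  exact mul_dvd_mul h2 (pow_dvd_pow p (by omega))

/-- if a normal subgroup acts trivially, the stabilizer comes from the quotient -/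
theorem card_stab_quot {N X : Type} [CommGroup N] [Finite N] [MulAction N X] (A : Subgroup N)
    (x : X)
    (act : MulAction (N ⧸ A) X) (hact : ∀ (g : N) (x : X), (g : N ⧸ A) • x = g • x) :
    Nat.card (MulAction.stabilizer N x) = Nat.card (MulAction.stabilizer (N ⧸ A) x) * Nat.card A := by
  have h1 : MulAction.stabilizer N x =
      (MulAction.stabilizer (N ⧸ A) x).comap (QuotientGroup.mk' A) := by
    ext g
    rw [Subgroup.mem_comap, MulAction.mem_stabilizer_iff, MulAction.mem_stabilizer_iff]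
    rw [← hact g x]
    rfl
  rw [h1]
  have h2 := Subgroup.card_mul_index (MulAction.stabilizer (N ⧸ A) x)
  have h3 := Subgroup.card_mul_index ((MulAction.stabilizer (N ⧸ A) x).comap (QuotientGroup.mk' A))
  rw [Subgroup.index_comap_of_surjective _ (QuotientGroup.mk'_surjective A)] at h3
  have h4 := Subgroup.card_eq_card_quotient_mul_card_subgroup A
  rw [h4, ← h2] at h3
  have h5 : (MulAction.stabilizer (N ⧸ A) x).index ≠ 0 := Subgroup.index_ne_zero_of_finite
  apply Nat.eq_of_mul_eq_mul_right (Nat.pos_of_ne_zero h5)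
  rw [h3]
  ring

theorem pos4 (G : Type) [CommGroup G] [Finite G] (hG : ∀ g : G, g ^ 4 = 1) (P : Type)
    [PartialOrder P] [MulAction G P] (Q : Set P) (hQ : Q.Finite) (hne : Q.Nonempty)
    (hmono : ∀ g : G, StrictMono (fun x : P => g • x)) (hmem : ∀ (g : G), ∀ x ∈ Q, g • x ∈ Q) :
    ∃ x ∈ Q, Nat.card G ∣ Nat.card (MulAction.stabilizer G x) *
      4 ^ (∑ n ∈ Finset.range Q.ncard, finrank (ZMod 2) (OrdCoh (ZMod 2) Q n) - 1) := by
  classical
  have : Fact (Nat.Prime 2) := ⟨Nat.prime_two⟩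
  set B := ∑ n ∈ Finset.range Q.ncard, finrank (ZMod 2) (OrdCoh (ZMod 2) Q n) with hB
  let f : G →* G := powMonoidHom 2
  let Ω : Subgroup G := f.ker
  have hΩ : ∀ g : G, g ∈ Ω ↔ g ^ 2 = 1 := fun g => Iff.rfl
  obtain ⟨x, hx, h1⟩ := pos 2 Ω (fun g => Subtype.ext ((hΩ g).1 g.2)) P Q hQ hne
    (fun g => hmono (g : G)) (fun g => hmem (g : G))
  let A : Subgroup G := (MulAction.stabilizer Ω x).map Ω.subtype
  have hA : ∀ g : G, g ∈ A ↔ g ^ 2 = 1 ∧ g • x = x := by
    intro g
    constructor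
    · rintro ⟨a, ha, rfl⟩
      exact ⟨(hΩ a).1 a.2, ha⟩
    · rintro ⟨h2, h3⟩
      exact ⟨⟨g, (hΩ g).2 h2⟩, h3, rfl⟩
  have hcA : Nat.card A = Nat.card (MulAction.stabilizer Ω x) :=
    (Nat.card_congr ((MulAction.stabilizer Ω x).equivMapOfInjective Ω.subtype
      Ω.subtype_injective).toEquiv).symm
  -- the fixed poset
  have := Fintype.ofFinite A
  let gs : List (P → P) := (Finset.univ : Finset A).toList.map (fun (a : A) (y : P) => (a : G) • y)
  have hgs : ∀ g ∈ gs, ∃ a ∈ A, g = fun y => a • y := by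
    intro g hg
    obtain ⟨a, _, rfl⟩ := List.mem_map.1 hg
    exact ⟨a, a.2, rfl⟩
  have hgs' : ∀ a ∈ A, (fun y : P => a • y) ∈ gs := by
    intro a ha
    exact List.mem_map.2 ⟨⟨a, ha⟩, by simp, rfl⟩
  have hgood : GoodList Q gs := by
    refine ⟨?_, ?_, ?_, ?_⟩
    · intro g hg
      obtain ⟨a, _, rfl⟩ := hgs g hg
      exact hmono a
    · intro g hg y
      obtain ⟨a, ha, rfl⟩ := hgs g hg
      show a • a • y = y
      rw [← mul_smul, ← pow_two, ((hA a).1 ha).1, one_smul]
    · intro g hg y hy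
      obtain ⟨a, _, rfl⟩ := hgs g hg
      exact hmem a y hy
    · intro g hg g' hg' y
      obtain ⟨a, _, rfl⟩ := hgs g hg
      obtain ⟨a', _, rfl⟩ := hgs g' hg'
      show a • a' • y = a' • a • y
      rw [← mul_smul, ← mul_smul, mul_comm]
  have hfix : ∀ y, y ∈ fixS Q gs ↔ y ∈ Q ∧ ∀ a ∈ A, a • y = y := by
    intro y
    constructor
    · rintro ⟨h2, h3⟩
      exact ⟨h2, fun a ha => h3 _ (hgs' a ha)⟩
    · rintro ⟨h2, h3⟩
      refine ⟨h2, fun g hg => ?_⟩
      obtain ⟨a, ha, rfl⟩ := hgs g hg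
      exact h3 a ha
  have hβ := smith_list hQ gs hgood Q.ncard le_rfl
  have hxf : x ∈ fixS Q gs := (hfix x).2 ⟨hx, fun a ha => ((hA a).1 ha).2⟩
  have hQ' : (fixS Q gs).Finite := hQ.subset (fixS_subset _ _)
  have hfin : ∀ n, Finite (Ch (fixS Q gs) n) := finite_Ch hQ'
  have hmem' : ∀ (g : G), ∀ y ∈ fixS Q gs, g • y ∈ fixS Q gs := by
    intro g y hy
    rw [hfix] at hy ⊢
    refine ⟨hmem g y hy.1, fun a ha => ?_⟩
    rw [← mul_smul, mul_comm, mul_smul, hy.2 a ha]
  -- the groups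
  let N : Subgroup G := A.comap f
  have hN : ∀ g : G, g ∈ N ↔ g ^ 2 ∈ A := fun g => Iff.rfl
  let A' : Subgroup N := A.subgroupOf N
  have hAN : A ≤ N := by
    intro a ha
    rw [hN, ((hA a).1 ha).1]
    exact A.one_mem
  let actN : ∀ n, MulAction N (Ch (fixS Q gs) n) := fun n =>
    { smul := fun g c => ⟨fun i => (g : G) • c.1 i, (hmono (g : G)).comp c.2.1,
        fun i => hmem' _ _ (c.2.2 i)⟩
      one_smul := fun c => Subtype.ext (funext fun i => one_smul G _)
      mul_smul := fun g h c => Subtype.ext (funext fun i => mul_smul (g : G) (h : G) _) }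
  have htriv : ∀ n, ∀ a ∈ A', ∀ c : Ch (fixS Q gs) n, a • c = c := by
    intro n a ha c
    apply Subtype.ext
    funext i
    exact ((hfix _).1 (c.2.2 i)).2 a ha
  let ψ : ∀ n, N ⧸ A' →* Equiv.Perm (Ch (fixS Q gs) n) := fun n =>
    QuotientGroup.lift A' (MulAction.toPermHom N (Ch (fixS Q gs) n)) (fun a ha => by
      ext c : 1
      exact htriv n a ha c)
  let actQ : ∀ n, MulAction (N ⧸ A') (Ch (fixS Q gs) n) := fun n =>
    MulAction.compHom _ (ψ n)
  have hactQ : ∀ n (g : N) (c : Ch (fixS Q gs) n), (g : N ⧸ A') • c = g • c := fun n g c => rfl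
  have hsm : StrictMono (fun _ : Fin 1 => x) := Subsingleton.strictMono _
  obtain ⟨q, σ, h2⟩ := semiG (p := 2) (C := Ch (fixS Q gs)) (cface (Q := fixS Q gs))
    (fun n i j c hij => cface_cface n i j c hij) (G := N ⧸ A') (by
      intro g
      obtain ⟨g, rfl⟩ := QuotientGroup.mk_surjective g
      rw [← QuotientGroup.mk_pow, QuotientGroup.eq_one_iff]
      show ((g ^ 2 : N) : G) ∈ A
      exact g.2) (by
      intro n i g c
      obtain ⟨g, rfl⟩ := QuotientGroup.mk_surjective g
      rfl) ⟨fun _ => x, hsm, fun _ => hxf⟩ Q.ncard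
    (fun q hq => isEmpty_Ch hQ' q ((Set.ncard_le_ncard (fixS_subset _ _) hQ).trans hq))
  have h2' : Nat.card (N ⧸ A') ∣ Nat.card (MulAction.stabilizer (N ⧸ A') σ) * 2 ^ (B - 1) :=
    h2.trans (mul_dvd_mul_left _ (pow_dvd_pow 2 (Nat.sub_le_sub_right hβ 1)))
  refine ⟨σ.1 0, ((hfix _).1 (σ.2.2 0)).1, ?_⟩
  have h3 : Nat.card N ∣ Nat.card (MulAction.stabilizer N σ) * 2 ^ (B - 1) := by
    rw [card_stab_quot A' σ (actQ q) (hactQ q),
      Subgroup.card_eq_card_quotient_mul_card_subgroup A']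
    obtain ⟨t, ht⟩ := h2'
    exact ⟨t, by rw [mul_right_comm, ht]; ring⟩
  have h4 : Nat.card (MulAction.stabilizer N σ) ∣
      Nat.card (MulAction.stabilizer G (σ.1 0)) := by
    let θ : MulAction.stabilizer N σ →* MulAction.stabilizer G (σ.1 0) :=
      { toFun := fun g => ⟨(g : N), congrArg (fun c : Ch (fixS Q gs) q => c.1 0) g.2⟩
        map_one' := rfl
        map_mul' := fun a b => rfl }
    refine Subgroup.card_dvd_of_injective θ (fun a b hab => ?_)
    have := congrArg Subtype.val hab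
    exact Subtype.ext (Subtype.ext this)
  -- the index of N
  have h5 : N.index ∣ 2 ^ (B - 1) := by
    have e1 : N.index = A.relIndex f.range := Subgroup.index_comap A f
    have hr : f.range ≤ Ω := by
      rintro _ ⟨g, rfl⟩
      rw [hΩ]
      show (g ^ 2) ^ 2 = 1
      rw [← pow_mul]
      exact hG g
    have hAΩ : A ≤ Ω := fun a ha => (hΩ a).2 ((hA a).1 ha).1
    have e2 : A.relIndex f.range ∣ A.relIndex Ω := by
      have := Subgroup.relIndex_dvd_index_of_normal (A.subgroupOf Ω) (f.range.subgroupOf Ω)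
      rwa [Subgroup.relIndex_subgroupOf hr] at this
    have e3 : A.relIndex Ω ∣ 2 ^ (B - 1) := by
      have e4 := Subgroup.card_mul_index (A.subgroupOf Ω)
      have e5 : Nat.card (A.subgroupOf Ω) = Nat.card A :=
        Nat.card_congr (Subgroup.subgroupOfEquivOfLe hAΩ).toEquiv
      rw [← e4, e5, hcA] at h1
      exact Nat.dvd_of_mul_dvd_mul_left Nat.card_pos h1
    rw [e1]
    exact e2.trans e3
  have h6 := Subgroup.card_mul_index N
  rw [← h6, show (4 : ℕ) = 2 * 2 from rfl, mul_pow, ← mul_assoc]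
  exact mul_dvd_mul (h3.trans (mul_dvd_mul_right h4 _)) h5

end Pool.Agent.E8helper2.ZB
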