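import Pool.Agent.E8helper2.ZB.Wt
import Pool.Agent.E8helper2.ZB.Eig
import Pool.Agent.E8helper2.ZB.HomPos

/-!
# Weights: semisimplicial sets and posets
-/

set_option autoImplicit false

namespace Pool.Agent.E8helper2.ZB

open Module Pool.Agent.Helper381

theorem ord_pos {p ℓ : ℕ} (hp : p.Coprime ℓ) (hℓ : ℓ ≠ 0) {d : ℕ} (hd : d ∣ ℓ) :
    0 < orderOf (p : ZMod d) := by
  have hd0 : d ≠ 0 := by
    rintro rfl
    exact hℓ (Nat.eq_zero_of_zero_dvd hd)
  have : NeZero d := ⟨hd0⟩
  have h1 : p.Coprime d := hp.coprime_dvd_right hd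
  have h2 : ((ZMod.unitOfCoprime p h1 : (ZMod d)ˣ) : ZMod d) = (p : ZMod d) :=
    ZMod.coe_unitOfCoprime p h1
  rw [← h2, orderOf_units]
  exact orderOf_pos _

section aug

variable {p k : ℕ} {C : ℕ → Type} [∀ q, Fintype (C q)] [∀ q, DecidableEq (C q)]
  (face : ∀ n, Fin (n + 2) → C (n + 1) → C n)

/-- extension of a sequence of maps by the identity -/
def sX (s : ∀ q, C q ≃ C q) : ∀ q, XX C q ≃ XX C q
  | 0 => Equiv.refl _
  | q + 1 => s q

variable (hface : ∀ n (i j : Fin (n + 2)) (σ : C (n + 2)), i ≤ j →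
      face n i (face (n + 1) j.succ σ) = face n j (face (n + 1) i.castSucc σ))

include hface

/-- **Weights for semisimplicial sets.** -/
theorem semiW [Fact p.Prime] [∀ q, MulAction (GG p k) (C q)]
    (hact : ∀ n i (g : GG p k) σ, face n i (g • σ) = g • face n i σ) (v : C 0) (N : ℕ)
    (hN : ∀ q, N ≤ q → IsEmpty (C q)) (s : ∀ q, C q ≃ C q)
    (hsf : ∀ n i σ, face n i (s (n + 1) σ) = s n (face n i σ)) {ℓ : ℕ}
    (hs : ∀ q x, (s q)^[ℓ] x = x)
    (π : Equiv.Perm (Fin k)) (hπ : ∀ q i x, gen p k i • s q x = s q (gen p k (π i) • x))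
    (K : Type) [Field K] [Algebra (ZMod p) K] (ξ : Fin k → K)
    (ζ : K) (hζ : ζ ^ ℓ = 1) (hℓ : (ℓ : K) ≠ 0) (hξ : ∀ i, ξ i = ζ * ξ (π i))
    (hβ0 : finrank (ZMod p)
      (Coh (ZMod p) (fun n => C n → ZMod p) (fun n => altd (ZMod p) face n) 0) ≤ 1)
    (hβ : ∀ q, 1 ≤ q → finrank (ZMod p)
      (Coh (ZMod p) (fun n => C n → ZMod p) (fun n => altd (ZMod p) face n) q) <
        orderOf (p : ZMod (orderOf (ζ ^ wt p (q + 1)))) ∨ (ζ ^ wt p (q + 1) ≠ 1 ∧
      ∀ b ∈ LinearMap.ker (altd (ZMod p) face q), (fun σ => b (s q σ)) - b ∈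
        cobound (ZMod p) (fun n => C n → ZMod p) (fun n => altd (ZMod p) face n) q)) :
    ∃ q, ∃ σ : C q, ∀ χ : Fin k → ZMod p,
      (∀ g : GG p k, g • σ = σ → ∑ i, χ i * g.toAdd i = 0) →
        ∑ i, algebraMap (ZMod p) K (χ i) * ξ i = 0 := by
  classical
  let β : ℕ → ℕ := fun n => finrank (ZMod p)
          (Coh (ZMod p) (fun n => C n → ZMod p) (fun n => altd (ZMod p) face n) n)
  have hd : ∀ n x, altd (ZMod p) face (n + 1) (altd (ZMod p) face n x) = 0 :=
    fun n x => altd_altd face hface n x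
  have hrk : ∀ q, (bdm p face (q + 1)).rank = finrank (ZMod p) (LinearMap.range
      (altd (ZMod p) face q)) := by
    intro q
    rw [← Matrix.rank_transpose, Matrix.rank, bdm_altd]
    rfl
  have hrk0 : (bdm p face 0).rank = 1 := by
    rw [← Matrix.rank_transpose, Matrix.rank, LinearMap.finrank_range_of_inj]
    · rw [Module.finrank_fintype_fun_eq_card]
      rfl
    · intro f g h
      have h1 := congrFun h (v : XX C 1)
      funext (x : PUnit)
      have h2 : ∀ f : XX C 0 → ZMod p,
          (Matrix.transpose (bdm p face 0)).mulVecLin f (v : XX C 1) = f x := by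
        intro f
        show ∑ y : PUnit, (1 : ZMod p) * f y = f x
        simp only [one_mul, Finset.univ_unique]
        exact Finset.sum_singleton f PUnit.unit
      rw [h2, h2] at h1
      exact h1
  have hcard : ∀ q, Fintype.card (XX C (q + 1)) = finrank (ZMod p) (C q → ZMod p) := by
    intro q
    rw [Module.finrank_fintype_fun_eq_card]
    rfl
  have hcoh : ∀ q, β q + finrank (ZMod p) (LinearMap.range (altd (ZMod p) face q)) +
      rkb (C := fun n => C n → ZMod p) (fun n => altd (ZMod p) face n) q =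
      finrank (ZMod p) (C q → ZMod p) := fun q =>
    finrank_coh (C := fun n => C n → ZMod p) (fun n => altd (ZMod p) face n) hd q
  have hβ1 : β 0 ≤ 1 := hβ0
  have hβ2 : 1 ≤ β 0 := by
    obtain h | h := Nat.eq_zero_or_pos (β 0)
    · exfalso
      have h1 := hcoh 0
      rw [rkb_zero, h, zero_add, add_zero] at h1
      have h2 := LinearMap.finrank_range_add_finrank_ker (altd (ZMod p) face 0)
      have h3 : finrank (ZMod p) (LinearMap.ker (altd (ZMod p) face 0)) = 0 := by omega
      rw [Submodule.finrank_eq_zero] at h3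
      have h4 : (fun _ => 1 : C 0 → ZMod p) ∈ LinearMap.ker (altd (ZMod p) face 0) := by
        rw [LinearMap.mem_ker]
        funext σ
        rw [altd_apply]
        simp
      rw [h3, Submodule.mem_bot] at h4
      exact one_ne_zero (congrFun h4 v)
    · exact h
  have hℓ0 : ℓ ≠ 0 := by rintro rfl; exact hℓ Nat.cast_zero
  have hζw : ∀ w, (ζ ^ w) ^ ℓ = 1 := by
    intro w
    rw [← pow_mul, mul_comm, pow_mul, hζ, one_pow]
  have hfo : ∀ w, IsOfFinOrder (ζ ^ w) := fun w =>
    isOfFinOrder_iff_pow_eq_one.2 ⟨ℓ, Nat.pos_of_ne_zero hℓ0, hζw w⟩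
  have hcop : p.Coprime ℓ := by
    rw [(Fact.out : p.Prime).coprime_iff_not_dvd]
    intro hdvd
    apply hℓ
    have : CharP K p := charP_of_injective_algebraMap (algebraMap (ZMod p) K).injective p
    exact (CharP.cast_eq_zero_iff K p ℓ).2 hdvd
  have hbd : ∀ q, bdm p face q * bdm p face (q + 1) = 0 := bdm_bdm face hface
  have hsbd : ∀ q τ σ, bdm p face q (sX s q τ) (sX s (q + 1) σ) = bdm p face q τ σ := by
    intro q τ σ
    cases q with
    | zero => rfl
    | succ q =>
      change C q at τ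
      change C (q + 1) at σ
      show (∑ i : Fin (q + 2), if face q i (s (q + 1) σ) = s q τ then (-1 : ZMod p) ^ (i : ℕ)
        else 0) = ∑ i : Fin (q + 2), if face q i σ = τ then (-1 : ZMod p) ^ (i : ℕ) else 0
      refine Finset.sum_congr rfl fun i _ => ?_
      rw [hsf]
      simp only [EmbeddingLike.apply_eq_iff_eq]
  obtain ⟨q, σ, h⟩ := coreW (X := XX C) (k := k) Pool.Agent.E8helper86.ZB.ex K ξ
    (bdm p face) hbd
    (by
      intro q g τ σ
      cases q with
      | zero => rfl
      | succ q =>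
        change C q at τ
        change C (q + 1) at σ
        show (∑ i : Fin (q + 2), if face q i (g • σ) = g • τ then (-1 : ZMod p) ^ (i : ℕ) else 0) =
          ∑ i : Fin (q + 2), if face q i σ = τ then (-1 : ZMod p) ^ (i : ℕ) else 0
        refine Finset.sum_congr rfl fun i _ => ?_
        rw [hact]
        simp only [smul_left_cancel_iff])
    PUnit.unit (fun _ _ => rfl) v (fun _ => rfl) N hN (sX s) (ℓ := ℓ)
    (by
      intro q x
      cases q with
      | zero => rfl
      | succ q => exact hs q x)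
    hsbd π
    (by
      intro q i x
      cases q with
      | zero => rfl
      | succ q => exact hπ q i x)
    ζ hζ hℓ hξ
    (by
      intro q y hy hsy
      have hrank : (if q = 0 then β 0 - 1 else β q) + (bdm p face (q + 1)).rank +
          (bdm p face q).rank = Fintype.card (XX C (q + 1)) := by
        cases q with
        | zero =>
          have h1 := hcoh 0
          rw [rkb_zero] at h1
          rw [hrk, hrk0, hcard, if_pos rfl]
          omega
        | succ q =>
          have h1 := hcoh (q + 1)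
          rw [rkb_succ] at h1
          rw [hrk, hrk, hcard, if_neg (Nat.succ_ne_zero q)]
          exact h1
      have hor : (if q = 0 then β 0 - 1 else β q) <
          orderOf (p : ZMod (orderOf (ζ ^ wt p (q + 1)))) ∨ (1 ≤ q ∧ ζ ^ wt p (q + 1) ≠ 1 ∧
            ∀ b ∈ LinearMap.ker (altd (ZMod p) face q), (fun σ => b (s q σ)) - b ∈
              cobound (ZMod p) (fun n => C n → ZMod p) (fun n => altd (ZMod p) face n) q) := by
        cases q with
        | zero =>
          left
          rw [if_pos rfl]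
          have h1 : 0 < orderOf (p : ZMod (orderOf (ζ ^ wt p (0 + 1)))) :=
            ord_pos hcop hℓ0 (orderOf_dvd_of_pow_eq_one (hζw _))
          omega
        | succ q =>
          rcases hβ (q + 1) (by omega) with h | h
          · left
            rw [if_neg (Nat.succ_ne_zero q)]
            exact h
          · exact Or.inr ⟨by omega, h⟩
      rcases hor with hlt | ⟨hq1, hne, htr⟩
      · exact bdry_of_eig (bdm p face (q + 1)) (bdm p face q) (hbd q)
          (if q = 0 then β 0 - 1 else β q) hrank (sX s (q + 1)) (sX s (q + 2))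
          (fun x z => hsbd (q + 1) x z) (hfo _) hlt y hy hsy
      · refine bdry_of_triv (bdm p face (q + 1)) (bdm p face q) (hbd q)
          (if q = 0 then β 0 - 1 else β q) hrank (sX s (q + 1)) (sX s (q + 2))
          (fun x z => hsbd (q + 1) x z) hne (fun r hr => ?_) y hy hsy
        obtain ⟨q, rfl⟩ : ∃ q', q = q' + 1 := ⟨q - 1, by omega⟩
        have hvm : ∀ (m : ℕ) (f : XX C (m + 1) → ZMod p),
            Matrix.vecMul f (bdm p face (m + 1)) = altd (ZMod p) face m f := fun m f =>
          (Matrix.mulVec_transpose _ _).symm.trans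
            (LinearMap.congr_fun (bdm_altd (p := p) face m) f)
        obtain ⟨c, hc⟩ := htr r (LinearMap.mem_ker.2 ((hvm (q + 1) r).symm.trans hr))
        exact ⟨c, hc.symm.trans (hvm q c).symm⟩)
  exact ⟨q, σ, h⟩

end aug

/-- **Weights for posets.** -/
theorem posW {p k : ℕ} [Fact p.Prime] (G : Type) [Group G] (P : Type) [PartialOrder P]
    [MulAction G P] (Q : Set P)
    (hQ : Q.Finite) (hne : Q.Nonempty) (hmono : ∀ g : G, StrictMono (fun x : P => g • x))
    (hmem : ∀ (g : G), ∀ x ∈ Q, g • x ∈ Q) (φ : GG p k →* G) (s : G) {ℓ : ℕ} (hs : s ^ ℓ = 1)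
    (π : Equiv.Perm (Fin k)) (hπ : ∀ i, φ (gen p k i) * s = s * φ (gen p k (π i)))
    (K : Type) [Field K] [Algebra (ZMod p) K] (ξ : Fin k → K)
    (ζ : K) (hζ : ζ ^ ℓ = 1) (hℓ : (ℓ : K) ≠ 0) (hξ : ∀ i, ξ i = ζ * ξ (π i))
    (hβ0 : finrank (ZMod p) (OrdCoh (ZMod p) Q 0) ≤ 1)
    (hβ : ∀ q, 1 ≤ q → finrank (ZMod p) (OrdCoh (ZMod p) Q q) <
        orderOf (p : ZMod (orderOf (ζ ^ wt p (q + 1)))) ∨ (ζ ^ wt p (q + 1) ≠ 1 ∧
      ∀ b ∈ LinearMap.ker (altd (ZMod p) (cface (Q := Q)) q),
        (fun c => b (chact hmono hmem s q c)) - b ∈ cobound (ZMod p) (fun n => Ch Q n → ZMod p)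
          (fun n => altd (ZMod p) (cface (Q := Q)) n) q)) :
    ∃ x ∈ Q, ∀ χ : Fin k → ZMod p,
      (∀ g : GG p k, φ g • x = x → ∑ i, χ i * g.toAdd i = 0) →
        ∑ i, algebraMap (ZMod p) K (χ i) * ξ i = 0 := by
  classical
  have hfin : ∀ n, Finite (Ch Q n) := finite_Ch hQ
  let : ∀ n, Fintype (Ch Q n) := fun n => Fintype.ofFinite _
  let actG : ∀ n, MulAction G (Ch Q n) := fun n =>
    { smul := fun g c => chact hmono hmem g n c
      one_smul := fun c => Subtype.ext (funext fun i => by
        show (1 : G) • c.1 i = c.1 i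
        rw [one_smul])
      mul_smul := fun g h c => Subtype.ext (funext fun i => by
        show (g * h) • c.1 i = g • h • c.1 i
        rw [mul_smul]) }
  let act : ∀ n, MulAction (GG p k) (Ch Q n) := fun n => MulAction.compHom (Ch Q n) φ
  have hact : ∀ n (g : GG p k) (c : Ch Q n), g • c = φ g • c := fun _ _ _ => rfl
  obtain ⟨x, hx⟩ := hne
  have hsm : StrictMono (fun _ : Fin 1 => x) := Subsingleton.strictMono _
  let v : Ch Q 0 := ⟨fun _ => x, hsm, fun _ => hx⟩
  have hit : ∀ (n m : ℕ) (c : Ch Q n), (MulAction.toPerm s)^[m] c = s ^ m • c := by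
    intro n m
    induction m with
    | zero => intro c; rw [pow_zero, one_smul]; rfl
    | succ m ih =>
      intro c
      rw [Function.iterate_succ_apply', ih, pow_succ', mul_smul]
      rfl
  obtain ⟨q, σ, h⟩ := semiW (p := p) (k := k) (C := Ch Q) (cface (Q := Q))
    (fun n i j c hij => cface_cface n i j c hij) (fun n i g c => rfl) v Q.ncard
    (fun q hq => isEmpty_Ch hQ q hq) (fun n => MulAction.toPerm s) (fun n i c => rfl) (ℓ := ℓ)
    (fun n c => by
      have := hit n ℓ c
      rwa [hs, one_smul] at this) π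
    (fun n i c => by
      rw [hact, MulAction.toPerm_apply, MulAction.toPerm_apply, hact, smul_smul, smul_smul, hπ])
    K ξ ζ hζ hℓ hξ hβ0 hβ
  refine ⟨σ.1 0, σ.2.2 0, fun χ hχ => h χ fun g hg => hχ g ?_⟩
  exact congrArg (fun c : Ch Q q => c.1 0) hg

end Pool.Agent.E8helper2.ZB
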