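import Pool.Agent.E8helper2.ZB.Stm

/-!
# A decomposition of the identity for `U → V → W`
-/

set_option autoImplicit false

namespace Pool.Agent.E8helper2.ZB

open Module

section

variable {F : Type*} [Field F] {U V W : Type*} [AddCommGroup U] [Module F U] [AddCommGroup V]
  [Module F V] [AddCommGroup W] [Module F W] [FiniteDimensional F U] [FiniteDimensional F V]
  [FiniteDimensional F W]

theorem exists_ginv (f : U →ₗ[F] V) : ∃ s : V →ₗ[F] U, ∀ x, f (s (f x)) = f x := by
  obtain ⟨r, hr⟩ := f.rangeRestrict.exists_rightInverse_of_surjective (LinearMap.range_rangeRestrict f)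
  obtain ⟨pr, hpr⟩ := (LinearMap.range f).subtype.exists_leftInverse_of_injective
    (Submodule.ker_subtype _)
  refine ⟨r ∘ₗ pr, fun x => ?_⟩
  have h1 : pr (f x) = f.rangeRestrict x := by
    have := LinearMap.congr_fun hpr (f.rangeRestrict x)
    simpa using this
  rw [LinearMap.comp_apply, h1]
  have h2 := LinearMap.congr_fun hr (f.rangeRestrict x)
  have h3 := congrArg Subtype.val h2
  simpa using h3

theorem split (f : U →ₗ[F] V) (g : V →ₗ[F] W) (hgf : ∀ x, g (f x) = 0) (b : ℕ)
    (hb : b + finrank F (LinearMap.range f) + finrank F (LinearMap.range g) = finrank F V) :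
    ∃ (s : V →ₗ[F] U) (t : W →ₗ[F] V) (u : (Fin b → F) →ₗ[F] V) (φ : V →ₗ[F] (Fin b → F)),
      ∀ v, v = f (s v) + t (g v) + u (φ v) := by
  obtain ⟨s0, hs0⟩ := exists_ginv f
  obtain ⟨t, ht⟩ := exists_ginv g
  -- the projection onto the kernel of g and then the complement of the range of f
  let κ : V →ₗ[F] V := LinearMap.id - t ∘ₗ g
  let π : V →ₗ[F] V := LinearMap.id - f ∘ₗ s0
  let ψ : V →ₗ[F] V := π ∘ₗ κ
  have hκ : ∀ v, g (κ v) = 0 := fun v => by simp [κ, ht]
  have hκ' : ∀ v, g v = 0 → κ v = v := fun v hv => by simp [κ, hv]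
  have hπ : ∀ v, π v = 0 ↔ v ∈ LinearMap.range f := by
    intro v
    constructor
    · intro h
      refine ⟨s0 v, ?_⟩
      have : v - f (s0 v) = 0 := h
      exact (sub_eq_zero.1 this).symm
    · rintro ⟨x, rfl⟩
      simp [π, hs0]
  have hr : finrank F (LinearMap.range ψ) = b := by
    have h1 : LinearMap.range ψ = (LinearMap.ker g).map π := by
      ext y
      constructor
      · rintro ⟨v, rfl⟩
        exact ⟨κ v, hκ v, rfl⟩
      · rintro ⟨v, hv, rfl⟩
        exact ⟨v, by simp only [ψ, LinearMap.comp_apply, hκ' v hv]⟩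
    have h2 : finrank F (LinearMap.range (π.domRestrict (LinearMap.ker g))) +
        finrank F (LinearMap.ker (π.domRestrict (LinearMap.ker g))) =
        finrank F (LinearMap.ker g) := LinearMap.finrank_range_add_finrank_ker _
    have h3 : LinearMap.range (π.domRestrict (LinearMap.ker g)) = (LinearMap.ker g).map π :=
      LinearMap.range_domRestrict _ _
    have h4 : finrank F (LinearMap.ker (π.domRestrict (LinearMap.ker g))) =
        finrank F (LinearMap.range f) := by
      have e : LinearMap.ker (π.domRestrict (LinearMap.ker g)) =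
          (LinearMap.range f).submoduleOf (LinearMap.ker g) := by
        ext y
        rw [LinearMap.mem_ker, LinearMap.domRestrict_apply, hπ]
        rfl
      rw [e]
      exact (Submodule.submoduleOfEquivOfLe (by
        rintro _ ⟨x, rfl⟩
        exact hgf x)).finrank_eq
    have h5 : finrank F (LinearMap.range g) + finrank F (LinearMap.ker g) = finrank F V :=
      LinearMap.finrank_range_add_finrank_ker _
    rw [h1, ← h3]
    omega
  let e : LinearMap.range ψ ≃ₗ[F] (Fin b → F) := LinearEquiv.ofFinrankEq _ _ (by simp [hr])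
  refine ⟨s0 ∘ₗ κ, t, (LinearMap.range ψ).subtype ∘ₗ e.symm.toLinearMap,
    e.toLinearMap ∘ₗ ψ.rangeRestrict, fun v => ?_⟩
  simp only [LinearMap.comp_apply, LinearEquiv.coe_coe, LinearEquiv.symm_apply_apply,
    Submodule.subtype_apply, LinearMap.codRestrict_apply, LinearMap.rangeRestrict]
  simp only [ψ, κ, π, LinearMap.comp_apply, LinearMap.sub_apply, LinearMap.id_apply, map_sub]
  abel

end

/-- matrix form -/
theorem msplit {F : Type*} [Field F] {X Y Z : Type*} [Fintype X] [Fintype Y] [Fintype Z]
    [DecidableEq X] [DecidableEq Y] [DecidableEq Z] (A : Matrix Y X F) (B : Matrix Z Y F)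
    (hBA : B * A = 0) (b : ℕ) (hb : b + A.rank + B.rank = Fintype.card Y) :
    ∃ (S : Matrix X Y F) (T : Matrix Y Z F) (U : Matrix Y (Fin b) F) (Φ : Matrix (Fin b) Y F),
      A * S + T * B + U * Φ = 1 := by
  obtain ⟨s, t, u, φ, h⟩ := split (Matrix.toLin' A) (Matrix.toLin' B) (fun x => by
    rw [← LinearMap.comp_apply, ← Matrix.toLin'_mul, hBA, map_zero, LinearMap.zero_apply]) b (by
      rw [Module.finrank_fintype_fun_eq_card]; exact hb)
  refine ⟨LinearMap.toMatrix' s, LinearMap.toMatrix' t, LinearMap.toMatrix' u,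
    LinearMap.toMatrix' φ, ?_⟩
  apply Matrix.toLin'.injective
  rw [map_add, map_add, Matrix.toLin'_mul, Matrix.toLin'_mul, Matrix.toLin'_mul,
    Matrix.toLin'_toMatrix', Matrix.toLin'_toMatrix', Matrix.toLin'_toMatrix',
    Matrix.toLin'_toMatrix', Matrix.toLin'_one]
  apply LinearMap.ext
  intro v
  exact (h v).symm

end Pool.Agent.E8helper2.ZB
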