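import Pool.Agent.Helper438.Sc.IUn
import Pool.Agent.Helper381.Sing

/-!
# Vanishing of the cohomology above the dimension: statements
-/

set_option autoImplicit false

namespace Pool.Agent.E8helper2.ZB

open Module

/-- finite unions of open boxes in `ℝ ^ m` have no cohomology in the degrees `n ≥ m`, `n ≥ 1` -/
def S_BOX : Prop := ∀ (k : Type) [Field k] (m q N : ℕ) (a b : Fin N → Fin m → ℝ), m ≤ q + 1 →
  Pool.Agent.Helper438.Sc.RV k
    (⋃ i, {x : Fin m → ℝ | ∀ j, a i j < x j ∧ x j < b i j} : Set (Fin m → ℝ)) (q + 1)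

/-- the cohomology of a closed topological manifold vanishes above the dimension -/
def S_VAN : Prop := ∀ (k : Type) [Field k] (E : Type) [NormedAddCommGroup E] [NormedSpace ℝ E]
  [FiniteDimensional ℝ E] (M : Type) [TopologicalSpace M] [ChartedSpace E M] [CompactSpace M]
  [T2Space M] [ConnectedSpace M] (n : ℕ), finrank ℝ E < n →
    Subsingleton (Pool.Agent.Helper381.SingularCohomology k M n)

end Pool.Agent.E8helper2.ZB
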