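import Pool.Agent.E8helper2.ZB.Core

/-!
# Weights: elementary abelian groups with a cyclic group of automorphisms acting on complexes
-/

set_option autoImplicit false

namespace Pool.Agent.E8helper2.ZB

open Module

section contra

variable {p k : ℕ} {X : ℕ → Type} [∀ q, Fintype (X q)] [∀ q, DecidableEq (X q)]
  [∀ q, MulAction (GG p k) (X q)] [Fact p.Prime]

/-- a total cycle with nonzero augmentation -/
theorem contra_of (hEX : S_EX) (K : Type) [Field K] [Algebra (ZMod p) K] (ξ : Fin k → K)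
    (bd : ∀ q, Matrix (X q) (X (q + 1)) (ZMod p)) (hbd : ∀ q, bd q * bd (q + 1) = 0)
    (hequi : ∀ q (g : GG p k) τ σ, bd q (g • τ) (g • σ) = bd q τ σ)
    (h0 : ∀ x y : X 0, x = y) (N : ℕ)
    (hN : ∀ q, N ≤ q → IsEmpty (X (q + 1))) (L : ∀ q, X (q + 1) → K)
    (hL : ∀ q, ex K (bd (q + 1)) (L (q + 1)) = th p (X (q + 1)) ξ q (L q))
    (hne : ex K (bd 0) (L 0) ≠ 0) :
    ∃ q, ∃ σ : X (q + 1), ∀ χ : Fin k → ZMod p,
      (∀ g : GG p k, g • σ = σ → ∑ i, χ i * g.toAdd i = 0) →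
        ∑ i, algebraMap (ZMod p) K (χ i) * ξ i = 0 := by
  by_contra hcon
  push Not at hcon
  have hex : ∀ q, (∀ f : X (q + 1) → K, eta p (X (q + 1)) ξ f = 0 →
      ∃ g, ((eta p (X (q + 1)) ξ) ^ (p - 1)) g = f) ∧
      (∀ f : X (q + 1) → K, ((eta p (X (q + 1)) ξ) ^ (p - 1)) f = 0 →
        ∃ g, eta p (X (q + 1)) ξ g = f) := fun q =>
    hEX p k K (X (q + 1)) ξ (fun σ => by
      obtain ⟨χ, h1, h2⟩ := hcon q σ
      exact ⟨χ, h1, h2⟩)
  have hker : ∀ q j (f : X (q + 1) → K), th p (X (q + 1)) ξ j f = 0 →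
      ∃ g, th p (X (q + 1)) ξ (j + 1) g = f := by
    intro q j f hf
    unfold th at hf ⊢
    by_cases hj : Even j
    · rw [if_pos hj] at hf
      rw [if_neg (by rw [Nat.even_add_one]; exact fun h => h hj)]
      exact (hex q).1 f hf
    · rw [if_neg hj] at hf
      rw [if_pos (by rw [Nat.even_add_one]; exact hj)]
      exact (hex q).2 f hf
  have hbb : ∀ q (f : X (q + 2) → K), ex K (bd q) (ex K (bd (q + 1)) f) = 0 := by
    intro q f
    rw [← ex_mul, hbd, ex_zero]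
  -- descent
  have hdesc : ∀ j q, N ≤ q + j → ∃ (μ : X (q + 1) → K) (ν : X (q + 2) → K),
      L q = th p (X (q + 1)) ξ (q + 1) μ + ex K (bd (q + 1)) ν := by
    intro j
    induction j with
    | zero =>
      intro q hq
      have := hN q (by omega)
      exact ⟨0, 0, funext fun x => isEmptyElim x⟩
    | succ j ih =>
      intro q hq
      obtain ⟨μ, ν, h⟩ := ih (q + 1) (by omega)
      have h1 := hL q
      have e : th p (X (q + 1)) ξ (q + 1 + 1) = th p (X (q + 1)) ξ q := th_add_two ξ q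
      rw [h, map_add, hbb (q + 1), add_zero, th_comm ξ (bd (q + 1)) (hequi (q + 1)), e] at h1
      have h2 : th p (X (q + 1)) ξ q (L q - ex K (bd (q + 1)) μ) = 0 := by
        rw [map_sub, h1, sub_self]
      obtain ⟨μ', h3⟩ := hker q q _ h2
      exact ⟨μ', μ, by rw [h3]; abel⟩
  obtain ⟨μ, ν, h⟩ := hdesc N 0 (by omega)
  apply hne
  rw [h, map_add, hbb 0, add_zero, th_comm ξ (bd 0) (hequi 0),
    th_zero_of_eta ξ (eta_triv ξ h0)]
  rfl

end contra

/-- the weights -/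
def wt (p q : ℕ) : ℕ := p * (q / 2) + q % 2

theorem wt_succ {p : ℕ} (hp : 1 ≤ p) (q : ℕ) :
    wt p (q + 1) = wt p q + (if Even q then 1 else p - 1) := by
  unfold wt
  rcases Nat.even_or_odd q with ⟨m, rfl⟩ | ⟨m, rfl⟩
  · rw [if_pos ⟨m, rfl⟩]
    have e1 : (m + m + 1) / 2 = m := by omega
    have e2 : (m + m) / 2 = m := by omega
    have e3 : (m + m + 1) % 2 = 1 := by omega
    have e4 : (m + m) % 2 = 0 := by omega
    rw [e1, e2, e3, e4]
  · rw [if_neg (by rw [Nat.not_even_iff_odd]; exact ⟨m, rfl⟩)]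
    have e1 : (2 * m + 1 + 1) / 2 = m + 1 := by omega
    have e2 : (2 * m + 1) / 2 = m := by omega
    have e3 : (2 * m + 1 + 1) % 2 = 0 := by omega
    have e4 : (2 * m + 1) % 2 = 1 := by omega
    rw [e1, e2, e3, e4, mul_add, mul_one]
    omega

section weights

variable {p k : ℕ} [Fact p.Prime] {K : Type} [Field K] [Algebra (ZMod p) K]

/-- pull-back of functions -/
def pb (K : Type) [Field K] {X : Type} (s : X → X) : (X → K) →ₗ[K] (X → K) := LinearMap.funLeft K K s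

theorem pb_apply {X : Type} (s : X → X) (f : X → K) (x : X) : pb K s f x = f (s x) := rfl

theorem pb_pow {X : Type} (s : X → X) (f : X → K) (n : ℕ) : (pb K s ^ n) f = pb K (s^[n]) f := by
  induction n generalizing f with
  | zero => rfl
  | succ n ih =>
    rw [pow_succ, Module.End.mul_apply, ih]
    funext x
    rw [pb_apply, pb_apply, pb_apply, Function.iterate_succ_apply']

theorem pb_eta {X : Type} [MulAction (GG p k) X] (s : X → X) (π : Equiv.Perm (Fin k))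
    (hπ : ∀ i x, gen p k i • s x = s (gen p k (π i) • x)) (ξ : Fin k → K) (ζ : K)
    (hξ : ∀ i, ξ i = ζ * ξ (π i)) (f : X → K) :
    pb K s (eta p X ξ f) = ζ • eta p X ξ (pb K s f) := by
  funext x
  rw [pb_apply, eta_apply, Pi.smul_apply, eta_apply, smul_eq_mul, Finset.mul_sum,
    ← Equiv.sum_comp π (fun i => ζ * (ξ i * (pb K s f (gen p k i • x) - pb K s f x)))]
  refine Finset.sum_congr rfl fun i _ => ?_
  rw [hπ, hξ i, pb_apply, pb_apply]
  ring

theorem pb_eta_pow {X : Type} [MulAction (GG p k) X] (s : X → X) (π : Equiv.Perm (Fin k))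
    (hπ : ∀ i x, gen p k i • s x = s (gen p k (π i) • x)) (ξ : Fin k → K) (ζ : K)
    (hξ : ∀ i, ξ i = ζ * ξ (π i)) (n : ℕ) (f : X → K) :
    pb K s (((eta p X ξ) ^ n) f) = ζ ^ n • ((eta p X ξ) ^ n) (pb K s f) := by
  induction n generalizing f with
  | zero => rw [pow_zero, pow_zero, one_smul]; rfl
  | succ n ih =>
    rw [pow_succ, pow_succ ζ, Module.End.mul_apply, Module.End.mul_apply, ih,
      pb_eta s π hπ ξ ζ hξ, map_smul, smul_smul]

theorem pb_th {X : Type} [MulAction (GG p k) X] (s : X → X) (π : Equiv.Perm (Fin k))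
    (hπ : ∀ i x, gen p k i • s x = s (gen p k (π i) • x)) (ξ : Fin k → K) (ζ : K)
    (hξ : ∀ i, ξ i = ζ * ξ (π i)) (q : ℕ) (f : X → K) :
    pb K s (th p X ξ q f) = ζ ^ (if Even q then 1 else p - 1) • th p X ξ q (pb K s f) := by
  unfold th
  split_ifs
  · rw [pow_one]
    exact pb_eta s π hπ ξ ζ hξ f
  · exact pb_eta_pow s π hπ ξ ζ hξ (p - 1) f

theorem pb_ex {X Y : Type} [Fintype X] (s : X ≃ X) (t : Y → Y)
    (A : Matrix Y X (ZMod p)) (hA : ∀ y x, A (t y) (s x) = A y x) (f : X → K) :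
    pb K t (ex K A f) = ex K A (pb K s f) := by
  funext y
  rw [pb_apply, ex_apply, ex_apply, ← Equiv.sum_comp s]
  refine Finset.sum_congr rfl fun x _ => ?_
  rw [hA, pb_apply]

/-- the projection to an eigenspace -/
noncomputable def Pr {X : Type} (s : X → X) (ℓ : ℕ) (μ : K) : (X → K) →ₗ[K] (X → K) :=
  (ℓ : K)⁻¹ • ∑ i ∈ Finset.range ℓ, (μ⁻¹ ^ i) • (pb K s) ^ i

theorem Pr_eig {X : Type} (s : X → X) {ℓ : ℕ} (hs : ∀ x, s^[ℓ] x = x) {μ : K} (hμ : μ ^ ℓ = 1)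
    (hℓ : (ℓ : K) ≠ 0) (f : X → K) : pb K s (Pr s ℓ μ f) = μ • Pr s ℓ μ f := by
  have hμ0 : μ ≠ 0 := by
    rintro rfl
    have : ℓ ≠ 0 := by rintro rfl; exact hℓ Nat.cast_zero
    rw [zero_pow this] at hμ
    exact zero_ne_one hμ
  unfold Pr
  rw [LinearMap.smul_apply, map_smul, smul_comm μ, LinearMap.sum_apply, map_sum, Finset.smul_sum]
  congr 1
  have h1 : ∀ i, pb K s ((μ⁻¹ ^ i • (pb K s) ^ i) f) =
      μ • (μ⁻¹ ^ (i + 1) • ((pb K s) ^ (i + 1)) f) := by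
    intro i
    rw [LinearMap.smul_apply, map_smul, smul_smul, pow_succ' μ⁻¹ i, ← mul_assoc,
      mul_inv_cancel₀ hμ0, one_mul, pow_succ' (pb K s) i]
    rfl
  simp only [h1]
  rw [← Finset.smul_sum, ← Finset.smul_sum]
  refine congrArg (fun y : X → K => (ℓ : K)⁻¹ • μ • y) ?_
  have h2 : (μ⁻¹ ^ ℓ • ((pb K s) ^ ℓ) f) = (μ⁻¹ ^ 0 • ((pb K s) ^ 0) f) := by
    rw [inv_pow, hμ, inv_one, pow_zero, pb_pow]
    congr 1
    funext x
    rw [pb_apply, hs]
    rfl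
  have h3 := Finset.sum_range_succ (fun i => μ⁻¹ ^ i • ((pb K s) ^ i) f) ℓ
  have h4 := Finset.sum_range_succ' (fun i => μ⁻¹ ^ i • ((pb K s) ^ i) f) ℓ
  rw [h4, h2] at h3
  exact add_right_cancel h3

theorem Pr_of_eig {X : Type} (s : X → X) {ℓ : ℕ} {μ : K} (hμ : μ ^ ℓ = 1)
    (hℓ : (ℓ : K) ≠ 0) (f : X → K) (hf : pb K s f = μ • f) : Pr s ℓ μ f = f := by
  have hμ0 : μ ≠ 0 := by
    rintro rfl
    have : ℓ ≠ 0 := by rintro rfl; exact hℓ Nat.cast_zero
    rw [zero_pow this] at hμ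
    exact zero_ne_one hμ
  have h1 : ∀ i, ((pb K s) ^ i) f = μ ^ i • f := by
    intro i
    induction i with
    | zero => rw [pow_zero, pow_zero, one_smul]; rfl
    | succ i ih =>
      rw [pow_succ, Module.End.mul_apply, hf, map_smul, ih, smul_smul, pow_succ', ]
  unfold Pr
  rw [LinearMap.smul_apply, LinearMap.sum_apply]
  have h2 : ∀ i ∈ Finset.range ℓ, (μ⁻¹ ^ i • (pb K s) ^ i) f = f := by
    intro i _
    rw [LinearMap.smul_apply, h1, smul_smul, ← mul_pow, inv_mul_cancel₀ hμ0, one_pow, one_smul]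
  rw [Finset.sum_congr rfl h2, Finset.sum_const, Finset.card_range, ← Nat.cast_smul_eq_nsmul K,
    smul_smul, inv_mul_cancel₀ hℓ, one_smul]

theorem Pr_ex {X Y : Type} [Fintype X] (s : X ≃ X) (t : Y → Y)
    (A : Matrix Y X (ZMod p)) (hA : ∀ y x, A (t y) (s x) = A y x) (ℓ : ℕ) (μ : K) (f : X → K) :
    ex K A (Pr s ℓ μ f) = Pr t ℓ μ (ex K A f) := by
  have h1 : ∀ (i : ℕ) (f : X → K), ex K A (((pb K s) ^ i) f) = ((pb K t) ^ i) (ex K A f) := by
    intro i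
    induction i with
    | zero => intro f; rfl
    | succ i ih =>
      intro f
      rw [pow_succ, pow_succ, Module.End.mul_apply, Module.End.mul_apply, ih, pb_ex s t A hA]
  unfold Pr
  simp only [LinearMap.smul_apply, LinearMap.sum_apply, map_smul, map_sum, h1]

end weights

section main

variable {p k : ℕ} {X : ℕ → Type} [∀ q, Fintype (X q)] [∀ q, DecidableEq (X q)]
  [∀ q, MulAction (GG p k) (X q)] [Fact p.Prime]

/-- **Weights.** -/
theorem coreW (hEX : S_EX) (K : Type) [Field K] [Algebra (ZMod p) K] (ξ : Fin k → K)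
    (bd : ∀ q, Matrix (X q) (X (q + 1)) (ZMod p)) (hbd : ∀ q, bd q * bd (q + 1) = 0)
    (hequi : ∀ q (g : GG p k) τ σ, bd q (g • τ) (g • σ) = bd q τ σ) (x0 : X 0)
    (h0 : ∀ x y : X 0, x = y) (v : X 1) (hv : ∀ v, bd 0 x0 v = 1) (N : ℕ)
    (hN : ∀ q, N ≤ q → IsEmpty (X (q + 1))) (s : ∀ q, X q ≃ X q) {ℓ : ℕ}
    (hs : ∀ q x, (s q)^[ℓ] x = x) (hsbd : ∀ q τ σ, bd q (s q τ) (s (q + 1) σ) = bd q τ σ)
    (π : Equiv.Perm (Fin k)) (hπ : ∀ q i x, gen p k i • s q x = s q (gen p k (π i) • x))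
    (ζ : K) (hζ : ζ ^ ℓ = 1) (hℓ : (ℓ : K) ≠ 0) (hξ : ∀ i, ξ i = ζ * ξ (π i))
    (hE : ∀ q (y : X (q + 1) → K), ex K (bd q) y = 0 →
      pb K (s (q + 1)) y = ζ ^ wt p (q + 1) • y → ∃ z, ex K (bd (q + 1)) z = y) :
    ∃ q, ∃ σ : X (q + 1), ∀ χ : Fin k → ZMod p,
      (∀ g : GG p k, g • σ = σ → ∑ i, χ i * g.toAdd i = 0) →
        ∑ i, algebraMap (ZMod p) K (χ i) * ξ i = 0 := by
  classical
  have hp : 1 ≤ p := (Fact.out : p.Prime).one_lt.le
  have hζw : ∀ w, (ζ ^ w) ^ ℓ = 1 := by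
    intro w
    rw [← pow_mul, mul_comm, pow_mul, hζ, one_pow]
  -- one step
  have step : ∀ q (a : X (q + 1) → K), pb K (s (q + 1)) a = ζ ^ wt p q • a →
      ex K (bd q) (th p (X (q + 1)) ξ q a) = 0 →
      ∃ b : X (q + 2) → K, pb K (s (q + 2)) b = ζ ^ wt p (q + 1) • b ∧
        ex K (bd (q + 1)) b = th p (X (q + 1)) ξ q a := by
    intro q a ha hcyc
    have hy : pb K (s (q + 1)) (th p (X (q + 1)) ξ q a) =
        ζ ^ wt p (q + 1) • th p (X (q + 1)) ξ q a := by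
      rw [pb_th (s (q + 1)) π (hπ (q + 1)) ξ ζ hξ, ha, map_smul, smul_smul, ← pow_add,
        wt_succ hp, add_comm (wt p q)]
    obtain ⟨z, hz⟩ := hE q _ hcyc hy
    refine ⟨Pr (s (q + 2)) ℓ (ζ ^ wt p (q + 1)) z,
      Pr_eig (s (q + 2)) (hs (q + 2)) (hζw _) hℓ z, ?_⟩
    rw [Pr_ex (s (q + 2)) (s (q + 1)) (bd (q + 1)) (fun y x => hsbd (q + 1) y x), hz]
    exact Pr_of_eig _ (hζw _) hℓ _ hy
  -- the sequence
  have hcyc0 : ∀ a : X 1 → K, ex K (bd 0) (th p (X 1) ξ 0 a) = 0 := by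
    intro a
    rw [th_comm ξ (bd 0) (hequi 0), th_zero_of_eta ξ (eta_triv ξ h0)]
    rfl
  have hex : ∃ L : ∀ q, X (q + 1) → K, L 0 = Pr (s 1) ℓ 1 (Pi.single v 1) ∧
      ∀ q, ex K (bd (q + 1)) (L (q + 1)) = th p (X (q + 1)) ξ q (L q) := by
    let St : ℕ → Type := fun q => {a : X (q + 1) → K // pb K (s (q + 1)) a = ζ ^ wt p q • a ∧
      ex K (bd q) (th p (X (q + 1)) ξ q a) = 0}
    have hst : ∀ q (a : St q), ∃ b : St (q + 1), ex K (bd (q + 1)) b.1 =
        th p (X (q + 1)) ξ q a.1 := by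
      intro q a
      obtain ⟨b, hb, hb'⟩ := step q a.1 a.2.1 a.2.2
      refine ⟨⟨b, hb, ?_⟩, hb'⟩
      rw [th_comm ξ (bd (q + 1)) (hequi (q + 1)), hb', th_th]
    choose nx hnx using hst
    have a0 : St 0 := ⟨Pr (s 1) ℓ 1 (Pi.single v 1), by
      have h1 : wt p 0 = 0 := rfl
      rw [h1, pow_zero]
      exact Pr_eig (s 1) (hs 1) (one_pow _) hℓ _, hcyc0 _⟩
    let a0 : St 0 := ⟨Pr (s 1) ℓ 1 (Pi.single v 1), by
      have h1 : wt p 0 = 0 := rfl
      rw [h1, pow_zero]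
      exact Pr_eig (s 1) (hs 1) (one_pow _) hℓ _, hcyc0 _⟩
    let L : ∀ q, St q := fun q => Nat.rec a0 (fun q a => nx q a) q
    exact ⟨fun q => (L q).1, rfl, fun q => hnx q (L q)⟩
  obtain ⟨L, hL0, hL⟩ := hex
  refine contra_of hEX K ξ bd hbd hequi h0 N hN L hL ?_
  rw [hL0, Pr_ex (s 1) (s 0) (bd 0) (fun y x => hsbd 0 y x)]
  have h1 : pb K (s 0) (ex K (bd 0) (Pi.single v 1)) = (1 : K) • ex K (bd 0) (Pi.single v 1) := by
    funext y
    rw [pb_apply, one_smul, h0 (s 0 y) y]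
  rw [Pr_of_eig (s 0) (one_pow _) hℓ _ h1]
  intro h
  have h2 : ex K (bd 0) (Pi.single v 1) x0 = 1 := by
    rw [ex_apply, Finset.sum_eq_single v]
    · rw [hv, map_one, one_mul]
      simp
    · intro x _ hx
      rw [Pi.single_eq_of_ne hx, mul_zero]
    · intro h
      exact absurd (Finset.mem_univ _) h
  rw [h] at h2
  exact zero_ne_one h2

end main

end Pool.Agent.E8helper2.ZB
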